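import Pool.Agent.CycSp.Targets

/-!
# Cycle sets of sparse graphs: the final count
-/

set_option autoImplicit false

namespace Pool.Agent.CycSp

open Finset
open Pool.Agent.HubG (cycleSet CycSeq cycleSet_bounds exists_cycSeq)

theorem fin_small (M : ℕ) : {A : Set ℕ | ∀ l ∈ A, l ≤ M}.Finite ∧
    {A : Set ℕ | ∀ l ∈ A, l ≤ M}.ncard = 2 ^ (M + 1) := by
  have h1 : {A : Set ℕ | ∀ l ∈ A, l ≤ M} = 𝒫 ((range (M + 1) : Finset ℕ) : Set ℕ) := by
    ext A
    simp only [Set.mem_ofPred_eq, Set.mem_powerset_iff, Set.subset_def, Finset.coe_range,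
      Set.mem_Iio]
    exact ⟨fun h l hl => Nat.lt_succ_of_le (h l hl), fun h l hl => Nat.le_of_lt_succ (h l hl)⟩
  rw [h1]
  refine ⟨(Finset.finite_toSet _).powerset, ?_⟩
  rw [Set.ncard_powerset _ (Finset.finite_toSet _), Set.ncard_coe_finset, card_range]

theorem sparseP_of_sparse {n : ℕ} (d : ℝ) (r : ℕ) (hd : d ≤ r) (G : SimpleGraph (Fin n))
    (h : Sparse d G) : SparseP r G := by
  classical
  intro S
  have h1 := h S
  have h2 : ((S ×ˢ S).filter (fun p => G.Adj p.1 p.2)).card ≤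
      2 * (((S ×ˢ S).filter (fun p => G.Adj p.1 p.2)).image
        (fun p : Fin n × Fin n => s(p.1, p.2))).card := by
    apply Finset.card_le_mul_card_image
    intro e he
    rw [mem_image] at he
    obtain ⟨q, _, rfl⟩ := he
    have h3 : (((S ×ˢ S).filter (fun p => G.Adj p.1 p.2)).filter
        (fun p : Fin n × Fin n => s(p.1, p.2) = s(q.1, q.2))) ⊆
        {(q.1, q.2), (q.2, q.1)} := by
      intro p hp
      rw [mem_filter] at hp
      have h4 := hp.2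
      rw [Sym2.eq_iff] at h4
      rw [mem_insert, mem_singleton]
      rcases h4 with ⟨h5, h6⟩ | ⟨h5, h6⟩
      · left
        exact Prod.ext h5 h6
      · right
        exact Prod.ext h5 h6
    exact (card_le_card h3).trans (card_le_two)
  have h3 : (((S ×ˢ S).filter (fun p => G.Adj p.1 p.2)).image
        (fun p : Fin n × Fin n => s(p.1, p.2))).card ≤
      {e | e ∈ G.edgeSet ∧ ∀ v ∈ e, v ∈ S}.ncard := by
    rw [← Set.ncard_coe_finset]
    apply Set.ncard_le_ncard _ (Set.toFinite _)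
    intro e he
    rw [Finset.mem_coe, mem_image] at he
    obtain ⟨q, hq, rfl⟩ := he
    rw [mem_filter, mem_product] at hq
    refine ⟨hq.2, ?_⟩
    intro v hv
    rw [Sym2.mem_iff] at hv
    rcases hv with rfl | rfl
    · exact hq.1.1
    · exact hq.1.2
  have h4 : (({e | e ∈ G.edgeSet ∧ ∀ v ∈ e, v ∈ S}.ncard : ℕ) : ℝ) ≤ ((r * S.card : ℕ) : ℝ) := by
    push_cast
    exact h1.trans (mul_le_mul_of_nonneg_right hd (Nat.cast_nonneg _))
  have h5 := Nat.cast_le.1 h4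
  have h6 : ((S ×ˢ S).filter (fun p => G.Adj p.1 p.2)).card ≤ 2 * (r * S.card) :=
    h2.trans (Nat.mul_le_mul_left 2 (h3.trans h5))
  calc ((S ×ˢ S).filter (fun p => G.Adj p.1 p.2)).card ≤ 2 * (r * S.card) := by convert h6
    _ = 2 * r * S.card := by ring

theorem fin_core (h1 : T_COUNT) (h2 : T_CHEAP) (n r : ℕ)
    (h3 : ∀ (G : SimpleGraph (Fin n)) (L : ℕ) (W : ℕ → Fin n), SparseP r G → CycSeq G L W →
      (n - L) * r ^ 10 ≤ n → n ≤ r * (offE G L W).card →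
      ∃ (c v : ℤ → Fin n) (P : Finset Pt) (lam : ℕ), Cyc G L c v P lam ∧ n ≤ r ^ 6 * P.card)
    (h4 : ∀ (s : ℕ) (V : Type) (Gr : SimpleGraph V) (L : ℕ)
      (c v : ℤ → V) (P : Finset Pt) (lam : ℕ), 1 ≤ s → s ≤ r → L ≤ n → n ≤ r ^ 6 * P.card →
      Cyc Gr L c v P lam → ∃ b : ℕ, n ≤ r ^ 70 * b ∧ ZD Gr s b)
    (hk : 100 * (Nat.log 2 n + 1) ≤ r) (h60 : r ^ 100 ≤ n) :
    {A : Set ℕ | ∃ G : SimpleGraph (Fin n), SparseP r G ∧ A = cycleSet G}.ncard ≤
      3 * 2 ^ (n - n / r ^ 72) := by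
  classical
  -- the numbers
  have hr : 100 ≤ r := by omega
  have hr0 : 0 < r := by omega
  obtain ⟨k, hkdef⟩ : ∃ k, k = Nat.log 2 n + 1 := ⟨_, rfl⟩
  have hn100 : 100 ≤ n := by
    calc 100 ≤ r := hr
      _ = r ^ 1 := (pow_one r).symm
      _ ≤ r ^ 100 := Nat.pow_le_pow_right hr0 (by norm_num)
      _ ≤ n := h60
  have hnk : n + 1 ≤ 2 ^ k := by
    rw [hkdef]
    exact Nat.lt_pow_succ_log_self (by norm_num) n
  have hk2 : 2 ≤ k := by
    rw [hkdef]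
    have : 1 ≤ Nat.log 2 n := by
      apply Nat.log_pos (by norm_num)
      omega
    omega
  rw [← hkdef] at hk
  obtain ⟨z0, hz0⟩ : ∃ z0, z0 = n / r ^ 72 := ⟨_, rfl⟩
  rw [← hz0]
  have hz1 : z0 * r ^ 72 ≤ n := by
    rw [hz0]
    exact Nat.div_mul_le_self _ _
  have hz2 : r ^ 28 ≤ z0 := by
    rw [hz0, Nat.le_div_iff_mul_le (by positivity), ← pow_add]
    exact h60
  -- z0 is small
  have hz3 : 100 * z0 ≤ n := by
    calc 100 * z0 ≤ r * z0 := Nat.mul_le_mul_right _ hr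
      _ = z0 * r ^ 1 := by ring
      _ ≤ z0 * r ^ 72 := Nat.mul_le_mul_left _ (Nat.pow_le_pow_right hr0 (by norm_num))
      _ ≤ n := hz1
  have hrn : 100 * r ≤ n := by
    calc 100 * r ≤ r * r := Nat.mul_le_mul_right _ hr
      _ = r ^ 2 := by ring
      _ ≤ r ^ 100 := Nat.pow_le_pow_right hr0 (by norm_num)
      _ ≤ n := h60
  -- the three classes
  have hC1 := fin_small (n - n / r ^ 10 - 1)
  have hsub : {A : Set ℕ | ∃ G : SimpleGraph (Fin n), SparseP r G ∧ A = cycleSet G} ⊆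
      ({A : Set ℕ | ∀ l ∈ A, l ≤ n - n / r ^ 10 - 1} ∪
      {A : Set ℕ | ∃ (G : SimpleGraph (Fin n)) (L : ℕ) (W : ℕ → Fin n), CycSeq G L W ∧
        (offE G L W).card ≤ n / r ∧ A = cycleSet G}) ∪
      {A : Set ℕ | (∀ l ∈ A, l ≤ n) ∧ ∃ Z D : Finset ℤ, D.card = 2 * k ∧
        (2 * k) ^ 2 * z0 ≤ Z.card ∧ ∀ z ∈ Z, ∀ d ∈ D, ∃ N ∈ A, (N : ℤ) = z - d} := by
    rintro A ⟨G, hG, rfl⟩
    by_cases hA : (cycleSet G).Nonempty
    · have hbdd : BddAbove (cycleSet G) := ⟨n, fun l hl => (cycleSet_bounds G l hl).2⟩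
      have hL := Nat.sSup_mem hA hbdd
      have hmax : ∀ l ∈ cycleSet G, l ≤ sSup (cycleSet G) := fun l hl => le_csSup hbdd hl
      generalize sSup (cycleSet G) = L at hL hmax
      have hLn := (cycleSet_bounds G L hL).2
      obtain ⟨W, hW⟩ := exists_cycSeq G L hL
      by_cases c1 : (n - L) * r ^ 10 ≤ n
      · by_cases c2 : n ≤ r * (offE G L W).card
        · right
          obtain ⟨c, v, P, lam, hcyc, hP⟩ := h3 G L W hG hW c1 c2
          obtain ⟨b, hb, Z, D, hD, hZ, hZD⟩ := h4 (2 * k) (Fin n) G L c v P lam (by omega)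
            (by omega) hLn hP hcyc
          refine ⟨fun l hl => (cycleSet_bounds G l hl).2, Z, D, hD, ?_, hZD⟩
          refine le_trans ?_ hZ
          have hb1 : r ^ 70 * (r ^ 2 * z0) ≤ r ^ 70 * b := by
            calc r ^ 70 * (r ^ 2 * z0) = z0 * r ^ 72 := by ring
              _ ≤ n := hz1
              _ ≤ r ^ 70 * b := hb
          have hb2 := Nat.le_of_mul_le_mul_left hb1 (by positivity)
          calc (2 * k) ^ 2 * z0 ≤ r ^ 2 * z0 :=
                Nat.mul_le_mul_right _ (Nat.pow_le_pow_left (by omega) 2)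
            _ ≤ b := hb2
        · left
          right
          refine ⟨G, L, W, hW, ?_, rfl⟩
          rw [Nat.le_div_iff_mul_le hr0]
          push Not at c2
          rw [mul_comm]
          exact c2.le
      · left
        left
        intro l hl
        refine (hmax l hl).trans ?_
        push Not at c1
        have : n / r ^ 10 < n - L := by
          rw [Nat.div_lt_iff_lt_mul (by positivity)]
          exact c1
        omega
    · left
      left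
      intro l hl
      exact absurd ⟨l, hl⟩ hA
  have hfin2 : {A : Set ℕ | ∃ (G : SimpleGraph (Fin n)) (L : ℕ) (W : ℕ → Fin n), CycSeq G L W ∧
        (offE G L W).card ≤ n / r ∧ A = cycleSet G}.Finite := by
    apply (fin_small n).1.subset
    rintro A ⟨G, _, _, _, _, rfl⟩ l hl
    exact (cycleSet_bounds G l hl).2
  have hfin3 : {A : Set ℕ | (∀ l ∈ A, l ≤ n) ∧ ∃ Z D : Finset ℤ, D.card = 2 * k ∧
        (2 * k) ^ 2 * z0 ≤ Z.card ∧ ∀ z ∈ Z, ∀ d ∈ D, ∃ N ∈ A, (N : ℤ) = z - d}.Finite :=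
    (fin_small n).1.subset (fun A hA => hA.1)
  have hb1 : {A : Set ℕ | ∀ l ∈ A, l ≤ n - n / r ^ 10 - 1}.ncard ≤ 2 ^ (n - z0) := by
    rw [hC1.2]
    apply Nat.pow_le_pow_right (by norm_num)
    have e1 : z0 ≤ n / r ^ 10 := by
      rw [hz0]
      exact Nat.div_le_div_left (Nat.pow_le_pow_right hr0 (by norm_num)) (by positivity)
    have e2 : n / r ^ 10 ≤ n / r := by
      apply Nat.div_le_div_left _ hr0
      calc r = r ^ 1 := (pow_one r).symm
        _ ≤ r ^ 10 := Nat.pow_le_pow_right hr0 (by norm_num)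
    have e3 : n / r < n := Nat.div_lt_self (by omega) (by omega)
    omega
  have hdiv : n / r * 100 ≤ n := by
    calc n / r * 100 ≤ n / r * r := Nat.mul_le_mul_left _ hr
      _ ≤ n := Nat.div_mul_le_self _ _
  have hdivk : 100 * (k * (n / r)) ≤ n := by
    calc 100 * (k * (n / r)) = (100 * k) * (n / r) := by ring
      _ ≤ r * (n / r) := Nat.mul_le_mul_right _ hk
      _ ≤ n := Nat.mul_div_le _ _
  have hb2 : {A : Set ℕ | ∃ (G : SimpleGraph (Fin n)) (L : ℕ) (W : ℕ → Fin n), CycSeq G L W ∧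
        (offE G L W).card ≤ n / r ∧ A = cycleSet G}.ncard ≤ 2 ^ (n - z0) := by
    refine (h2 n (n / r)).trans ?_
    have e1 : n ^ 2 + 1 ≤ 2 ^ (2 * k) := by
      calc n ^ 2 + 1 ≤ (n + 1) ^ 2 := by nlinarith
        _ ≤ (2 ^ k) ^ 2 := Nat.pow_le_pow_left hnk 2
        _ = 2 ^ (2 * k) := by rw [← pow_mul, mul_comm]
    calc (n + 1) * (n ^ 2 + 1) ^ (n / r) ≤ 2 ^ k * (2 ^ (2 * k)) ^ (n / r) :=
          Nat.mul_le_mul hnk (Nat.pow_le_pow_left e1 _)
      _ = 2 ^ (k + 2 * (k * (n / r))) := by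
          rw [← pow_mul, ← pow_add]
          congr 1
          ring
      _ ≤ 2 ^ (n - z0) := by
          apply Nat.pow_le_pow_right (by norm_num)
          omega
  have hb3 : {A : Set ℕ | (∀ l ∈ A, l ≤ n) ∧ ∃ Z D : Finset ℤ, D.card = 2 * k ∧
        (2 * k) ^ 2 * z0 ≤ Z.card ∧ ∀ z ∈ Z, ∀ d ∈ D, ∃ N ∈ A, (N : ℤ) = z - d}.ncard ≤
        2 ^ (n - z0) := by
    refine (h1 n (2 * k) z0).trans ?_
    have e0 : k * z0 * 100 ≤ n := by
      calc k * z0 * 100 = (100 * k) * z0 := by ring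
        _ ≤ r * z0 := Nat.mul_le_mul_right _ hk
        _ = z0 * r ^ 1 := by ring
        _ ≤ z0 * r ^ 72 := Nat.mul_le_mul_left _ (Nat.pow_le_pow_right hr0 (by norm_num))
        _ ≤ n := hz1
    have e1 : 2 * (k * k) + 1 ≤ z0 := by
      calc 2 * (k * k) + 1 ≤ r ^ 2 := by nlinarith
        _ ≤ r ^ 28 := Nat.pow_le_pow_right hr0 (by norm_num)
        _ ≤ z0 := hz2
    have e2 : 2 * z0 ≤ k * z0 := Nat.mul_le_mul_right _ hk2
    calc (n + 1) ^ (2 * k + z0) * 2 ^ (n + 1 - 2 * k * z0)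
        ≤ (2 ^ k) ^ (2 * k + z0) * 2 ^ (n + 1 - 2 * k * z0) :=
          Nat.mul_le_mul_right _ (Nat.pow_le_pow_left hnk _)
      _ = 2 ^ ((2 * (k * k) + k * z0) + (n + 1 - 2 * (k * z0))) := by
          rw [← pow_mul, ← pow_add, mul_assoc 2 k z0]
          congr 2
          ring
      _ ≤ 2 ^ (n - z0) := by
          apply Nat.pow_le_pow_right (by norm_num)
          omega
  calc {A : Set ℕ | ∃ G : SimpleGraph (Fin n), SparseP r G ∧ A = cycleSet G}.ncard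
      ≤ _ := Set.ncard_le_ncard hsub ((hC1.1.union hfin2).union hfin3)
    _ ≤ _ := Set.ncard_union_le _ _
    _ ≤ _ := Nat.add_le_add_right (Set.ncard_union_le _ _) _
    _ ≤ 2 ^ (n - z0) + 2 ^ (n - z0) + 2 ^ (n - z0) := by
        exact Nat.add_le_add (Nat.add_le_add hb1 hb2) hb3
    _ = 3 * 2 ^ (n - z0) := by ring

theorem fin_triv (d : ℝ) (n : ℕ) : numCycleSets d n ≤ 2 ^ (n - 2) := by
  have h1 : {A : Set ℕ | ∃ G : SimpleGraph (Fin n), Sparse d G ∧ A = cycleSet G} ⊆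
      𝒫 ((Finset.Icc 3 n : Finset ℕ) : Set ℕ) := by
    rintro A ⟨G, _, rfl⟩ l hl
    have := cycleSet_bounds G l hl
    rw [Finset.mem_coe, Finset.mem_Icc]
    exact this
  calc numCycleSets d n ≤ _ := Set.ncard_le_ncard h1 (Finset.finite_toSet _).powerset
    _ = 2 ^ (n - 2) := by
      rw [Set.ncard_powerset _ (Finset.finite_toSet _), Set.ncard_coe_finset, Nat.card_Icc]
      congr 1

theorem p_FINAL (h1 : T_COUNT) (h2 : T_CHEAP) (h3 : T_PREP) (h4 : T_MAIN) : T_FINAL := by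
  obtain ⟨r0, h3⟩ := h3
  obtain ⟨C4, hC4, h4⟩ := h4
  obtain ⟨C0, hC0⟩ : ∃ C0, C0 = C4 + r0 + 100 := ⟨_, rfl⟩
  -- the exponent
  obtain ⟨a, ha⟩ : ∃ a : ℕ, (8 * (4 * (C0 : ℝ)) ^ 100) < (3 / 2 : ℝ) ^ a :=
    pow_unbounded_of_one_lt _ (by norm_num)
  refine ⟨100 + a, fun n hn d hd => ?_⟩
  have hn3 : (3 : ℝ) ≤ n := by exact_mod_cast hn
  have hnpos : (0 : ℝ) < n := by linarith
  -- the logarithm
  obtain ⟨l, hl⟩ : ∃ l : ℝ, l = Real.logb 2 n := ⟨_, rfl⟩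
  rw [← hl]
  have hl32 : (3 / 2 : ℝ) ≤ l := by
    rw [hl, Real.le_logb_iff_rpow_le (by norm_num) hnpos]
    refine le_trans ?_ hn3
    have e1 : ((2 : ℝ) ^ (3 / 2 : ℝ)) ^ 2 = 8 := by
      rw [← Real.rpow_natCast, ← Real.rpow_mul (by norm_num)]
      norm_num
    have e2 : (0 : ℝ) ≤ (2 : ℝ) ^ (3 / 2 : ℝ) := by positivity
    nlinarith
  have hlog : ((Nat.log 2 n + 1 : ℕ) : ℝ) ≤ 2 * l := by
    have e1 : (Nat.log 2 n : ℝ) ≤ l := by
      rw [hl, Real.le_logb_iff_rpow_le (by norm_num) hnpos, Real.rpow_natCast]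
      exact_mod_cast Nat.pow_log_le_self 2 (by omega)
    push_cast
    linarith
  obtain ⟨x, hx⟩ : ∃ x : ℝ, x = d * l := ⟨_, rfl⟩
  rw [← hx]
  have hx32 : (3 / 2 : ℝ) ≤ x := by
    rw [hx]
    nlinarith
  have hd0 : (0 : ℝ) ≤ d := by linarith
  have hdc : ((⌈d⌉₊ : ℕ) : ℝ) ≤ 2 * d := by
    have := Nat.ceil_lt_add_one hd0
    linarith
  have hd1 : 1 ≤ ⌈d⌉₊ := Nat.one_le_ceil_iff.2 (by linarith)
  obtain ⟨R, hR⟩ : ∃ R, R = C0 * (⌈d⌉₊ * (Nat.log 2 n + 1)) := ⟨_, rfl⟩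
  have hRx : (R : ℝ) ≤ 4 * C0 * x := by
    rw [hR]
    push_cast
    push_cast at hlog
    have e1 : (0 : ℝ) ≤ C0 := Nat.cast_nonneg _
    have e2 : ((⌈d⌉₊ : ℕ) : ℝ) * ((Nat.log 2 n : ℝ) + 1) ≤ (2 * d) * (2 * l) :=
      mul_le_mul hdc hlog (by positivity) (by linarith)
    calc (C0 : ℝ) * (((⌈d⌉₊ : ℕ) : ℝ) * ((Nat.log 2 n : ℝ) + 1)) ≤ C0 * ((2 * d) * (2 * l)) :=
          mul_le_mul_of_nonneg_left e2 e1
      _ = 4 * C0 * x := by rw [hx]; ring
  have hR0 : (0 : ℝ) ≤ R := Nat.cast_nonneg _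
  have hkey : 8 * (R : ℝ) ^ 100 ≤ x ^ (100 + a) := by
    calc 8 * (R : ℝ) ^ 100 ≤ 8 * (4 * C0 * x) ^ 100 := by gcongr
      _ = (8 * (4 * (C0 : ℝ)) ^ 100) * x ^ 100 := by rw [mul_pow]; ring
      _ ≤ (3 / 2 : ℝ) ^ a * x ^ 100 := by gcongr
      _ ≤ x ^ a * x ^ 100 := by gcongr
      _ = x ^ (100 + a) := by rw [← pow_add, add_comm]
  have hxpos : (0 : ℝ) < x ^ (100 + a) := by positivity
  by_cases hbig : n < R ^ 100
  · -- the trivial bound
    have e1 : (n : ℝ) / x ^ (100 + a) ≤ 1 := by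
      rw [div_le_one hxpos]
      calc (n : ℝ) ≤ (R : ℝ) ^ 100 := by exact_mod_cast hbig.le
        _ ≤ 8 * (R : ℝ) ^ 100 := by
            have : (0 : ℝ) ≤ (R : ℝ) ^ 100 := by positivity
            linarith
        _ ≤ _ := hkey
    have e2 : (numCycleSets d n : ℝ) ≤ 2 ^ ((n : ℝ) - 2) := by
      have := fin_triv d n
      have e3 : ((n - 2 : ℕ) : ℝ) = (n : ℝ) - 2 := by
        rw [Nat.cast_sub (by omega)]; norm_num
      rw [← e3, Real.rpow_natCast]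
      exact_mod_cast this
    refine e2.trans (Real.rpow_le_rpow_of_exponent_le (by norm_num) (by linarith))
  -- the main case
  push Not at hbig
  have hCR : ∀ C : ℕ, C ≤ C0 → C * (Nat.log 2 n + 1) ≤ R := by
    intro C hC
    rw [hR]
    refine Nat.mul_le_mul hC ?_
    exact Nat.le_mul_of_pos_left _ (by omega)
  have hR100 : 100 * (Nat.log 2 n + 1) ≤ R := hCR _ (by omega)
  have hR4 : C4 * (Nat.log 2 n + 1) ≤ R := hCR _ (by omega)
  have hRr0 : r0 ≤ R := by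
    refine le_trans ?_ (hCR r0 (by omega))
    exact Nat.le_mul_of_pos_right _ (by omega)
  have hRd : d ≤ R := by
    have e1 : ⌈d⌉₊ ≤ R := by
      rw [hR]
      calc ⌈d⌉₊ ≤ ⌈d⌉₊ * (Nat.log 2 n + 1) := Nat.le_mul_of_pos_right _ (by omega)
        _ ≤ C0 * (⌈d⌉₊ * (Nat.log 2 n + 1)) := Nat.le_mul_of_pos_left _ (by omega)
    have e2 : ((⌈d⌉₊ : ℕ) : ℝ) ≤ R := by exact_mod_cast e1
    exact (Nat.le_ceil d).trans e2
  have hRpos : 100 ≤ R := by omega
  have hcore := fin_core h1 h2 n R (h3 n R hRr0)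
    (fun s V Gr L c v P lam hs1 hs2 hL hP hcyc =>
      h4 n R s V Gr L c v P lam hR4 hs1 hs2 hbig hL hP hcyc) hR100 hbig
  -- the cycle sets of the sparse graphs
  have hnum : numCycleSets d n ≤ 3 * 2 ^ (n - n / R ^ 72) := by
    refine le_trans ?_ hcore
    apply Set.ncard_le_ncard
    · rintro A ⟨G, hG, rfl⟩
      exact ⟨G, sparseP_of_sparse _ R hRd G hG, rfl⟩
    · apply (fin_small n).1.subset
      rintro A ⟨G, _, rfl⟩ l hl
      exact (cycleSet_bounds G l hl).2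
  -- the real inequality
  obtain ⟨z0, hz0⟩ : ∃ z0, z0 = n / R ^ 72 := ⟨_, rfl⟩
  rw [← hz0] at hnum
  have hRp : ∀ j : ℕ, 0 < R ^ j := fun j => Nat.pow_pos (by omega)
  have hz0n : z0 ≤ n := by
    rw [hz0]
    exact Nat.div_le_self _ _
  have hz1 : n < (z0 + 1) * R ^ 72 := by
    rw [hz0, mul_comm]
    exact Nat.lt_mul_div_succ _ (hRp 72)
  have hn800 : R ^ 72 * (8 * 100) ≤ n := by
    calc R ^ 72 * (8 * 100) ≤ R ^ 72 * (R * R) := by
          apply Nat.mul_le_mul_left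
          nlinarith
      _ = R ^ 74 := by ring
      _ ≤ R ^ 100 := Nat.pow_le_pow_right (by omega) (by norm_num)
      _ ≤ n := hbig
  have hmain : (n : ℝ) / x ^ (100 + a) + 2 ≤ z0 := by
    have hRr : (0 : ℝ) < (R : ℝ) ^ 72 := by exact_mod_cast hRp 72
    have f1 : (n : ℝ) < (z0 + 1) * (R : ℝ) ^ 72 := by exact_mod_cast hz1
    have f2 : (R : ℝ) ^ 72 * 800 ≤ (n : ℝ) := by exact_mod_cast hn800
    have f3 : (n : ℝ) / (R : ℝ) ^ 72 < z0 + 1 := by
      rw [div_lt_iff₀ hRr]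
      exact f1
    have f4 : 800 ≤ (n : ℝ) / (R : ℝ) ^ 72 := by
      rw [le_div_iff₀ hRr]
      linarith
    have f6 : (R : ℝ) ^ 72 ≤ (R : ℝ) ^ 100 := by
      have : R ^ 72 ≤ R ^ 100 := Nat.pow_le_pow_right (by omega) (by norm_num)
      exact_mod_cast this
    have f7 : (n : ℝ) / x ^ (100 + a) ≤ (n : ℝ) / (R : ℝ) ^ 72 / 2 := by
      rw [div_le_iff₀ hxpos]
      have g1 : (n : ℝ) / (R : ℝ) ^ 72 / 2 * (2 * (R : ℝ) ^ 72) = n := by
        field_simp
      calc (n : ℝ) = (n : ℝ) / (R : ℝ) ^ 72 / 2 * (2 * (R : ℝ) ^ 72) := g1.symm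
        _ ≤ (n : ℝ) / (R : ℝ) ^ 72 / 2 * x ^ (100 + a) := by
            apply mul_le_mul_of_nonneg_left _ (by positivity)
            refine le_trans ?_ hkey
            linarith
    linarith
  have hexp : ((n : ℝ) - z0) + 2 ≤ (n : ℝ) - (n : ℝ) / x ^ (100 + a) := by linarith
  calc (numCycleSets d n : ℝ) ≤ ((3 * 2 ^ (n - z0) : ℕ) : ℝ) := by exact_mod_cast hnum
    _ ≤ (2 : ℝ) ^ ((n : ℝ) - z0) * 2 ^ (2 : ℝ) := by
        push_cast
        rw [← Nat.cast_sub hz0n, Real.rpow_natCast, show ((2 : ℝ) ^ (2 : ℝ)) = 4 by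
          rw [show (2 : ℝ) = ((2 : ℕ) : ℝ) by norm_num, Real.rpow_natCast]; norm_num]
        have : (0 : ℝ) ≤ 2 ^ (n - z0) := by positivity
        linarith
    _ = (2 : ℝ) ^ (((n : ℝ) - z0) + 2) := by rw [← Real.rpow_add (by norm_num)]
    _ ≤ (2 : ℝ) ^ ((n : ℝ) - (n : ℝ) / x ^ (100 + a)) :=
        Real.rpow_le_rpow_of_exponent_le (by norm_num) hexp

end Pool.Agent.CycSp
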