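import Pool.Agent.CycSp.Targets

/-!
# Counting sets of natural numbers which contain a large difference structure
-/

set_option autoImplicit false

namespace Pool.Agent.CycSp

open Finset

/-- Greedy choice of elements with pairwise disjoint translates of `D`. -/
theorem greedy (D : Finset ℤ) : ∀ (k : ℕ) (Z : Finset ℤ), D.card ^ 2 * k ≤ Z.card →
    D.Nonempty → ∃ W ⊆ Z, W.card = k ∧ ∀ w ∈ W, ∀ w' ∈ W, ∀ d ∈ D, ∀ d' ∈ D,
      w - d = w' - d' → w = w' := by
  intro k
  induction k with
  | zero => intro Z _ _; exact ⟨∅, by simp, by simp, by simp⟩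
  | succ k ih =>
    intro Z hZ hD
    have hpos : 0 < D.card := hD.card_pos
    have hZpos : 0 < Z.card := by
      refine lt_of_lt_of_le ?_ hZ
      positivity
    obtain ⟨z, hz⟩ := Finset.card_pos.1 hZpos
    let X : Finset ℤ := (D ×ˢ D).image fun p => z - p.1 + p.2
    have hX : X.card ≤ D.card ^ 2 := by
      refine le_trans Finset.card_image_le ?_
      rw [Finset.card_product, sq]
    have hZX : D.card ^ 2 * k ≤ (Z \ X).card := by
      have h1 := Finset.le_card_sdiff X Z
      have h2 : D.card ^ 2 * (k + 1) = D.card ^ 2 * k + D.card ^ 2 := by ring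
      omega
    obtain ⟨W, hW, hWc, hWd⟩ := ih (Z \ X) hZX hD
    have hzX : z ∈ X := by
      obtain ⟨d, hd⟩ := hD
      exact Finset.mem_image.2 ⟨(d, d), by simp [hd], by ring⟩
    have hzW : z ∉ W := fun h => (Finset.mem_sdiff.1 (hW h)).2 hzX
    refine ⟨insert z W, ?_, ?_, ?_⟩
    · intro w hw
      rcases Finset.mem_insert.1 hw with rfl | hw
      · exact hz
      · exact (Finset.mem_sdiff.1 (hW hw)).1
    · rw [Finset.card_insert_of_notMem hzW, hWc]
    · intro w hw w' hw' d hd d' hd' he
      rcases Finset.mem_insert.1 hw with h1 | h1 <;> rcases Finset.mem_insert.1 hw' with h2 | h2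
      · rw [h1, h2]
      · exfalso
        apply (Finset.mem_sdiff.1 (hW h2)).2
        refine Finset.mem_image.2 ⟨(d, d'), by simp [hd, hd'], ?_⟩
        simp only
        rw [h1] at he
        linarith
      · exfalso
        apply (Finset.mem_sdiff.1 (hW h1)).2
        refine Finset.mem_image.2 ⟨(d', d), by simp [hd, hd'], ?_⟩
        simp only
        rw [h2] at he
        linarith
      · exact hWd w h1 w' h2 d hd d' hd' he

/-- The number of subsets of `[0, n]` which contain `E`. -/
theorem count_above (n k : ℕ) (E : Finset ℕ) :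
    {A : Set ℕ | (E : Set ℕ) ⊆ A ∧ (∀ l ∈ A, l ≤ n) ∧ E.card = k}.ncard ≤ 2 ^ (n + 1 - k) := by
  classical
  by_cases hE : E ⊆ range (n + 1) ∧ E.card = k
  · have hsub : {A : Set ℕ | (E : Set ℕ) ⊆ A ∧ (∀ l ∈ A, l ≤ n) ∧ E.card = k} ⊆
        (((range (n + 1) \ E).powerset.image fun B => ((B ∪ E : Finset ℕ) : Set ℕ) :
          Finset (Set ℕ)) : Set (Set ℕ)) := by
      rintro A ⟨h1, h2, _⟩
      rw [Finset.coe_image]
      refine ⟨(range (n + 1) \ E).filter fun x => x ∈ A, ?_, ?_⟩
      · exact Finset.mem_coe.2 (Finset.mem_powerset.2 (Finset.filter_subset _ _))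
      · ext x
        simp only [Finset.coe_union, Finset.coe_filter, Finset.mem_sdiff, Finset.mem_range,
          Set.mem_union, Finset.mem_coe]
        constructor
        · rintro (h | h)
          · exact h.2
          · exact h1 h
        · intro hx
          by_cases hxE : x ∈ E
          · exact Or.inr hxE
          · left
            exact ⟨⟨by have := h2 x hx; omega, hxE⟩, hx⟩
    refine le_trans (Set.ncard_le_ncard hsub (Finset.finite_toSet _)) ?_
    rw [Set.ncard_coe_finset]
    refine le_trans Finset.card_image_le ?_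
    rw [Finset.card_powerset, Finset.card_sdiff_of_subset hE.1, Finset.card_range, hE.2]
  · have : {A : Set ℕ | (E : Set ℕ) ⊆ A ∧ (∀ l ∈ A, l ≤ n) ∧ E.card = k} = ∅ := by
      rw [Set.eq_empty_iff_forall_notMem]
      rintro A ⟨h1, h2, h3⟩
      apply hE
      refine ⟨fun x hx => ?_, h3⟩
      have := h2 x (h1 hx)
      simp
      omega
    rw [this]
    simp

/-- COUNT. -/
theorem p_COUNT : T_COUNT := by
  classical
  intro n s z0
  by_cases h0 : s * z0 = 0
  · have h1 : {A : Set ℕ | (∀ l ∈ A, l ≤ n) ∧ ∃ Z D : Finset ℤ, D.card = s ∧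
        s ^ 2 * z0 ≤ Z.card ∧ ∀ z ∈ Z, ∀ d ∈ D, ∃ N ∈ A, (N : ℤ) = z - d} ⊆
        {A : Set ℕ | ((∅ : Finset ℕ) : Set ℕ) ⊆ A ∧ (∀ l ∈ A, l ≤ n) ∧
          (∅ : Finset ℕ).card = 0} := by
      rintro A ⟨h, _⟩
      exact ⟨by simp, h, by simp⟩
    have hfin : {A : Set ℕ | ((∅ : Finset ℕ) : Set ℕ) ⊆ A ∧ (∀ l ∈ A, l ≤ n) ∧
          (∅ : Finset ℕ).card = 0}.Finite := by
      refine (Set.Finite.powerset (Set.finite_Iic n)).subset ?_
      rintro A ⟨_, h, _⟩ l hl
      exact h l hl
    refine le_trans (Set.ncard_le_ncard h1 hfin) (le_trans (count_above n 0 ∅) ?_)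
    rw [h0]
    exact Nat.le_mul_of_pos_left _ (by positivity)
  · have hs : 0 < s := Nat.pos_of_ne_zero (by rintro rfl; simp at h0)
    have hz : 0 < z0 := Nat.pos_of_ne_zero (by rintro rfl; simp at h0)
    let I : Finset (Finset ℕ × Finset ℕ) :=
      powersetCard z0 (range (n + 1)) ×ˢ powersetCard s (range (n + 1))
    let E : Finset ℕ × Finset ℕ → Finset ℕ := fun p => (p.1 ×ˢ p.2).image fun q => q.1 - q.2
    let T : Finset ℕ × Finset ℕ → Set (Set ℕ) := fun p =>
      {A : Set ℕ | ((E p : Finset ℕ) : Set ℕ) ⊆ A ∧ (∀ l ∈ A, l ≤ n) ∧ (E p).card = s * z0}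
    have hTfin : ∀ p, (T p).Finite := by
      intro p
      refine (Set.Finite.powerset (Set.finite_Iic n)).subset ?_
      rintro A ⟨_, h, _⟩ l hl
      exact h l hl
    have hsub : {A : Set ℕ | (∀ l ∈ A, l ≤ n) ∧ ∃ Z D : Finset ℤ, D.card = s ∧
        s ^ 2 * z0 ≤ Z.card ∧ ∀ z ∈ Z, ∀ d ∈ D, ∃ N ∈ A, (N : ℤ) = z - d} ⊆
        ⋃ p ∈ I, T p := by
      rintro A ⟨hA, Z, D, hDc, hZc, hZD⟩
      have hDne : D.Nonempty := Finset.card_pos.1 (by omega)
      have hZne : Z.Nonempty := Finset.card_pos.1 (lt_of_lt_of_le (by positivity) hZc)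
      obtain ⟨W, hWZ, hWc, hWd⟩ := greedy D z0 Z (by rw [hDc]; exact hZc) hDne
      let μ := D.min' hDne
      have hμ : μ ∈ D := D.min'_mem hDne
      have hμle : ∀ d ∈ D, μ ≤ d := fun d hd => D.min'_le d hd
      have hZr : ∀ z ∈ Z, 0 ≤ z - μ ∧ z - μ ≤ n := by
        intro z hz
        obtain ⟨N, hN, hN'⟩ := hZD z hz μ hμ
        have := hA N hN
        constructor <;> omega
      have hDr : ∀ d ∈ D, 0 ≤ d - μ ∧ d - μ ≤ n := by
        intro d hd
        obtain ⟨z, hz⟩ := hZne
        obtain ⟨N, hN, hN'⟩ := hZD z hz d hd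
        have h1 := hZr z hz
        have h2 := hμle d hd
        constructor <;> omega
      let W' : Finset ℕ := W.image fun w => (w - μ).toNat
      let D' : Finset ℕ := D.image fun d => (d - μ).toNat
      have hW'c : W'.card = z0 := by
        rw [← hWc]
        apply Finset.card_image_of_injOn
        intro a ha b hb hab
        have h1 := hZr a (hWZ ha)
        have h2 := hZr b (hWZ hb)
        simp only at hab
        omega
      have hD'c : D'.card = s := by
        rw [← hDc]
        apply Finset.card_image_of_injOn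
        intro a ha b hb hab
        have h1 := hDr a ha
        have h2 := hDr b hb
        simp only at hab
        omega
      have hval : ∀ w ∈ W, ∀ d ∈ D, ((((w - μ).toNat - (d - μ).toNat : ℕ)) : ℤ) = w - d := by
        intro w hw d hd
        have h1 := hZr w (hWZ hw)
        have h2 := hDr d hd
        obtain ⟨N, hN, hN'⟩ := hZD w (hWZ hw) d hd
        omega
      have hEc : (E (W', D')).card = s * z0 := by
        have h1 : (E (W', D')).card = (W ×ˢ D).card := by
          have h2 : E (W', D') = (W ×ˢ D).image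
              fun q => (q.1 - μ).toNat - (q.2 - μ).toNat := by
            ext x
            simp only [E, W', D', Finset.mem_image, Finset.mem_product, Prod.exists]
            constructor
            · rintro ⟨a, b, ⟨⟨w, hw, rfl⟩, ⟨d, hd, rfl⟩⟩, rfl⟩
              exact ⟨w, d, ⟨hw, hd⟩, rfl⟩
            · rintro ⟨w, d, ⟨hw, hd⟩, rfl⟩
              exact ⟨_, _, ⟨⟨w, hw, rfl⟩, ⟨d, hd, rfl⟩⟩, rfl⟩
          rw [h2]
          apply Finset.card_image_of_injOn
          rintro ⟨w, d⟩ hq ⟨w', d'⟩ hq' he
          have hq1 := Finset.mem_product.1 hq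
          have hq2 := Finset.mem_product.1 hq'
          simp only at he hq1 hq2
          have h3 := hval w hq1.1 d hq1.2
          have h4 := hval w' hq2.1 d' hq2.2
          have h5 : w - d = w' - d' := by rw [← h3, ← h4, he]
          have h6 := hWd w hq1.1 w' hq2.1 d hq1.2 d' hq2.2 h5
          ext
          · exact h6
          · simp only; omega
        rw [h1, Finset.card_product, hWc, hDc, mul_comm]
      rw [Set.mem_iUnion₂]
      refine ⟨(W', D'), ?_, ?_, hA, hEc⟩
      · simp only [I, Finset.mem_product, Finset.mem_powersetCard]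
        refine ⟨⟨?_, hW'c⟩, ⟨?_, hD'c⟩⟩
        · intro x hx
          obtain ⟨w, hw, rfl⟩ := Finset.mem_image.1 hx
          have h1 := hZr w (hWZ hw)
          simp
          omega
        · intro x hx
          obtain ⟨d, hd, rfl⟩ := Finset.mem_image.1 hx
          have h1 := hDr d hd
          simp
          omega
      · intro x hx
        simp only [E, W', D', Finset.coe_image, Finset.coe_product] at hx
        obtain ⟨⟨a, b⟩, ⟨⟨w, hw, rfl⟩, ⟨d, hd, rfl⟩⟩, rfl⟩ := hx
        obtain ⟨N, hN, hN'⟩ := hZD w (hWZ hw) d hd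
        have h1 := hval w hw d hd
        have h2 : (w - μ).toNat - (d - μ).toNat = N := by
          have : (((w - μ).toNat - (d - μ).toNat : ℕ) : ℤ) = N := by rw [h1, hN']
          exact_mod_cast this
        show (w - μ).toNat - (d - μ).toNat ∈ A
        rw [h2]
        exact hN
    have hfin : (⋃ p ∈ I, T p).Finite := Set.Finite.biUnion (Finset.finite_toSet I) fun p _ => hTfin p
    refine le_trans (Set.ncard_le_ncard hsub hfin) ?_
    have h1 : (⋃ p ∈ I, T p).ncard ≤ ∑ p ∈ I, (T p).ncard := Finset.set_ncard_biUnion_le I T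
    refine le_trans h1 ?_
    refine le_trans (Finset.sum_le_card_nsmul I _ (2 ^ (n + 1 - s * z0))
      (fun p _ => count_above n (s * z0) (E p))) ?_
    rw [smul_eq_mul]
    apply Nat.mul_le_mul_right
    simp only [I, Finset.card_product, Finset.card_powersetCard, Finset.card_range]
    rw [pow_add, mul_comm]
    exact Nat.mul_le_mul (Nat.choose_le_pow _ _) (Nat.choose_le_pow _ _)

end Pool.Agent.CycSp
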