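import Pool.Agent.CycSp.Targets

/-!
# Local cycles, rails and fans
-/

set_option autoImplicit false

namespace Pool.Agent.CycSp

open Finset
open scoped Pointwise
open Pool.Agent.HubG (cycleSet CycSeq)

/-! ### Concrete units -/

theorem selinc_aux (P G : Finset Pt) (hG : G ⊆ P) :
    ∀ us : List UnitD, (∀ U ∈ us, U.pts ⊆ P) → (∀ U ∈ us, U.Ok) →
    us.Pairwise (fun U U' => AllSW U.pts U'.pts) → (∀ U ∈ us, AllSW U.pts G) →
    ∀ t ∈ TT us, ∀ g ∈ G, ∀ x0 y0 : ℤ,
    (∀ U ∈ us, ∀ f ∈ U.pts, x0 ≤ f.1 ∧ y0 ≤ f.2) → x0 ≤ g.1 → y0 ≤ g.2 →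
    ∃ cu : List (Pt × Pt), cu.length = us.length ∧ drp cu = KK us - t ∧ Inc P x0 y0 cu g := by
  intro us
  induction us with
  | nil =>
    intro _ _ _ _ t ht g hg x0 y0 _ h1 h2
    rw [TT, mem_singleton] at ht
    refine ⟨[], rfl, ?_, ?_⟩
    · rw [ht, drp, KK]; rfl
    · exact ⟨hG hg, h1, h2⟩
  | cons U us ih =>
    intro hsub hok hpw hUG t ht g hg x0 y0 hb h1 h2
    rw [TT, Finset.mem_add] at ht
    obtain ⟨a, ha, t', ht', hat⟩ := ht
    rw [UnitD.vals, Finset.mem_image] at ha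
    obtain ⟨f, hf, hfa⟩ := ha
    have hU : U ∈ U :: us := List.mem_cons_self
    have hpU : U.p ∈ U.pts := Finset.mem_insert_self _ _
    have hfU : f ∈ U.pts := Finset.mem_insert_of_mem hf
    obtain ⟨hpw1, hpw2⟩ := List.pairwise_cons.1 hpw
    have hgSW := hUG U hU
    have hsub' : ∀ U' ∈ us, U'.pts ⊆ P := fun U' h => hsub U' (List.mem_cons_of_mem _ h)
    have hok' : ∀ U' ∈ us, U'.Ok := fun U' h => hok U' (List.mem_cons_of_mem _ h)
    have hUG' : ∀ U' ∈ us, AllSW U'.pts G := fun U' h => hUG U' (List.mem_cons_of_mem _ h)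
    -- the common step with outer `o` and inner `i`
    have key : ∀ o i : Pt, o ∈ U.pts → i ∈ U.pts → NW o i →
        ln o - ln i = U.e * ln U.p - U.e * ln f →
        ∃ cu : List (Pt × Pt), cu.length = (U :: us).length ∧ drp cu = KK (U :: us) - t ∧
          Inc P x0 y0 cu g := by
      intro o i ho hi hNW hd
      have ho1 := hb U hU o ho
      have hi1 := hb U hU i hi
      obtain ⟨cu, c1, c2, c3⟩ := ih hsub' hok' hpw2 hUG' t' ht' g hg (i.1 + 1) (o.2 + 1)
        (fun U' hU' f' hf' => by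
          have e1 := (hpw1 U' hU' i hi f' hf').1
          have e2 := (hpw1 U' hU' o ho f' hf').2
          exact ⟨by omega, by omega⟩)
        (by have := (hgSW i hi g hg).1; omega) (by have := (hgSW o ho g hg).2; omega)
      refine ⟨(o, i) :: cu, by rw [List.length_cons, List.length_cons, c1], ?_, ?_⟩
      · rw [drp, KK, c2]
        simp only
        rw [← hat, ← hfa]
        linarith
      · exact ⟨hsub U hU ho, hsub U hU hi, ho1.1, hNW.1, hi1.2, hNW.2, c3⟩
    rcases hok U hU with ⟨he, hN⟩ | ⟨he, hN⟩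
    · exact key U.p f hpU hfU (hN f hf) (by rw [he]; ring)
    · exact key f U.p hfU hpU (hN f hf) (by rw [he]; ring)

theorem p_SELINC : T_SELINC := by
  intro P Q us G r hS t ht g hg x0 y0 hb h1 h2
  exact selinc_aux P G hS.Gsub us hS.usub hS.ok hS.pw hS.uG t ht g hg x0 y0 hb h1 h2

theorem inc_drp (P : Finset Pt) : ∀ (us : List (Pt × Pt)) (x0 y0 : ℤ) (S : Pt),
    Inc P x0 y0 us S → drp us + x0 + y0 ≤ S.1 + S.2 := by
  intro us
  induction us with
  | nil =>
    intro x0 y0 S h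
    obtain ⟨-, h1, h2⟩ := h
    rw [drp]
    omega
  | cons u us ih =>
    intro x0 y0 S h
    obtain ⟨-, -, h1, h2, h3, h4, h5⟩ := h
    have := ih _ _ _ h5
    rw [drp]
    simp only [ln]
    omega

theorem inc_mem (P : Finset Pt) : ∀ (us : List (Pt × Pt)) (x0 y0 : ℤ) (S : Pt),
    Inc P x0 y0 us S → S ∈ P := by
  intro us
  induction us with
  | nil => exact fun x0 y0 S h => h.1
  | cons u us ih => exact fun x0 y0 S h => ih _ _ _ h.2.2.2.2.2.2

/-! ### Closing lemmas -/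

theorem close_edge {V : Type} {G : SimpleGraph V} {u v : V} (w : G.Walk u v) (hw : w.IsPath)
    (hl : 2 ≤ w.length) (h : G.Adj u v) : w.length + 1 ∈ cycleSet G := by
  refine ⟨v, SimpleGraph.Walk.cons h.symm w, ?_, by rw [SimpleGraph.Walk.length_cons]⟩
  rw [SimpleGraph.Walk.cons_isCycle_iff]
  refine ⟨hw, fun hmem => ?_⟩
  cases w with
  | nil => simp at hl
  | cons h1 p =>
    rename_i z
    rw [SimpleGraph.Walk.cons_isPath_iff] at hw
    rw [SimpleGraph.Walk.edges_cons, List.mem_cons] at hmem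
    rcases hmem with hmem | hmem
    · rw [Sym2.eq_iff] at hmem
      rcases hmem with ⟨h2, -⟩ | ⟨h2, -⟩
      · exact h.ne h2.symm
      · subst h2
        have h3 : p.length = 0 :=
          SimpleGraph.Walk.nil_iff_length_eq.1 (SimpleGraph.Walk.isPath_iff_nil.1 hw.1)
        rw [SimpleGraph.Walk.length_cons] at hl
        omega
    · exact hw.2 (SimpleGraph.Walk.snd_mem_support_of_mem_edges p hmem)

theorem close_hub {V : Type} {G : SimpleGraph V} {u v a : V} (w : G.Walk u v) (hw : w.IsPath)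
    (hl : 1 ≤ w.length) (ha : a ∉ w.support) (h1 : G.Adj a u) (h2 : G.Adj a v) :
    w.length + 2 ∈ cycleSet G := by
  have hp : (w.concat h2.symm).IsPath := hw.concat ha h2.symm
  refine ⟨a, SimpleGraph.Walk.cons h1 (w.concat h2.symm), ?_, ?_⟩
  · rw [SimpleGraph.Walk.cons_isCycle_iff]
    refine ⟨hp, ?_⟩
    intro h4
    rw [SimpleGraph.Walk.edges_concat, List.concat_eq_append, List.mem_append,
      List.mem_singleton] at h4
    rcases h4 with h4 | h4
    · exact ha (SimpleGraph.Walk.fst_mem_support_of_mem_edges w h4)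
    · rw [Sym2.eq_iff] at h4
      rcases h4 with ⟨h5, -⟩ | ⟨-, h5⟩
      · exact h2.ne h5
      · subst h5
        have := SimpleGraph.Walk.nil_iff_length_eq.1 (SimpleGraph.Walk.isPath_iff_nil.1 hw)
        omega
  · rw [SimpleGraph.Walk.length_cons, SimpleGraph.Walk.length_concat]

theorem p_LOCAL (h1 : T_UPATH) (h2 : T_SELINC) : T_LOCAL := by
  intro V Gr a b v xl xr yl yr P lam hR Q us G r hS
  refine ⟨-KK us + lam * (2 * us.length + 2), ?_⟩
  intro z hz d hd
  rw [Finset.mem_add] at hz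
  obtain ⟨s, hs, t, ht, rfl⟩ := hz
  rw [Finset.mem_image] at hs hd
  obtain ⟨g, hg, rfl⟩ := hs
  obtain ⟨q, hq, rfl⟩ := hd
  have hqP := hS.Qsub hq
  obtain ⟨m1, m2, m3, m4⟩ := hR.mem q hqP
  obtain ⟨cu, c1, c2, c3⟩ := h2 P Q us G r hS t ht g hg (q.1 + 1) (q.2 + 1)
    (fun U hU f hf => by
      have := hS.Qu U hU q hq f hf
      exact ⟨by have := this.1; omega, by have := this.2; omega⟩)
    (by have := (hS.QG q hq g hg).1; omega) (by have := (hS.QG q hq g hg).2; omega)
  obtain ⟨n1, n2, n3, n4⟩ := hR.mem g (hS.Gsub hg)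
  obtain ⟨w, w1, w2, w3⟩ := h1 V Gr a b v xl xr yl yr P lam hR cu g q.1 q.2 (q.1 + 1) (q.2 + 1)
    m1 (by omega) m3 (by omega) c3
  have hdr := inc_drp P cu _ _ _ c3
  have hlen : 2 ≤ w.length := by
    have e1 : (0 : ℤ) ≤ (lam : ℤ) * (2 * (cu.length : ℤ) + 1) := by positivity
    have : (2 : ℤ) ≤ w.length := by rw [w2]; omega
    exact_mod_cast this
  rw [c1, c2] at w2
  rcases hR.link with ⟨hl, hlk⟩ | ⟨hl, hlk, hva, hvb, hvv⟩
  · refine ⟨w.length + 1, close_edge w w1 hlen (hlk q hqP), ?_⟩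
    push_cast
    rw [w2, hl]
    simp only [sg]
    push_cast
    ring
  · refine ⟨w.length + 2, close_hub w w1 (by omega) ?_ (hlk q hqP).1.symm (hlk q hqP).2, ?_⟩
    · intro hmem
      rcases w3 _ hmem with ⟨i, i1, i2, i3⟩ | ⟨j, j1, j2, j3⟩ | ⟨-, p, p1, p2, p3, p4⟩
      · exact hva q hqP i (by omega) (by omega) i3
      · exact hvb q hqP j (by omega) (by omega) j3
      · have := hvv q hqP p p1 p4
        omega
    · push_cast
      rw [w2, hl]
      simp only [sg]
      push_cast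
      ring

/-! ### Rails -/

theorem p_RAILS : T_RAILS := by
  intro V Gr L c v P lam hC A h hA hh
  have hmem : ∀ p ∈ inBlock P A h, p ∈ P ∧ A ≤ p.1 ∧ p.1 < A + h ∧ A + h ≤ p.2 ∧
      p.2 < A + 2 * h := fun p hp => by
    rw [inBlock, Finset.mem_filter] at hp
    exact hp
  constructor
  · refine ⟨fun i i1 i2 => hC.adj i (by omega) (by omega),
      fun i i1 i2 => hC.adj i (by omega) (by omega),
      fun i j i1 i2 j1 j2 e => hC.inj i j (by omega) (by omega) (by omega) (by omega) e,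
      fun i j i1 i2 j1 j2 e => hC.inj i j (by omega) (by omega) (by omega) (by omega) e,
      fun i j i1 i2 j1 j2 e => ?_, fun p hp => ?_, ?_⟩
    · have := hC.inj i j (by omega) (by omega) (by omega) (by omega) e
      omega
    · obtain ⟨p0, p1, p2, p3, p4⟩ := hmem p hp
      have := hC.mem p p0
      omega
    · rcases hC.link with ⟨hl, hlk⟩ | ⟨hl, hlk, hva, hvv⟩
      · exact Or.inl ⟨hl, fun p hp => hlk p (hmem p hp).1⟩
      · refine Or.inr ⟨hl, fun p hp => hlk p (hmem p hp).1, fun p hp i i1 i2 => ?_,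
          fun p hp i i1 i2 => ?_, fun p hp q hq => hvv p (hmem p hp).1 q (hmem q hq).1⟩
        · exact hva p (hmem p hp).1 i (by omega) (by omega)
        · exact hva p (hmem p hp).1 i (by omega) (by omega)
  · have hmem' : ∀ p ∈ (inBlock P A h).image mir, ∃ q ∈ inBlock P A h, p.1 = q.1 ∧
        p.2 = -q.2 := fun p hp => by
      rw [Finset.mem_image] at hp
      obtain ⟨q, hq, rfl⟩ := hp
      exact ⟨q, hq, rfl, rfl⟩
    refine ⟨fun i i1 i2 => hC.adj i (by omega) (by omega), fun i i1 i2 => ?_,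
      fun i j i1 i2 j1 j2 e => hC.inj i j (by omega) (by omega) (by omega) (by omega) e,
      fun i j i1 i2 j1 j2 e => ?_, fun i j i1 i2 j1 j2 e => ?_, fun p hp => ?_, ?_⟩
    · have := hC.adj (-(i + 1)) (by omega) (by omega)
      rw [show -(i + 1) + 1 = -i by ring] at this
      exact this.symm
    · have := hC.inj (-i) (-j) (by omega) (by omega) (by omega) (by omega) e
      omega
    · have := hC.inj i (-j) (by omega) (by omega) (by omega) (by omega) e
      omega
    · obtain ⟨q, hq, e1, e2⟩ := hmem' p hp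
      obtain ⟨p0, p1, p2, p3, p4⟩ := hmem q hq
      have := hC.mem q p0
      omega
    · rcases hC.link with ⟨hl, hlk⟩ | ⟨hl, hlk, hva, hvv⟩
      · refine Or.inl ⟨hl, fun p hp => ?_⟩
        obtain ⟨q, hq, e1, e2⟩ := hmem' p hp
        show Gr.Adj (c p.1) (c (-p.2))
        rw [e1, e2, neg_neg]
        exact hlk q (hmem q hq).1
      · refine Or.inr ⟨hl, fun p hp => ?_, fun p hp i i1 i2 => ?_, fun p hp i i1 i2 => ?_,
          fun p hp p' hp' e => ?_⟩
        · obtain ⟨q, hq, e1, e2⟩ := hmem' p hp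
          show Gr.Adj (c p.1) (v p.1) ∧ Gr.Adj (v p.1) (c (-p.2))
          rw [e1, e2, neg_neg]
          exact hlk q (hmem q hq).1
        · obtain ⟨q, hq, e1, e2⟩ := hmem' p hp
          rw [e1]
          exact hva q (hmem q hq).1 i (by omega) (by omega)
        · obtain ⟨q, hq, e1, e2⟩ := hmem' p hp
          rw [e1]
          exact hva q (hmem q hq).1 (-i) (by omega) (by omega)
        · obtain ⟨q, hq, e1, e2⟩ := hmem' p hp
          obtain ⟨q', hq', e1', e2'⟩ := hmem' p' hp'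
          rw [e1, e1'] at e ⊢
          exact hvv q (hmem q hq).1 q' (hmem q' hq').1 e

theorem p_FAN : T_FAN := by
  intro V Gr L c v P lam hC x y z hxy hxz hyz
  obtain ⟨m1, m2, m3⟩ := hC.mem _ hxy
  obtain ⟨n1, n2, n3⟩ := hC.mem _ hxz
  simp only at m1 m2 m3 n1 n2 n3
  have hlam : (0 : ℤ) ≤ lam := by positivity
  obtain ⟨Y, rfl⟩ := Int.eq_ofNat_of_zero_le (show 0 ≤ y by omega)
  obtain ⟨Z, rfl⟩ := Int.eq_ofNat_of_zero_le (show 0 ≤ z by omega)
  have hYZ : Y < Z := by exact_mod_cast hyz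
  have hadj : ∀ i : ℕ, Y ≤ i → i < Z → Gr.Adj (c (i : ℤ)) (c ((i + 1 : ℕ) : ℤ)) := by
    intro i i1 i2
    have := hC.adj i (by omega) (by omega)
    push_cast
    exact this
  have hinj : ∀ i j : ℕ, Y ≤ i → i ≤ Z → Y ≤ j → j ≤ Z → c (i : ℤ) = c (j : ℤ) → i = j := by
    intro i j i1 i2 j1 j2 e
    have := hC.inj i j (by omega) (by omega) (by omega) (by omega) e
    exact_mod_cast this
  have main : ∀ hub : V, (∀ i : ℕ, Y ≤ i → i ≤ Z → hub ≠ c (i : ℤ)) → Gr.Adj hub (c (Y : ℤ)) →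
      Gr.Adj hub (c (Z : ℤ)) → ∃ N ∈ cycleSet Gr, (N : ℤ) = (Z : ℤ) - Y + 2 := by
    intro hub h1 h2 h3
    have := Pool.Agent.HubG.hub_cycle Gr hub (fun i : ℕ => c (i : ℤ)) Y Z hYZ hadj hinj h1 h2 h3
    refine ⟨_, this, ?_⟩
    push_cast [Nat.cast_sub hYZ.le]
    ring
  rcases hC.link with ⟨hl, hlk⟩ | ⟨hl, hlk, hva, hvv⟩
  · refine main (c x) (fun i i1 i2 e => ?_) (hlk _ hxy) (hlk _ hxz)
    have := hC.inj x i (by omega) (by omega) (by omega) (by omega) e
    omega
  · exact main (v x) (fun i i1 i2 => hva _ hxy i (by omega) (by omega)) (hlk _ hxy).2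
      (hlk _ hxz).2

end Pool.Agent.CycSp
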