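import Pool.Agent.CycSp.Targets

/-!
# Walks along rails, walks along links, and how to put paths together
-/

set_option autoImplicit false

namespace Pool.Agent.CycSp

open Finset

/-- Two paths which have only the common end in common. -/
theorem append_isPath {V : Type} {Gr : SimpleGraph V} {x m y : V} (p : Gr.Walk x m)
    (q : Gr.Walk m y) (hp : p.IsPath) (hq : q.IsPath)
    (h : ∀ z ∈ p.support, z ∈ q.support → z = m) : (p.append q).IsPath := by
  rw [SimpleGraph.Walk.isPath_def, SimpleGraph.Walk.support_append]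
  have h1 := hq.support_nodup
  rw [SimpleGraph.Walk.support_eq_cons, List.nodup_cons] at h1
  refine List.Nodup.append hp.support_nodup h1.2 ?_
  intro z hz hz'
  have h2 : z ∈ q.support := by
    rw [SimpleGraph.Walk.support_eq_cons]
    exact List.mem_cons_of_mem _ hz'
  have h3 := h z hz h2
  rw [h3] at hz'
  exact h1.1 hz'

/-- Two paths which have only the common end in common give a path. -/
theorem append_path {V : Type} {Gr : SimpleGraph V} {x m y : V} {N M : ℤ} {S T : V → Prop}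
    (hp : ∃ p : Gr.Walk x m, p.IsPath ∧ (p.length : ℤ) = N ∧ ∀ z ∈ p.support, S z)
    (hq : ∃ q : Gr.Walk m y, q.IsPath ∧ (q.length : ℤ) = M ∧ ∀ z ∈ q.support, T z)
    (h : ∀ z, S z → T z → z = m) :
    ∃ w : Gr.Walk x y, w.IsPath ∧ (w.length : ℤ) = N + M ∧ ∀ z ∈ w.support, S z ∨ T z := by
  obtain ⟨p, hp1, hp2, hp3⟩ := hp
  obtain ⟨q, hq1, hq2, hq3⟩ := hq
  refine ⟨p.append q, append_isPath p q hp1 hq1 (fun z h1 h2 => h z (hp3 z h1) (hq3 z h2)), ?_, ?_⟩
  · rw [SimpleGraph.Walk.length_append]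
    push_cast
    rw [hp2, hq2]
  · intro z hz
    rw [SimpleGraph.Walk.mem_support_append_iff] at hz
    rcases hz with hz | hz
    · exact Or.inl (hp3 z hz)
    · exact Or.inr (hq3 z hz)

/-- The reverse of a path. -/
theorem reverse_path {V : Type} {Gr : SimpleGraph V} {x y : V} {N : ℤ} {S : V → Prop}
    (hp : ∃ p : Gr.Walk x y, p.IsPath ∧ (p.length : ℤ) = N ∧ ∀ z ∈ p.support, S z) :
    ∃ p : Gr.Walk y x, p.IsPath ∧ (p.length : ℤ) = N ∧ ∀ z ∈ p.support, S z := by
  obtain ⟨p, hp1, hp2, hp3⟩ := hp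
  refine ⟨p.reverse, hp1.reverse, ?_, ?_⟩
  · rw [SimpleGraph.Walk.length_reverse]
    exact hp2
  · intro z hz
    rw [SimpleGraph.Walk.support_reverse, List.mem_reverse] at hz
    exact hp3 z hz

/-- A weaker description of the support. -/
theorem mono_path {V : Type} {Gr : SimpleGraph V} {x y : V} {N M : ℤ} {S T : V → Prop}
    (hp : ∃ p : Gr.Walk x y, p.IsPath ∧ (p.length : ℤ) = N ∧ ∀ z ∈ p.support, S z)
    (hNM : N = M) (h : ∀ z, S z → T z) :
    ∃ p : Gr.Walk x y, p.IsPath ∧ (p.length : ℤ) = M ∧ ∀ z ∈ p.support, T z := by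
  obtain ⟨p, hp1, hp2, hp3⟩ := hp
  exact ⟨p, hp1, by rw [hp2, hNM], fun z hz => h z (hp3 z hz)⟩

/-- the walk along an injective sequence on an interval of `ℤ` -/
theorem rail_walk_aux {V : Type} (G : SimpleGraph V) (u : ℤ → V) (d : ℕ) : ∀ (x : ℤ),
    (∀ i, x ≤ i → i < x + d → G.Adj (u i) (u (i + 1))) →
    (∀ i j, x ≤ i → i ≤ x + d → x ≤ j → j ≤ x + d → u i = u j → i = j) →
    ∃ w : G.Walk (u x) (u (x + d)), w.IsPath ∧ w.length = d ∧
      ∀ v ∈ w.support, ∃ i, x ≤ i ∧ i ≤ x + d ∧ v = u i := by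
  induction d with
  | zero =>
    intro x _ _
    refine ⟨(SimpleGraph.Walk.nil : G.Walk (u x) (u x)).copy rfl (by simp), ?_, ?_, ?_⟩
    · rw [SimpleGraph.Walk.isPath_copy]
      exact SimpleGraph.Walk.IsPath.nil
    · rw [SimpleGraph.Walk.length_copy]
      rfl
    · intro v hv
      rw [SimpleGraph.Walk.support_copy, SimpleGraph.Walk.support_nil, List.mem_singleton] at hv
      exact ⟨x, le_refl _, by simp, hv⟩
  | succ d ih =>
    intro x h hinj
    push_cast at h hinj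
    obtain ⟨w, hw1, hw2, hw3⟩ := ih (x + 1) (fun i h1 h2 => h i (by omega) (by omega))
      (fun i j h1 h2 h3 h4 => hinj i j (by omega) (by omega) (by omega) (by omega))
    have hadj := h x (le_refl _) (by omega)
    have he : x + 1 + (d : ℤ) = x + ((d + 1 : ℕ) : ℤ) := by push_cast; omega
    refine ⟨(SimpleGraph.Walk.cons hadj w).copy rfl (by rw [he]), ?_, ?_, ?_⟩
    · rw [SimpleGraph.Walk.isPath_copy, SimpleGraph.Walk.cons_isPath_iff]
      refine ⟨hw1, ?_⟩
      intro h1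
      obtain ⟨i, h2, h3, h4⟩ := hw3 _ h1
      have := hinj x i (le_refl _) (by omega) (by omega) (by omega) h4
      omega
    · rw [SimpleGraph.Walk.length_copy, SimpleGraph.Walk.length_cons, hw2]
    · intro v hv
      rw [SimpleGraph.Walk.support_copy, SimpleGraph.Walk.support_cons, List.mem_cons] at hv
      rcases hv with hv | hv
      · exact ⟨x, le_refl _, by omega, hv⟩
      · obtain ⟨i, h2, h3, h4⟩ := hw3 v hv
        exact ⟨i, by omega, by push_cast; omega, h4⟩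

/-- The path from `u x` to `u y` along the rail `u`, `x ≤ y`. -/
theorem rail_walk {V : Type} (G : SimpleGraph V) (u : ℤ → V) (x y : ℤ) (hxy : x ≤ y)
    (h : ∀ i, x ≤ i → i < y → G.Adj (u i) (u (i + 1)))
    (hinj : ∀ i j, x ≤ i → i ≤ y → x ≤ j → j ≤ y → u i = u j → i = j) :
    ∃ w : G.Walk (u x) (u y), w.IsPath ∧ (w.length : ℤ) = y - x ∧
      ∀ v ∈ w.support, ∃ i, x ≤ i ∧ i ≤ y ∧ v = u i := by
  obtain ⟨d, hd⟩ := Int.eq_ofNat_of_zero_le (sub_nonneg.2 hxy)
  have hy : y = x + d := by omega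
  subst hy
  obtain ⟨w, h1, h2, h3⟩ := rail_walk_aux G u d x h hinj
  exact ⟨w, h1, by rw [h2]; omega, h3⟩

/-- The path along the link `p`. -/
theorem link_walk {V : Type} (Gr : SimpleGraph V) (a b v : ℤ → V) (p : Pt) (lam : ℕ)
    (hab : a p.1 ≠ b p.2)
    (hl : (lam = 1 ∧ Gr.Adj (a p.1) (b p.2)) ∨
      (lam = 2 ∧ Gr.Adj (a p.1) (v p.1) ∧ Gr.Adj (v p.1) (b p.2))) :
    ∃ w : Gr.Walk (a p.1) (b p.2), w.IsPath ∧ (w.length : ℤ) = lam ∧
      ∀ u ∈ w.support, u = a p.1 ∨ u = b p.2 ∨ (lam = 2 ∧ u = v p.1) := by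
  rcases hl with ⟨h1, h2⟩ | ⟨h1, h2, h3⟩
  · subst h1
    refine ⟨SimpleGraph.Walk.cons h2 SimpleGraph.Walk.nil, ?_, ?_, ?_⟩
    · rw [SimpleGraph.Walk.cons_isPath_iff]
      refine ⟨SimpleGraph.Walk.IsPath.nil, ?_⟩
      rw [SimpleGraph.Walk.support_nil, List.mem_singleton]
      exact hab
    · simp
    · intro u hu
      simp only [SimpleGraph.Walk.support_cons, SimpleGraph.Walk.support_nil, List.mem_cons,
        List.not_mem_nil, or_false] at hu
      tauto
  · subst h1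
    refine ⟨SimpleGraph.Walk.cons h2 (SimpleGraph.Walk.cons h3 SimpleGraph.Walk.nil), ?_, ?_, ?_⟩
    · rw [SimpleGraph.Walk.cons_isPath_iff, SimpleGraph.Walk.cons_isPath_iff]
      refine ⟨⟨SimpleGraph.Walk.IsPath.nil, ?_⟩, ?_⟩
      · rw [SimpleGraph.Walk.support_nil, List.mem_singleton]
        exact h3.ne
      · simp only [SimpleGraph.Walk.support_cons, SimpleGraph.Walk.support_nil, List.mem_cons,
          List.not_mem_nil, or_false, not_or]
        exact ⟨h2.ne, hab⟩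
    · simp
    · intro u hu
      simp only [SimpleGraph.Walk.support_cons, SimpleGraph.Walk.support_nil, List.mem_cons,
        List.not_mem_nil, or_false] at hu
      tauto

/-- The path along a link of `Rails`. -/
theorem Rails.link_walk {V : Type} {Gr : SimpleGraph V} {a b v : ℤ → V} {xl xr yl yr : ℤ}
    {P : Finset Pt} {lam : ℕ} (R : Rails Gr a b v xl xr yl yr P lam) {p : Pt} (hp : p ∈ P) :
    ∃ w : Gr.Walk (a p.1) (b p.2), w.IsPath ∧ (w.length : ℤ) = lam ∧
      ∀ u ∈ w.support, u = a p.1 ∨ u = b p.2 ∨ (lam = 2 ∧ u = v p.1) := by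
  obtain ⟨h1, h2, h3, h4⟩ := R.mem p hp
  refine Pool.Agent.CycSp.link_walk Gr a b v p lam (R.disj _ _ h1 h2 h3 h4) ?_
  rcases R.link with h | h
  · exact Or.inl ⟨h.1, h.2 p hp⟩
  · exact Or.inr ⟨h.1, h.2.1 p hp⟩

end Pool.Agent.CycSp
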