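import Pool.Agent.CycSp.Targets

/-!
# Cycle sets of sparse graphs: paths inside a block
-/

set_option autoImplicit false

namespace Pool.Agent.CycSp

open Finset
open scoped Pointwise

namespace BP

variable {V : Type} {Gr : SimpleGraph V}

/-- glue two disjoint paths by an edge -/
theorem glue {x y z t : V} (w1 : Gr.Walk x y) (hyz : Gr.Adj y z) (w2 : Gr.Walk z t)
    (h1 : w1.IsPath) (h2 : w2.IsPath) (hd : ∀ u, u ∈ w1.support → u ∈ w2.support → False) :
    ∃ w : Gr.Walk x t, w.IsPath ∧ w.length = w1.length + 1 + w2.length ∧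
      ∀ u ∈ w.support, u ∈ w1.support ∨ u ∈ w2.support := by
  refine ⟨w1.append (SimpleGraph.Walk.cons hyz w2), ?_, ?_, ?_⟩
  · rw [SimpleGraph.Walk.isPath_def, SimpleGraph.Walk.support_append,
      SimpleGraph.Walk.support_cons, List.tail_cons]
    exact List.Nodup.append h1.support_nodup h2.support_nodup
      (fun u hu1 hu2 => hd u hu1 hu2)
  · rw [SimpleGraph.Walk.length_append, SimpleGraph.Walk.length_cons]
    omega
  · intro u hu
    rw [SimpleGraph.Walk.support_append, SimpleGraph.Walk.support_cons, List.tail_cons,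
      List.mem_append] at hu
    exact hu

/-- the walk along the rail `c`, upwards -/
theorem rail (c : ℤ → V) (m : ℕ) : ∀ s e : ℤ, e = s + m →
    (∀ i, s ≤ i → i < e → Gr.Adj (c i) (c (i + 1))) →
    (∀ i j, s ≤ i → i ≤ e → s ≤ j → j ≤ e → c i = c j → i = j) →
    ∃ w : Gr.Walk (c s) (c e), w.IsPath ∧ (w.length : ℤ) = e - s ∧
      ∀ u ∈ w.support, ∃ i, s ≤ i ∧ i ≤ e ∧ u = c i := by
  induction m with
  | zero =>
    intro s e he _ _
    have : e = s := by simpa using he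
    subst this
    refine ⟨SimpleGraph.Walk.nil, SimpleGraph.Walk.IsPath.nil, by simp, ?_⟩
    intro u hu
    rw [SimpleGraph.Walk.support_nil, List.mem_singleton] at hu
    exact ⟨e, le_refl _, le_refl _, hu⟩
  | succ m ih =>
    intro s e he hadj hinj
    push_cast at he
    obtain ⟨w, hw1, hw2, hw3⟩ := ih (s + 1) e (by omega)
      (fun i h1 h2 => hadj i (by omega) h2)
      (fun i j h1 h2 h3 h4 => hinj i j (by omega) h2 (by omega) h4)
    have ha := hadj s (le_refl _) (by omega)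
    refine ⟨SimpleGraph.Walk.cons ha w, ?_, ?_, ?_⟩
    · rw [SimpleGraph.Walk.cons_isPath_iff]
      refine ⟨hw1, ?_⟩
      intro hm
      obtain ⟨i, hi1, hi2, hi3⟩ := hw3 _ hm
      have := hinj s i (le_refl _) (by omega) (by omega) hi2 hi3
      omega
    · rw [SimpleGraph.Walk.length_cons]
      push_cast
      omega
    · intro u hu
      rw [SimpleGraph.Walk.support_cons, List.mem_cons] at hu
      rcases hu with hu | hu
      · exact ⟨s, le_refl _, by omega, hu⟩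
      · obtain ⟨i, hi1, hi2, hi3⟩ := hw3 u hu
        exact ⟨i, by omega, hi2, hi3⟩

variable {L : ℤ} {c v : ℤ → V} {P : Finset Pt} {lam : ℕ}

/-- the rail of a cycle -/
theorem crail (H : Cyc Gr L c v P lam) (s e : ℤ) (hs : 0 ≤ s) (hse : s ≤ e) (he : e < L) :
    ∃ w : Gr.Walk (c s) (c e), w.IsPath ∧ (w.length : ℤ) = e - s ∧
      ∀ u ∈ w.support, ∃ i, s ≤ i ∧ i ≤ e ∧ u = c i :=
  rail c (e - s).toNat s e (by omega) (fun i h1 h2 => H.adj i (by omega) (by omega))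
    (fun i j h1 h2 h3 h4 h => H.inj i j (by omega) (by omega) (by omega) (by omega) h)

/-- two paths joined by a link -/
theorem linkw (H : Cyc Gr L c v P lam) (p : Pt) (hp : p ∈ P) {x t : V}
    (w1 : Gr.Walk x (c p.1)) (w2 : Gr.Walk (c p.2) t) (h1 : w1.IsPath) (h2 : w2.IsPath)
    (hd : ∀ u, u ∈ w1.support → u ∈ w2.support → False)
    (hv1 : ∀ u ∈ w1.support, ∃ i, 0 ≤ i ∧ i < L ∧ u = c i)
    (hv2 : ∀ u ∈ w2.support, ∃ i, 0 ≤ i ∧ i < L ∧ u = c i) :
    ∃ w : Gr.Walk x t, w.IsPath ∧ w.length = w1.length + lam + w2.length ∧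
      ∀ u ∈ w.support, u ∈ w1.support ∨ u ∈ w2.support ∨ (lam = 2 ∧ u = v p.1) := by
  rcases H.link with ⟨hl, hadj⟩ | ⟨hl, hadj, hvc, -⟩
  · obtain ⟨w, a, b, d⟩ := glue w1 (hadj p hp) w2 h1 h2 hd
    exact ⟨w, a, by omega, fun u hu => by
      rcases d u hu with h | h
      · exact Or.inl h
      · exact Or.inr (Or.inl h)⟩
  · obtain ⟨w', a', b', d'⟩ := glue (SimpleGraph.Walk.nil : Gr.Walk (v p.1) (v p.1))
      (hadj p hp).2 w2 SimpleGraph.Walk.IsPath.nil h2 (by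
        intro u hu1 hu2
        rw [SimpleGraph.Walk.support_nil, List.mem_singleton] at hu1
        obtain ⟨i, hi0, hi1, hi2⟩ := hv2 u hu2
        exact hvc p hp i hi0 hi1 (hu1 ▸ hi2))
    obtain ⟨w, a, b, d⟩ := glue w1 (hadj p hp).1 w' h1 a' (by
      intro u hu1 hu2
      rcases d' u hu2 with h | h
      · rw [SimpleGraph.Walk.support_nil, List.mem_singleton] at h
        obtain ⟨i, hi0, hi1, hi2⟩ := hv1 u hu1
        exact hvc p hp i hi0 hi1 (h ▸ hi2)
      · exact hd u hu1 h)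
    refine ⟨w, a, ?_, ?_⟩
    · rw [SimpleGraph.Walk.length_nil] at b'
      omega
    · intro u hu
      rcases d u hu with h | h
      · exact Or.inl h
      · rcases d' u h with h | h
        · rw [SimpleGraph.Walk.support_nil, List.mem_singleton] at h
          exact Or.inr (Or.inr ⟨hl, h⟩)
        · exact Or.inr (Or.inl h)

theorem mem_inBlock (p : Pt) (A h : ℤ) : p ∈ inBlock P A h ↔
    p ∈ P ∧ A ≤ p.1 ∧ p.1 < A + h ∧ A + h ≤ p.2 ∧ p.2 < A + 2 * h := by
  unfold inBlock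
  rw [Finset.mem_filter]

end BP

open BP

theorem p_BFULL : T_BFULL := by
  intro V Gr L c v P lam H A h hA hh hL
  obtain ⟨w, w1, w2, w3⟩ := crail H A (A + 2 * h - 1) hA (by omega) (by omega)
  refine ⟨w.length, ⟨w, w1, rfl, ?_⟩, by omega⟩
  intro u hu
  obtain ⟨i, hi⟩ := w3 u hu
  exact Or.inl ⟨i, hi⟩

theorem p_BONE : T_BONE := by
  intro V Gr L c v P lam H A h hA hh hL p hp
  have hp' := (mem_inBlock p A h).1 hp
  obtain ⟨hpP, hp1, hp2, hp3, hp4⟩ := hp'
  obtain ⟨w, w1, w2, w3⟩ := crail H A p.1 hA (by omega) (by omega)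
  obtain ⟨w', w1', w2', w3'⟩ := crail H p.2 (A + 2 * h - 1) (by omega) (by omega) (by omega)
  obtain ⟨W, W1, W2, W3⟩ := linkw H p hpP w w' w1 w1'
    (by
      intro u hu hu'
      obtain ⟨i, hi1, hi2, hi3⟩ := w3 u hu
      obtain ⟨j, hj1, hj2, hj3⟩ := w3' u hu'
      have := H.inj i j (by omega) (by omega) (by omega) (by omega) (hi3 ▸ hj3)
      omega)
    (by
      intro u hu
      obtain ⟨i, hi1, hi2, hi3⟩ := w3 u hu
      exact ⟨i, by omega, by omega, hi3⟩)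
    (by
      intro u hu
      obtain ⟨i, hi1, hi2, hi3⟩ := w3' u hu
      exact ⟨i, by omega, by omega, hi3⟩)
  refine ⟨W.length, ⟨W, W1, rfl, ?_⟩, ?_⟩
  · intro u hu
    rcases W3 u hu with hh | hh | hh
    · obtain ⟨i, hi1, hi2, hi3⟩ := w3 u hh
      exact Or.inl ⟨i, by omega, by omega, hi3⟩
    · obtain ⟨i, hi1, hi2, hi3⟩ := w3' u hh
      exact Or.inl ⟨i, by omega, by omega, hi3⟩
    · exact Or.inr ⟨hh.1, p, hp, hh.2⟩
  · rw [W2]
    push_cast
    omega

theorem p_BINC (h1 : T_UPATH) (h2 : T_SELINC) (h3 : T_RAILS) : T_BINC := by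
  intro V Gr L c v P lam H A h hA hh hL Q us G r hS
  have hmin1 : min (A + h - 1) (L - 1) = A + h - 1 := min_eq_left (by omega)
  have hmin2 : min (A + 2 * h - 1) (L - 1) = A + 2 * h - 1 := min_eq_left (by omega)
  have hR := (h3 V Gr L c v P lam H A h hA hh).1
  rw [hmin1, hmin2] at hR
  have hr := (mem_inBlock r A h).1 hS.rmem
  obtain ⟨hrP, hr1, hr2, hr3, hr4⟩ := hr
  -- the tail
  obtain ⟨w, w1, w2, w3⟩ := crail H r.1 (A + h - 1) (by omega) (by omega) (by omega)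
  obtain ⟨w', w1', w2', w3'⟩ := crail H r.2 (A + 2 * h - 1) (by omega) (by omega) (by omega)
  have w3r : ∀ u ∈ w.reverse.support, ∃ i, r.1 ≤ i ∧ i ≤ A + h - 1 ∧ u = c i := by
    intro u hu
    rw [SimpleGraph.Walk.support_reverse, List.mem_reverse] at hu
    exact w3 u hu
  obtain ⟨W, W1, W2, W3⟩ := linkw H r hrP w.reverse w' w1.reverse w1'
    (by
      intro u hu hu'
      obtain ⟨i, hi1, hi2, hi3⟩ := w3r u hu
      obtain ⟨j, hj1, hj2, hj3⟩ := w3' u hu'
      have := H.inj i j (by omega) (by omega) (by omega) (by omega) (hi3 ▸ hj3)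
      omega)
    (by
      intro u hu
      obtain ⟨i, hi1, hi2, hi3⟩ := w3r u hu
      exact ⟨i, by omega, by omega, hi3⟩)
    (by
      intro u hu
      obtain ⟨i, hi1, hi2, hi3⟩ := w3' u hu
      exact ⟨i, by omega, by omega, hi3⟩)
  rw [SimpleGraph.Walk.length_reverse] at W2
  refine ⟨-(2 * A) - h - KK us + lam * (2 * us.length + 1) + 1 + (A + h - 1 - r.1) + lam +
    (A + 2 * h - 1 - r.2), ?_⟩
  intro z hz
  obtain ⟨s, hs, t, ht, rfl⟩ := Finset.mem_add.1 hz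
  obtain ⟨g, hg, rfl⟩ := Finset.mem_image.1 hs
  have hgB := hS.Gsub hg
  obtain ⟨hgP, hg1, hg2, hg3, hg4⟩ := (mem_inBlock g A h).1 hgB
  obtain ⟨cu, hcu1, hcu2, hcu3⟩ := h2 (inBlock P A h) Q us G r hS t ht g hg A (A + h)
    (by
      intro U hU f hf
      have := (mem_inBlock f A h).1 (hS.usub U hU hf)
      exact ⟨this.2.1, this.2.2.2.1⟩) hg1 hg3
  obtain ⟨X, X1, X2, X3⟩ := h1 V Gr c c v A (A + h - 1) (A + h) (A + 2 * h - 1)
    (inBlock P A h) lam hR cu g A (A + h) A (A + h) (le_refl _) (le_refl _) (le_refl _)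
    (le_refl _) hcu3
  have hgr := hS.Gr g hg r (Finset.mem_singleton_self r)
  have hgr1 : g.1 < r.1 := hgr.1
  have hgr2 : g.2 < r.2 := hgr.2
  have hadj : Gr.Adj (c (A + h)) (c (A + h - 1)) := by
    have := H.adj (A + h - 1) (by omega) (by omega)
    rw [show A + h - 1 + 1 = A + h by ring] at this
    exact this.symm
  obtain ⟨Y, Y1, Y2, Y3⟩ := glue X hadj W X1 W1 (by
    intro u hu hu'
    -- a vertex of the tail
    have htail : (∃ i, r.1 ≤ i ∧ i ≤ A + h - 1 ∧ u = c i) ∨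
        (∃ i, r.2 ≤ i ∧ i ≤ A + 2 * h - 1 ∧ u = c i) ∨ (lam = 2 ∧ u = v r.1) := by
      rcases W3 u hu' with hh | hh | hh
      · exact Or.inl (w3r u hh)
      · exact Or.inr (Or.inl (w3' u hh))
      · exact Or.inr (Or.inr hh)
    have hvc : lam = 2 → (∀ p ∈ P, ∀ i, 0 ≤ i → i < L → v p.1 ≠ c i) ∧
        (∀ p ∈ P, ∀ q ∈ P, v p.1 = v q.1 → p.1 = q.1) := by
      intro hl
      rcases H.link with ⟨hl', -⟩ | ⟨-, -, a, b⟩
      · omega
      · exact ⟨a, b⟩
    rcases X3 u hu with ⟨i, hi1, hi2, hi3⟩ | ⟨i, hi1, hi2, hi3⟩ | ⟨hl, p, hp, hp1, hp2, hp3⟩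
    · rcases htail with ⟨j, hj1, hj2, hj3⟩ | ⟨j, hj1, hj2, hj3⟩ | ⟨hl, hj⟩
      · have := H.inj i j (by omega) (by omega) (by omega) (by omega) (hi3 ▸ hj3)
        omega
      · have := H.inj i j (by omega) (by omega) (by omega) (by omega) (hi3 ▸ hj3)
        omega
      · exact (hvc hl).1 r hrP i (by omega) (by omega) (hj ▸ hi3)
    · rcases htail with ⟨j, hj1, hj2, hj3⟩ | ⟨j, hj1, hj2, hj3⟩ | ⟨hl, hj⟩
      · have := H.inj i j (by omega) (by omega) (by omega) (by omega) (hi3 ▸ hj3)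
        omega
      · have := H.inj i j (by omega) (by omega) (by omega) (by omega) (hi3 ▸ hj3)
        omega
      · exact (hvc hl).1 r hrP i (by omega) (by omega) (hj ▸ hi3)
    · have hpP := ((mem_inBlock p A h).1 hp).1
      rcases htail with ⟨j, hj1, hj2, hj3⟩ | ⟨j, hj1, hj2, hj3⟩ | ⟨hl, hj⟩
      · exact (hvc hl).1 p hpP j (by omega) (by omega) (hp3 ▸ hj3)
      · exact (hvc hl).1 p hpP j (by omega) (by omega) (hp3 ▸ hj3)
      · have := (hvc hl).2 p hpP r hrP (hp3 ▸ hj)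
        omega)
  refine ⟨Y.length, ⟨Y, Y1, rfl, ?_⟩, ?_⟩
  · intro u hu
    rcases Y3 u hu with hh | hh
    · rcases X3 u hh with ⟨i, hi1, hi2, hi3⟩ | ⟨i, hi1, hi2, hi3⟩ | ⟨hl, p, hp, hp1, hp2, hp3⟩
      · exact Or.inl ⟨i, by omega, by omega, hi3⟩
      · exact Or.inl ⟨i, by omega, by omega, hi3⟩
      · exact Or.inr ⟨hl, p, hp, hp3⟩
    · rcases W3 u hh with hh | hh | hh
      · obtain ⟨i, hi1, hi2, hi3⟩ := w3r u hh
        exact Or.inl ⟨i, by omega, by omega, hi3⟩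
      · obtain ⟨i, hi1, hi2, hi3⟩ := w3' u hh
        exact Or.inl ⟨i, by omega, by omega, hi3⟩
      · exact Or.inr ⟨hh.1, r, hS.rmem, hh.2⟩
  · rw [Y2, W2]
    push_cast
    rw [X2, hcu2, hcu1, w2, w2']
    unfold sg
    ring

theorem p_BDEC (h1 : T_UPATH) (h2 : T_SELINC) (h3 : T_RAILS) : T_BDEC := by
  intro V Gr L c v P lam H A h hA hh hL Q us G r hS
  have hmin1 : min (A + h - 1) (L - 1) = A + h - 1 := min_eq_left (by omega)
  have hmin2 : min (A + 2 * h - 1) (L - 1) = A + 2 * h - 1 := min_eq_left (by omega)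
  have hR := (h3 V Gr L c v P lam H A h hA hh).2
  rw [hmin1, hmin2] at hR
  have hm : ∀ p ∈ (inBlock P A h).image mir, A ≤ p.1 ∧ p.1 < A + h ∧
      -(A + 2 * h - 1) ≤ p.2 ∧ p.2 ≤ -(A + h) := by
    intro p hp
    obtain ⟨q, hq, rfl⟩ := Finset.mem_image.1 hp
    obtain ⟨-, hq1, hq2, hq3, hq4⟩ := (mem_inBlock q A h).1 hq
    unfold mir
    exact ⟨hq1, hq2, by omega, by omega⟩
  refine ⟨-A + (A + 2 * h - 1) - KK us + lam * (2 * us.length + 1), ?_⟩
  intro z hz
  obtain ⟨s, hs, t, ht, rfl⟩ := Finset.mem_add.1 hz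
  obtain ⟨g, hg, rfl⟩ := Finset.mem_image.1 hs
  have hgB := hS.Gsub hg
  obtain ⟨hg1, hg2, hg3, hg4⟩ := hm g hgB
  obtain ⟨cu, hcu1, hcu2, hcu3⟩ := h2 ((inBlock P A h).image mir) Q us G r hS t ht g hg A
    (-(A + 2 * h - 1))
    (by
      intro U hU f hf
      have := hm f (hS.usub U hU hf)
      exact ⟨this.1, this.2.2.1⟩) hg1 hg3
  obtain ⟨X, X1, X2, X3⟩ := h1 V Gr c (fun y => c (-y)) v A (A + h - 1) (-(A + 2 * h - 1))
    (-(A + h)) ((inBlock P A h).image mir) lam hR cu g A (-(A + 2 * h - 1)) A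
    (-(A + 2 * h - 1)) (le_refl _) (le_refl _) (le_refl _) (le_refl _) hcu3
  have hend : (fun y => c (-y)) (-(A + 2 * h - 1)) = c (A + 2 * h - 1) := by
    simp only [neg_neg]
  refine ⟨X.length, ⟨X.copy rfl hend, ?_, ?_, ?_⟩, ?_⟩
  · rw [SimpleGraph.Walk.isPath_copy]
    exact X1
  · rw [SimpleGraph.Walk.length_copy]
  · intro u hu
    rw [SimpleGraph.Walk.support_copy] at hu
    rcases X3 u hu with ⟨i, hi1, hi2, hi3⟩ | ⟨i, hi1, hi2, hi3⟩ | ⟨hl, p, hp, hp1, hp2, hp3⟩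
    · exact Or.inl ⟨i, by omega, by omega, hi3⟩
    · exact Or.inl ⟨-i, by omega, by omega, hi3⟩
    · obtain ⟨q, hq, rfl⟩ := Finset.mem_image.1 hp
      exact Or.inr ⟨hl, q, hq, hp3⟩
  · rw [X2, hcu2, hcu1]
    unfold sg
    ring

end Pool.Agent.CycSp
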