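import Pool.Agent.CycSp.Targets2

/-!
# Cycle sets of sparse graphs: sums of choices (T_ASSM, T_ASSM2)
-/

set_option autoImplicit false

namespace Pool.Agent.CycSp

open Finset
open scoped Pointwise

/-- sums of choices from the sets `X k`, `k ∈ K` -/
lemma assm_sumset (X : ℕ → Finset ℕ) (K : Finset ℕ) (h : ∀ k ∈ K, (X k).Nonempty) :
    ∃ E : Finset ℤ, ∑ k ∈ K, ((X k).card - 1) + 1 ≤ E.card ∧
      ∀ e ∈ E, ∃ N : ℕ → ℕ, (∀ k ∈ K, N k ∈ X k) ∧ ∑ k ∈ K, (N k : ℤ) = e := by
  classical
  induction K using Finset.induction_on with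
  | empty =>
    refine ⟨{0}, by simp, ?_⟩
    intro e he
    rw [mem_singleton] at he
    exact ⟨fun _ => 0, by simp, by simp [he]⟩
  | insert a K ha ih =>
    obtain ⟨E, hE, hN⟩ := ih (fun k hk => h k (mem_insert_of_mem hk))
    have hX : (X a).Nonempty := h a (mem_insert_self a K)
    have hEne : E.Nonempty := by
      rw [← card_pos]
      omega
    set Y : Finset ℤ := (X a).image (fun m : ℕ => (m : ℤ)) with hY
    have hYc : Y.card = (X a).card := by
      rw [hY]
      exact card_image_of_injective _ Nat.cast_injective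
    have hYne : Y.Nonempty := hX.image _
    refine ⟨Y + E, ?_, ?_⟩
    · have h1 := cauchy_davenport_add_of_linearOrder_isCancelAdd hYne hEne
      have h2 : 1 ≤ (X a).card := card_pos.mpr hX
      rw [sum_insert ha]
      rw [hYc] at h1
      omega
    · intro e he
      rw [mem_add] at he
      obtain ⟨y, hy, e', he', rfl⟩ := he
      rw [hY, mem_image] at hy
      obtain ⟨m, hm, rfl⟩ := hy
      obtain ⟨N, hN1, hN2⟩ := hN e' he'
      refine ⟨Function.update N a m, ?_, ?_⟩
      · intro k hk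
        by_cases hka : k = a
        · subst hka
          simpa using hm
        · rw [Function.update_of_ne hka]
          exact hN1 k ((mem_insert.mp hk).resolve_left hka)
      · rw [sum_insert ha, Function.update_self, ← hN2]
        congr 1
        refine sum_congr rfl ?_
        intro k hk
        have hka : k ≠ a := by
          rintro rfl
          exact ha hk
        rw [Function.update_of_ne hka]

theorem assm2 (B : ℕ) (K0 : Finset ℕ) (X : ℕ → Finset ℕ) (h1 : K0 ⊆ range B)
    (h2 : K0.Nonempty) (h3 : ∀ k < B, (X k).Nonempty) (h4 : ∀ k ∈ K0, 2 ≤ (X k).card) :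
    ∃ Z D : Finset ℤ, D.card = K0.card ∧ ∑ k ∈ range B \ K0, ((X k).card - 1) ≤ Z.card ∧
      ∀ z ∈ Z, ∀ d ∈ D, ∃ N : ℕ → ℕ, (∀ k < B, N k ∈ X k) ∧
        ∑ k ∈ range B, (N k : ℤ) = z - d := by
  classical
  have _h := h2
  obtain ⟨E, hE, hEN⟩ := assm_sumset X K0 (fun k hk => h3 k (mem_range.mp (h1 hk)))
  obtain ⟨Z, hZ, hZN⟩ := assm_sumset X (range B \ K0)
    (fun k hk => h3 k (mem_range.mp (mem_sdiff.mp hk).1))
  have hs : K0.card ≤ ∑ k ∈ K0, ((X k).card - 1) := by
    rw [card_eq_sum_ones]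
    refine sum_le_sum ?_
    intro k hk
    have := h4 k hk
    omega
  obtain ⟨D0, hD0, hD0c⟩ := exists_subset_card_eq (s := E) (n := K0.card) (by omega)
  refine ⟨Z, D0.image (fun e => -e), ?_, by omega, ?_⟩
  · rw [card_image_of_injective _ neg_injective, hD0c]
  · intro z hz d hd
    rw [mem_image] at hd
    obtain ⟨e, he, rfl⟩ := hd
    obtain ⟨N1, hN1, hN1s⟩ := hEN e (hD0 he)
    obtain ⟨N2, hN2, hN2s⟩ := hZN z hz
    refine ⟨fun k => if k ∈ K0 then N1 k else N2 k, ?_, ?_⟩
    · intro k hk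
      by_cases hk0 : k ∈ K0
      · simp only [hk0, if_true]
        exact hN1 k hk0
      · simp only [hk0, if_false]
        exact hN2 k (mem_sdiff.mpr ⟨mem_range.mpr hk, hk0⟩)
    · rw [← sum_sdiff h1]
      have e1 : ∑ k ∈ range B \ K0, (((if k ∈ K0 then N1 k else N2 k : ℕ)) : ℤ) = z := by
        rw [← hN2s]
        refine sum_congr rfl ?_
        intro k hk
        rw [if_neg (mem_sdiff.mp hk).2]
      have e2 : ∑ k ∈ K0, (((if k ∈ K0 then N1 k else N2 k : ℕ)) : ℤ) = e := by
        rw [← hN1s]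
        refine sum_congr rfl ?_
        intro k hk
        rw [if_pos hk]
      rw [e1, e2]
      ring

theorem p_ASSM2 : T_ASSM2 := assm2

theorem p_ASSM : T_ASSM := by
  classical
  intro B s w X hne hw hs hsc
  obtain ⟨K0, hK0, hK0c⟩ := exists_subset_card_eq hsc
  have hsub : K0 ⊆ range B := fun k hk => (mem_filter.mp (hK0 hk)).1
  have hK0ne : K0.Nonempty := by
    rw [← card_pos]
    omega
  obtain ⟨Z, D, hD, hZ, hN⟩ := assm2 B K0 X hsub hK0ne hne
    (fun k hk => (mem_filter.mp (hK0 hk)).2)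
  refine ⟨Z, D, by rw [hD, hK0c], ?_, hN⟩
  rw [← sum_sdiff hsub]
  have h5 : ∑ k ∈ K0, ((X k).card - 1) ≤ s * w := by
    rw [← hK0c, ← smul_eq_mul]
    refine sum_le_card_nsmul _ _ _ ?_
    intro k hk
    have := hw k (mem_range.mp (hsub hk))
    omega
  omega

end Pool.Agent.CycSp
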