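import Pool.Agent.CycSp.Targets

/-!
# Gluing the paths inside the blocks to a cycle
-/

set_option autoImplicit false

namespace Pool.Agent.CycSp

open Finset
open Pool.Agent.HubG (cycleSet)

section
variable {V : Type} {Gr : SimpleGraph V}

/-- Two paths with disjoint supports joined by an edge. -/
theorem join_paths {a b c d : V} (w : Gr.Walk a b) (hw : w.IsPath) (h : Gr.Adj b c)
    (w' : Gr.Walk c d) (hw' : w'.IsPath) (hd : ∀ u ∈ w.support, u ∉ w'.support) :
    ∃ x : Gr.Walk a d, x.IsPath ∧ x.length = w.length + w'.length + 1 ∧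
      ∀ u ∈ x.support, u ∈ w.support ∨ u ∈ w'.support := by
  induction w with
  | nil =>
    refine ⟨SimpleGraph.Walk.cons h w', ?_, ?_, ?_⟩
    · rw [SimpleGraph.Walk.cons_isPath_iff]
      exact ⟨hw', hd _ (by simp)⟩
    · simp
    · intro u hu
      rw [SimpleGraph.Walk.support_cons, List.mem_cons] at hu
      rcases hu with hu | hu
      · left; rw [hu]; simp
      · exact Or.inr hu
  | cons hadj p ih =>
    rw [SimpleGraph.Walk.cons_isPath_iff] at hw
    obtain ⟨x, hx1, hx2, hx3⟩ := ih hw.1 h (fun u hu => hd u (by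
      rw [SimpleGraph.Walk.support_cons, List.mem_cons]; exact Or.inr hu))
    refine ⟨SimpleGraph.Walk.cons hadj x, ?_, ?_, ?_⟩
    · rw [SimpleGraph.Walk.cons_isPath_iff]
      refine ⟨hx1, ?_⟩
      intro hu
      rcases hx3 _ hu with hu | hu
      · exact hw.2 hu
      · exact hd _ (by simp) hu
    · rw [SimpleGraph.Walk.length_cons, SimpleGraph.Walk.length_cons, hx2]
      omega
    · intro u hu
      rw [SimpleGraph.Walk.support_cons, List.mem_cons] at hu
      rw [SimpleGraph.Walk.support_cons, List.mem_cons]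
      rcases hu with hu | hu
      · exact Or.inl (Or.inl hu)
      · rcases hx3 u hu with hu | hu
        · exact Or.inl (Or.inr hu)
        · exact Or.inr hu

/-- Closing a path with at least two edges. -/
theorem close_path {a b : V} (w : Gr.Walk a b) (hw : w.IsPath) (h2 : 2 ≤ w.length)
    (h : Gr.Adj b a) : w.length + 1 ∈ cycleSet Gr := by
  refine ⟨b, SimpleGraph.Walk.cons h w, ?_, by simp⟩
  rw [SimpleGraph.Walk.cons_isCycle_iff]
  refine ⟨hw, ?_⟩
  intro he
  cases w with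
  | nil => simp at h2
  | cons hadj p =>
    rw [SimpleGraph.Walk.cons_isPath_iff] at hw
    rw [SimpleGraph.Walk.edges_cons, List.mem_cons] at he
    rcases he with he | he
    · rw [Sym2.eq_iff] at he
      rcases he with ⟨h3, _⟩ | ⟨h3, _⟩
      · exact h.ne h3
      · subst h3
        have h4 := SimpleGraph.Walk.isPath_iff_eq_nil.1 hw.1
        rw [h4] at h2
        simp at h2
    · exact hw.2 (SimpleGraph.Walk.snd_mem_support_of_mem_edges p he)

/-- A path from `c A` to `c E` which stays between `A` and `E`. -/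
def Seg (Gr : SimpleGraph V) (c v : ℤ → V) (P : Finset Pt) (lam : ℕ) (A E : ℤ) (m : ℕ) : Prop :=
  ∃ w : Gr.Walk (c A) (c E), w.IsPath ∧ w.length = m ∧
    ∀ u ∈ w.support, (∃ j, A ≤ j ∧ j ≤ E ∧ u = c j) ∨
      (lam = 2 ∧ ∃ p ∈ P, A ≤ p.1 ∧ p.1 ≤ E ∧ u = v p.1)

theorem seg_of_bpath {c v : ℤ → V} {P : Finset Pt} {lam : ℕ} {A h : ℤ} {m : ℕ} (hh : 1 ≤ h)
    (hb : BPath Gr c v lam (inBlock P A h) A (A + 2 * h - 1) m) :
    Seg Gr c v P lam A (A + 2 * h - 1) m := by
  obtain ⟨w, h1, h2, h3⟩ := hb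
  refine ⟨w, h1, h2, fun u hu => ?_⟩
  rcases h3 u hu with h4 | ⟨h4, p, hp, h5⟩
  · exact Or.inl h4
  · right
    rw [inBlock, Finset.mem_filter] at hp
    exact ⟨h4, p, hp.1, hp.2.1, by linarith [hp.2.2.1], h5⟩

theorem seg_join {L : ℤ} {c v : ℤ → V} {P : Finset Pt} {lam : ℕ} (hc : Cyc Gr L c v P lam)
    {A E E' : ℤ} {m m' : ℕ} (hA : 0 ≤ A) (hAE : A ≤ E) (hEE' : E + 1 ≤ E') (hE' : E' < L)
    (h1 : Seg Gr c v P lam A E m) (h2 : Seg Gr c v P lam (E + 1) E' m') :
    Seg Gr c v P lam A E' (m + m' + 1) := by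
  obtain ⟨w, hw1, hw2, hw3⟩ := h1
  obtain ⟨w', hw1', hw2', hw3'⟩ := h2
  have hadj : Gr.Adj (c E) (c (E + 1)) := hc.adj E (by linarith) (by linarith)
  have hd : ∀ u ∈ w.support, u ∉ w'.support := by
    intro u hu hu'
    rcases hw3 u hu with ⟨j, hj1, hj2, hj3⟩ | ⟨hl, p, hp, hp1, hp2, hp3⟩ <;>
      rcases hw3' u hu' with ⟨i, hi1, hi2, hi3⟩ | ⟨hl', q, hq, hq1, hq2, hq3⟩
    · have := hc.inj j i (by linarith) (by linarith) (by linarith) (by linarith)
        (hj3.symm.trans hi3)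
      omega
    · rcases hc.link with ⟨hl1, _⟩ | ⟨_, _, hl2, _⟩
      · omega
      · exact hl2 q hq j (by linarith) (by linarith) (hq3.symm.trans hj3)
    · rcases hc.link with ⟨hl1, _⟩ | ⟨_, _, hl2, _⟩
      · omega
      · exact hl2 p hp i (by linarith) (by linarith) (hp3.symm.trans hi3)
    · rcases hc.link with ⟨hl1, _⟩ | ⟨_, _, _, hl3⟩
      · omega
      · have := hl3 p hp q hq (hp3.symm.trans hq3)
        omega
  obtain ⟨x, hx1, hx2, hx3⟩ := join_paths w hw1 hadj w' hw1' hd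
  refine ⟨x, hx1, by rw [hx2, hw2, hw2'], ?_⟩
  intro u hu
  rcases hx3 u hu with hu | hu
  · rcases hw3 u hu with ⟨j, hj1, hj2, hj3⟩ | ⟨hl, p, hp, hp1, hp2, hp3⟩
    · exact Or.inl ⟨j, hj1, by linarith, hj3⟩
    · exact Or.inr ⟨hl, p, hp, hp1, by linarith, hp3⟩
  · rcases hw3' u hu with ⟨j, hj1, hj2, hj3⟩ | ⟨hl, p, hp, hp1, hp2, hp3⟩
    · exact Or.inl ⟨j, by linarith, hj2, hj3⟩
    · exact Or.inr ⟨hl, p, hp, by linarith, hp2, hp3⟩

theorem seg_single {c v : ℤ → V} {P : Finset Pt} {lam : ℕ} (A : ℤ) :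
    Seg Gr c v P lam A A 0 := by
  refine ⟨SimpleGraph.Walk.nil, SimpleGraph.Walk.IsPath.nil, rfl, ?_⟩
  intro u hu
  rw [SimpleGraph.Walk.support_nil, List.mem_singleton] at hu
  exact Or.inl ⟨A, le_refl _, le_refl _, hu⟩

theorem seg_run {L : ℤ} {c v : ℤ → V} {P : Finset Pt} {lam : ℕ} (hc : Cyc Gr L c v P lam)
    {A E : ℤ} {m : ℕ} (hA : 0 ≤ A) (hAE : A ≤ E) (h1 : Seg Gr c v P lam A E m) (d : ℕ)
    (hd : E + d < L) : Seg Gr c v P lam A (E + d) (m + d) := by
  induction d with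
  | zero => simpa using h1
  | succ d ih =>
    push_cast at hd
    have h2 := ih (by linarith)
    have h3 := seg_join hc hA (show A ≤ E + d by linarith [Int.natCast_nonneg d])
      (le_refl (E + (d : ℤ) + 1)) (by linarith) h2 (seg_single (E + d + 1))
    have h4 : E + ((d + 1 : ℕ) : ℤ) = E + d + 1 := by push_cast; ring
    rw [h4]
    exact h3

end

/-- BLOCKS. -/
theorem p_BLOCKS : T_BLOCKS := by
  intro V Gr L c v P lam hc h B N hh hB hBL hN
  have key : ∀ b : ℕ, b + 1 ≤ B → Seg Gr c v P lam 0 (2 * h * b + 2 * h - 1)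
      (∑ k ∈ range (b + 1), (N k + 1) - 1) := by
    intro b
    induction b with
    | zero =>
      intro h0
      have h1 := seg_of_bpath hh (hN 0 (by omega))
      simpa using h1
    | succ b ih =>
      intro h0
      have h1 := ih (by omega)
      have h2 := seg_of_bpath hh (hN (b + 1) (by omega))
      have hbB : ((b : ℤ) + 2) ≤ B := by exact_mod_cast (show b + 2 ≤ B by omega)
      have hle : 2 * h * ((b : ℤ) + 2) ≤ L := by
        refine le_trans ?_ hBL
        apply mul_le_mul_of_nonneg_left hbB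
        linarith
      have e1 : (2 * h * (b : ℤ) + 2 * h - 1) + 1 = 2 * h * ((b + 1 : ℕ) : ℤ) := by
        push_cast; ring
      rw [← e1] at h2
      have hb0 : 0 ≤ 2 * h * (b : ℤ) := by positivity
      have h3 := seg_join hc (le_refl 0) (by linarith) (by linarith) (by linarith) h1 h2
      have e2 : (2 * h * (b : ℤ) + 2 * h - 1) + 1 + 2 * h - 1
          = 2 * h * ((b + 1 : ℕ) : ℤ) + 2 * h - 1 := by
        push_cast; ring
      rw [e2] at h3
      have e3 : ∑ k ∈ range (b + 1 + 1), (N k + 1) - 1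
          = ∑ k ∈ range (b + 1), (N k + 1) - 1 + N (b + 1) + 1 := by
        rw [Finset.sum_range_succ (fun k => N k + 1) (b + 1)]
        have : 1 ≤ ∑ k ∈ range (b + 1), (N k + 1) := by
          rw [Finset.sum_range_succ]; omega
        omega
      rw [e3]
      exact h3
  have hpos : ∀ k < B, 1 ≤ N k := by
    intro k hk
    obtain ⟨w, hw1, hw2, hw3⟩ := hN k hk
    by_contra hcon
    have h0 : w.length = 0 := by omega
    have h1 := SimpleGraph.Walk.eq_of_length_eq_zero h0
    have hkB : ((k : ℤ) + 1) ≤ B := by exact_mod_cast (show k + 1 ≤ B by omega)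
    have hle : 2 * h * ((k : ℤ) + 1) ≤ L := by
      refine le_trans ?_ hBL
      apply mul_le_mul_of_nonneg_left hkB
      linarith
    have hk0 : 0 ≤ 2 * h * (k : ℤ) := by positivity
    have := hc.inj _ _ hk0 (by linarith) (by linarith) (by linarith) h1
    linarith
  have h1 := key (B - 1) (by omega)
  have hB1 : (((B - 1 : ℕ) : ℤ)) = B - 1 := by
    rw [Nat.cast_sub (by omega)]; simp
  have hBB : B - 1 + 1 = B := by omega
  rw [hBB, hB1] at h1
  have e1 : 2 * h * ((B : ℤ) - 1) + 2 * h - 1 = 2 * h * B - 1 := by ring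
  rw [e1] at h1
  have hBpos : 0 ≤ 2 * h * (B : ℤ) - 1 := by
    have : (1 : ℤ) ≤ B := by exact_mod_cast (show 1 ≤ B by omega)
    nlinarith
  obtain ⟨d, hd⟩ := Int.eq_ofNat_of_zero_le (show 0 ≤ L - 2 * h * B by linarith)
  have h2 := seg_run hc (le_refl 0) hBpos h1 d (by rw [← hd]; linarith)
  have e2 : 2 * h * (B : ℤ) - 1 + d = L - 1 := by rw [← hd]; ring
  rw [e2] at h2
  obtain ⟨w, hw1, hw2, _⟩ := h2
  have hS : 2 * B ≤ ∑ k ∈ range B, (N k + 1) := by
    calc 2 * B = ∑ k ∈ range B, 2 := by simp [mul_comm]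
      _ ≤ ∑ k ∈ range B, (N k + 1) := by
        apply Finset.sum_le_sum
        intro k hk
        have := hpos k (Finset.mem_range.1 hk)
        omega
  refine ⟨w.length + 1, close_path w hw1 (by omega) hc.last, ?_⟩
  have e3 : w.length + 1 = ∑ k ∈ range B, (N k + 1) + d := by omega
  rw [e3]
  push_cast
  rw [← hd]
  ring

end Pool.Agent.CycSp
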