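import Pool.Agent.CycSp.Targets2

/-!
# Cycle sets of all graphs: dyadic pigeonhole for the degrees
-/

set_option autoImplicit false

namespace Pool.Agent.CycSp

open Finset

namespace BUCKET_

variable {α : Type}

/-- pigeonhole -/
lemma pigeon (P : Finset α) (q : ℕ) (f : α → ℕ) (hf : ∀ p ∈ P, f p < q) (hP : 1 ≤ P.card) :
    ∃ i, P.card ≤ q * (P.filter fun p => f p = i).card := by
  by_contra hcon
  push Not at hcon
  have h1 : P.card = ∑ i ∈ range q, (P.filter fun p => f p = i).card :=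
    card_eq_sum_card_fiberwise (fun p hp => mem_coe.2 (mem_range.2 (hf p hp)))
  have hq : 0 < q := by
    obtain ⟨p, hp⟩ := card_pos.1 hP
    exact lt_of_le_of_lt (Nat.zero_le _) (hf p hp)
  have h2 : ∑ i ∈ range q, q * (P.filter fun p => f p = i).card < ∑ i ∈ range q, P.card :=
    sum_lt_sum_of_nonempty ⟨0, mem_range.2 hq⟩ (fun i _ => hcon i)
  rw [← mul_sum, ← h1, sum_const, card_range, smul_eq_mul] at h2
  exact lt_irrefl _ h2

/-- fibres of bounded size -/
lemma card_le_of_fib {β : Type} [DecidableEq β] (P : Finset α) (f : α → β) (A : Finset β) (D : ℕ)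
    (hA : ∀ p ∈ P, f p ∈ A) (h : ∀ x ∈ A, (P.filter fun p => f p = x).card ≤ D) :
    P.card ≤ D * A.card := by
  rw [card_eq_sum_card_fiberwise (f := f) (t := A) (fun p hp => mem_coe.2 (hA p hp))]
  refine (sum_le_sum h).trans ?_
  rw [sum_const, smul_eq_mul, mul_comm]

/-- large fibres -/
lemma le_card_of_fib {β : Type} [DecidableEq β] (P : Finset α) (f : α → β) (A : Finset β) (D : ℕ)
    (hA : ∀ p ∈ P, f p ∈ A) (h : ∀ x ∈ A, D ≤ (P.filter fun p => f p = x).card) :
    D * A.card ≤ P.card := by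
  rw [card_eq_sum_card_fiberwise (f := f) (t := A) (fun p hp => mem_coe.2 (hA p hp))]
  refine le_trans ?_ (sum_le_sum h)
  rw [sum_const, smul_eq_mul, mul_comm]

/-- degrees are at most `n` -/
lemma deg_le {n : ℕ} (P : Finset (Fin n × Fin n)) (x : Fin n) :
    (P.filter fun p => p.1 = x).card ≤ n := by
  have h : (P.filter fun p => p.1 = x).card ≤ (univ : Finset (Fin n)).card := by
    refine card_le_card_of_injOn Prod.snd (fun _ _ => mem_coe.2 (mem_univ _)) ?_
    intro p hp p' hp' h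
    rw [mem_coe, mem_filter] at hp hp'
    exact Prod.ext (hp.2.trans hp'.2.symm) h
  rwa [card_univ, Fintype.card_fin] at h

lemma deg_le' {n : ℕ} (P : Finset (Fin n × Fin n)) (y : Fin n) :
    (P.filter fun p => p.2 = y).card ≤ n := by
  have h : (P.filter fun p => p.2 = y).card ≤ (univ : Finset (Fin n)).card := by
    refine card_le_card_of_injOn Prod.fst (fun _ _ => mem_coe.2 (mem_univ _)) ?_
    intro p hp p' hp' h
    rw [mem_coe, mem_filter] at hp hp'
    exact Prod.ext h (hp.2.trans hp'.2.symm)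
  rwa [card_univ, Fintype.card_fin] at h

end BUCKET_

theorem p_BUCKET : T_BUCKET := by
  classical
  intro n F H q hFH hq hee
  obtain ⟨P, hP⟩ : ∃ P : Finset (Fin n × Fin n), P = univ.filter fun p => F.Adj p.1 p.2 :=
    ⟨_, rfl⟩
  have heP : ee F = P.card := by
    rw [hP, ee]
  have hPm : ∀ x y, (x, y) ∈ P ↔ F.Adj x y := by
    intro x y
    rw [hP]
    simp
  rw [heP] at hee
  -- the degrees of the first coordinates
  obtain ⟨i, hi⟩ := BUCKET_.pigeon P q (fun p => Nat.log 2 (P.filter fun p' => p'.1 = p.1).card)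
    (fun p _ => by
      rw [hq, Nat.lt_succ_iff]
      exact Nat.log_mono_right (BUCKET_.deg_le P p.1)) hee
  obtain ⟨P1, hP1⟩ : ∃ P1 : Finset (Fin n × Fin n),
      P1 = P.filter fun p => Nat.log 2 (P.filter fun p' => p'.1 = p.1).card = i := ⟨_, rfl⟩
  rw [← hP1] at hi
  have hP1m : ∀ x y, (x, y) ∈ P1 ↔ F.Adj x y ∧ Nat.log 2 (P.filter fun p' => p'.1 = x).card = i :=
    by
      intro x y
      rw [hP1, mem_filter, hPm]
  have hP1c : 1 ≤ P1.card := by
    by_contra h
    have h0 : P1.card = 0 := by omega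
    rw [h0] at hi
    omega
  -- the degrees of the second coordinates
  obtain ⟨j, hj⟩ := BUCKET_.pigeon P1 q (fun p => Nat.log 2 (P1.filter fun p' => p'.2 = p.2).card)
    (fun p _ => by
      rw [hq, Nat.lt_succ_iff]
      exact Nat.log_mono_right (BUCKET_.deg_le' P1 p.2)) hP1c
  obtain ⟨E, hE⟩ : ∃ E : Finset (Fin n × Fin n),
      E = P1.filter fun p => Nat.log 2 (P1.filter fun p' => p'.2 = p.2).card = j := ⟨_, rfl⟩
  rw [← hE] at hj
  have hEm : ∀ x y, (x, y) ∈ E ↔ (x, y) ∈ P1 ∧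
      Nat.log 2 (P1.filter fun p' => p'.2 = y).card = j := by
    intro x y
    rw [hE, mem_filter]
  have hEP1 : E ⊆ P1 := by
    rw [hE]
    exact filter_subset _ _
  have hP1P : P1 ⊆ P := by
    rw [hP1]
    exact filter_subset _ _
  have hA : ∀ x, x ∈ P1.image Prod.fst → Nat.log 2 (P.filter fun p' => p'.1 = x).card = i ∧
      (P1.filter fun p' => p'.1 = x) = (P.filter fun p' => p'.1 = x) ∧
      (P1.filter fun p' => p'.1 = x).Nonempty := by
    intro x hx
    obtain ⟨⟨x', y⟩, hp, hx'⟩ := mem_image.1 hx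
    simp only at hx'
    subst hx'
    have h1 := ((hP1m _ _).1 hp).2
    refine ⟨h1, ?_, ⟨(x', y), mem_filter.2 ⟨hp, rfl⟩⟩⟩
    ext ⟨a, b⟩
    simp only [mem_filter]
    constructor
    · rintro ⟨h2, h3⟩
      exact ⟨hP1P h2, h3⟩
    · rintro ⟨h2, h3⟩
      refine ⟨(hP1m _ _).2 ⟨(hPm _ _).1 h2, ?_⟩, h3⟩
      rw [h3]
      exact h1
  have hB : ∀ y, y ∈ E.image Prod.snd → Nat.log 2 (P1.filter fun p' => p'.2 = y).card = j ∧
      (E.filter fun p' => p'.2 = y) = (P1.filter fun p' => p'.2 = y) ∧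
      (E.filter fun p' => p'.2 = y).Nonempty := by
    intro y hy
    obtain ⟨⟨x, y'⟩, hp, hy'⟩ := mem_image.1 hy
    simp only at hy'
    subst hy'
    have h1 := ((hEm _ _).1 hp).2
    refine ⟨h1, ?_, ⟨(x, y'), mem_filter.2 ⟨hp, rfl⟩⟩⟩
    ext ⟨a, b⟩
    simp only [mem_filter]
    constructor
    · rintro ⟨h2, h3⟩
      exact ⟨hEP1 h2, h3⟩
    · rintro ⟨h2, h3⟩
      refine ⟨(hEm _ _).2 ⟨h2, ?_⟩, h3⟩
      rw [h3]
      exact h1
  have hq1 : 1 ≤ q := by omega
  have hAdeg : ∀ x ∈ P1.image Prod.fst, (P1.filter fun p => p.1 = x).card ≤ 2 ^ (i + 1) := by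
    intro x hx
    obtain ⟨h1, h2, _⟩ := hA x hx
    rw [h2, ← h1]
    exact (Nat.lt_pow_succ_log_self (by norm_num) _).le
  have hAdeg' : ∀ x ∈ P1.image Prod.fst, 2 ^ i ≤ (P1.filter fun p => p.1 = x).card := by
    intro x hx
    obtain ⟨h1, h2, h3⟩ := hA x hx
    rw [← h1]
    have h4 : (P.filter fun p => p.1 = x).card ≠ 0 := by
      rw [← h2]
      exact (card_pos.2 h3).ne'
    rw [h2]
    exact Nat.pow_log_le_self 2 h4
  have hBdeg : ∀ y ∈ E.image Prod.snd, (E.filter fun p => p.2 = y).card ≤ 2 ^ (j + 1) := by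
    intro y hy
    obtain ⟨h1, h2, _⟩ := hB y hy
    rw [h2, ← h1]
    exact (Nat.lt_pow_succ_log_self (by norm_num) _).le
  have hBdeg' : ∀ y ∈ E.image Prod.snd, 2 ^ j ≤ (E.filter fun p => p.2 = y).card := by
    intro y hy
    obtain ⟨h1, h2, h3⟩ := hB y hy
    rw [← h1]
    have h4 : (P1.filter fun p => p.2 = y).card ≠ 0 := by
      rw [← h2]
      exact (card_pos.2 h3).ne'
    rw [h2]
    exact Nat.pow_log_le_self 2 h4
  have hAH : P1.image Prod.fst ⊆ H := by
    intro x hx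
    obtain ⟨⟨x', y⟩, hp, hx'⟩ := mem_image.1 hx
    simp only at hx'
    subst hx'
    exact (hFH _ _ ((hP1m _ _).1 hp).1).1
  have hBH : E.image Prod.snd ⊆ H := by
    intro y hy
    obtain ⟨⟨x, y'⟩, hp, hy'⟩ := mem_image.1 hy
    simp only at hy'
    subst hy'
    exact (hFH _ _ ((hP1m _ _).1 (hEP1 hp)).1).2
  have hEA : ∀ x ∈ P1.image Prod.fst, (E.filter fun p => p.1 = x).card ≤ 2 ^ (i + 1) :=
    fun x hx => (card_le_card (filter_subset_filter _ hEP1)).trans (hAdeg x hx)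
  have c1 := BUCKET_.le_card_of_fib P1 Prod.fst (P1.image Prod.fst) (2 ^ i)
    (fun p hp => mem_image_of_mem _ hp) hAdeg'
  have c2 := BUCKET_.le_card_of_fib E Prod.snd (E.image Prod.snd) (2 ^ j)
    (fun p hp => mem_image_of_mem _ hp) hBdeg'
  have c3 := BUCKET_.card_le_of_fib E Prod.fst (P1.image Prod.fst) (2 ^ (i + 1))
    (fun p hp => mem_image_of_mem _ (hEP1 hp)) hEA
  have c4 := BUCKET_.card_le_of_fib E Prod.snd (E.image Prod.snd) (2 ^ (j + 1))
    (fun p hp => mem_image_of_mem _ hp) hBdeg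
  refine ⟨P1.image Prod.fst, E.image Prod.snd, E, 2 ^ (i + 1), 2 ^ (j + 1), hAH, hBH, ?_, hEA,
    hBdeg, ?_, ?_, c3.trans (Nat.mul_le_mul_left _ (card_le_card hAH)),
    c4.trans (Nat.mul_le_mul_left _ (card_le_card hBH))⟩
  · intro x y
    constructor
    · intro h
      exact ⟨mem_image.2 ⟨(x, y), hEP1 h, rfl⟩, mem_image.2 ⟨(x, y), h, rfl⟩,
        ((hP1m _ _).1 (hEP1 h)).1⟩
    · rintro ⟨h1, h2, h3⟩
      exact (hEm _ _).2 ⟨(hP1m _ _).2 ⟨h3, (hA x h1).1⟩, (hB y h2).1⟩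
  · rw [heP]
    calc P.card ≤ q * P1.card := hi
      _ ≤ q * (q * E.card) := Nat.mul_le_mul_left _ hj
      _ = q ^ 2 * E.card := by ring
  · have e1 : 2 ^ (i + 1) * (P1.image Prod.fst).card ≤ 2 * (q * E.card) := by
      calc 2 ^ (i + 1) * (P1.image Prod.fst).card = 2 * (2 ^ i * (P1.image Prod.fst).card) := by
            ring
        _ ≤ 2 * P1.card := Nat.mul_le_mul_left _ c1
        _ ≤ 2 * (q * E.card) := Nat.mul_le_mul_left _ hj
    have e2 : 2 ^ (j + 1) * (E.image Prod.snd).card ≤ 2 * E.card := by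
      calc 2 ^ (j + 1) * (E.image Prod.snd).card = 2 * (2 ^ j * (E.image Prod.snd).card) := by
            ring
        _ ≤ 2 * E.card := Nat.mul_le_mul_left _ c2
    have e3 : E.card ≤ q * E.card := Nat.le_mul_of_pos_left _ hq1
    have e4 : 4 * q * E.card = 4 * (q * E.card) := by ring
    omega

end Pool.Agent.CycSp
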