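import Pool.Agent.CycSp.Targets

/-!
# There are few cycle sets of almost-cycles
-/

set_option autoImplicit false

namespace Pool.Agent.CycSp

open Finset
open Pool.Agent.HubG (cycleSet CycSeq cycleSet_iso)

namespace CHEAP_

/-- the graph on `Fin n` with the cycle `0, …, L - 1` and the pairs in `E` -/
def HH (n L : ℕ) (E : Set (Fin n × Fin n)) : SimpleGraph (Fin n) :=
  SimpleGraph.fromRel (fun u v : Fin n => (u.val + 1 = v.val ∧ v.val < L) ∨
    (u.val = L - 1 ∧ v.val = 0) ∨ (u, v) ∈ E)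

theorem mem_offE {n : ℕ} (G : SimpleGraph (Fin n)) (L : ℕ) (W : ℕ → Fin n) (p : Fin n × Fin n) :
    p ∈ offE G L W ↔ G.Adj p.1 p.2 ∧ ¬ CE L W p.1 p.2 := by
  classical
  unfold offE
  rw [mem_filter]
  exact ⟨fun h => h.2, fun h => ⟨mem_univ _, h⟩⟩

theorem iso {n L : ℕ} {W : ℕ → Fin n} {G : SimpleGraph (Fin n)} (h : CycSeq G L W)
    (π : Equiv.Perm (Fin n)) (hπ : ∀ i, i < L → (π (W i)).val = i) :
    Nonempty (G ≃g HH n L {p | (π.symm p.1, π.symm p.2) ∈ offE G L W}) := by
  have h3 := h.three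
  have hW : ∀ (a : Fin n) (i : ℕ), i < L → (π a).val = i → a = W i := by
    intro a i hi ha
    apply π.injective
    apply Fin.ext
    rw [hπ i hi, ha]
  have hadj : ∀ a b : Fin n, ((π a).val + 1 = (π b).val ∧ (π b).val < L) ∨
      ((π a).val = L - 1 ∧ (π b).val = 0) ∨
      (π a, π b) ∈ {p : Fin n × Fin n | (π.symm p.1, π.symm p.2) ∈ offE G L W} → G.Adj a b := by
    intro a b hab
    rcases hab with ⟨h1, h2⟩ | ⟨h1, h2⟩ | h1
    · have ea := hW a (π a).val (by omega) rfl
      have eb := hW b ((π a).val + 1) (by omega) h1.symm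
      have h4 := h.adj (π a).val (by omega)
      rw [← ea, ← eb] at h4
      exact h4
    · have ea := hW a (L - 1) (by omega) h1
      have eb := hW b 0 (by omega) h2
      rw [ea, eb]
      exact h.last
    · rw [Set.mem_ofPred_eq, Equiv.symm_apply_apply, Equiv.symm_apply_apply, mem_offE] at h1
      exact h1.1
  refine ⟨⟨π, ?_⟩⟩
  intro a b
  rw [HH, SimpleGraph.fromRel_adj]
  constructor
  · rintro ⟨_, h1 | h1⟩
    · exact hadj a b h1
    · exact (hadj b a h1).symm
  · intro hab
    refine ⟨fun h1 => hab.ne (π.injective h1), ?_⟩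
    by_cases hc : CE L W a b
    · rcases hc with ⟨i, hi, ⟨rfl, rfl⟩ | ⟨rfl, rfl⟩⟩ | ⟨rfl, rfl⟩ | ⟨rfl, rfl⟩
      · left; left
        rw [hπ i (by omega), hπ (i + 1) hi]
        exact ⟨rfl, hi⟩
      · right; left
        rw [hπ i (by omega), hπ (i + 1) hi]
        exact ⟨rfl, hi⟩
      · left; right; left
        rw [hπ (L - 1) (by omega), hπ 0 (by omega)]
        exact ⟨rfl, rfl⟩
      · right; right; left
        rw [hπ (L - 1) (by omega), hπ 0 (by omega)]
        exact ⟨rfl, rfl⟩
    · left; right; right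
      rw [Set.mem_ofPred_eq, Equiv.symm_apply_apply, Equiv.symm_apply_apply, mem_offE]
      exact ⟨hab, hc⟩

theorem exists_code {X : Type} (E : Set X) (e : ℕ) (hE : E.Finite) (hc : E.ncard ≤ e) :
    ∃ f : Fin e → Option X, {p | ∃ i, f i = some p} = E := by
  classical
  have hlen : hE.toFinset.toList.length ≤ e := by
    rw [Finset.length_toList, ← Set.ncard_eq_toFinset_card E hE]
    exact hc
  refine ⟨fun i => hE.toFinset.toList[i.val]?, ?_⟩
  ext p
  rw [Set.mem_ofPred_eq]
  constructor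
  · rintro ⟨i, hi⟩
    have h1 : p ∈ hE.toFinset.toList := List.mem_of_getElem? hi
    rw [Finset.mem_toList, Set.Finite.mem_toFinset] at h1
    exact h1
  · intro hp
    have h1 : p ∈ hE.toFinset.toList := by
      rw [Finset.mem_toList, Set.Finite.mem_toFinset]
      exact hp
    obtain ⟨i, hi, h2⟩ := List.mem_iff_getElem.1 h1
    refine ⟨⟨i, by omega⟩, ?_⟩
    have h3 : hE.toFinset.toList[i]? = some hE.toFinset.toList[i] := List.getElem?_eq_getElem hi
    rw [h2] at h3
    exact h3

end CHEAP_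

open CHEAP_ in
theorem p_CHEAP : T_CHEAP := by
  classical
  intro n e
  set Φ : Fin (n + 1) × (Fin e → Option (Fin n × Fin n)) → Set ℕ :=
    fun x => cycleSet (HH n x.1.val {p | ∃ i, x.2 i = some p}) with hΦ
  have hsub : {A : Set ℕ | ∃ (G : SimpleGraph (Fin n)) (L : ℕ) (W : ℕ → Fin n), CycSeq G L W ∧
      (offE G L W).card ≤ e ∧ A = cycleSet G} ⊆ Φ '' Set.univ := by
    rintro A ⟨G, L, W, h, hc, rfl⟩
    have hinj : Function.Injective (fun i : Fin L => W i.val) := by
      intro i j hij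
      exact Fin.ext (h.inj i.val j.val i.isLt j.isLt hij)
    have hLn : L ≤ n := by
      have := Fintype.card_le_of_injective _ hinj
      simpa using this
    have hpre := Equiv.Perm.isMultiplyPretransitive (Fin n) L
    obtain ⟨π, hπ⟩ := hpre.exists_smul_eq (⟨_, hinj⟩ : Fin L ↪ Fin n)
      (Fin.castLEEmb hLn : Fin L ↪ Fin n)
    have hπ' : ∀ i, i < L → (π (W i)).val = i := by
      intro i hi
      have h1 := DFunLike.congr_fun hπ (⟨i, hi⟩ : Fin L)
      have h2 : π (W i) = Fin.castLE hLn ⟨i, hi⟩ := h1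
      rw [h2]
      rfl
    obtain ⟨f⟩ := iso h π hπ'
    set E : Set (Fin n × Fin n) := {p | (π.symm p.1, π.symm p.2) ∈ offE G L W} with hE
    have hEc : E.ncard ≤ e := by
      refine le_trans ?_ hc
      rw [← Set.ncard_coe_finset]
      refine Set.ncard_le_ncard_of_injOn (fun p => (π.symm p.1, π.symm p.2)) (fun p hp => hp) ?_
        (Set.toFinite _)
      intro p _ p' _ hpp
      rw [Prod.mk.injEq] at hpp
      exact Prod.ext (π.symm.injective hpp.1) (π.symm.injective hpp.2)
    obtain ⟨g, hg⟩ := exists_code E e (Set.toFinite _) hEc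
    refine ⟨(⟨L, by omega⟩, g), Set.mem_univ _, ?_⟩
    rw [hΦ]
    simp only
    rw [hg]
    exact (cycleSet_iso f).symm
  refine (Set.ncard_le_ncard hsub (Set.toFinite _)).trans ?_
  refine (Set.ncard_image_le (Set.toFinite _)).trans ?_
  rw [Set.ncard_univ, Nat.card_eq_fintype_card, Fintype.card_prod, Fintype.card_fin,
    Fintype.card_fun, Fintype.card_fin, Fintype.card_option, Fintype.card_prod, Fintype.card_fin,
    sq]

end Pool.Agent.CycSp
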