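import Pool.Agent.CycSp.Targets

/-!
# Cycle sets of sparse graphs: the classes of points (step 5c)
-/

set_option autoImplicit false

namespace Pool.Agent.CycSp

open Finset

/-- `f` and `g` are nested. -/
def ptn (f g : Pt) : Prop := NW f g ∨ NW g f

/-- The sup-distance. -/
def sdist (f g : Pt) : ℕ := max (f.1 - g.1).natAbs (f.2 - g.2).natAbs

/-- The property of a class; `none`: no partner; `some (j, d, k)`: a partner `p` in the direction
`d` whose distance in the coordinate `k` is at least `r ^ j`, all partners being closer than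
`r ^ (j + 1)`. -/
def ClsPr (M : Finset Pt) (r J : ℕ) : Option (Fin J × Bool × Bool) → Pt → Prop
  | none, f => ∀ g ∈ M, ¬ ptn f g
  | some (j, d, k), f => (∃ p ∈ M, (if d then NW p f else NW f p) ∧
      (if k then r ^ (j : ℕ) ≤ (f.1 - p.1).natAbs else r ^ (j : ℕ) ≤ (f.2 - p.2).natAbs)) ∧
      ∀ g ∈ M, ptn f g → sdist f g < r ^ ((j : ℕ) + 1)

theorem exists_cls {J n r : ℕ} {M : Finset Pt} {A B : ℤ} (hn : n < r ^ J) (hr : 2 ≤ r)
    (hM : ∀ p ∈ M, A ≤ p.1 ∧ p.1 < A + n ∧ B ≤ p.2 ∧ p.2 < B + n) {f : Pt} (hf : f ∈ M) :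
    ∃ c, ClsPr M r J c f := by
  classical
  by_cases h : ∃ g ∈ M, ptn f g
  · obtain ⟨g0, hg0, hfg0⟩ := h
    obtain ⟨p, hp, hmax⟩ := (M.filter (fun g => ptn f g)).exists_max_image (fun g => sdist f g)
      ⟨g0, mem_filter.2 ⟨hg0, hfg0⟩⟩
    obtain ⟨hpM, hfp⟩ := mem_filter.1 hp
    set D := sdist f p with hD
    have hpos : D ≠ 0 := by
      intro h0
      have h1 : (f.1 - p.1).natAbs ≤ D := le_max_left _ _
      have h2 : (f.1 - p.1).natAbs = 0 := by omega
      rcases hfp with h3 | h3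
      · have := h3.1; omega
      · have := h3.1; omega
    have hlt : D < n := by
      obtain ⟨a1, a2, a3, a4⟩ := hM f hf
      obtain ⟨b1, b2, b3, b4⟩ := hM p hpM
      rw [hD]
      unfold sdist
      rw [max_lt_iff]
      constructor <;> omega
    have hr1 : 1 < r := by omega
    have hlog1 : r ^ Nat.log r D ≤ D := Nat.pow_log_le_self r hpos
    have hlog2 : D < r ^ (Nat.log r D + 1) := Nat.lt_pow_succ_log_self hr1 D
    have hj : Nat.log r D < J := by
      have : r ^ Nat.log r D < r ^ J := by omega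
      exact (Nat.pow_lt_pow_iff_right hr1).1 this
    have hbd : ∀ g ∈ M, ptn f g → sdist f g < r ^ (Nat.log r D + 1) := fun g hg hfg =>
      lt_of_le_of_lt (hmax g (mem_filter.2 ⟨hg, hfg⟩)) hlog2
    have hcoord : D = (f.1 - p.1).natAbs ∨ D = (f.2 - p.2).natAbs := by
      rcases le_total (f.1 - p.1).natAbs (f.2 - p.2).natAbs with h3 | h3
      · right; rw [hD]; exact max_eq_right h3
      · left; rw [hD]; exact max_eq_left h3
    rcases hfp with h3 | h3 <;> rcases hcoord with h4 | h4
    · exact ⟨some (⟨_, hj⟩, false, true), ⟨p, hpM, by simpa using h3, by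
        simpa using h4 ▸ hlog1⟩, hbd⟩
    · exact ⟨some (⟨_, hj⟩, false, false), ⟨p, hpM, by simpa using h3, by
        simpa using h4 ▸ hlog1⟩, hbd⟩
    · exact ⟨some (⟨_, hj⟩, true, true), ⟨p, hpM, by simpa using h3, by
        simpa using h4 ▸ hlog1⟩, hbd⟩
    · exact ⟨some (⟨_, hj⟩, true, false), ⟨p, hpM, by simpa using h3, by
        simpa using h4 ▸ hlog1⟩, hbd⟩
  · push Not at h
    exact ⟨none, fun g hg => h g hg⟩

theorem cell_close {rho : ℤ} (hrho : 0 < rho) {f g : Pt} (h : cell rho f = cell rho g) :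
    f.1 < g.1 + rho ∧ f.2 < g.2 + rho := by
  unfold cell at h
  simp only [Prod.mk.injEq] at h
  obtain ⟨h1, h2⟩ := h
  constructor
  · have e1 := Int.emod_add_mul_ediv f.1 rho
    have e2 := Int.emod_add_mul_ediv g.1 rho
    have e3 := Int.emod_lt_of_pos f.1 hrho
    have e4 := Int.emod_nonneg g.1 hrho.ne'
    rw [h1] at e1
    linarith
  · have e1 := Int.emod_add_mul_ediv f.2 rho
    have e2 := Int.emod_add_mul_ediv g.2 rho
    have e3 := Int.emod_lt_of_pos f.2 hrho
    have e4 := Int.emod_nonneg g.2 hrho.ne'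
    rw [h2] at e1
    linarith

theorem scl_of_cls {J r : ℕ} {M M' : Finset Pt} (hr : 2 ≤ r) (hsub : M' ⊆ M) {j : Fin J}
    {d k : Bool} (h : ∀ f ∈ M', ClsPr M r J (some (j, d, k)) f) :
    Scl M M' ((r : ℤ) ^ (j : ℕ)) r := by
  have hrho : (0 : ℤ) < (r : ℤ) ^ (j : ℕ) := by positivity
  refine ⟨hsub, ?_, ?_⟩
  · intro f hf g hg hfg
    have h1 := (h f hf).2 g (hsub hg) (Or.inl hfg)
    unfold sdist at h1
    rw [max_lt_iff] at h1
    have h2 : ((r : ℤ) * (r : ℤ) ^ (j : ℕ)) = ((r ^ ((j : ℕ) + 1) : ℕ) : ℤ) := by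
      push_cast; ring
    rw [h2]
    obtain ⟨h3, h4⟩ := h1
    constructor <;> omega
  · intro F hF hne hcell
    have hnat : ∀ (z : ℤ), r ^ (j : ℕ) ≤ z.natAbs → (r : ℤ) ^ (j : ℕ) ≤ |z| := by
      intro z hz
      have : ((r ^ (j : ℕ) : ℕ) : ℤ) ≤ ((z.natAbs : ℕ) : ℤ) := by exact_mod_cast hz
      rw [Int.natCast_natAbs] at this
      simpa using this
    cases d <;> cases k
    · -- SE, y: the largest x
      obtain ⟨fs, hfs, hmax⟩ := F.exists_max_image (fun f => f.1) hne
      obtain ⟨p, hp, hd, hk⟩ := (h fs (hF hfs)).1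
      simp only [Bool.false_eq_true, if_false] at hd hk
      refine ⟨p, hp, -1, Or.inr ⟨rfl, fun f hf => ?_⟩⟩
      have h1 := hmax f hf
      have h2 := (cell_close hrho (hcell fs hfs f hf)).2
      have h3 := hnat _ hk
      obtain ⟨h4, h5⟩ := hd
      rw [abs_of_pos (by linarith)] at h3
      exact ⟨by linarith, by linarith⟩
    · -- SE, x: the smallest y
      obtain ⟨fs, hfs, hmax⟩ := F.exists_min_image (fun f => f.2) hne
      obtain ⟨p, hp, hd, hk⟩ := (h fs (hF hfs)).1
      simp only [Bool.false_eq_true, if_false, if_true] at hd hk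
      refine ⟨p, hp, -1, Or.inr ⟨rfl, fun f hf => ?_⟩⟩
      have h1 := hmax f hf
      have h2 := (cell_close hrho (hcell f hf fs hfs)).1
      have h3 := hnat _ hk
      obtain ⟨h4, h5⟩ := hd
      rw [abs_of_neg (by linarith)] at h3
      exact ⟨by linarith, by linarith⟩
    · -- NW, y: the smallest x
      obtain ⟨fs, hfs, hmax⟩ := F.exists_min_image (fun f => f.1) hne
      obtain ⟨p, hp, hd, hk⟩ := (h fs (hF hfs)).1
      simp only [Bool.false_eq_true, if_false, if_true] at hd hk
      refine ⟨p, hp, 1, Or.inl ⟨rfl, fun f hf => ?_⟩⟩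
      have h1 := hmax f hf
      have h2 := (cell_close hrho (hcell f hf fs hfs)).2
      have h3 := hnat _ hk
      obtain ⟨h4, h5⟩ := hd
      rw [abs_of_neg (by linarith)] at h3
      exact ⟨by linarith, by linarith⟩
    · -- NW, x: the largest y
      obtain ⟨fs, hfs, hmax⟩ := F.exists_max_image (fun f => f.2) hne
      obtain ⟨p, hp, hd, hk⟩ := (h fs (hF hfs)).1
      simp only [if_true] at hd hk
      refine ⟨p, hp, 1, Or.inl ⟨rfl, fun f hf => ?_⟩⟩
      have h1 := hmax f hf
      have h2 := (cell_close hrho (hcell fs hfs f hf)).1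
      have h3 := hnat _ hk
      obtain ⟨h4, h5⟩ := hd
      rw [abs_of_pos (by linarith)] at h3
      exact ⟨by linarith, by linarith⟩

theorem p_CLASS : T_CLASS := by
  classical
  intro J n r M A B hn hr hM
  have hex : ∀ f : Pt, ∃ c : Option (Fin J × Bool × Bool), f ∈ M → ClsPr M r J c f := by
    intro f
    by_cases hf : f ∈ M
    · obtain ⟨c, hc⟩ := exists_cls hn hr hM hf
      exact ⟨c, fun _ => hc⟩
    · exact ⟨none, fun h => absurd h hf⟩
  choose cl hcl using hex
  obtain ⟨y, -, hy⟩ := (univ : Finset (Option (Fin J × Bool × Bool))).exists_max_image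
    (fun y => (M.filter (fun f => cl f = y)).card) ⟨none, mem_univ _⟩
  refine ⟨M.filter (fun f => cl f = y), filter_subset _ _, ?_, ?_⟩
  · have h1 : M.card = ∑ z : Option (Fin J × Bool × Bool), (M.filter (fun f => cl f = z)).card :=
      card_eq_sum_card_fiberwise (fun f _ => mem_coe.2 (mem_univ _))
    rw [h1]
    refine (sum_le_card_nsmul _ _ _ (fun z _ => hy z (mem_univ z))).trans ?_
    rw [card_univ, smul_eq_mul]
    have h2 : Fintype.card (Option (Fin J × Bool × Bool)) = 4 * J + 1 := by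
      simp; ring
    rw [h2]
  · have hall : ∀ f ∈ M.filter (fun f => cl f = y), ClsPr M r J y f := by
      intro f hf
      obtain ⟨hf1, hf2⟩ := mem_filter.1 hf
      rw [← hf2]
      exact hcl f hf1
    rcases y with _ | ⟨j, d, k⟩
    · left
      intro f hf g hg hfg
      by_contra hne
      have hgM := (mem_filter.1 hg).1
      have hno := hall f hf g hgM
      unfold sg at hfg
      rcases lt_trichotomy f.1 g.1 with h | h | h
      · exact hno (Or.inl ⟨h, by linarith⟩)
      · exact hne (Prod.ext h (by linarith))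
      · exact hno (Or.inr ⟨h, by linarith⟩)
    · right
      exact ⟨j, j.2, scl_of_cls hr (filter_subset _ _) hall⟩

end Pool.Agent.CycSp
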