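import Pool.Agent.CycSp.Targets2

/-!
# Every graph with many edges contains a cluster: ball growth in the double cover
-/

set_option autoImplicit false

namespace Pool.Agent.CycSp

open Finset

namespace Cl

/-- The graph of the pairs of `E` in `A' × B'`. -/
def gr {n : ℕ} (F : SimpleGraph (Fin n)) (E : Finset (Fin n × Fin n)) (A' B' : Finset (Fin n))
    (hE : ∀ p ∈ E, F.Adj p.1 p.2) : SimpleGraph (Fin n) where
  Adj x y := (x ∈ A' ∧ y ∈ B' ∧ (x, y) ∈ E) ∨ (y ∈ A' ∧ x ∈ B' ∧ (y, x) ∈ E)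
  symm := ⟨fun _ _ h => h.symm⟩
  loopless := ⟨fun x h => by
    rcases h with h | h
    · exact (hE _ h.2.2).ne rfl
    · exact (hE _ h.2.2).ne rfl⟩

/-- `S` and `T` are reached from `u` in at most `t` steps outside `W`. -/
structure Bl {n : ℕ} (Φ : SimpleGraph (Fin n)) (A' B' W : Finset (Fin n)) (u : Fin n) (t : ℕ)
    (S T : Finset (Fin n)) : Prop where
  sA : S ⊆ A'
  sB : T ⊆ B'
  rA : ∀ z ∈ S, ∃ p : Φ.Walk u z, p.length ≤ t ∧ ∀ y ∈ p.support, y ∉ W
  rB : ∀ z ∈ T, ∃ p : Φ.Walk u z, p.length ≤ t ∧ ∀ y ∈ p.support, y ∉ W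

theorem Bl.mono {n : ℕ} {Φ : SimpleGraph (Fin n)} {A' B' W : Finset (Fin n)} {u : Fin n}
    {t t' : ℕ} {S T : Finset (Fin n)} (h : Bl Φ A' B' W u t S T) (ht : t ≤ t') :
    Bl Φ A' B' W u t' S T := by
  refine ⟨h.sA, h.sB, fun z hz => ?_, fun z hz => ?_⟩
  · obtain ⟨p, h1, h2⟩ := h.rA z hz
    exact ⟨p, h1.trans ht, h2⟩
  · obtain ⟨p, h1, h2⟩ := h.rB z hz
    exact ⟨p, h1.trans ht, h2⟩

theorem eb_le_right {n : ℕ} (E : Finset (Fin n × Fin n)) (A1 C S : Finset (Fin n)) (DY : ℕ)
    (hdeg : ∀ y, (E.filter (fun p => p.2 = y)).card ≤ DY)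
    (h : ∀ p ∈ E, p.1 ∈ A1 → p.2 ∈ C → p.2 ∈ S) : eb E A1 C ≤ DY * S.card := by
  classical
  have h1 : E.filter (fun p => p.1 ∈ A1 ∧ p.2 ∈ C) ⊆
      S.biUnion (fun y => E.filter (fun p => p.2 = y)) := by
    intro p hp
    rw [mem_filter] at hp
    rw [mem_biUnion]
    exact ⟨p.2, h p hp.1 hp.2.1 hp.2.2, by rw [mem_filter]; exact ⟨hp.1, rfl⟩⟩
  calc eb E A1 C ≤ (S.biUnion (fun y => E.filter (fun p => p.2 = y))).card := card_le_card h1
    _ ≤ S.card * DY := card_biUnion_le_card_mul _ _ _ (fun y _ => hdeg y)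
    _ = DY * S.card := Nat.mul_comm _ _

theorem eb_le_left {n : ℕ} (E : Finset (Fin n × Fin n)) (B1 C S : Finset (Fin n)) (DX : ℕ)
    (hdeg : ∀ x, (E.filter (fun p => p.1 = x)).card ≤ DX)
    (h : ∀ p ∈ E, p.1 ∈ C → p.2 ∈ B1 → p.1 ∈ S) : eb E C B1 ≤ DX * S.card := by
  classical
  have h1 : E.filter (fun p => p.1 ∈ C ∧ p.2 ∈ B1) ⊆
      S.biUnion (fun x => E.filter (fun p => p.1 = x)) := by
    intro p hp
    rw [mem_filter] at hp
    rw [mem_biUnion]
    exact ⟨p.1, h p hp.1 hp.2.1 hp.2.2, by rw [mem_filter]; exact ⟨hp.1, rfl⟩⟩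
  calc eb E C B1 ≤ (S.biUnion (fun x => E.filter (fun p => p.1 = x))).card := card_le_card h1
    _ ≤ S.card * DX := card_biUnion_le_card_mul _ _ _ (fun y _ => hdeg y)
    _ = DX * S.card := Nat.mul_comm _ _

/-- One step of the ball growth. -/
theorem step {n : ℕ} (F : SimpleGraph (Fin n)) (E : Finset (Fin n × Fin n))
    (A' B' : Finset (Fin n)) (hE : ∀ p ∈ E, F.Adj p.1 p.2) (DX DY q w : ℕ)
    (hX : ∀ x, (E.filter (fun p => p.1 = x)).card ≤ DX)
    (hY : ∀ y, (E.filter (fun p => p.2 = y)).card ≤ DY)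
    (hexp : ∀ A1 B1 : Finset (Fin n), A1 ⊆ A' → B1 ⊆ B' →
      2 * (DX * A1.card + DY * B1.card) ≤ DX * A'.card + DY * B'.card →
      DX * A1.card + DY * B1.card ≤ 64 * q ^ 2 * (eb E A1 (B' \ B1) + eb E (A' \ A1) B1))
    (W : Finset (Fin n)) (hW : W.card ≤ w) (u : Fin n) (t : ℕ) (S T : Finset (Fin n))
    (hb : Bl (gr F E A' B' hE) A' B' W u t S T)
    (hhalf : 2 * (DX * S.card + DY * T.card) ≤ DX * A'.card + DY * B'.card)
    (hbig : 128 * q ^ 2 * (w * (DX + DY)) ≤ DX * S.card + DY * T.card) :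
    ∃ S2 T2 : Finset (Fin n), Bl (gr F E A' B' hE) A' B' W u (t + 1) S2 T2 ∧
      (128 * q ^ 2 + 1) * (DX * S.card + DY * T.card) ≤
        128 * q ^ 2 * (DX * S2.card + DY * T2.card) := by
  classical
  set S2 : Finset (Fin n) := S ∪ A'.filter (fun x => x ∉ W ∧ ∃ y ∈ T, (x, y) ∈ E) with hS2
  set T2 : Finset (Fin n) := T ∪ B'.filter (fun y => y ∉ W ∧ ∃ x ∈ S, (x, y) ∈ E) with hT2
  have hSS : S ⊆ S2 := subset_union_left
  have hTT : T ⊆ T2 := subset_union_left
  refine ⟨S2, T2, ⟨?_, ?_, ?_, ?_⟩, ?_⟩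
  · exact union_subset hb.sA (filter_subset _ _)
  · exact union_subset hb.sB (filter_subset _ _)
  · intro z hz
    rw [hS2, mem_union, mem_filter] at hz
    rcases hz with hz | ⟨hzA, hzW, y, hy, hyE⟩
    · obtain ⟨p, h1, h2⟩ := hb.rA z hz
      exact ⟨p, by omega, h2⟩
    · obtain ⟨p, h1, h2⟩ := hb.rB y hy
      have hadj : (gr F E A' B' hE).Adj y z := Or.inr ⟨hzA, hb.sB hy, hyE⟩
      refine ⟨p.concat hadj, ?_, ?_⟩
      · rw [SimpleGraph.Walk.length_concat]
        omega
      · intro x hx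
        rw [SimpleGraph.Walk.support_concat, List.mem_append, List.mem_singleton] at hx
        rcases hx with hx | hx
        · exact h2 x hx
        · rw [hx]; exact hzW
  · intro z hz
    rw [hT2, mem_union, mem_filter] at hz
    rcases hz with hz | ⟨hzA, hzW, y, hy, hyE⟩
    · obtain ⟨p, h1, h2⟩ := hb.rB z hz
      exact ⟨p, by omega, h2⟩
    · obtain ⟨p, h1, h2⟩ := hb.rA y hy
      have hadj : (gr F E A' B' hE).Adj y z := Or.inl ⟨hb.sA hy, hzA, hyE⟩
      refine ⟨p.concat hadj, ?_, ?_⟩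
      · rw [SimpleGraph.Walk.length_concat]
        omega
      · intro x hx
        rw [SimpleGraph.Walk.support_concat, List.mem_append, List.mem_singleton] at hx
        rcases hx with hx | hx
        · exact h2 x hx
        · rw [hx]; exact hzW
  · have h1 := hexp S T hb.sA hb.sB hhalf
    have h2 : eb E S (B' \ T) ≤ DY * (W ∪ (T2 \ T)).card := by
      apply eb_le_right E S (B' \ T) _ DY hY
      intro p hp hp1 hp2
      rw [mem_sdiff] at hp2
      rw [mem_union, mem_sdiff]
      by_cases hpW : p.2 ∈ W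
      · exact Or.inl hpW
      · right
        refine ⟨?_, hp2.2⟩
        rw [hT2, mem_union, mem_filter]
        exact Or.inr ⟨hp2.1, hpW, p.1, hp1, hp⟩
    have h3 : eb E (A' \ S) T ≤ DX * (W ∪ (S2 \ S)).card := by
      apply eb_le_left E T (A' \ S) _ DX hX
      intro p hp hp1 hp2
      rw [mem_sdiff] at hp1
      rw [mem_union, mem_sdiff]
      by_cases hpW : p.1 ∈ W
      · exact Or.inl hpW
      · right
        refine ⟨?_, hp1.2⟩
        rw [hS2, mem_union, mem_filter]
        exact Or.inr ⟨hp1.1, hpW, p.2, hp2, hp⟩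
    have h4 : (W ∪ (T2 \ T)).card ≤ w + (T2.card - T.card) := by
      calc (W ∪ (T2 \ T)).card ≤ W.card + (T2 \ T).card := card_union_le _ _
        _ ≤ w + (T2.card - T.card) := by
          rw [card_sdiff_of_subset hTT]; omega
    have h5 : (W ∪ (S2 \ S)).card ≤ w + (S2.card - S.card) := by
      calc (W ∪ (S2 \ S)).card ≤ W.card + (S2 \ S).card := card_union_le _ _
        _ ≤ w + (S2.card - S.card) := by
          rw [card_sdiff_of_subset hSS]; omega
    obtain ⟨a, ha⟩ := Nat.exists_eq_add_of_le (card_le_card hSS)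
    obtain ⟨b, hb'⟩ := Nat.exists_eq_add_of_le (card_le_card hTT)
    have h6 : eb E S (B' \ T) ≤ DY * (w + b) := h2.trans (Nat.mul_le_mul_left _ (by omega))
    have h7 : eb E (A' \ S) T ≤ DX * (w + a) := h3.trans (Nat.mul_le_mul_left _ (by omega))
    rw [ha, hb']
    have h9 : DX * (S.card + a) + DY * (T.card + b) =
        (DX * S.card + DY * T.card) + (DX * a + DY * b) := by ring
    rw [h9]
    have h8 : DX * S.card + DY * T.card ≤ 64 * q ^ 2 * (DY * (w + b) + DX * (w + a)) :=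
      h1.trans (Nat.mul_le_mul_left _ (by omega))
    have h10 : DY * (w + b) + DX * (w + a) = w * (DX + DY) + (DX * a + DY * b) := by ring
    rw [h10] at h8
    clear h1 h2 h3 h6 h7 h9 h10 hexp
    generalize DX * S.card + DY * T.card = v at *
    generalize DX * a + DY * b = c at *
    generalize w * (DX + DY) = d at *
    generalize q ^ 2 = M at *
    nlinarith [h8, hbig]

/-- Growth during `j` steps. -/
theorem iter {n : ℕ} (F : SimpleGraph (Fin n)) (E : Finset (Fin n × Fin n))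
    (A' B' : Finset (Fin n)) (hE : ∀ p ∈ E, F.Adj p.1 p.2) (DX DY q w : ℕ) (hq : 1 ≤ q)
    (hX : ∀ x, (E.filter (fun p => p.1 = x)).card ≤ DX)
    (hY : ∀ y, (E.filter (fun p => p.2 = y)).card ≤ DY)
    (hexp : ∀ A1 B1 : Finset (Fin n), A1 ⊆ A' → B1 ⊆ B' →
      2 * (DX * A1.card + DY * B1.card) ≤ DX * A'.card + DY * B'.card →
      DX * A1.card + DY * B1.card ≤ 64 * q ^ 2 * (eb E A1 (B' \ B1) + eb E (A' \ A1) B1))
    (W : Finset (Fin n)) (hW : W.card ≤ w) (u : Fin n) (t : ℕ) (S T : Finset (Fin n))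
    (hb : Bl (gr F E A' B' hE) A' B' W u t S T)
    (hbig : 128 * q ^ 2 * (w * (DX + DY)) ≤ DX * S.card + DY * T.card) (j : ℕ) :
    ∃ S2 T2 : Finset (Fin n), Bl (gr F E A' B' hE) A' B' W u (t + j) S2 T2 ∧
      DX * S.card + DY * T.card ≤ DX * S2.card + DY * T2.card ∧
      (DX * A'.card + DY * B'.card < 2 * (DX * S2.card + DY * T2.card) ∨
      (128 * q ^ 2 + j) * (DX * S.card + DY * T.card) ≤
        128 * q ^ 2 * (DX * S2.card + DY * T2.card)) := by
  induction j with
  | zero => exact ⟨S, T, hb, le_refl _, Or.inr (le_refl _)⟩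
  | succ j ih =>
    obtain ⟨S2, T2, h1, h2, h3⟩ := ih
    by_cases hh : DX * A'.card + DY * B'.card < 2 * (DX * S2.card + DY * T2.card)
    · exact ⟨S2, T2, h1.mono (by omega), h2, Or.inl hh⟩
    · rcases h3 with h3 | h3
      · exact absurd h3 hh
      · obtain ⟨S3, T3, h4, h5⟩ := step F E A' B' hE DX DY q w hX hY hexp W hW u (t + j) S2 T2 h1
          (by omega) (hbig.trans h2)
        have hM : 1 ≤ 128 * q ^ 2 := by
          have := Nat.one_le_pow 2 q hq
          omega
        refine ⟨S3, T3, h4, ?_, Or.inr ?_⟩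
        · generalize DX * S.card + DY * T.card = v0 at *
          generalize DX * S2.card + DY * T2.card = v2 at *
          generalize DX * S3.card + DY * T3.card = v3 at *
          generalize 128 * q ^ 2 = M at *
          by_contra hlt
          have : v3 ≤ v2 := by omega
          have := Nat.mul_le_mul_left M this
          nlinarith
        · generalize DX * S.card + DY * T.card = v0 at *
          generalize DX * S2.card + DY * T2.card = v2 at *
          generalize DX * S3.card + DY * T3.card = v3 at *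
          generalize 128 * q ^ 2 = M at *
          nlinarith

/-- Doubling, `k` times. -/
theorem dbl {n : ℕ} (F : SimpleGraph (Fin n)) (E : Finset (Fin n × Fin n))
    (A' B' : Finset (Fin n)) (hE : ∀ p ∈ E, F.Adj p.1 p.2) (DX DY q w : ℕ) (hq : 1 ≤ q)
    (hX : ∀ x, (E.filter (fun p => p.1 = x)).card ≤ DX)
    (hY : ∀ y, (E.filter (fun p => p.2 = y)).card ≤ DY)
    (hexp : ∀ A1 B1 : Finset (Fin n), A1 ⊆ A' → B1 ⊆ B' →
      2 * (DX * A1.card + DY * B1.card) ≤ DX * A'.card + DY * B'.card →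
      DX * A1.card + DY * B1.card ≤ 64 * q ^ 2 * (eb E A1 (B' \ B1) + eb E (A' \ A1) B1))
    (W : Finset (Fin n)) (hW : W.card ≤ w) (u : Fin n) (t : ℕ) (S T : Finset (Fin n))
    (hb : Bl (gr F E A' B' hE) A' B' W u t S T)
    (hbig : 128 * q ^ 2 * (w * (DX + DY)) ≤ DX * S.card + DY * T.card) (k : ℕ) :
    ∃ S2 T2 : Finset (Fin n), Bl (gr F E A' B' hE) A' B' W u (t + k * (128 * q ^ 2)) S2 T2 ∧
      DX * S.card + DY * T.card ≤ DX * S2.card + DY * T2.card ∧
      (DX * A'.card + DY * B'.card < 2 * (DX * S2.card + DY * T2.card) ∨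
      2 ^ k * (DX * S.card + DY * T.card) ≤ DX * S2.card + DY * T2.card) := by
  induction k with
  | zero => exact ⟨S, T, by simpa using hb, le_refl _, Or.inr (by simp)⟩
  | succ k ih =>
    obtain ⟨S2, T2, h1, h2, h3⟩ := ih
    obtain ⟨S3, T3, h4, h5, h6⟩ := iter F E A' B' hE DX DY q w hq hX hY hexp W hW u _ S2 T2 h1
      (hbig.trans h2) (128 * q ^ 2)
    refine ⟨S3, T3, h4.mono (le_of_eq (by ring)), h2.trans h5, ?_⟩
    rcases h3 with h3 | h3
    · left
      omega
    · rcases h6 with h6 | h6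
      · exact Or.inl h6
      · right
        have hM : 0 < 128 * q ^ 2 := by
          have := Nat.one_le_pow 2 q hq
          omega
        generalize DX * S.card + DY * T.card = v0 at *
        generalize DX * S2.card + DY * T2.card = v2 at *
        generalize DX * S3.card + DY * T3.card = v3 at *
        generalize 128 * q ^ 2 = M at *
        have h7 : 2 * v2 ≤ v3 := by
          have : M * (2 * v2) ≤ M * v3 := by nlinarith
          exact Nat.le_of_mul_le_mul_left this hM
        calc 2 ^ (k + 1) * v0 = 2 * (2 ^ k * v0) := by ring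
          _ ≤ 2 * v2 := Nat.mul_le_mul_left _ h3
          _ ≤ v3 := h7

theorem eb_le_mul {n : ℕ} (E : Finset (Fin n × Fin n)) (A1 B1 : Finset (Fin n)) :
    eb E A1 B1 ≤ A1.card * B1.card := by
  classical
  rw [← card_product]
  apply card_le_card
  intro p hp
  rw [mem_filter] at hp
  rw [mem_product]
  exact hp.2

theorem eb_empty_right {n : ℕ} (E : Finset (Fin n × Fin n)) (A1 : Finset (Fin n)) :
    eb E A1 ∅ = 0 := by
  have h := eb_le_mul E A1 ∅
  rw [card_empty, Nat.mul_zero] at h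
  omega

theorem eb_empty_left {n : ℕ} (E : Finset (Fin n × Fin n)) (B1 : Finset (Fin n)) :
    eb E ∅ B1 = 0 := by
  have h := eb_le_mul E ∅ B1
  rw [card_empty, Nat.zero_mul] at h
  omega

theorem eb_single_left {n : ℕ} (E : Finset (Fin n × Fin n)) (x : Fin n) (B1 : Finset (Fin n)) :
    eb E {x} B1 ≤ (B1.filter (fun y => (x, y) ∈ E)).card := by
  classical
  apply card_le_card_of_injOn Prod.snd
  · intro p hp
    rw [mem_coe, mem_filter] at hp
    obtain ⟨h1, h2, h3⟩ := hp
    rw [mem_singleton] at h2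
    rw [mem_coe, mem_filter]
    refine ⟨h3, ?_⟩
    rw [← h2]
    exact h1
  · intro p hp p' hp' h
    rw [mem_coe, mem_filter] at hp hp'
    have h1 := hp.2.1
    have h2 := hp'.2.1
    rw [mem_singleton] at h1 h2
    exact Prod.ext (h1.trans h2.symm) h

theorem eb_single_right {n : ℕ} (E : Finset (Fin n × Fin n)) (y : Fin n) (A1 : Finset (Fin n)) :
    eb E A1 {y} ≤ (A1.filter (fun x => (x, y) ∈ E)).card := by
  classical
  apply card_le_card_of_injOn Prod.fst
  · intro p hp
    rw [mem_coe, mem_filter] at hp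
    obtain ⟨h1, h2, h3⟩ := hp
    rw [mem_singleton] at h3
    rw [mem_coe, mem_filter]
    refine ⟨h2, ?_⟩
    rw [← h3]
    exact h1
  · intro p hp p' hp' h
    rw [mem_coe, mem_filter] at hp hp'
    have h1 := hp.2.2
    have h2 := hp'.2.2
    rw [mem_singleton] at h1 h2
    exact Prod.ext h (h1.trans h2.symm)

theorem pow_big (n q : ℕ) (hq : q = Nat.log 2 n + 1) : 8 * q * n ^ 2 < 2 ^ (6 * q) := by
  have h1 : n < 2 ^ q := by
    rw [hq]
    exact Nat.lt_pow_succ_log_self (by norm_num) n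
  have h2 : q < 2 ^ q := Nat.lt_two_pow_self
  have h3 : 8 ≤ 2 ^ (3 * q) := by
    calc 8 = 2 ^ 3 := by norm_num
      _ ≤ 2 ^ (3 * q) := Nat.pow_le_pow_right (by norm_num) (by omega)
  have h4 : 0 < 2 ^ q := by positivity
  calc 8 * q * n ^ 2 ≤ 2 ^ (3 * q) * q * n ^ 2 := by gcongr
    _ ≤ 2 ^ (3 * q) * q * (2 ^ q) ^ 2 := by gcongr
    _ < 2 ^ (3 * q) * 2 ^ q * (2 ^ q) ^ 2 := by gcongr
    _ = 2 ^ (6 * q) := by ring

/-- The large ball around `u`. -/
theorem ball {n : ℕ} (F : SimpleGraph (Fin n)) (E : Finset (Fin n × Fin n))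
    (A' B' : Finset (Fin n)) (hE : ∀ p ∈ E, F.Adj p.1 p.2) (DX DY q w : ℕ)
    (hq : q = Nat.log 2 n + 1)
    (hX : ∀ x, (E.filter (fun p => p.1 = x)).card ≤ DX)
    (hY : ∀ y, (E.filter (fun p => p.2 = y)).card ≤ DY)
    (hexp : ∀ A1 B1 : Finset (Fin n), A1 ⊆ A' → B1 ⊆ B' →
      2 * (DX * A1.card + DY * B1.card) ≤ DX * A'.card + DY * B'.card →
      DX * A1.card + DY * B1.card ≤ 64 * q ^ 2 * (eb E A1 (B' \ B1) + eb E (A' \ A1) B1))
    (hV : DX * A'.card + DY * B'.card ≤ 8 * q * n ^ 2)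
    (W : Finset (Fin n)) (hW : W.card ≤ w) (u : Fin n) (S T : Finset (Fin n))
    (hb : Bl (gr F E A' B' hE) A' B' W u 1 S T)
    (hbig : 128 * q ^ 2 * (w * (DX + DY)) ≤ DX * S.card + DY * T.card)
    (h1 : 1 ≤ DX * S.card + DY * T.card) :
    ∃ S2 T2 : Finset (Fin n), Bl (gr F E A' B' hE) A' B' W u (1 + 6 * q * (128 * q ^ 2)) S2 T2 ∧
      DX * A'.card + DY * B'.card < 2 * (DX * S2.card + DY * T2.card) := by
  obtain ⟨S2, T2, h2, h3, h4⟩ := dbl F E A' B' hE DX DY q w (by omega) hX hY hexp W hW u 1 S T hb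
    hbig (6 * q)
  refine ⟨S2, T2, h2, ?_⟩
  rcases h4 with h4 | h4
  · exact h4
  · exfalso
    have h5 := pow_big n q hq
    have h6 : DX * S2.card + DY * T2.card ≤ DX * A'.card + DY * B'.card :=
      Nat.add_le_add (Nat.mul_le_mul_left _ (card_le_card h2.sA))
        (Nat.mul_le_mul_left _ (card_le_card h2.sB))
    have h7 : 2 ^ (6 * q) * 1 ≤ 2 ^ (6 * q) * (DX * S.card + DY * T.card) :=
      Nat.mul_le_mul_left _ h1
    omega

end Cl

open Cl

theorem p_CLUSTER (h1 : T_BUCKET) (h2 : T_EXPAND) : T_CLUSTER := by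
  classical
  refine ⟨8, by norm_num, ?_⟩
  intro n R F H hR hFH hee hone
  obtain ⟨q, hq⟩ : ∃ q, q = Nat.log 2 n + 1 := ⟨_, rfl⟩
  rw [← hq] at hR
  have hq1 : 1 ≤ q := by omega
  obtain ⟨A, B, E, DX, DY, hAH, hBH, hEiff, hXA, hYB, heeq, hvol, hEX, hEY⟩ :=
    h1 n F H q hFH hq hone
  have hEc : 1 ≤ E.card := by
    by_contra h
    have : E.card = 0 := by omega
    rw [this, Nat.mul_zero] at heeq
    omega
  have hEprod : ∀ p ∈ E, p.1 ∈ A ∧ p.2 ∈ B := by
    intro p hp
    have := (hEiff p.1 p.2).1 hp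
    exact ⟨this.1, this.2.1⟩
  have hE : ∀ p ∈ E, F.Adj p.1 p.2 := by
    intro p hp
    exact ((hEiff p.1 p.2).1 hp).2.2
  obtain ⟨A', B', hA', hB', heb, hvol', hexp⟩ := h2 n q A B E DX DY hq hEprod hXA hYB hvol hEc
  have hX : ∀ x, (E.filter (fun p => p.1 = x)).card ≤ DX := by
    intro x
    by_cases hx : x ∈ A
    · exact hXA x hx
    · have : E.filter (fun p => p.1 = x) = ∅ := by
        apply filter_eq_empty_iff.2
        intro p hp h
        exact hx (h ▸ (hEprod p hp).1)
      rw [this, card_empty]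
      exact Nat.zero_le _
  have hY : ∀ y, (E.filter (fun p => p.2 = y)).card ≤ DY := by
    intro x
    by_cases hx : x ∈ B
    · exact hYB x hx
    · have : E.filter (fun p => p.2 = x) = ∅ := by
        apply filter_eq_empty_iff.2
        intro p hp h
        exact hx (h ▸ (hEprod p hp).2)
      rw [this, card_empty]
      exact Nat.zero_le _
  have heb2 := eb_le_mul E A' B'
  have hA'1 : 1 ≤ A'.card := by
    by_contra h
    have h0 : A'.card = 0 := by omega
    rw [h0, Nat.zero_mul] at heb2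
    omega
  have hB'1 : 1 ≤ B'.card := by
    by_contra h
    have h0 : B'.card = 0 := by omega
    rw [h0, Nat.mul_zero] at heb2
    omega
  have hDXB : DX ≤ 8 * q * B'.card := by
    have h3 : A'.card * DX ≤ A'.card * (8 * q * B'.card) := by
      calc A'.card * DX ≤ DX * A'.card + DY * B'.card := by nlinarith
        _ ≤ 8 * q * eb E A' B' := hvol'
        _ ≤ 8 * q * (A'.card * B'.card) := Nat.mul_le_mul_left _ heb2
        _ = A'.card * (8 * q * B'.card) := by ring
    exact Nat.le_of_mul_le_mul_left h3 hA'1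
  have hDYA : DY ≤ 8 * q * A'.card := by
    have h3 : B'.card * DY ≤ B'.card * (8 * q * A'.card) := by
      calc B'.card * DY ≤ DX * A'.card + DY * B'.card := by nlinarith
        _ ≤ 8 * q * eb E A' B' := hvol'
        _ ≤ 8 * q * (A'.card * B'.card) := Nat.mul_le_mul_left _ heb2
        _ = B'.card * (8 * q * A'.card) := by ring
    exact Nat.le_of_mul_le_mul_left h3 hB'1
  obtain ⟨D, hD⟩ : ∃ D, D = min DX DY := ⟨_, rfl⟩
  have hDX : D ≤ DX := by omega
  have hDY : D ≤ DY := by omega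
  have hED : E.card ≤ D * H.card := by
    rcases le_total DX DY with h | h
    · rw [hD, min_eq_left h]; exact hEX
    · rw [hD, min_eq_right h]; exact hEY
  have hH1 : 1 ≤ H.card := by
    by_contra h
    have h0 : H.card = 0 := by omega
    rw [h0, Nat.mul_zero] at hED
    omega
  have hRD : R ^ 10 ≤ q ^ 2 * D := by
    have h3 : H.card * R ^ 10 ≤ H.card * (q ^ 2 * D) := by
      calc H.card * R ^ 10 = R ^ 10 * H.card := Nat.mul_comm _ _
        _ ≤ ee F := hee
        _ ≤ q ^ 2 * E.card := heeq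
        _ ≤ q ^ 2 * (D * H.card) := Nat.mul_le_mul_left _ hED
        _ = H.card * (q ^ 2 * D) := by ring
    exact Nat.le_of_mul_le_mul_left h3 hH1
  have hDq : 2 ^ 30 * q ^ 8 ≤ D := by
    have h3 : q ^ 2 * (2 ^ 30 * q ^ 8) ≤ q ^ 2 * D := by
      calc q ^ 2 * (2 ^ 30 * q ^ 8) = (8 * q) ^ 10 := by ring
        _ ≤ R ^ 10 := Nat.pow_le_pow_left hR 10
        _ ≤ q ^ 2 * D := hRD
    exact Nat.le_of_mul_le_mul_left h3 (by positivity)
  have hq4 : 2 ^ 16 * q ^ 4 ≤ D := by
    have : q ^ 4 ≤ q ^ 8 := Nat.pow_le_pow_right hq1 (by norm_num)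
    calc 2 ^ 16 * q ^ 4 ≤ 2 ^ 30 * q ^ 8 := Nat.mul_le_mul (by norm_num) this
      _ ≤ D := hDq
  have hq16 : 16 * q ≤ D := by
    have : q ≤ q ^ 8 := Nat.le_self_pow (by norm_num) q
    calc 16 * q ≤ 2 ^ 30 * q ^ 8 := Nat.mul_le_mul (by norm_num) this
      _ ≤ D := hDq
  obtain ⟨w, hw⟩ : ∃ w, w = D / (2 ^ 15 * q ^ 4) := ⟨_, rfl⟩
  have hq4pos : 0 < 2 ^ 15 * q ^ 4 := by positivity
  have hw1 : 2 ^ 15 * q ^ 4 * w ≤ D := by
    rw [hw]; exact Nat.mul_div_le _ _
  have hw2 : D < 2 ^ 15 * q ^ 4 * (w + 1) := by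
    rw [hw]; exact Nat.lt_mul_div_succ _ hq4pos
  have hw3 : 2 ≤ w := by
    rw [hw, Nat.le_div_iff_mul_le hq4pos]
    calc 2 * (2 ^ 15 * q ^ 4) = 2 ^ 16 * q ^ 4 := by ring
      _ ≤ D := hq4
  have hw4 : D ≤ 2 ^ 16 * q ^ 4 * w := by
    calc D ≤ 2 ^ 15 * q ^ 4 * (w + 1) := hw2.le
      _ ≤ 2 ^ 15 * q ^ 4 * (2 * w) := Nat.mul_le_mul_left _ (by omega)
      _ = 2 ^ 16 * q ^ 4 * w := by ring
  have h128 : 128 * q ^ 2 * w ≤ D := by
    calc 128 * q ^ 2 * w ≤ 2 ^ 15 * q ^ 4 * w := by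
          apply Nat.mul_le_mul_right
          exact Nat.mul_le_mul (by norm_num) (Nat.pow_le_pow_right hq1 (by norm_num))
      _ ≤ D := hw1
  have hbigD : ∀ T, DX * DY ≤ DY * (128 * q ^ 2 * T) →
      128 * q ^ 2 * (w * (DX + DY)) ≤ DY * T := by
    intro T hT
    have h3 : 2 ^ 14 * q ^ 4 * w * (DX + DY) ≤ DX * DY := by
      rcases le_total DX DY with h | h
      · calc 2 ^ 14 * q ^ 4 * w * (DX + DY) ≤ 2 ^ 14 * q ^ 4 * w * (2 * DY) :=
            Nat.mul_le_mul_left _ (by omega)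
          _ = 2 ^ 15 * q ^ 4 * w * DY := by ring
          _ ≤ D * DY := Nat.mul_le_mul_right _ hw1
          _ ≤ DX * DY := Nat.mul_le_mul_right _ hDX
      · calc 2 ^ 14 * q ^ 4 * w * (DX + DY) ≤ 2 ^ 14 * q ^ 4 * w * (2 * DX) :=
            Nat.mul_le_mul_left _ (by omega)
          _ = DX * (2 ^ 15 * q ^ 4 * w) := by ring
          _ ≤ DX * D := Nat.mul_le_mul_left _ hw1
          _ ≤ DX * DY := Nat.mul_le_mul_left _ hDY
    have h4 : 128 * q ^ 2 * (128 * q ^ 2 * (w * (DX + DY))) ≤ 128 * q ^ 2 * (DY * T) := by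
      calc 128 * q ^ 2 * (128 * q ^ 2 * (w * (DX + DY))) = 2 ^ 14 * q ^ 4 * w * (DX + DY) := by
            ring
        _ ≤ DX * DY := h3
        _ ≤ DY * (128 * q ^ 2 * T) := hT
        _ = 128 * q ^ 2 * (DY * T) := by ring
    exact Nat.le_of_mul_le_mul_left h4 (by positivity)
  have hbigD' : ∀ T, DY * DX ≤ DX * (128 * q ^ 2 * T) →
      128 * q ^ 2 * (w * (DX + DY)) ≤ DX * T := by
    intro T hT
    have h3 : 2 ^ 14 * q ^ 4 * w * (DX + DY) ≤ DY * DX := by
      rcases le_total DX DY with h | h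
      · calc 2 ^ 14 * q ^ 4 * w * (DX + DY) ≤ 2 ^ 14 * q ^ 4 * w * (2 * DY) :=
            Nat.mul_le_mul_left _ (by omega)
          _ = DY * (2 ^ 15 * q ^ 4 * w) := by ring
          _ ≤ DY * D := Nat.mul_le_mul_left _ hw1
          _ ≤ DY * DX := Nat.mul_le_mul_left _ hDX
      · calc 2 ^ 14 * q ^ 4 * w * (DX + DY) ≤ 2 ^ 14 * q ^ 4 * w * (2 * DX) :=
            Nat.mul_le_mul_left _ (by omega)
          _ = 2 ^ 15 * q ^ 4 * w * DX := by ring
          _ ≤ D * DX := Nat.mul_le_mul_right _ hw1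
          _ ≤ DY * DX := Nat.mul_le_mul_right _ hDY
    have h4 : 128 * q ^ 2 * (128 * q ^ 2 * (w * (DX + DY))) ≤ 128 * q ^ 2 * (DX * T) := by
      calc 128 * q ^ 2 * (128 * q ^ 2 * (w * (DX + DY))) = 2 ^ 14 * q ^ 4 * w * (DX + DY) := by
            ring
        _ ≤ DY * DX := h3
        _ ≤ DX * (128 * q ^ 2 * T) := hT
        _ = 128 * q ^ 2 * (DX * T) := by ring
    exact Nat.le_of_mul_le_mul_left h4 (by positivity)
  -- degrees
  have h2DX : 2 * DX ≤ DY * B'.card := by
    have h3 : 8 * q * (2 * DX) ≤ 8 * q * (DY * B'.card) := by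
      calc 8 * q * (2 * DX) = 16 * q * DX := by ring
        _ ≤ DY * DX := Nat.mul_le_mul_right _ (hq16.trans hDY)
        _ ≤ DY * (8 * q * B'.card) := Nat.mul_le_mul_left _ hDXB
        _ = 8 * q * (DY * B'.card) := by ring
    exact Nat.le_of_mul_le_mul_left h3 (by positivity)
  have h2DY : 2 * DY ≤ DX * A'.card := by
    have h3 : 8 * q * (2 * DY) ≤ 8 * q * (DX * A'.card) := by
      calc 8 * q * (2 * DY) = 16 * q * DY := by ring
        _ ≤ DX * DY := Nat.mul_le_mul_right _ (hq16.trans hDX)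
        _ ≤ DX * (8 * q * A'.card) := Nat.mul_le_mul_left _ hDYA
        _ = 8 * q * (DX * A'.card) := by ring
    exact Nat.le_of_mul_le_mul_left h3 (by positivity)
  have degX : ∀ x ∈ A', DX ≤ 64 * q ^ 2 * (B'.filter (fun y => (x, y) ∈ E)).card := by
    intro x hx
    have h3 := hexp {x} ∅ (singleton_subset_iff.2 hx) (empty_subset _)
      (by rw [card_singleton, card_empty]; omega)
    rw [card_singleton, card_empty, sdiff_empty, eb_empty_right, Nat.mul_one, Nat.mul_zero,
      Nat.add_zero, Nat.add_zero] at h3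
    exact h3.trans (Nat.mul_le_mul_left _ (eb_single_left E x B'))
  have degY : ∀ y ∈ B', DY ≤ 64 * q ^ 2 * (A'.filter (fun x => (x, y) ∈ E)).card := by
    intro y hy
    have h3 := hexp ∅ {y} (empty_subset _) (singleton_subset_iff.2 hy)
      (by rw [card_singleton, card_empty]; omega)
    rw [card_singleton, card_empty, sdiff_empty, eb_empty_left, Nat.mul_one, Nat.mul_zero,
      Nat.zero_add, Nat.zero_add] at h3
    exact h3.trans (Nat.mul_le_mul_left _ (eb_single_right E y A'))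
  have nbX : ∀ x ∈ A', ∀ W : Finset (Fin n), W.card ≤ w →
      DX ≤ 128 * q ^ 2 * ((B'.filter (fun y => (x, y) ∈ E)) \ W).card := by
    intro x hx W hW
    have h3 := degX x hx
    have h4 : (B'.filter (fun y => (x, y) ∈ E)).card ≤
        ((B'.filter (fun y => (x, y) ∈ E)) \ W).card + w := by
      have := card_le_card_sdiff_add_card (s := B'.filter (fun y => (x, y) ∈ E)) (t := W)
      omega
    have h5 : 128 * q ^ 2 * w ≤ DX := h128.trans hDX
    generalize (B'.filter (fun y => (x, y) ∈ E)).card = a at *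
    generalize ((B'.filter (fun y => (x, y) ∈ E)) \ W).card = b at *
    have h6 : 64 * q ^ 2 * a ≤ 64 * q ^ 2 * (b + w) := Nat.mul_le_mul_left _ h4
    nlinarith
  have nbY : ∀ y ∈ B', ∀ W : Finset (Fin n), W.card ≤ w →
      DY ≤ 128 * q ^ 2 * ((A'.filter (fun x => (x, y) ∈ E)) \ W).card := by
    intro x hx W hW
    have h3 := degY x hx
    have h4 : (A'.filter (fun y => (y, x) ∈ E)).card ≤
        ((A'.filter (fun y => (y, x) ∈ E)) \ W).card + w := by
      have := card_le_card_sdiff_add_card (s := A'.filter (fun y => (y, x) ∈ E)) (t := W)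
      omega
    have h5 : 128 * q ^ 2 * w ≤ DY := h128.trans hDY
    generalize (A'.filter (fun y => (y, x) ∈ E)).card = a at *
    generalize ((A'.filter (fun y => (y, x) ∈ E)) \ W).card = b at *
    have h6 : 64 * q ^ 2 * a ≤ 64 * q ^ 2 * (b + w) := Nat.mul_le_mul_left _ h4
    nlinarith
  have hD1 : 1 ≤ D := by omega
  -- the graph
  have hadjX : ∀ x ∈ A', ∀ y, y ∈ B'.filter (fun y => (x, y) ∈ E) →
      (gr F E A' B' hE).Adj x y := by
    intro x hx y hy
    rw [mem_filter] at hy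
    exact Or.inl ⟨hx, hy.1, hy.2⟩
  have hadjY : ∀ y ∈ B', ∀ x, x ∈ A'.filter (fun x => (x, y) ∈ E) →
      (gr F E A' B' hE).Adj y x := by
    intro y hy x hx
    rw [mem_filter] at hx
    exact Or.inr ⟨hx.1, hy, hx.2⟩
  -- the first ball
  have start : ∀ u ∈ A' ∪ B', ∀ W : Finset (Fin n), W.card ≤ w → u ∉ W →
      ∃ S T : Finset (Fin n), Bl (gr F E A' B' hE) A' B' W u 1 S T ∧
        128 * q ^ 2 * (w * (DX + DY)) ≤ DX * S.card + DY * T.card ∧
        1 ≤ DX * S.card + DY * T.card := by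
    intro u hu W hW huW
    rw [mem_union] at hu
    rcases hu with hu | hu
    · have h3 := nbX u hu W hW
      refine ⟨∅, (B'.filter (fun y => (u, y) ∈ E)) \ W, ⟨empty_subset _, ?_, ?_, ?_⟩, ?_, ?_⟩
      · exact sdiff_subset.trans (filter_subset _ _)
      · intro z hz
        exact absurd hz (notMem_empty z)
      · intro z hz
        rw [mem_sdiff] at hz
        have hadj := hadjX u hu z hz.1
        refine ⟨SimpleGraph.Walk.cons hadj SimpleGraph.Walk.nil, by simp, ?_⟩
        intro y hy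
        rw [SimpleGraph.Walk.support_cons, SimpleGraph.Walk.support_nil, List.mem_cons,
          List.mem_singleton] at hy
        rcases hy with hy | hy
        · rw [hy]; exact huW
        · rw [hy]; exact hz.2
      · rw [card_empty, Nat.mul_zero, Nat.zero_add]
        apply hbigD
        calc DX * DY = DY * DX := Nat.mul_comm _ _
          _ ≤ DY * (128 * q ^ 2 * ((B'.filter (fun y => (u, y) ∈ E)) \ W).card) :=
            Nat.mul_le_mul_left _ h3
      · rw [card_empty, Nat.mul_zero, Nat.zero_add]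
        apply Nat.mul_pos (by omega)
        by_contra h
        have h0 : ((B'.filter (fun y => (u, y) ∈ E)) \ W).card = 0 := by omega
        rw [h0, Nat.mul_zero] at h3
        omega
    · have h3 := nbY u hu W hW
      refine ⟨(A'.filter (fun y => (y, u) ∈ E)) \ W, ∅, ⟨?_, empty_subset _, ?_, ?_⟩, ?_, ?_⟩
      · exact sdiff_subset.trans (filter_subset _ _)
      · intro z hz
        rw [mem_sdiff] at hz
        have hadj := hadjY u hu z hz.1
        refine ⟨SimpleGraph.Walk.cons hadj SimpleGraph.Walk.nil, by simp, ?_⟩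
        intro y hy
        rw [SimpleGraph.Walk.support_cons, SimpleGraph.Walk.support_nil, List.mem_cons,
          List.mem_singleton] at hy
        rcases hy with hy | hy
        · rw [hy]; exact huW
        · rw [hy]; exact hz.2
      · intro z hz
        exact absurd hz (notMem_empty z)
      · rw [card_empty, Nat.mul_zero, Nat.add_zero]
        apply hbigD'
        calc DY * DX = DX * DY := Nat.mul_comm _ _
          _ ≤ DX * (128 * q ^ 2 * ((A'.filter (fun y => (y, u) ∈ E)) \ W).card) :=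
            Nat.mul_le_mul_left _ h3
      · rw [card_empty, Nat.mul_zero, Nat.add_zero]
        apply Nat.mul_pos (by omega)
        by_contra h
        have h0 : ((A'.filter (fun y => (y, u) ∈ E)) \ W).card = 0 := by omega
        rw [h0, Nat.mul_zero] at h3
        omega
  have hV : DX * A'.card + DY * B'.card ≤ 8 * q * n ^ 2 := by
    refine hvol'.trans (Nat.mul_le_mul_left _ ?_)
    calc eb E A' B' ≤ (univ : Finset (Fin n × Fin n)).card := card_le_card (subset_univ _)
      _ = n ^ 2 := by rw [card_univ, Fintype.card_prod, Fintype.card_fin, sq]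
  refine ⟨gr F E A' B' hE, A' ∪ B', w, ?_, ?_, ?_, ?_, ?_⟩
  · intro x y hxy
    rcases hxy with h | h
    · exact hE _ h.2.2
    · exact (hE _ h.2.2).symm
  · exact union_subset (hA'.trans hAH) (hB'.trans hBH)
  · unfold eb at heb
    obtain ⟨p, hp⟩ := card_pos.1 heb
    rw [mem_filter] at hp
    exact ⟨p.1, p.2, Or.inl ⟨hp.2.1, hp.2.2, hp.1⟩⟩
  · have hR8 : 2 ^ 16 * q ^ 6 ≤ R ^ 8 := by
      calc 2 ^ 16 * q ^ 6 ≤ 2 ^ 24 * q ^ 8 :=
            Nat.mul_le_mul (by norm_num) (Nat.pow_le_pow_right hq1 (by norm_num))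
        _ = (8 * q) ^ 8 := by ring
        _ ≤ R ^ 8 := Nat.pow_le_pow_left hR 8
    calc ee F ≤ q ^ 2 * E.card := heeq
      _ ≤ q ^ 2 * (D * H.card) := Nat.mul_le_mul_left _ hED
      _ ≤ q ^ 2 * (2 ^ 16 * q ^ 4 * w * H.card) :=
        Nat.mul_le_mul_left _ (Nat.mul_le_mul_right _ hw4)
      _ = 2 ^ 16 * q ^ 6 * (H.card * w) := by ring
      _ ≤ R ^ 8 * (H.card * w) := Nat.mul_le_mul_right _ hR8
      _ = R ^ 8 * H.card * w := by ring
  · refine ⟨?_, ?_, ?_⟩
    · intro u v huv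
      rw [mem_union, mem_union]
      rcases huv with h | h
      · exact ⟨Or.inl h.1, Or.inr h.2.1⟩
      · exact ⟨Or.inr h.2.1, Or.inl h.1⟩
    · intro W hW u hu v hv huW hvW huv
      obtain ⟨Su, Tu, hu1, hu2, hu3⟩ := start u hu W hW huW
      obtain ⟨Sv, Tv, hv1, hv2, hv3⟩ := start v hv W hW hvW
      obtain ⟨S2, T2, hb2, hc2⟩ := ball F E A' B' hE DX DY q w hq hX hY hexp hV W hW u Su Tu hu1
        hu2 hu3
      obtain ⟨S3, T3, hb3, hc3⟩ := ball F E A' B' hE DX DY q w hq hX hY hexp hV W hW v Sv Tv hv1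
        hv2 hv3
      have hcommon : ∃ z, (∃ p : (gr F E A' B' hE).Walk u z,
          p.length ≤ 1 + 6 * q * (128 * q ^ 2) ∧ ∀ y ∈ p.support, y ∉ W) ∧
          (∃ p : (gr F E A' B' hE).Walk v z,
          p.length ≤ 1 + 6 * q * (128 * q ^ 2) ∧ ∀ y ∈ p.support, y ∉ W) := by
        by_cases hS : Disjoint S2 S3
        · by_cases hT : Disjoint T2 T3
          · exfalso
            have h3 : S2.card + S3.card ≤ A'.card := by
              rw [← card_union_of_disjoint hS]
              exact card_le_card (union_subset hb2.sA hb3.sA)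
            have h4 : T2.card + T3.card ≤ B'.card := by
              rw [← card_union_of_disjoint hT]
              exact card_le_card (union_subset hb2.sB hb3.sB)
            have h5 := Nat.mul_le_mul_left DX h3
            have h6 := Nat.mul_le_mul_left DY h4
            rw [Nat.mul_add] at h5 h6
            omega
          · rw [not_disjoint_iff] at hT
            obtain ⟨z, hz1, hz2⟩ := hT
            exact ⟨z, hb2.rB z hz1, hb3.rB z hz2⟩
        · rw [not_disjoint_iff] at hS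
          obtain ⟨z, hz1, hz2⟩ := hS
          exact ⟨z, hb2.rA z hz1, hb3.rA z hz2⟩
      obtain ⟨z, ⟨p, hp1, hp2⟩, ⟨r, hr1, hr2⟩⟩ := hcommon
      refine ⟨(p.append r.reverse).bypass, SimpleGraph.Walk.bypass_isPath _, ?_, ?_⟩
      · have h3 := SimpleGraph.Walk.length_bypass_le_length (p.append r.reverse)
        rw [SimpleGraph.Walk.length_append, SimpleGraph.Walk.length_reverse] at h3
        have h4 : 2 * (1 + 6 * q * (128 * q ^ 2)) ≤ R ^ 5 := by
          have h5 : q ^ 3 ≤ q ^ 5 := Nat.pow_le_pow_right hq1 (by norm_num)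
          have h6 : 1 ≤ q ^ 5 := Nat.one_le_pow 5 q hq1
          calc 2 * (1 + 6 * q * (128 * q ^ 2)) = 2 + 1536 * q ^ 3 := by ring
            _ ≤ 2 * q ^ 5 + 1536 * q ^ 5 := by omega
            _ ≤ 2 ^ 15 * q ^ 5 := by omega
            _ = (8 * q) ^ 5 := by ring
            _ ≤ R ^ 5 := Nat.pow_le_pow_left hR 5
        omega
      · intro y hy
        have h3 := SimpleGraph.Walk.support_bypass_subset_support _ hy
        rw [SimpleGraph.Walk.mem_support_append_iff, SimpleGraph.Walk.support_reverse,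
          List.mem_reverse] at h3
        rcases h3 with h3 | h3
        · exact hp2 y h3
        · exact hr2 y h3
    · intro u hu W hW
      rw [mem_union] at hu
      rcases hu with hu | hu
      · have h3 := nbX u hu W hW
        have h4 : 0 < ((B'.filter (fun y => (u, y) ∈ E)) \ W).card := by
          by_contra h
          have h0 : ((B'.filter (fun y => (u, y) ∈ E)) \ W).card = 0 := by omega
          rw [h0, Nat.mul_zero] at h3
          omega
        obtain ⟨z, hz⟩ := card_pos.1 h4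
        rw [mem_sdiff] at hz
        exact ⟨z, hadjX u hu z hz.1, hz.2⟩
      · have h3 := nbY u hu W hW
        have h4 : 0 < ((A'.filter (fun y => (y, u) ∈ E)) \ W).card := by
          by_contra h
          have h0 : ((A'.filter (fun y => (y, u) ∈ E)) \ W).card = 0 := by omega
          rw [h0, Nat.mul_zero] at h3
          omega
        obtain ⟨z, hz⟩ := card_pos.1 h4
        rw [mem_sdiff] at hz
        exact ⟨z, hadjY u hu z hz.1, hz.2⟩

end Pool.Agent.CycSp
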