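import Pool.Agent.CycSp.Targets2

/-!
# A covering lemma for intervals
-/

set_option autoImplicit false

namespace Pool.Agent.CycSp

open Finset

theorem p_COVER : T_COVER := by
  intro M LL
  induction LL using Finset.strongInduction with
  | _ LL ih =>
    intro Z lo hi h1 h2
    rcases LL.eq_empty_or_nonempty with rfl | hne
    · simp
    obtain ⟨l₀, hl₀, hmax⟩ := LL.exists_max_image (fun l => hi l - lo l) hne
    set LL' := LL.filter (fun l => hi l < lo l₀ ∨ hi l₀ < lo l) with hLL'
    set I := Z.filter (fun z => lo l₀ ≤ z ∧ z ≤ hi l₀) with hI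
    set Z' := Z \ I with hZ'
    have hl₀' := h1 l₀ hl₀
    have hsub : LL' ⊂ LL := by
      refine Finset.filter_ssubset.2 ⟨l₀, hl₀, ?_⟩
      omega
    have hIH : LL'.card ≤ 3 * M * Z'.card := by
      refine ih LL' hsub Z' lo hi (fun l hl => h1 l (Finset.mem_filter.1 hl).1) ?_
      intro l hl
      obtain ⟨hlL, hdis⟩ := Finset.mem_filter.1 hl
      refine le_trans (h2 l hlL) (Nat.mul_le_mul_left M (Finset.card_le_card ?_))
      intro z hz
      rw [Finset.mem_filter] at hz ⊢
      refine ⟨?_, hz.2⟩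
      rw [hZ', Finset.mem_sdiff, hI, Finset.mem_filter]
      refine ⟨hz.1, ?_⟩
      rintro ⟨-, hz'⟩
      omega
    have hrest : (LL \ LL').card ≤ 3 * (hi l₀ + 1 - lo l₀) := by
      have hsub' : LL \ LL' ⊆ Finset.Icc (lo l₀ - (hi l₀ - lo l₀)) (hi l₀ + (hi l₀ - lo l₀)) := by
        intro l hl
        rw [Finset.mem_sdiff, hLL', Finset.mem_filter] at hl
        obtain ⟨hlL, hn⟩ := hl
        have hm := hmax l hlL
        have hl' := h1 l hlL
        have hn' : ¬ (hi l < lo l₀ ∨ hi l₀ < lo l) := fun h => hn ⟨hlL, h⟩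
        rw [Finset.mem_Icc]
        omega
      refine le_trans (Finset.card_le_card hsub') ?_
      rw [Nat.card_Icc]
      omega
    have hcard : LL.card = (LL \ LL').card + LL'.card := by
      rw [Finset.card_sdiff_add_card_eq_card hsub.subset]
    have hZc : Z.card = Z'.card + I.card := by
      rw [hZ', Finset.card_sdiff_add_card_eq_card (Finset.filter_subset _ _)]
    have h3 : 3 * (hi l₀ + 1 - lo l₀) ≤ 3 * M * I.card := by
      have := h2 l₀ hl₀
      calc 3 * (hi l₀ + 1 - lo l₀) ≤ 3 * (M * I.card) := Nat.mul_le_mul_left 3 this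
        _ = 3 * M * I.card := by ring
    calc LL.card = (LL \ LL').card + LL'.card := hcard
      _ ≤ 3 * M * I.card + 3 * M * Z'.card := Nat.add_le_add (hrest.trans h3) hIH
      _ = 3 * M * Z.card := by rw [hZc]; ring

end Pool.Agent.CycSp
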