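import Pool.Agent.CycSp.Targets2

/-!
# The choice of the pieces of a cycle (`T_CUT`)
-/

set_option autoImplicit false

namespace Pool.Agent.CycSp

open Finset

/-- enumeration of a nonempty finite set of naturals -/
lemma exists_enum (K : Finset ℕ) (hK : 2 ≤ K.card) (l : ℕ) (hl : ∀ k ∈ K, k < l) (h0 : 0 ∈ K)
    (h1 : l - 1 ∈ K) : ∃ e : ℕ → ℕ, (∀ i < K.card, e i ∈ K) ∧
      (∀ i j, i < j → j < K.card → e i < e j) ∧ (∀ k ∈ K, ∃ i < K.card, e i = k) ∧
      e 0 = 0 ∧ e (K.card - 1) = l - 1 := by
  classical
  refine ⟨fun i => if h : i < K.card then K.orderEmbOfFin rfl ⟨i, h⟩ else 0, ?_, ?_, ?_, ?_, ?_⟩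
  · intro i hi
    simp only [hi, dif_pos]
    exact Finset.orderEmbOfFin_mem K rfl _
  · intro i j hij hj
    have hi : i < K.card := hij.trans hj
    simp only [hi, hj, dif_pos]
    exact (K.orderEmbOfFin rfl).strictMono (by simpa using hij)
  · intro k hk
    have : k ∈ Set.range (K.orderEmbOfFin rfl) := by
      rw [Finset.range_orderEmbOfFin]; exact hk
    obtain ⟨i, hi⟩ := this
    refine ⟨i, i.isLt, ?_⟩
    simp only [i.isLt, dif_pos]
    exact hi
  · have hc : 0 < K.card := by omega
    simp only [hc, dif_pos]
    rw [Finset.orderEmbOfFin_zero rfl hc]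
    exact Nat.le_zero.mp (Finset.min'_le K 0 h0)
  · have hc : K.card - 1 < K.card := by omega
    simp only [hc, dif_pos]
    rw [Finset.orderEmbOfFin_last rfl (by omega)]
    apply le_antisymm
    · have := hl _ (Finset.max'_mem K ⟨0, h0⟩)
      omega
    · exact Finset.le_max' K _ h1

/-- merging of kept segments to intervals -/
lemma merge (K : Finset ℕ) (e : ℕ → ℕ) (h1 : ∀ i < K.card, e i ∈ K)
    (h2 : ∀ i j, i < j → j < K.card → e i < e j) (h3 : ∀ k ∈ K, ∃ i < K.card, e i = k)
    (S : Finset ℕ) (hS : ∀ i ∈ S, i + 1 < K.card) (hne : S.Nonempty) :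
    ∃ (m b : ℕ) (I : List (ℕ × ℕ)), m ∈ S ∧ (∀ i ∈ S, m ≤ i) ∧
      (∀ p ∈ (e m, b) :: I, e m ≤ p.1 ∧ p.1 < p.2 ∧ p.1 ∈ K ∧ p.2 ∈ K) ∧
      ((e m, b) :: I).Pairwise (fun p p' => p.2 < p'.1) ∧
      (∀ k ∈ K, (∃ p ∈ (e m, b) :: I, p.1 ≤ k ∧ k ≤ p.2) →
        ∃ i ∈ S, k = e i ∨ k = e (i + 1)) ∧
      tot ((e m, b) :: I) = ∑ i ∈ S, (e (i + 1) - e i) := by
  classical
  induction S using Finset.induction_on_min with
  | empty => exact absurd hne (by simp)
  | insert a S ha ih =>
    have haS : a ∉ S := fun h => lt_irrefl _ (ha a h)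
    have ha1 : a + 1 < K.card := hS a (mem_insert_self _ _)
    have hea : e a < e (a + 1) := h2 a (a + 1) (by omega) ha1
    have hKa : e a ∈ K := h1 a (by omega)
    have hKa1 : e (a + 1) ∈ K := h1 (a + 1) ha1
    have hbetween : ∀ k ∈ K, e a ≤ k → k < e (a + 1) → k = e a := by
      intro k hk hk1 hk2
      obtain ⟨i, hi, rfl⟩ := h3 k hk
      rcases lt_trichotomy i a with h | h | h
      · have := h2 i a h (by omega); omega
      · rw [h]
      · rcases Nat.lt_or_ge (a + 1) i with h' | h'
        · have := h2 (a + 1) i h' hi; omega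
        · have : i = a + 1 := by omega
          subst this; omega
    rcases S.eq_empty_or_nonempty with hSe | hSne
    · subst hSe
      refine ⟨a, e (a + 1), [], mem_insert_self _ _, ?_, ?_, ?_, ?_, ?_⟩
      · intro i hi
        simp only [insert_empty_eq, mem_singleton] at hi
        omega
      · intro p hp
        simp only [List.mem_singleton] at hp
        subst hp
        exact ⟨le_refl _, hea, hKa, hKa1⟩
      · simp
      · rintro k hk ⟨p, hp, hp1, hp2⟩
        simp only [List.mem_singleton] at hp
        subst hp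
        refine ⟨a, mem_insert_self _ _, ?_⟩
        rcases Nat.lt_or_ge k (e (a + 1)) with h | h
        · exact Or.inl (hbetween k hk hp1 h)
        · exact Or.inr (le_antisymm hp2 h)
      · simp [tot]
    · obtain ⟨m, b, I, hm, hmin, hI, hpw, hcov, htot⟩ :=
        ih (fun i hi => hS i (mem_insert_of_mem hi)) hSne
      have ham : a < m := ha m hm
      have hm1 : m + 1 < K.card := hS m (mem_insert_of_mem hm)
      have hI0 := hI (e m, b) List.mem_cons_self
      simp only at hI0
      have hle : e (a + 1) ≤ e m := by
        rcases Nat.lt_or_ge (a + 1) m with h | h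
        · exact (h2 _ _ h (by omega)).le
        · have : m = a + 1 := by omega
          rw [this]
      have hpw' := List.pairwise_cons.mp hpw
      have hmina : ∀ i ∈ insert a S, a ≤ i := by
        intro i hi
        rcases mem_insert.mp hi with h | h
        · omega
        · have := hmin i h; omega
      rcases Nat.lt_or_ge (a + 1) m with hlt | hge
      · -- a new interval
        have hlt' : e (a + 1) < e m := h2 _ _ hlt (by omega)
        refine ⟨a, e (a + 1), (e m, b) :: I, mem_insert_self _ _, hmina, ?_, ?_, ?_, ?_⟩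
        · intro p hp
          rcases List.mem_cons.mp hp with h | h
          · subst h
            exact ⟨le_refl _, hea, hKa, hKa1⟩
          · obtain ⟨q1, q2, q3, q4⟩ := hI p h
            exact ⟨by omega, q2, q3, q4⟩
        · refine List.pairwise_cons.mpr ⟨?_, hpw⟩
          intro p hp
          have := (hI p hp).1
          simp only
          omega
        · rintro k hk ⟨p, hp, hp1, hp2⟩
          rcases List.mem_cons.mp hp with h | h
          · subst h
            simp only at hp1 hp2
            refine ⟨a, mem_insert_self _ _, ?_⟩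
            rcases Nat.lt_or_ge k (e (a + 1)) with h | h
            · exact Or.inl (hbetween k hk hp1 h)
            · exact Or.inr (le_antisymm hp2 h)
          · obtain ⟨i, hi, hi'⟩ := hcov k hk ⟨p, h, hp1, hp2⟩
            exact ⟨i, mem_insert_of_mem hi, hi'⟩
        · rw [sum_insert haS, ← htot]
          simp [tot]
      · -- the first interval is extended
        have hma : m = a + 1 := by omega
        subst hma
        refine ⟨a, b, I, mem_insert_self _ _, hmina, ?_, ?_, ?_, ?_⟩
        · intro p hp
          rcases List.mem_cons.mp hp with h | h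
          · subst h
            simp only
            exact ⟨le_refl _, by omega, hKa, hI0.2.2.2⟩
          · obtain ⟨q1, q2, q3, q4⟩ := hI p (List.mem_cons_of_mem _ h)
            exact ⟨by omega, q2, q3, q4⟩
        · exact List.pairwise_cons.mpr ⟨fun p hp => hpw'.1 p hp, hpw'.2⟩
        · rintro k hk ⟨p, hp, hp1, hp2⟩
          rcases List.mem_cons.mp hp with h | h
          · subst h
            simp only at hp1 hp2
            rcases Nat.lt_or_ge k (e (a + 1)) with h | h
            · exact ⟨a, mem_insert_self _ _, Or.inl (hbetween k hk hp1 h)⟩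
            · obtain ⟨i, hi, hi'⟩ := hcov k hk ⟨(e (a + 1), b), List.mem_cons_self, h, hp2⟩
              exact ⟨i, mem_insert_of_mem hi, hi'⟩
          · obtain ⟨i, hi, hi'⟩ := hcov k hk ⟨p, List.mem_cons_of_mem _ h, hp1, hp2⟩
            exact ⟨i, mem_insert_of_mem hi, hi'⟩
        · rw [sum_insert haS, ← htot]
          simp only [tot, List.map_cons, List.sum_cons]
          omega

/-- kept segments give a family of intervals -/
lemma merge' (l : ℕ) (K : Finset ℕ) (e : ℕ → ℕ) (h1 : ∀ i < K.card, e i ∈ K)
    (h2 : ∀ i j, i < j → j < K.card → e i < e j) (h3 : ∀ k ∈ K, ∃ i < K.card, e i = k)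
    (hl : ∀ k ∈ K, k < l) (N : ℕ) (S : Finset ℕ) (hS : ∀ i ∈ S, i + 1 < K.card)
    (hne : S.Nonempty) (hN : 2 * S.card ≤ N) :
    ∃ I, IFam l K N I ∧ tot I = ∑ i ∈ S, (e (i + 1) - e i) := by
  classical
  obtain ⟨m, b, I, hm, hmin, hI, hpw, hcov, htot⟩ := merge K e h1 h2 h3 S hS hne
  refine ⟨(e m, b) :: I, ⟨by simp, ?_, hpw, ?_⟩, htot⟩
  · intro p hp
    obtain ⟨q1, q2, q3, q4⟩ := hI p hp
    exact ⟨q2, hl _ q4, q3, q4⟩
  · have hsub : (K.filter (fun k => ∃ p ∈ (e m, b) :: I, p.1 ≤ k ∧ k ≤ p.2)) ⊆
        S.image e ∪ S.image (fun i => e (i + 1)) := by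
      intro k hk
      rw [mem_filter] at hk
      obtain ⟨i, hi, hi'⟩ := hcov k hk.1 hk.2
      rw [mem_union, mem_image, mem_image]
      rcases hi' with h | h
      · exact Or.inl ⟨i, hi, h.symm⟩
      · exact Or.inr ⟨i, hi, h.symm⟩
    have hc1 := card_le_card hsub
    have hc2 := card_union_le (S.image e) (S.image (fun i => e (i + 1)))
    have hc3 : (S.image e).card ≤ S.card := card_image_le
    have hc4 : (S.image (fun i => e (i + 1))).card ≤ S.card := card_image_le
    omega

/-- a subset with `p` elements whose sum is at least the average -/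
lemma exists_top (A : Finset ℕ) (s : ℕ → ℕ) (p : ℕ) (hp : p ≤ A.card) :
    ∃ S ⊆ A, S.card = p ∧ p * ∑ i ∈ A, s i ≤ A.card * ∑ i ∈ S, s i := by
  classical
  obtain ⟨n, hn⟩ : ∃ n, A.card = p + n := ⟨A.card - p, by omega⟩
  induction n generalizing A with
  | zero => exact ⟨A, subset_refl _, by omega, by rw [hn, Nat.add_zero]⟩
  | succ n ih =>
    have hA : A.Nonempty := by
      rw [← card_pos]; omega
    obtain ⟨a, ha, hmin⟩ := exists_min_image A s hA
    have hc : (A.erase a).card = p + n := by
      rw [card_erase_of_mem ha]; omega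
    obtain ⟨S, hS, hSc, hSs⟩ := ih (A.erase a) (by omega) hc
    refine ⟨S, hS.trans (erase_subset _ _), hSc, ?_⟩
    have hsum : s a + ∑ i ∈ A.erase a, s i = ∑ i ∈ A, s i := add_sum_erase A s ha
    have hmin' : A.card * s a ≤ ∑ i ∈ A, s i := by
      calc A.card * s a = ∑ i ∈ A, s a := by rw [sum_const, smul_eq_mul]
        _ ≤ _ := sum_le_sum (fun i hi => hmin i hi)
    rcases Nat.eq_zero_or_pos p with hp0 | hp0
    · subst hp0; simp
    rw [hc] at hSs
    rw [hn] at hmin' ⊢
    set T := ∑ i ∈ A, s i with hT
    set T' := ∑ i ∈ A.erase a, s i with hT'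
    set U := ∑ i ∈ S, s i with hU
    have hpn : 0 < p + n := by omega
    -- (p + n) T ≤ (p + n + 1) T'
    have h1 : (p + n) * T ≤ (p + n + 1) * T' := by
      have : (p + (n + 1)) * s a ≤ s a + T' := by rw [hsum]; exact hmin'
      rw [← hsum]
      nlinarith
    have h2 : (p + n) * (p * T) ≤ (p + n) * ((p + (n + 1)) * U) := by
      calc (p + n) * (p * T) = p * ((p + n) * T) := by ring
        _ ≤ p * ((p + n + 1) * T') := Nat.mul_le_mul_left _ h1
        _ = (p + n + 1) * (p * T') := by ring
        _ ≤ (p + n + 1) * ((p + n) * U) := Nat.mul_le_mul_left _ hSs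
        _ = (p + n) * ((p + (n + 1)) * U) := by ring
    exact Nat.le_of_mul_le_mul_left h2 hpn

/-- enumeration of a finite set -/
lemma exists_list (A : Finset ℕ) : ∃ g : ℕ → ℕ, (∀ i < A.card, g i ∈ A) ∧
    (∀ i j, i < A.card → j < A.card → g i = g j → i = j) ∧ (range A.card).image g = A := by
  classical
  refine ⟨fun i => if h : i < A.card then A.orderEmbOfFin rfl ⟨i, h⟩ else 0, ?_, ?_, ?_⟩
  · intro i hi
    simp only [hi, dif_pos]
    exact Finset.orderEmbOfFin_mem A rfl _
  · intro i j hi hj hij
    simp only [hi, hj, dif_pos] at hij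
    have := (A.orderEmbOfFin rfl).injective hij
    simpa using this
  · ext k
    rw [mem_image]
    constructor
    · rintro ⟨i, hi, rfl⟩
      have hi := mem_range.mp hi
      simp only [hi, dif_pos]
      exact Finset.orderEmbOfFin_mem A rfl _
    · intro hk
      have : k ∈ Set.range (A.orderEmbOfFin rfl) := by
        rw [Finset.range_orderEmbOfFin]; exact hk
      obtain ⟨i, hi⟩ := this
      refine ⟨i, mem_range.mpr i.isLt, ?_⟩
      simp only [i.isLt, dif_pos]
      exact hi

/-- **The choice of the pieces.** -/
theorem p_CUT : T_CUT := by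
  classical
  intro l q p K hl2 hp hq hKl h0 h1
  have hcard : 2 ≤ K.card := by
    have hsub : ({0, l - 1} : Finset ℕ) ⊆ K := by
      intro x hx
      rw [mem_insert, mem_singleton] at hx
      rcases hx with rfl | rfl
      · exact h0
      · exact h1
    have := card_le_card hsub
    rw [card_pair (by omega)] at this
    exact this
  obtain ⟨e, e1, e2, e3, e4, e5⟩ := exists_enum K hcard l hKl h0 h1
  set r := K.card - 1 with hr
  have hmono : ∀ i, i < r → e i < e (i + 1) := fun i hi => e2 i (i + 1) (by omega) (by omega)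
  have htel : ∀ m ≤ r, ∑ i ∈ range m, (e (i + 1) - e i) = e m := by
    intro m hm
    induction m with
    | zero => simp [e4]
    | succ m ih =>
      rw [sum_range_succ, ih (by omega)]
      have := hmono m (by omega)
      omega
  have htelr := htel r le_rfl
  rw [e5] at htelr
  set s : ℕ → ℕ := fun i => e (i + 1) - e i with hs
  have hspos : ∀ i < r, 1 ≤ s i := by
    intro i hi
    have := hmono i hi
    simp only [hs]; omega
  set Lg := (range r).filter (fun i => q < s i) with hLg
  set Sh := (range r).filter (fun i => ¬ q < s i) with hSh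
  have hsplit : ∑ i ∈ Lg, s i + ∑ i ∈ Sh, s i = l - 1 := by
    rw [hLg, hSh, sum_filter_add_sum_filter_not, htelr]
  have hcsplit : Lg.card + Sh.card = r := by
    rw [hLg, hSh, card_filter_add_card_filter_not, card_range]
  have hLgr : ∀ i ∈ Lg, i < r := fun i hi => mem_range.mp (mem_filter.mp hi).1
  have hShr : ∀ i ∈ Sh, i < r := fun i hi => mem_range.mp (mem_filter.mp hi).1
  rcases Nat.lt_or_ge Lg.card p with hlt | hge
  · right
    rcases Nat.lt_or_ge (6 * p) K.card with hK | hK
    · -- many short segments
      set X := ∑ i ∈ Sh, s i with hX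
      have hShp : p ≤ Sh.card := by omega
      have hXpos : 1 ≤ X := by
        have hne : Sh.Nonempty := by rw [← card_pos]; omega
        obtain ⟨i, hi⟩ := hne
        calc 1 ≤ s i := hspos i (hShr i hi)
          _ ≤ X := single_le_sum (f := s) (fun _ _ => Nat.zero_le _) hi
      have hT0 : ∑ i ∈ Lg, s i = l - 1 - X := by omega
      refine ⟨X + 1, by omega, by omega, ?_⟩
      intro y hy1 hy2 hy3
      obtain ⟨S', hS', hS'c, hS's⟩ := exists_top Sh s p hShp
      rw [← hX] at hS's
      obtain ⟨g, g1, g2, g3⟩ := exists_list S'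
      rw [hS'c] at g1 g2 g3
      -- partial sums
      have hfull : l - (X + 1) + ∑ j ∈ range p, s (g j) ≥ y := by
        have hsum : ∑ j ∈ range p, s (g j) = ∑ i ∈ S', s i := by
          have : ∑ i ∈ S', s i = ∑ i ∈ (range p).image g, s i := by rw [g3]
          rw [this, sum_image]
          intro i hi j hj hij
          exact g2 i j (mem_range.mp (by exact_mod_cast hi)) (mem_range.mp (by exact_mod_cast hj)) hij
        rw [hsum]
        set U := ∑ i ∈ S', s i with hU
        set D := y - (l - (X + 1)) with hD
        have hDU : D ≤ U := by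
          by_contra hcon
          push Not at hcon
          have hShK : Sh.card ≤ K.card := by omega
          -- D * (2 |K|) ≤ (X + 1) p ≤ 2 X p ≤ 2 |Sh| U < 2 |K| D
          have hShpos : 0 < Sh.card := by omega
          have k1 : (X + 1) * p ≤ 2 * (p * X) := by nlinarith
          have k2 : 2 * (p * X) ≤ 2 * (Sh.card * U) := by omega
          have k3 : Sh.card * U < Sh.card * D := Nat.mul_lt_mul_of_pos_left hcon hShpos
          have k4 : Sh.card * D ≤ K.card * D := Nat.mul_le_mul_right _ hShK
          have k5 : D * (2 * K.card) = 2 * (K.card * D) := by ring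
          rw [k5] at hy3
          omega
        omega
      -- the smallest `i ≥ 1` with `T_i ≥ y`
      have hex : ∃ i, 1 ≤ i ∧ i ≤ p ∧ y ≤ l - (X + 1) + ∑ j ∈ range i, s (g j) :=
        ⟨p, hp, le_rfl, hfull⟩
      obtain ⟨i, ⟨hi1, hip, hiy⟩, himin⟩ :
          ∃ i, (1 ≤ i ∧ i ≤ p ∧ y ≤ l - (X + 1) + ∑ j ∈ range i, s (g j)) ∧
            ∀ i' < i, ¬ (1 ≤ i' ∧ i' ≤ p ∧ y ≤ l - (X + 1) + ∑ j ∈ range i', s (g j)) :=
        ⟨Nat.find hex, Nat.find_spec hex, fun i' hi' => Nat.find_min hex hi'⟩
      have hupper : l - (X + 1) + ∑ j ∈ range i, s (g j) ≤ y + q := by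
        obtain ⟨i', rfl⟩ : ∃ i', i = i' + 1 := ⟨i - 1, by omega⟩
        rw [sum_range_succ]
        have hgi : g i' ∈ Sh := hS' (g1 i' (by omega))
        have hsq : s (g i') ≤ q := by
          have := (mem_filter.mp hgi).2
          omega
        rcases Nat.eq_zero_or_pos i' with h | h
        · subst h
          simp only [range_zero, sum_empty]
          omega
        · have := himin i' (by omega)
          have h' : ¬ (y ≤ l - (X + 1) + ∑ j ∈ range i', s (g j)) := fun h' =>
            this ⟨h, by omega, h'⟩
          omega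
      -- the kept segments
      set S := Lg ∪ (range i).image g with hS
      have hgSh : ∀ j ∈ range i, g j ∈ Sh := fun j hj =>
        hS' (g1 j (by have := mem_range.mp hj; omega))
      have hdisj : Disjoint Lg ((range i).image g) := by
        rw [disjoint_left]
        intro a ha ha'
        obtain ⟨j, hj, rfl⟩ := mem_image.mp ha'
        exact (mem_filter.mp (hgSh j hj)).2 (mem_filter.mp ha).2
      have hsumS : ∑ i ∈ S, s i = l - (X + 1) + ∑ j ∈ range i, s (g j) := by
        rw [hS, sum_union hdisj, hT0, sum_image]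
        · congr 1
          omega
        · intro a ha b hb hab
          have ha' : a < i := by simpa using ha
          have hb' : b < i := by simpa using hb
          exact g2 a b (by omega) (by omega) hab
      have hScard : 2 * S.card ≤ 6 * p := by
        have hcu : S.card ≤ Lg.card + ((range i).image g).card := card_union_le _ _
        have h' : ((range i).image g).card ≤ i := by
          calc _ ≤ (range i).card := card_image_le
            _ = i := card_range i
        omega
      have hSr : ∀ a ∈ S, a + 1 < K.card := by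
        intro a ha
        rcases mem_union.mp ha with h | h
        · have := hLgr a h; omega
        · obtain ⟨j, hj, rfl⟩ := mem_image.mp h
          have := hShr _ (hgSh j hj); omega
      have hSne : S.Nonempty := ⟨g 0, mem_union_right _ (mem_image_of_mem g (mem_range.mpr hi1))⟩
      obtain ⟨I, hI, hItot⟩ := merge' l K e e1 e2 e3 hKl (6 * p) S hSr hSne hScard
      refine ⟨I, hI, ?_, ?_, ?_⟩
      · rw [hItot]
        change y ≤ ∑ i ∈ S, s i
        rw [hsumS]; exact hiy
      · rw [hItot]
        change ∑ i ∈ S, s i ≤ y + q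
        rw [hsumS]; exact hupper
      · rw [hItot]
        change ∑ i ∈ S, s i ≤ l
        have : ∑ i ∈ S, s i ≤ ∑ i ∈ range r, s i := by
          apply sum_le_sum_of_subset
          intro a ha
          have := hSr a ha
          exact mem_range.mpr (by omega)
        have h' : ∑ i ∈ range r, s i = l - 1 := htelr
        omega
    · -- few points
      refine ⟨1, le_rfl, by omega, ?_⟩
      intro y hy1 hy2 _
      refine ⟨[(0, l - 1)], ⟨by simp, ?_, by simp, ?_⟩, ?_, ?_, ?_⟩
      · intro a ha
        simp only [List.mem_singleton] at ha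
        subst ha
        exact ⟨by simp only; omega, by simp only; omega, h0, h1⟩
      · exact (card_filter_le _ _).trans hK
      · simp only [tot, List.map_cons, List.map_nil, List.sum_cons, List.sum_nil]; omega
      · simp only [tot, List.map_cons, List.map_nil, List.sum_cons, List.sum_nil]; omega
      · simp only [tot, List.map_cons, List.map_nil, List.sum_cons, List.sum_nil]; omega
  · left
    obtain ⟨g, g1, g2, g3⟩ := exists_list Lg
    have hfam : ∀ i, ∃ I, i < p → (IFam l K (6 * p) I ∧ tot I = ∑ j ∈ range (i + 1), s (g j)) := by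
      intro i
      by_cases hi : i < p
      · have hinj : ∀ a b, a < i + 1 → b < i + 1 → g a = g b → a = b := fun a b ha hb hab =>
          g2 a b (by omega) (by omega) hab
        obtain ⟨I, hI, hIt⟩ := merge' l K e e1 e2 e3 hKl (6 * p) ((range (i + 1)).image g)
          (by
            intro a ha
            obtain ⟨j, hj, rfl⟩ := mem_image.mp ha
            have := mem_range.mp hj
            have := hLgr _ (g1 j (by omega))
            omega)
          ⟨g 0, mem_image_of_mem g (mem_range.mpr (by omega))⟩
          (by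
            have : ((range (i + 1)).image g).card ≤ i + 1 := by
              calc _ ≤ (range (i + 1)).card := card_image_le
                _ = i + 1 := card_range _
            omega)
        refine ⟨I, fun _ => ⟨hI, ?_⟩⟩
        rw [hIt]
        change ∑ a ∈ (range (i + 1)).image g, s a = _
        rw [sum_image]
        intro a ha b hb hab
        have ha' : a < i + 1 := by simpa using ha
        have hb' : b < i + 1 := by simpa using hb
        exact hinj a b ha' hb' hab
      · exact ⟨[], fun h => absurd h hi⟩
    choose I hI using hfam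
    refine ⟨I, fun i hi => (hI i hi).1, ?_⟩
    intro i hi
    rw [(hI i (by omega)).2, (hI (i + 1) hi).2, sum_range_succ _ (i + 1)]
    have : q < s (g (i + 1)) := (mem_filter.mp (g1 (i + 1) (by omega))).2
    omega

end Pool.Agent.CycSp
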