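import Pool.Agent.CycSp.Targets

/-!
# Cycle sets of sparse graphs: the dyadic decomposition
-/

set_option autoImplicit false

namespace Pool.Agent.CycSp

open Finset

/-- The top bit at which two numbers differ. -/
theorem topbit {x y : ℕ} (h : x < y) : ∃ j k : ℕ, 2 ^ j ≤ y ∧ 2 ^ (j + 1) * k ≤ x ∧
    x < 2 ^ (j + 1) * k + 2 ^ j ∧ 2 ^ (j + 1) * k + 2 ^ j ≤ y ∧
    y < 2 ^ (j + 1) * k + 2 ^ (j + 1) := by
  have hex : ∃ j, x / 2 ^ j = y / 2 ^ j := by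
    refine ⟨y, ?_⟩
    rw [Nat.div_eq_of_lt (h.trans Nat.lt_two_pow_self), Nat.div_eq_of_lt Nat.lt_two_pow_self]
  obtain ⟨j', hj', hmin⟩ : ∃ j', x / 2 ^ j' = y / 2 ^ j' ∧ ∀ i < j', x / 2 ^ i ≠ y / 2 ^ i :=
    ⟨Nat.find hex, Nat.find_spec hex, fun i hi => Nat.find_min hex hi⟩
  rcases j' with _ | j
  · simp at hj'
    omega
  have hne := hmin j (Nat.lt_succ_self j)
  have hle : x / 2 ^ j ≤ y / 2 ^ j := Nat.div_le_div_right h.le
  have hx2 : x / 2 ^ (j + 1) = x / 2 ^ j / 2 := by rw [pow_succ, Nat.div_div_eq_div_mul]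
  have hy2 : y / 2 ^ (j + 1) = y / 2 ^ j / 2 := by rw [pow_succ, Nat.div_div_eq_div_mul]
  rw [hx2, hy2] at hj'
  obtain ⟨k, hk⟩ : ∃ k, k = x / 2 ^ j / 2 := ⟨_, rfl⟩
  have hxk : x / 2 ^ j = 2 * k := by omega
  have hyk : y / 2 ^ j = 2 * k + 1 := by omega
  have hpos : 0 < 2 ^ j := by positivity
  have e1 : 2 ^ j * (2 * k) ≤ x := by
    rw [← hxk]; exact Nat.mul_div_le x _
  have e2 : x < 2 ^ j * (2 * k + 1) := by
    rw [← hxk]; exact Nat.lt_mul_div_succ x hpos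
  have e3 : 2 ^ j * (2 * k + 1) ≤ y := by
    rw [← hyk]; exact Nat.mul_div_le y _
  have e4 : y < 2 ^ j * (2 * k + 1 + 1) := by
    rw [← hyk]; exact Nat.lt_mul_div_succ y hpos
  have f1 : 2 ^ (j + 1) * k = 2 ^ j * (2 * k) := by rw [pow_succ]; ring
  have f2 : 2 ^ (j + 1) = 2 ^ j * 2 := pow_succ _ _
  refine ⟨j, k, ?_, ?_, ?_, ?_, ?_⟩
  · nlinarith
  · rw [f1]; exact e1
  · rw [f1]; nlinarith
  · rw [f1]; nlinarith
  · rw [f1, f2]; nlinarith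

theorem p_DYADIC : T_DYADIC := by
  intro n P hP
  have hsub : P ⊆ (range (Nat.log 2 n + 1)).biUnion (fun j =>
      (range (n / 2 ^ (j + 1) + 1)).biUnion (fun k => inBlock P (2 * 2 ^ j * k) (2 ^ j))) := by
    intro p hp
    obtain ⟨h0, h1, h2⟩ := hP p hp
    obtain ⟨x, hx⟩ : ∃ x : ℕ, (x : ℤ) = p.1 := ⟨p.1.toNat, Int.toNat_of_nonneg h0⟩
    obtain ⟨y, hy⟩ : ∃ y : ℕ, (y : ℤ) = p.2 := ⟨p.2.toNat, Int.toNat_of_nonneg (by omega)⟩
    have hxy : x < y := by omega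
    have hyn : y < n := by omega
    obtain ⟨j, k, g0, g1, g2, g3, g4⟩ := topbit hxy
    rw [mem_biUnion]
    refine ⟨j, ?_, ?_⟩
    · rw [mem_range, Nat.lt_succ_iff]
      exact Nat.le_log_of_pow_le (by norm_num) (g0.trans hyn.le)
    rw [mem_biUnion]
    refine ⟨k, ?_, ?_⟩
    · rw [mem_range, Nat.lt_succ_iff, Nat.le_div_iff_mul_le (by positivity), mul_comm]
      exact g1.trans (hxy.le.trans hyn.le)
    · have c1 : ((2 ^ (j + 1) * k : ℕ) : ℤ) = 2 * 2 ^ j * (k : ℤ) := by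
        push_cast; ring
      have c2 : ((2 ^ j : ℕ) : ℤ) = 2 ^ j := by push_cast; ring
      have c3 : ((2 ^ (j + 1) : ℕ) : ℤ) = 2 * 2 ^ j := by push_cast; ring
      rw [inBlock, mem_filter, ← hx, ← hy]
      refine ⟨hp, ?_, ?_, ?_, ?_⟩
      · rw [← c1]; exact_mod_cast g1
      · rw [← c1, ← c2]; exact_mod_cast g2
      · rw [← c1, ← c2]; exact_mod_cast g3
      · rw [← c1, ← c3]; exact_mod_cast g4
  have hcard : P.card ≤ ∑ j ∈ range (Nat.log 2 n + 1),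
      ∑ k ∈ range (n / 2 ^ (j + 1) + 1), (inBlock P (2 * 2 ^ j * k) (2 ^ j)).card := by
    refine (card_le_card hsub).trans (card_biUnion_le.trans ?_)
    exact sum_le_sum fun j _ => card_biUnion_le
  obtain ⟨j, hj, hjle⟩ : ∃ j ∈ range (Nat.log 2 n + 1), P.card ≤ (Nat.log 2 n + 1) *
      ∑ k ∈ range (n / 2 ^ (j + 1) + 1), (inBlock P (2 * 2 ^ j * k) (2 ^ j)).card := by
    by_contra hcon
    push Not at hcon
    have h1 : ∑ j ∈ range (Nat.log 2 n + 1), (Nat.log 2 n + 1) *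
        ∑ k ∈ range (n / 2 ^ (j + 1) + 1), (inBlock P (2 * 2 ^ j * k) (2 ^ j)).card <
        ∑ _j ∈ range (Nat.log 2 n + 1), P.card :=
      sum_lt_sum_of_nonempty ⟨0, by simp⟩ hcon
    rw [← mul_sum, sum_const, card_range, smul_eq_mul] at h1
    exact absurd (Nat.mul_le_mul_left (Nat.log 2 n + 1) hcard) (not_le.mpr h1)
  refine ⟨j, ?_, hjle⟩
  rw [mem_range, Nat.lt_succ_iff] at hj
  rcases Nat.eq_zero_or_pos n with hn | hn
  · subst hn
    simp at hj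
    subst hj
    simp
  · exact (Nat.pow_le_of_le_log (by omega) hj).trans (Nat.le_succ n)

end Pool.Agent.CycSp
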