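import Mathlib
import Pool.Agent.HubG.Graph

/-!
# Cycle sets of sparse graphs: definitions
-/

set_option autoImplicit false

namespace Pool.Agent.CycSp

open Finset
open scoped Pointwise
open Pool.Agent.HubG (cycleSet CycSeq)

/-- Points of the plane; a chord with ends `x` and `y`. -/
abbrev Pt : Type := ℤ × ℤ

/-- The sum coordinate. -/
def sg (p : Pt) : ℤ := p.1 + p.2

/-- The length coordinate. -/
def ln (p : Pt) : ℤ := p.2 - p.1

/-- `p` is south-west of `q` (crossing chords). -/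
def SW (p q : Pt) : Prop := p.1 < q.1 ∧ p.2 < q.2

/-- `p` is north-west of `q` (nested chords, `p` is the outer one). -/
def NW (p q : Pt) : Prop := p.1 < q.1 ∧ q.2 < p.2

/-- The mirror image. -/
def mir (p : Pt) : Pt := (p.1, -p.2)

/-- Every point of `A` is south-west of every point of `B`. -/
def AllSW (A B : Finset Pt) : Prop := ∀ a ∈ A, ∀ b ∈ B, SW a b

/-- A unit: a finite set `F` of variable points, a fixed point `p` and the sign `e` of the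
contribution of the variable point. -/
structure UnitD : Type where
  /-- the variable points -/
  F : Finset Pt
  /-- the fixed point -/
  p : Pt
  /-- the sign -/
  e : ℤ

/-- `e = 1`: the fixed point is NW of all variable points; `e = -1`: it is SE of all of them. -/
def UnitD.Ok (U : UnitD) : Prop :=
  (U.e = 1 ∧ ∀ f ∈ U.F, NW U.p f) ∨ (U.e = -1 ∧ ∀ f ∈ U.F, NW f U.p)

/-- All points of a unit. -/
def UnitD.pts (U : UnitD) : Finset Pt := insert U.p U.F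

/-- The contributions of the variable points of a unit. -/
def UnitD.vals (U : UnitD) : Finset ℤ := U.F.image (fun f => U.e * ln f)

/-- The sums of contributions of a list of units. -/
def TT : List UnitD → Finset ℤ
  | [] => {0}
  | U :: us => U.vals + TT us

/-- The contribution of the fixed points. -/
def KK : List UnitD → ℤ
  | [] => 0
  | U :: us => U.e * ln U.p + KK us

/-- The selected structure `Q << U_1 << … << U_k << G << r` in `P`. -/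
structure Sel (P Q : Finset Pt) (us : List UnitD) (G : Finset Pt) (r : Pt) : Prop where
  Qsub : Q ⊆ P
  usub : ∀ U ∈ us, U.pts ⊆ P
  ok : ∀ U ∈ us, U.Ok
  Gsub : G ⊆ P
  rmem : r ∈ P
  pw : us.Pairwise (fun U U' => AllSW U.pts U'.pts)
  Qu : ∀ U ∈ us, AllSW Q U.pts
  QG : AllSW Q G
  Qr : AllSW Q {r}
  uG : ∀ U ∈ us, AllSW U.pts G
  ur : ∀ U ∈ us, AllSW U.pts {r}
  Gr : AllSW G {r}

/-- Concrete units `(o, i)` (`o` outer, `i` inner), increasing, followed by the point `S`; all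
coordinates are at least `x0`, `y0`. -/
def Inc (P : Finset Pt) : ℤ → ℤ → List (Pt × Pt) → Pt → Prop
  | x0, y0, [], S => S ∈ P ∧ x0 ≤ S.1 ∧ y0 ≤ S.2
  | x0, y0, u :: us, S => u.1 ∈ P ∧ u.2 ∈ P ∧ x0 ≤ u.1.1 ∧ u.1.1 < u.2.1 ∧ y0 ≤ u.2.2 ∧
      u.2.2 < u.1.2 ∧ Inc P (u.2.1 + 1) (u.1.2 + 1) us S

/-- The total drop of a list of concrete units. -/
def drp : List (Pt × Pt) → ℤ
  | [] => 0
  | u :: us => (ln u.1 - ln u.2) + drp us

/-- The two rails `a` (positions `xl … xr`) and `b` (positions `yl … yr`) and the links `P`; for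
`lam = 1` a link is an edge, for `lam = 2` it is a path through the vertex `v x`. -/
structure Rails {V : Type} (Gr : SimpleGraph V) (a b v : ℤ → V) (xl xr yl yr : ℤ)
    (P : Finset Pt) (lam : ℕ) : Prop where
  adja : ∀ i, xl ≤ i → i < xr → Gr.Adj (a i) (a (i + 1))
  adjb : ∀ i, yl ≤ i → i < yr → Gr.Adj (b i) (b (i + 1))
  inja : ∀ i j, xl ≤ i → i ≤ xr → xl ≤ j → j ≤ xr → a i = a j → i = j
  injb : ∀ i j, yl ≤ i → i ≤ yr → yl ≤ j → j ≤ yr → b i = b j → i = j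
  disj : ∀ i j, xl ≤ i → i ≤ xr → yl ≤ j → j ≤ yr → a i ≠ b j
  mem : ∀ p ∈ P, xl ≤ p.1 ∧ p.1 ≤ xr ∧ yl ≤ p.2 ∧ p.2 ≤ yr
  link : (lam = 1 ∧ ∀ p ∈ P, Gr.Adj (a p.1) (b p.2)) ∨
    (lam = 2 ∧ (∀ p ∈ P, Gr.Adj (a p.1) (v p.1) ∧ Gr.Adj (v p.1) (b p.2)) ∧
      (∀ p ∈ P, ∀ i, xl ≤ i → i ≤ xr → v p.1 ≠ a i) ∧
      (∀ p ∈ P, ∀ i, yl ≤ i → i ≤ yr → v p.1 ≠ b i) ∧
      (∀ p ∈ P, ∀ q ∈ P, v p.1 = v q.1 → p.1 = q.1))

/-- The cycle `c 0, …, c (L - 1)` of `Gr` and the links `P`, pairs `(x, y)` with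
`0 ≤ x`, `x + lam < y < L` and pairwise different `y`. -/
structure Cyc {V : Type} (Gr : SimpleGraph V) (L : ℤ) (c v : ℤ → V) (P : Finset Pt)
    (lam : ℕ) : Prop where
  three : 3 ≤ L
  adj : ∀ i, 0 ≤ i → i + 1 < L → Gr.Adj (c i) (c (i + 1))
  last : Gr.Adj (c (L - 1)) (c 0)
  inj : ∀ i j, 0 ≤ i → i < L → 0 ≤ j → j < L → c i = c j → i = j
  mem : ∀ p ∈ P, 0 ≤ p.1 ∧ p.1 + lam < p.2 ∧ p.2 < L
  disty : ∀ p ∈ P, ∀ q ∈ P, p.2 = q.2 → p = q
  link : (lam = 1 ∧ ∀ p ∈ P, Gr.Adj (c p.1) (c p.2)) ∨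
    (lam = 2 ∧ (∀ p ∈ P, Gr.Adj (c p.1) (v p.1) ∧ Gr.Adj (v p.1) (c p.2)) ∧
      (∀ p ∈ P, ∀ i, 0 ≤ i → i < L → v p.1 ≠ c i) ∧
      (∀ p ∈ P, ∀ q ∈ P, v p.1 = v q.1 → p.1 = q.1))

/-- A path of length `N` from `c A` to `c B` inside the block `A … B` with the links `PB`. -/
def BPath {V : Type} (Gr : SimpleGraph V) (c v : ℤ → V) (lam : ℕ) (PB : Finset Pt) (A B : ℤ)
    (N : ℕ) : Prop :=
  ∃ w : Gr.Walk (c A) (c B), w.IsPath ∧ w.length = N ∧
    ∀ u ∈ w.support, (∃ j, A ≤ j ∧ j ≤ B ∧ u = c j) ∨ (lam = 2 ∧ ∃ p ∈ PB, u = v p.1)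

/-- The pairs of `P` which cross the middle of the block `[A, A + 2h)`. -/
def inBlock (P : Finset Pt) (A h : ℤ) : Finset Pt :=
  P.filter (fun p => A ≤ p.1 ∧ p.1 < A + h ∧ A + h ≤ p.2 ∧ p.2 < A + 2 * h)

/-- `u v` is an edge of the cycle `W 0, …, W (L - 1)`. -/
def CE {n : ℕ} (L : ℕ) (W : ℕ → Fin n) (u v : Fin n) : Prop :=
  (∃ i, i + 1 < L ∧ ((u = W i ∧ v = W (i + 1)) ∨ (u = W (i + 1) ∧ v = W i))) ∨
    (u = W (L - 1) ∧ v = W 0) ∨ (u = W 0 ∧ v = W (L - 1))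

open Classical in
/-- The ordered pairs which are adjacent, but not along the cycle `W`. -/
noncomputable def offE {n : ℕ} (G : SimpleGraph (Fin n)) (L : ℕ) (W : ℕ → Fin n) :
    Finset (Fin n × Fin n) :=
  univ.filter (fun p => G.Adj p.1 p.2 ∧ ¬ CE L W p.1 p.2)

open Classical in
/-- Every vertex set `S` spans at most `d |S|` edges (counted as ordered pairs). -/
def SparseP {n : ℕ} (d : ℕ) (G : SimpleGraph (Fin n)) : Prop :=
  ∀ S : Finset (Fin n), ((S ×ˢ S).filter (fun p => G.Adj p.1 p.2)).card ≤ 2 * d * S.card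

/-- The conclusion for one graph: many cycle lengths `z - d`. -/
def ZD {V : Type} (Gr : SimpleGraph V) (s b : ℕ) : Prop :=
  ∃ Z D : Finset ℤ, D.card = s ∧ b ≤ Z.card ∧
    ∀ z ∈ Z, ∀ d ∈ D, ∃ N ∈ cycleSet Gr, (N : ℤ) = z - d

end Pool.Agent.CycSp
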