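import Pool.Agent.CycSp.Targets2

set_option autoImplicit false

namespace Pool.Agent.CycSp

open Finset

theorem eb_split {n : ℕ} (E : Finset (Fin n × Fin n)) (A' B' A1 B1 : Finset (Fin n))
    (hA : A1 ⊆ A') (hB : B1 ⊆ B') :
    eb E A' B' = eb E A1 B1 + eb E (A' \ A1) (B' \ B1) +
      (eb E A1 (B' \ B1) + eb E (A' \ A1) B1) := by
  classical
  unfold eb
  rw [← card_union_of_disjoint, ← card_union_of_disjoint, ← card_union_of_disjoint]
  · congr 1
    ext p
    simp only [mem_filter, mem_union, mem_sdiff]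
    constructor
    · rintro ⟨h1, h2, h3⟩
      by_cases ha : p.1 ∈ A1 <;> by_cases hb : p.2 ∈ B1 <;> simp [h1, h2, h3, ha, hb]
    · rintro ((⟨h1, h2, h3⟩ | ⟨h1, h2, h3⟩) | (⟨h1, h2, h3⟩ | ⟨h1, h2, h3⟩))
      · exact ⟨h1, hA h2, hB h3⟩
      · exact ⟨h1, h2.1, h3.1⟩
      · exact ⟨h1, hA h2, h3.1⟩
      · exact ⟨h1, h2.1, hB h3⟩
  · rw [disjoint_left]
    intro p hp
    simp only [mem_filter, mem_union, mem_sdiff] at hp ⊢
    rintro (⟨_, h2, h3⟩ | ⟨_, h2, h3⟩) <;> rcases hp with ⟨_, h5, h6⟩ | ⟨_, h5, h6⟩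
    · exact h3.2 h6
    · exact h5.2 h2
    · exact h2.2 h5
    · exact h6.2 h3
  · rw [disjoint_left]
    intro p hp
    simp only [mem_filter, mem_sdiff] at hp ⊢
    rintro ⟨_, h2, _⟩
    exact h2.2 hp.2.1
  · rw [disjoint_left]
    intro p hp
    simp only [mem_filter, mem_sdiff] at hp ⊢
    rintro ⟨_, h2, _⟩
    exact h2.2 hp.2.1

theorem p_EXPAND : T_EXPAND := by
  classical
  intro n q A B E DX DY hq hE hDX hDY hvol hE1
  obtain ⟨p0, hp0⟩ := card_pos.mp hE1
  have hDX1 : 1 ≤ DX := by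
    refine le_trans ?_ (hDX p0.1 (hE p0 hp0).1)
    exact card_pos.mpr ⟨p0, by simp [hp0]⟩
  have hDY1 : 1 ≤ DY := by
    refine le_trans ?_ (hDY p0.2 (hE p0 hp0).2)
    exact card_pos.mpr ⟨p0, by simp [hp0]⟩
  have hA1 : 1 ≤ A.card := card_pos.mpr ⟨_, (hE p0 hp0).1⟩
  have hB1 : 1 ≤ B.card := card_pos.mpr ⟨_, (hE p0 hp0).2⟩
  obtain ⟨vol, hvoldef⟩ : ∃ vol : Finset (Fin n) × Finset (Fin n) → ℕ,
    ∀ S, vol S = DX * S.1.card + DY * S.2.card := ⟨fun S => _, fun S => rfl⟩
  obtain ⟨V, hV⟩ : ∃ V, V = DX * A.card + DY * B.card := ⟨_, rfl⟩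
  have hV2 : 2 ≤ V := by
    rw [hV]; nlinarith
  have hq1 : 1 ≤ q := by rw [hq]; omega
  have hn : n < 2 ^ q := by rw [hq]; exact Nat.lt_pow_succ_log_self (by norm_num) n
  have hEn : E.card ≤ n ^ 2 := by
    calc E.card ≤ (univ : Finset (Fin n × Fin n)).card := card_le_card (subset_univ _)
      _ = n ^ 2 := by simp [sq]
  have hVle : V ≤ 2 ^ (8 * q) := by
    calc V ≤ 4 * q * E.card := by rw [hV]; exact hvol
      _ ≤ 4 * q * n ^ 2 := Nat.mul_le_mul_left _ hEn
      _ ≤ 4 * 2 ^ q * (2 ^ q) ^ 2 := by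
          apply Nat.mul_le_mul
          · exact Nat.mul_le_mul_left _ (Nat.lt_two_pow_self).le
          · exact Nat.pow_le_pow_left hn.le 2
      _ = 2 ^ (2 + 3 * q) := by rw [pow_add]; ring
      _ ≤ 2 ^ (8 * q) := Nat.pow_le_pow_right (by norm_num) (by omega)
  have hlog2 : (0 : ℝ) < Real.log 2 := Real.log_pos (by norm_num)
  have hlogV : 0 < Real.log V := Real.log_pos (by exact_mod_cast (by omega : 1 < V))
  have hlogVle : Real.log V ≤ 8 * q * Real.log 2 := by
    have h1 : Real.log V ≤ Real.log (2 ^ (8 * q)) := by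
      apply Real.log_le_log
      · exact_mod_cast (by omega : 0 < V)
      · exact_mod_cast hVle
    rw [Real.log_pow] at h1
    push_cast at h1
    linarith
  -- the set of candidates
  obtain ⟨f, hf⟩ : ∃ f : ℝ → ℝ, ∀ x, f x = 1 / 2 + Real.log x / (2 * Real.log V) :=
    ⟨fun x => _, fun x => rfl⟩
  obtain ⟨S, hS⟩ : ∃ S : Finset (Finset (Fin n) × Finset (Fin n)), S =
    (A.powerset ×ˢ B.powerset).filter (fun T => 1 ≤ vol T ∧
      f (vol T) * (vol T : ℝ) ≤ 4 * q * (eb E T.1 T.2 : ℝ)) := ⟨_, rfl⟩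
  have hSne : S.Nonempty := by
    refine ⟨(A, B), ?_⟩
    rw [hS, mem_filter]
    have hebAB : eb E A B = E.card := by
      unfold eb
      congr 1
      rw [filter_eq_self]
      exact hE
    have hvV : vol (A, B) = V := by rw [hvoldef, hV]
    refine ⟨by simp, by rw [hvV]; omega, ?_⟩
    rw [hvV, hf, hebAB]
    have : (1 : ℝ) / 2 + Real.log V / (2 * Real.log V) = 1 := by
      field_simp; norm_num
    rw [this, one_mul, hV]
    exact_mod_cast hvol
  obtain ⟨T, hT, hmin⟩ := S.exists_min_image (fun T => T.1.card + T.2.card) hSne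
  rw [hS, mem_filter, mem_product, mem_powerset, mem_powerset] at hT
  obtain ⟨⟨hTA, hTB⟩, hT1, hTf⟩ := hT
  obtain ⟨A', B'⟩ := T
  dsimp only at hTA hTB hTf hmin
  have hv : (1 : ℝ) ≤ (vol (A', B') : ℝ) := by exact_mod_cast hT1
  have hf_half : ∀ x : ℝ, 1 ≤ x → 1 / 2 ≤ f x := by
    intro x hx
    rw [hf]
    have : 0 ≤ Real.log x / (2 * Real.log V) := div_nonneg (Real.log_nonneg hx) (by positivity)
    linarith
  have hmain : (vol (A', B') : ℝ) ≤ 8 * q * (eb E A' B' : ℝ) := by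
    have h1 := hf_half _ hv
    nlinarith
  refine ⟨A', B', hTA, hTB, ?_, ?_, ?_⟩
  · by_contra h
    have h0 : eb E A' B' = 0 := by omega
    rw [h0] at hmain
    norm_num at hmain
    omega
  · have : vol (A', B') ≤ 8 * q * eb E A' B' := by exact_mod_cast hmain
    rwa [hvoldef] at this
  · intro A1 B1 hA1' hB1' h2
    rcases Nat.eq_zero_or_pos (DX * A1.card + DY * B1.card) with h0 | hpos
    · rw [h0]; exact Nat.zero_le _
    have hvol1 : vol (A1, B1) = DX * A1.card + DY * B1.card := hvoldef _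
    have hvol' : vol (A', B') = DX * A'.card + DY * B'.card := hvoldef _
    have hcA : (A' \ A1).card + A1.card = A'.card := card_sdiff_add_card_eq_card hA1'
    have hcB : (B' \ B1).card + B1.card = B'.card := card_sdiff_add_card_eq_card hB1'
    have hvol2 : vol (A' \ A1, B' \ B1) + vol (A1, B1) = vol (A', B') := by
      rw [hvoldef, hvol1, hvol', ← hcA, ← hcB]; ring
    rw [← hvol1, ← hvol'] at h2
    rw [← hvol1] at hpos
    rw [← hvol1]
    have hc1 : 1 ≤ A1.card + B1.card := by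
      by_contra h
      have h3 : A1.card = 0 := by omega
      have h4 : B1.card = 0 := by omega
      rw [hvol1, h3, h4] at hpos
      simp at hpos
    have hv2 : 1 ≤ vol (A' \ A1, B' \ B1) := by omega
    -- minimality
    have m1 : ¬ (f (vol (A1, B1)) * (vol (A1, B1) : ℝ) ≤ 4 * q * (eb E A1 B1 : ℝ)) := by
      intro h
      have hmem : (A1, B1) ∈ S := by
        rw [hS, mem_filter, mem_product, mem_powerset, mem_powerset]
        exact ⟨⟨hA1'.trans hTA, hB1'.trans hTB⟩, hpos, h⟩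
      have := hmin _ hmem
      dsimp only at this
      have hvc : vol (A' \ A1, B' \ B1) = 0 := by
        have h3 : (A' \ A1).card = 0 := by omega
        have h4 : (B' \ B1).card = 0 := by omega
        rw [hvoldef]
        dsimp only
        rw [h3, h4]; simp
      omega
    have m2 : ¬ (f (vol (A' \ A1, B' \ B1)) * (vol (A' \ A1, B' \ B1) : ℝ) ≤
        4 * q * (eb E (A' \ A1) (B' \ B1) : ℝ)) := by
      intro h
      have hmem : (A' \ A1, B' \ B1) ∈ S := by
        rw [hS, mem_filter, mem_product, mem_powerset, mem_powerset]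
        exact ⟨⟨sdiff_subset.trans hTA, sdiff_subset.trans hTB⟩, hv2, h⟩
      have := hmin _ hmem
      dsimp only at this
      omega
    rw [not_le] at m1 m2
    have hsplit := eb_split E A' B' A1 B1 hA1' hB1'
    obtain ⟨cr, hcr⟩ : ∃ cr, cr = eb E A1 (B' \ B1) + eb E (A' \ A1) B1 := ⟨_, rfl⟩
    rw [← hcr] at hsplit ⊢
    have hsplit' : (eb E A' B' : ℝ) = eb E A1 B1 + eb E (A' \ A1) (B' \ B1) + cr := by
      exact_mod_cast hsplit
    obtain ⟨v, hv'⟩ : ∃ v : ℝ, v = vol (A', B') := ⟨_, rfl⟩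
    obtain ⟨v1, hv1⟩ : ∃ v1 : ℝ, v1 = vol (A1, B1) := ⟨_, rfl⟩
    obtain ⟨v2, hv2'⟩ : ∃ v2 : ℝ, v2 = vol (A' \ A1, B' \ B1) := ⟨_, rfl⟩
    rw [← hv'] at hTf hv
    rw [← hv1] at m1
    rw [← hv2'] at m2
    have hv12 : v2 + v1 = v := by rw [hv', hv1, hv2']; exact_mod_cast hvol2
    have hv1pos : 1 ≤ v1 := by rw [hv1]; exact_mod_cast hpos
    have hv2pos : 1 ≤ v2 := by rw [hv2']; exact_mod_cast hv2
    have h2' : 2 * v1 ≤ v := by rw [hv', hv1]; exact_mod_cast h2
    have hf1 : f v1 + Real.log 2 / (2 * Real.log V) ≤ f v := by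
      rw [hf, hf]
      have : Real.log 2 + Real.log v1 ≤ Real.log v := by
        rw [← Real.log_mul (by norm_num) (by linarith)]
        exact Real.log_le_log (by positivity) h2'
      have h3 : (Real.log 2 + Real.log v1) / (2 * Real.log V) ≤ Real.log v / (2 * Real.log V) := by
        gcongr
      rw [add_div] at h3
      linarith
    have hf2 : f v2 ≤ f v := by
      rw [hf, hf]
      have : Real.log v2 ≤ Real.log v := Real.log_le_log (by linarith) (by linarith)
      have h3 : Real.log v2 / (2 * Real.log V) ≤ Real.log v / (2 * Real.log V) := by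
        gcongr
      linarith
    have hcross : Real.log 2 / (2 * Real.log V) * v1 ≤ 4 * q * cr := by
      have e1 : f v * v = f v * v1 + f v * v2 := by rw [← hv12]; ring
      have e2 : (f v1 + Real.log 2 / (2 * Real.log V)) * v1 ≤ f v * v1 :=
        mul_le_mul_of_nonneg_right hf1 (by linarith)
      have e3 : f v2 * v2 ≤ f v * v2 := mul_le_mul_of_nonneg_right hf2 (by linarith)
      have e4 : 4 * (q : ℝ) * (eb E A' B' : ℝ) = 4 * q * (eb E A1 B1 : ℝ) +
          4 * q * (eb E (A' \ A1) (B' \ B1) : ℝ) + 4 * q * cr := by rw [hsplit']; ring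
      nlinarith
    have hfin : v1 ≤ 64 * q ^ 2 * cr := by
      have h5 : Real.log 2 * v1 ≤ 4 * q * cr * (2 * Real.log V) := by
        have := mul_le_mul_of_nonneg_right hcross (by positivity : (0 : ℝ) ≤ 2 * Real.log V)
        calc Real.log 2 * v1 = Real.log 2 / (2 * Real.log V) * v1 * (2 * Real.log V) := by
              field_simp
          _ ≤ _ := this
      have h6 : 4 * q * cr * (2 * Real.log V) ≤ 4 * q * cr * (2 * (8 * q * Real.log 2)) := by
        gcongr
      have h7 : Real.log 2 * v1 ≤ Real.log 2 * (64 * q ^ 2 * cr) := by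
        calc Real.log 2 * v1 ≤ _ := h5.trans h6
          _ = _ := by ring
      exact le_of_mul_le_mul_left h7 hlog2
    rw [hv1] at hfin
    exact_mod_cast hfin

end Pool.Agent.CycSp
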