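import Pool.Agent.CycSp.Targets2

/-!
# All but few edges are in clusters
-/

set_option autoImplicit false

namespace Pool.Agent.CycSp

open Finset

theorem Clu.mono {V : Type} {Φ : SimpleGraph V} {X : Finset V} {w w' lam : ℕ}
    (h : Clu Φ X w lam) (hw : w' ≤ w) : Clu Φ X w' lam :=
  ⟨h.mem, fun W hW => h.link W (hW.trans hw), fun u hu W hW => h.deg u hu W (hW.trans hw)⟩

theorem p_EXTRACT (h : T_CLUSTER) : T_EXTRACT := by
  classical
  obtain ⟨C, hC, hcl⟩ := h
  refine ⟨C, hC, fun n R e F H hR hFH he he1 => ?_⟩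
  obtain ⟨N, hN⟩ : ∃ N, ee F ≤ N := ⟨_, le_rfl⟩
  induction N generalizing F with
  | zero =>
    exact ⟨F, le_rfl, by omega, fun u v huv hn => absurd huv hn⟩
  | succ N ih =>
    by_cases hee : ee F ≤ e
    · exact ⟨F, le_rfl, hee, fun u v huv hn => absurd huv hn⟩
    push Not at hee
    obtain ⟨Φ, X, w, hΦF, hXH, ⟨a, b, hab⟩, hw, hclu⟩ :=
      hcl n R F H hR hFH (he.trans hee.le) (by omega)
    have hww : e / (R ^ 8 * H.card) ≤ w :=
      Nat.div_le_of_le_mul (hee.le.trans hw)
    have hsub : (univ : Finset (Fin n × Fin n)).filter (fun p => (F \ Φ).Adj p.1 p.2) ⊂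
        (univ : Finset (Fin n × Fin n)).filter (fun p => F.Adj p.1 p.2) := by
      rw [Finset.ssubset_iff_of_subset]
      · refine ⟨(a, b), ?_, ?_⟩
        · simp only [mem_filter, mem_univ, true_and]
          exact hΦF hab
        · simp only [mem_filter, mem_univ, true_and, SimpleGraph.sdiff_adj, not_and, not_not]
          exact fun _ => hab
      · intro p hp
        simp only [mem_filter, mem_univ, true_and, SimpleGraph.sdiff_adj] at hp ⊢
        exact hp.1
    have hlt : ee (F \ Φ) < ee F := by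
      have := Finset.card_lt_card hsub
      unfold ee
      convert this
    obtain ⟨F1, hF1, hF1e, hF1c⟩ := ih (F \ Φ)
      (fun u v huv => hFH u v ((SimpleGraph.sdiff_adj _ _ _ _).1 huv).1) (by omega)
    refine ⟨F1, hF1.trans sdiff_le, hF1e, fun u v huv hn => ?_⟩
    by_cases hΦ : Φ.Adj u v
    · exact ⟨Φ, X, hΦF, hXH, hΦ, hclu.mono hww⟩
    · obtain ⟨Φ', X', h1, h2, h3, h4⟩ :=
        hF1c u v ((SimpleGraph.sdiff_adj _ _ _ _).2 ⟨huv, hΦ⟩) hn
      exact ⟨Φ', X', h1.trans sdiff_le, h2, h3, h4⟩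

end Pool.Agent.CycSp
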