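import Pool.Agent.CycSp.Targets2
import Pool.Agent.CycSp.CHEAP

/-!
# Cycle sets of all graphs: the final count
-/

set_option autoImplicit false

namespace Pool.Agent.CycSp

open Finset
open Pool.Agent.HubG (cycleSet CycSeq cycleSet_bounds exists_cycSeq hub_cycle cycleSet_sub)

namespace FIN2

theorem small (M : ℕ) : {A : Set ℕ | ∀ l ∈ A, l ≤ M}.Finite ∧
    {A : Set ℕ | ∀ l ∈ A, l ≤ M}.ncard = 2 ^ (M + 1) := by
  have h1 : {A : Set ℕ | ∀ l ∈ A, l ≤ M} = 𝒫 ((range (M + 1) : Finset ℕ) : Set ℕ) := by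
    ext A
    simp only [Set.mem_ofPred_eq, Set.mem_powerset_iff, Set.subset_def, Finset.coe_range,
      Set.mem_Iio]
    exact ⟨fun h l hl => Nat.lt_succ_of_le (h l hl), fun h l hl => Nat.le_of_lt_succ (h l hl)⟩
  rw [h1]
  refine ⟨(Finset.finite_toSet _).powerset, ?_⟩
  rw [Set.ncard_powerset _ (Finset.finite_toSet _), Set.ncard_coe_finset, card_range]

theorem ce_symm {n L : ℕ} {W : ℕ → Fin n} {u v : Fin n} (h : CE L W u v) : CE L W v u := by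
  rcases h with ⟨i, hi, h | h⟩ | h | h
  · exact Or.inl ⟨i, hi, Or.inr ⟨h.2, h.1⟩⟩
  · exact Or.inl ⟨i, hi, Or.inl ⟨h.2, h.1⟩⟩
  · exact Or.inr (Or.inr ⟨h.2, h.1⟩)
  · exact Or.inr (Or.inl ⟨h.2, h.1⟩)

/-- the edges which are not on the cycle -/
def offG {n : ℕ} (G : SimpleGraph (Fin n)) (L : ℕ) (W : ℕ → Fin n) : SimpleGraph (Fin n) where
  Adj u v := G.Adj u v ∧ ¬ CE L W u v
  symm := ⟨fun _ _ h => ⟨h.1.symm, fun h' => h.2 (ce_symm h')⟩⟩
  loopless := ⟨fun _ h => h.1.ne rfl⟩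

/-- the edges on the cycle and the edges of `F` -/
def onG {n : ℕ} (G F : SimpleGraph (Fin n)) (L : ℕ) (W : ℕ → Fin n) : SimpleGraph (Fin n) where
  Adj u v := (G.Adj u v ∧ CE L W u v) ∨ F.Adj u v
  symm := ⟨fun _ _ h => h.elim (fun h => Or.inl ⟨h.1.symm, ce_symm h.2⟩) (fun h => Or.inr h.symm)⟩
  loopless := ⟨fun _ h => h.elim (fun h => h.1.ne rfl) (fun h => h.ne rfl)⟩

theorem mono_cyc {n : ℕ} {G G' : SimpleGraph (Fin n)} (h : G ≤ G') :
    cycleSet G ⊆ cycleSet G' :=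
  cycleSet_sub (SimpleGraph.Hom.ofLE h) Function.injective_id

/-- a cycle of `G` which is not a cycle of `G1` has an edge outside `G1`; rotate -/
theorem rot_edge {n : ℕ} {G G1 : SimpleGraph (Fin n)} {l : ℕ} (h : l ∈ cycleSet G)
    (h1 : l ∉ cycleSet G1) : ∃ c : ℕ → Fin n, 3 ≤ l ∧
      (∀ i, i + 1 < l → G.Adj (c i) (c (i + 1))) ∧
      (∀ i j, i < l → j < l → c i = c j → i = j) ∧ G.Adj (c (l - 1)) (c 0) ∧
      ¬ G1.Adj (c (l - 1)) (c 0) := by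
  obtain ⟨W, hW⟩ := exists_cycSeq G l h
  have h3 := hW.three
  have hex : ∃ j, j < l ∧ ¬ G1.Adj (W j) (W ((j + 1) % l)) := by
    by_contra hcon
    push Not at hcon
    apply h1
    have e1 : ∀ i, 1 ≤ i → i < l - 1 → G1.Adj (W i) (W (i + 1)) := by
      intro i _ hi2
      have := hcon i (by omega)
      rwa [Nat.mod_eq_of_lt (by omega)] at this
    have e2 := hcon 0 (by omega)
    rw [Nat.mod_eq_of_lt (by omega)] at e2
    have e3 := hcon (l - 1) (by omega)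
    rw [show l - 1 + 1 = l by omega, Nat.mod_self] at e3
    have := hub_cycle G1 (W 0) W 1 (l - 1) (by omega) e1
      (fun i j _ hi _ hj hij => hW.inj i j (by omega) (by omega) hij)
      (fun i hi1 hi2 heq => by
        have := hW.inj 0 i (by omega) (by omega) heq
        omega) e2 e3.symm
    rwa [show l - 1 - 1 + 2 = l by omega] at this
  obtain ⟨j, hj, hjn⟩ := hex
  have hlast1 : (j + 1 + (l - 1)) % l = j := by
    rw [show j + 1 + (l - 1) = j + l by omega, Nat.add_mod_right, Nat.mod_eq_of_lt hj]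
  refine ⟨fun i => W ((j + 1 + i) % l), h3, ?_, ?_, ?_, ?_⟩
  · intro i _
    exact hW.adj_mod (j + 1 + i)
  · intro a b ha hb hab
    have := hW.inj _ _ (Nat.mod_lt _ (by omega)) (Nat.mod_lt _ (by omega)) hab
    have h5 : (a + (j + 1)) ≡ (b + (j + 1)) [MOD l] := by
      unfold Nat.ModEq
      rw [add_comm a, add_comm b]
      exact this
    have h6 := Nat.ModEq.add_right_cancel' _ h5
    unfold Nat.ModEq at h6
    rwa [Nat.mod_eq_of_lt ha, Nat.mod_eq_of_lt hb] at h6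
  · simp only [hlast1, add_zero]
    have := hW.adj_mod j
    rwa [Nat.mod_eq_of_lt hj] at this
  · simp only [hlast1, add_zero]
    exact hjn

theorem cls (h6 : T_RICH) {n R e : ℕ}
    (hext : ∀ (F : SimpleGraph (Fin n)) (H : Finset (Fin n)),
      (∀ u v, F.Adj u v → u ∈ H ∧ v ∈ H) → R ^ 10 * H.card ≤ e → 1 ≤ e →
      ∃ F1 : SimpleGraph (Fin n), F1 ≤ F ∧ ee F1 ≤ e ∧ ∀ u v, F.Adj u v → ¬ F1.Adj u v →
        ∃ (Φ : SimpleGraph (Fin n)) (X : Finset (Fin n)), Φ ≤ F ∧ X ⊆ H ∧ Φ.Adj u v ∧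
          Clu Φ X (e / (R ^ 8 * H.card)) (R ^ 5))
    (m w s : ℕ) (hw : w = e / (R ^ 8 * m)) (hm : R ^ 10 * m ≤ e) (he : 1 ≤ e) (hR : 1 ≤ R)
    (G : SimpleGraph (Fin n)) (L : ℕ) (W : ℕ → Fin n) (hW : CycSeq G L W)
    (hoff : (offP G L W).card + (n - L) ≤ m) (hs : 1 ≤ s) (hsw : 1000 * (R ^ 5) ^ 2 * s ≤ w)
    (hwm : w ≤ m) :
    (∃ G1 : SimpleGraph (Fin n), CycSeq G1 L W ∧ (offE G1 L W).card ≤ e ∧
      cycleSet G1 ⊆ cycleSet G ∧ (cycleSet G \ cycleSet G1).ncard ≤ e) ∨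
    ∃ b, ZD G s b ∧ (w ^ 2 ≤ 10 ^ 8 * (R ^ 5) ^ 5 * b ∨ e * w ≤ 10 ^ 8 * (R ^ 5) ^ 5 * m * b) := by
  classical
  obtain ⟨H, hH⟩ : ∃ H : Finset (Fin n), H = (offP G L W).image W ∪
      (univ \ (range L).image W) := ⟨_, rfl⟩
  have hin : ∀ u v, (offG G L W).Adj u v → u ∈ H := by
    intro u v huv
    rw [hH, mem_union]
    by_cases hu : u ∈ (range L).image W
    · left
      rw [mem_image] at hu ⊢
      obtain ⟨i, hi, rfl⟩ := hu
      refine ⟨i, ?_, rfl⟩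
      unfold offP
      rw [mem_filter]
      refine ⟨hi, v, ?_⟩
      rw [CHEAP_.mem_offE]
      exact huv
    · right
      rw [mem_sdiff]
      exact ⟨mem_univ _, hu⟩
  have hin2 : ∀ u v, (offG G L W).Adj u v → u ∈ H ∧ v ∈ H :=
    fun u v huv => ⟨hin u v huv, hin v u huv.symm⟩
  have hHc : H.card ≤ m := by
    refine le_trans ?_ hoff
    rw [hH]
    refine (card_union_le _ _).trans (Nat.add_le_add card_image_le ?_)
    rw [card_sdiff_of_subset (subset_univ _), card_univ, Fintype.card_fin,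
      card_image_of_injOn, card_range]
    intro i hi j hj hij
    rw [Finset.coe_range, Set.mem_Iio] at hi hj
    exact hW.inj i j hi hj hij
  obtain ⟨F1, hF1, hF1e, hF1c⟩ := hext (offG G L W) H hin2
    ((Nat.mul_le_mul_left _ hHc).trans hm) he
  have hG1le : onG G F1 L W ≤ G := by
    intro u v huv
    rcases huv with huv | huv
    · exact huv.1
    · exact (hF1 huv).1
  have hW1 : CycSeq (onG G F1 L W) L W := by
    refine ⟨fun i hi => Or.inl ⟨hW.adj i hi, Or.inl ⟨i, hi, Or.inl ⟨rfl, rfl⟩⟩⟩,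
      Or.inl ⟨hW.last, Or.inr (Or.inl ⟨rfl, rfl⟩)⟩, hW.inj, hW.ge, hW.three⟩
  have hoffE : (offE (onG G F1 L W) L W).card ≤ e := by
    refine le_trans ?_ hF1e
    unfold ee
    apply card_le_card
    intro p hp
    rw [CHEAP_.mem_offE] at hp
    rw [mem_filter]
    refine ⟨mem_univ _, ?_⟩
    rcases hp.1 with h | h
    · exact absurd h.2 hp.2
    · exact h
  by_cases hLL : (cycleSet G \ cycleSet (onG G F1 L W)).ncard ≤ e
  · exact Or.inl ⟨_, hW1, hoffE, mono_cyc hG1le, hLL⟩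
  right
  push Not at hLL
  have hfin : (cycleSet G \ cycleSet (onG G F1 L W)).Finite :=
    (Set.finite_Iic n).subset (fun l hl => (cycleSet_bounds G l hl.1).2)
  obtain ⟨LL, hLLdef⟩ : ∃ LL : Finset ℕ, LL = hfin.toFinset := ⟨_, rfl⟩
  have hLLc : e < LL.card := by
    rw [hLLdef, ← Set.ncard_eq_toFinset_card _ hfin]
    exact hLL
  obtain ⟨b, hb, hb2⟩ := h6 n G m w (R ^ 5) s LL (Nat.one_le_pow _ _ hR) hs hsw hwm
    (Finset.card_pos.1 (by omega)) (by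
      intro l hl
      rw [hLLdef, Set.Finite.mem_toFinset] at hl
      obtain ⟨c, h3, hadj, hinj, hlast, hnot⟩ := rot_edge hl.1 hl.2
      have hF : (offG G L W).Adj (c (l - 1)) (c 0) := by
        refine ⟨hlast, fun hce => hnot (Or.inl ⟨hlast, hce⟩)⟩
      have hF1n : ¬ F1.Adj (c (l - 1)) (c 0) := fun h => hnot (Or.inr h)
      obtain ⟨Φ, X, hΦ, hX, hΦa, hclu⟩ := hF1c _ _ hF hF1n
      have hHpos : 0 < H.card := Finset.card_pos.2 ⟨_, hin _ _ hF⟩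
      refine ⟨Φ, X, c, fun u v huv => (hΦ huv).1, ?_, (card_le_card hX).trans hHc, h3, hadj,
        hinj, hΦa⟩
      have hww : w ≤ e / (R ^ 8 * H.card) := by
        rw [hw]
        apply Nat.div_le_div_left (Nat.mul_le_mul_left _ hHc)
        exact Nat.mul_pos (Nat.pow_pos hR) hHpos
      exact ⟨hclu.mem, fun W' hW' => hclu.link W' (hW'.trans hww),
        fun u hu W' hW' => hclu.deg u hu W' (hW'.trans hww)⟩)
  refine ⟨b, hb, ?_⟩
  rcases hb2 with h | h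
  · exact Or.inl h
  · exact Or.inr ((Nat.mul_le_mul_right _ hLLc.le).trans h)

/-- few sets differ little from a set of a small family -/
theorem few (n e : ℕ) (S : Set (Set ℕ)) (hS : S.Finite) :
    {A : Set ℕ | ∃ A1 ∈ S, A1 ⊆ A ∧ (A \ A1).ncard ≤ e ∧ ∀ l ∈ A, l ≤ n}.Finite ∧
    {A : Set ℕ | ∃ A1 ∈ S, A1 ⊆ A ∧ (A \ A1).ncard ≤ e ∧ ∀ l ∈ A, l ≤ n}.ncard ≤
      S.ncard * (n + 2) ^ e := by
  classical
  have hfin : {A : Set ℕ | ∃ A1 ∈ S, A1 ⊆ A ∧ (A \ A1).ncard ≤ e ∧ ∀ l ∈ A, l ≤ n}.Finite := by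
    apply (small n).1.subset
    rintro A ⟨A1, _, _, _, h⟩
    exact h
  refine ⟨hfin, ?_⟩
  set T : Set (Set ℕ × (Fin e → Option (Fin (n + 1)))) := S ×ˢ Set.univ with hT
  have hTfin : T.Finite := hS.prod Set.finite_univ
  have hsub : {A : Set ℕ | ∃ A1 ∈ S, A1 ⊆ A ∧ (A \ A1).ncard ≤ e ∧ ∀ l ∈ A, l ≤ n} ⊆
      (fun x : Set ℕ × (Fin e → Option (Fin (n + 1))) =>
        x.1 ∪ (fun y : Fin (n + 1) => (y : ℕ)) '' {p | ∃ i, x.2 i = some p}) '' T := by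
    rintro A ⟨A1, hA1, hsubA, hc, hle⟩
    set E : Set (Fin (n + 1)) := {y | (y : ℕ) ∈ A \ A1} with hE
    have hfinA : (A \ A1).Finite := (Set.finite_Iic n).subset (fun l hl => hle l hl.1)
    have hEc : E.ncard ≤ e := by
      refine le_trans ?_ hc
      refine Set.ncard_le_ncard_of_injOn (fun y => (y : ℕ)) (fun y hy => hy) ?_ hfinA
      intro a _ b _ hab
      exact Fin.ext hab
    obtain ⟨g, hg⟩ := CHEAP_.exists_code E e (Set.toFinite _) hEc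
    refine ⟨(A1, g), ⟨hA1, Set.mem_univ _⟩, ?_⟩
    simp only
    rw [hg]
    ext l
    constructor
    · rintro (hl | ⟨y, hy, rfl⟩)
      · exact hsubA hl
      · exact hy.1
    · intro hl
      by_cases hl1 : l ∈ A1
      · exact Or.inl hl1
      · right
        have := hle l hl
        exact ⟨⟨l, by omega⟩, ⟨hl, hl1⟩, rfl⟩
  refine (Set.ncard_le_ncard hsub (hTfin.image _)).trans ?_
  refine (Set.ncard_image_le hTfin).trans ?_
  rw [hT, Set.ncard_prod, Set.ncard_univ, Nat.card_eq_fintype_card, Fintype.card_fun,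
    Fintype.card_option, Fintype.card_fin, Fintype.card_fin]

/-- the numbers -/
theorem nums {n R t k z0 m0 e w : ℕ} (hk : 100 * k ≤ R) (hk2 : 2 ≤ k) (ht1 : t ^ 3 ≤ n)
    (ht2 : n < (t + 1) ^ 3) (htR : R ^ 100 ≤ t) (hz0 : z0 = t ^ 2 / R ^ 60)
    (hm0 : m0 = t ^ 2 / R ^ 25) (he : e = n / R ^ 2) (hw : w = e / (R ^ 8 * (2 * m0))) :
    40 * z0 ≤ m0 ∧ R ^ 60 * 6 ≤ m0 ∧
    (∀ P b : ℕ, m0 ≤ 6 * P → P ≤ R ^ 30 * b → (2 * k) ^ 2 * z0 ≤ b) ∧
    R ^ 10 * (2 * m0) ≤ e ∧ 1 ≤ e ∧ 1000 * (R ^ 5) ^ 2 * (2 * k) ≤ w ∧ w ≤ 2 * m0 ∧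
    (∀ b : ℕ, (w ^ 2 ≤ 10 ^ 8 * (R ^ 5) ^ 5 * b ∨
      e * w ≤ 10 ^ 8 * (R ^ 5) ^ 5 * (2 * m0) * b) → (2 * k) ^ 2 * z0 ≤ b) ∧
    100 * z0 ≤ n ∧ 2 * k ^ 2 + 1 ≤ z0 ∧ 100 * ((3 * k + 2) * e) ≤ n ∧ 100 * k ≤ n := by
  have hR : 200 ≤ R := by omega
  have hR0 : 0 < R := by omega
  have hpow : ∀ a : ℕ, 0 < R ^ a := fun a => Nat.pow_pos hR0
  have hmono : ∀ {a b : ℕ}, a ≤ b → R ^ a ≤ R ^ b := fun h => Nat.pow_le_pow_right hR0 h
  have ht0 : 0 < t := lt_of_lt_of_le (hpow 100) htR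
  have hz1 : z0 * R ^ 60 ≤ t ^ 2 := by
    rw [hz0]; exact Nat.div_mul_le_self _ _
  have hm1 : m0 * R ^ 25 ≤ t ^ 2 := by
    rw [hm0]; exact Nat.div_mul_le_self _ _
  have hm2 : t ^ 2 < (m0 + 1) * R ^ 25 := by
    rw [hm0, mul_comm]; exact Nat.lt_mul_div_succ _ (hpow 25)
  have he1 : e * R ^ 2 ≤ n := by
    rw [he]; exact Nat.div_mul_le_self _ _
  have he2 : n < (e + 1) * R ^ 2 := by
    rw [he, mul_comm]; exact Nat.lt_mul_div_succ _ (hpow 2)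
  have ht200 : R ^ 200 ≤ t ^ 2 := by
    calc R ^ 200 = (R ^ 100) ^ 2 := by rw [← pow_mul]
      _ ≤ t ^ 2 := Nat.pow_le_pow_left htR 2
  have hm3 : R ^ 175 ≤ m0 := by
    rw [hm0, Nat.le_div_iff_mul_le (hpow 25), ← pow_add]
    exact ht200
  have hz3 : R ^ 140 ≤ z0 := by
    rw [hz0, Nat.le_div_iff_mul_le (hpow 60), ← pow_add]
    exact ht200
  have hm4 : 1 ≤ m0 := le_trans (hpow 175) hm3
  have hm5 : t ^ 2 ≤ 2 * m0 * R ^ 25 := by
    refine hm2.le.trans (Nat.mul_le_mul_right _ (by omega))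
  have htn : t ≤ n := le_trans (Nat.le_self_pow (by norm_num) t) ht1
  have ht2n : t ^ 2 ≤ n := le_trans (Nat.pow_le_pow_right ht0 (by norm_num)) ht1
  have hk4 : (2 * k) ^ 2 ≤ R ^ 2 := Nat.pow_le_pow_left (by omega) 2
  have hed : R ^ 10 * (2 * m0) ≤ e := by
    rw [he, Nat.le_div_iff_mul_le (hpow 2)]
    calc R ^ 10 * (2 * m0) * R ^ 2 = m0 * (2 * R ^ 12) := by ring
      _ ≤ m0 * (R * R ^ 12) := by gcongr; omega
      _ = m0 * R ^ 13 := by ring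
      _ ≤ m0 * R ^ 25 := Nat.mul_le_mul_left _ (hmono (by norm_num))
      _ ≤ n := hm1.trans ht2n
  have he3 : 1 ≤ e := le_trans (Nat.mul_pos (hpow 10) (by omega)) hed
  have hmpos : 0 < R ^ 8 * (2 * m0) := Nat.mul_pos (hpow 8) (by omega)
  have hw1 : w * (R ^ 8 * (2 * m0)) ≤ e := by
    rw [hw]; exact Nat.div_mul_le_self _ _
  have hw2 : e < (w + 1) * (R ^ 8 * (2 * m0)) := by
    rw [hw, mul_comm]; exact Nat.lt_mul_div_succ _ hmpos
  have hw3 : 1 ≤ w := by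
    rw [hw]
    apply Nat.div_pos _ hmpos
    exact (Nat.mul_le_mul_right _ (hmono (by norm_num))).trans hed
  have he4 : t ^ 3 ≤ 2 * e * R ^ 2 := by
    refine (ht1.trans he2.le).trans (Nat.mul_le_mul_right _ (by omega))
  have hw4 : e ≤ 4 * w * R ^ 8 * m0 := by
    calc e ≤ (w + 1) * (R ^ 8 * (2 * m0)) := hw2.le
      _ ≤ (2 * w) * (R ^ 8 * (2 * m0)) := Nat.mul_le_mul_right _ (by omega)
      _ = _ := by ring
  have hw5 : t * R ^ 15 ≤ 8 * w := by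
    have e1 : t ^ 2 * R ^ 10 * (t * R ^ 15) ≤ t ^ 2 * R ^ 10 * (8 * w) := by
      calc t ^ 2 * R ^ 10 * (t * R ^ 15) = t ^ 3 * R ^ 25 := by ring
        _ ≤ (2 * e * R ^ 2) * R ^ 25 := Nat.mul_le_mul_right _ he4
        _ ≤ (2 * (4 * w * R ^ 8 * m0) * R ^ 2) * R ^ 25 := by gcongr
        _ = 8 * w * R ^ 10 * (m0 * R ^ 25) := by ring
        _ ≤ 8 * w * R ^ 10 * t ^ 2 := Nat.mul_le_mul_left _ hm1
        _ = _ := by ring
    exact Nat.le_of_mul_le_mul_left e1 (Nat.mul_pos (Nat.pow_pos ht0) (hpow 10))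
  have h5 : 10 ^ 11 ≤ R ^ 5 := le_trans (by norm_num) (Nat.pow_le_pow_left hR 5)
  have hfin : ∀ b j : ℕ, z0 * R ^ (j + 2) ≤ R ^ j * b → (2 * k) ^ 2 * z0 ≤ b := by
    intro b j hb
    have e1 : R ^ j * (R ^ 2 * z0) ≤ R ^ j * b := by
      calc R ^ j * (R ^ 2 * z0) = z0 * R ^ (j + 2) := by ring
        _ ≤ _ := hb
    exact (Nat.mul_le_mul_right _ hk4).trans (Nat.le_of_mul_le_mul_left e1 (hpow j))
  refine ⟨?_, ?_, ?_, hed, he3, ?_, ?_, ?_, ?_, ?_, ?_, ?_⟩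
  · by_contra hcon
    push Not at hcon
    have e1 : (m0 + 1) * R ^ 25 ≤ t ^ 2 := by
      calc (m0 + 1) * R ^ 25 ≤ (40 * z0) * R ^ 25 := Nat.mul_le_mul_right _ (by omega)
        _ ≤ (R * z0) * R ^ 25 := by gcongr; omega
        _ = z0 * R ^ 26 := by ring
        _ ≤ z0 * R ^ 60 := Nat.mul_le_mul_left _ (hmono (by norm_num))
        _ ≤ t ^ 2 := hz1
    omega
  · calc R ^ 60 * 6 ≤ R ^ 60 * R := Nat.mul_le_mul_left _ (by omega)
      _ = R ^ 61 := by ring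
      _ ≤ R ^ 175 := hmono (by norm_num)
      _ ≤ m0 := hm3
  · intro P b hP hb
    apply hfin b 56
    calc z0 * R ^ (56 + 2) ≤ z0 * R ^ 60 := Nat.mul_le_mul_left _ (hmono (by norm_num))
      _ ≤ t ^ 2 := hz1
      _ ≤ 2 * m0 * R ^ 25 := hm5
      _ ≤ 2 * (6 * (R ^ 30 * b)) * R ^ 25 := by gcongr; omega
      _ = 12 * (R ^ 55 * b) := by ring
      _ ≤ R * (R ^ 55 * b) := Nat.mul_le_mul_right _ (by omega)
      _ = R ^ 56 * b := by ring
  · have e1 : 8 * (1000 * (R ^ 5) ^ 2 * (2 * k)) ≤ 8 * w := by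
      calc 8 * (1000 * (R ^ 5) ^ 2 * (2 * k)) = R ^ 10 * (160 * (100 * k)) := by ring
        _ ≤ R ^ 10 * (R * R) := by gcongr; omega
        _ = 1 * R ^ 12 := by ring
        _ ≤ t * R ^ 15 := Nat.mul_le_mul ht0 (hmono (by norm_num))
        _ ≤ 8 * w := hw5
    omega
  · by_contra hcon
    push Not at hcon
    have e1 : t ^ 3 * t ≤ t ^ 3 * (8 * R ^ 42) := by
      calc t ^ 3 * t = t ^ 2 * t ^ 2 := by ring
        _ ≤ (2 * m0 * R ^ 25) * (2 * m0 * R ^ 25) := Nat.mul_le_mul hm5 hm5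
        _ = (2 * m0) * (R ^ 8 * (2 * m0)) * R ^ 42 := by ring
        _ ≤ w * (R ^ 8 * (2 * m0)) * R ^ 42 := by gcongr
        _ ≤ e * R ^ 42 := Nat.mul_le_mul_right _ hw1
        _ ≤ n * R ^ 42 := by
            apply Nat.mul_le_mul_right
            exact le_trans (Nat.le_mul_of_pos_right _ (hpow 2)) he1
        _ ≤ (2 * t) ^ 3 * R ^ 42 := by
            apply Nat.mul_le_mul_right
            exact ht2.le.trans (Nat.pow_le_pow_left (by omega) 3)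
        _ = _ := by ring
    have e2 := Nat.le_of_mul_le_mul_left e1 (Nat.pow_pos ht0)
    have e3 : 8 * R ^ 42 < R ^ 100 := by
      calc 8 * R ^ 42 < R * R ^ 42 := Nat.mul_lt_mul_of_pos_right (by omega) (hpow 42)
        _ = R ^ 43 := by ring
        _ ≤ R ^ 100 := hmono (by norm_num)
    omega
  · rintro b (hb | hb)
    · apply hfin b 30
      calc z0 * R ^ (30 + 2) ≤ z0 * R ^ 60 := Nat.mul_le_mul_left _ (hmono (by norm_num))
        _ ≤ t ^ 2 := hz1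
        _ ≤ t ^ 2 * R ^ 30 := Nat.le_mul_of_pos_right _ (hpow 30)
        _ = (t * R ^ 15) ^ 2 := by ring
        _ ≤ (8 * w) ^ 2 := Nat.pow_le_pow_left hw5 2
        _ = 64 * w ^ 2 := by ring
        _ ≤ 64 * (10 ^ 8 * (R ^ 5) ^ 5 * b) := Nat.mul_le_mul_left _ hb
        _ = (64 * 10 ^ 8) * (R ^ 25 * b) := by ring
        _ ≤ R ^ 5 * (R ^ 25 * b) := Nat.mul_le_mul_right _ (le_trans (by norm_num) h5)
        _ = R ^ 30 * b := by ring
    · apply hfin b 32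
      have e1 : t ^ 2 * (t ^ 2 * R ^ 40) ≤ t ^ 2 * (R ^ 32 * b) := by
        calc t ^ 2 * (t ^ 2 * R ^ 40) = t ^ 3 * (t * R ^ 15) * R ^ 25 := by ring
          _ ≤ (2 * e * R ^ 2) * (8 * w) * R ^ 25 := by gcongr
          _ = 16 * R ^ 27 * (e * w) := by ring
          _ ≤ 16 * R ^ 27 * (10 ^ 8 * (R ^ 5) ^ 5 * (2 * m0) * b) := Nat.mul_le_mul_left _ hb
          _ = (32 * 10 ^ 8) * (R ^ 27 * b) * (m0 * R ^ 25) := by ring
          _ ≤ R ^ 5 * (R ^ 27 * b) * t ^ 2 := by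
              gcongr
              exact le_trans (by norm_num) h5
          _ = _ := by ring
      have e2 := Nat.le_of_mul_le_mul_left e1 (Nat.pow_pos ht0)
      calc z0 * R ^ (32 + 2) ≤ z0 * R ^ 60 := Nat.mul_le_mul_left _ (hmono (by norm_num))
        _ ≤ t ^ 2 := hz1
        _ ≤ t ^ 2 * R ^ 40 := Nat.le_mul_of_pos_right _ (hpow 40)
        _ ≤ R ^ 32 * b := e2
  · calc 100 * z0 ≤ R * z0 := Nat.mul_le_mul_right _ (by omega)
      _ = z0 * R ^ 1 := by ring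
      _ ≤ z0 * R ^ 60 := Nat.mul_le_mul_left _ (hmono (by norm_num))
      _ ≤ n := hz1.trans ht2n
  · calc 2 * k ^ 2 + 1 ≤ (100 * k) ^ 2 := by nlinarith
      _ ≤ R ^ 2 := Nat.pow_le_pow_left hk 2
      _ ≤ R ^ 140 := hmono (by norm_num)
      _ ≤ z0 := hz3
  · calc 100 * ((3 * k + 2) * e) ≤ (R * R) * e := by
          rw [← mul_assoc]
          apply Nat.mul_le_mul_right
          nlinarith
      _ = e * R ^ 2 := by ring
      _ ≤ n := he1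
  · calc 100 * k ≤ R ^ 1 := by rw [pow_one]; exact hk
      _ ≤ R ^ 100 := hmono (by norm_num)
      _ ≤ t := htR
      _ ≤ n := htn

theorem core (h1 : T_COUNT) (h2 : T_CHEAP) (h3 : T_PREP2) (h6 : T_RICH) {n R t : ℕ}
    (h4 : ∀ (s : ℕ) (V : Type) (Gr : SimpleGraph V) (L : ℕ) (c v : ℤ → V) (P : Finset Pt)
      (lam : ℕ), 1 ≤ s → s ≤ R → L ≤ n → R ^ 60 ≤ P.card →
      Cyc Gr L c v P lam → ∃ b : ℕ, P.card ≤ R ^ 30 * b ∧ ZD Gr s b)
    (hext : ∀ (e : ℕ) (F : SimpleGraph (Fin n)) (H : Finset (Fin n)),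
      (∀ u v, F.Adj u v → u ∈ H ∧ v ∈ H) → R ^ 10 * H.card ≤ e → 1 ≤ e →
      ∃ F1 : SimpleGraph (Fin n), F1 ≤ F ∧ ee F1 ≤ e ∧ ∀ u v, F.Adj u v → ¬ F1.Adj u v →
        ∃ (Φ : SimpleGraph (Fin n)) (X : Finset (Fin n)), Φ ≤ F ∧ X ⊆ H ∧ Φ.Adj u v ∧
          Clu Φ X (e / (R ^ 8 * H.card)) (R ^ 5))
    (hk : 100 * (Nat.log 2 n + 1) ≤ R) (ht1 : t ^ 3 ≤ n) (ht2 : n < (t + 1) ^ 3)
    (htR : R ^ 100 ≤ t) : numAll n ≤ 3 * 2 ^ (n - t ^ 2 / R ^ 60) := by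
  classical
  have hR100 : 100 ≤ R := by omega
  have hn2 : 2 ≤ n := by
    calc 2 ≤ R ^ 1 := by rw [pow_one]; omega
      _ ≤ R ^ 100 := Nat.pow_le_pow_right (by omega) (by norm_num)
      _ ≤ t := htR
      _ ≤ t ^ 3 := Nat.le_self_pow (by norm_num) t
      _ ≤ n := ht1
  have hnk : n + 1 ≤ 2 ^ (Nat.log 2 n + 1) := Nat.lt_pow_succ_log_self (by norm_num) n
  have hk2 : 2 ≤ Nat.log 2 n + 1 := by
    have : 1 ≤ Nat.log 2 n := Nat.log_pos (by norm_num) hn2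
    omega
  generalize Nat.log 2 n + 1 = k at hk hnk hk2
  obtain ⟨z0, hz0⟩ : ∃ z0, z0 = t ^ 2 / R ^ 60 := ⟨_, rfl⟩
  obtain ⟨m0, hm0⟩ : ∃ m0, m0 = t ^ 2 / R ^ 25 := ⟨_, rfl⟩
  obtain ⟨e, he⟩ : ∃ e, e = n / R ^ 2 := ⟨_, rfl⟩
  obtain ⟨w, hw⟩ : ∃ w, w = e / (R ^ 8 * (2 * m0)) := ⟨_, rfl⟩
  obtain ⟨n1, n2, n3, n4, n5, n6, n7, n8, n9, n10, n11, n12⟩ :=
    nums hk hk2 ht1 ht2 htR hz0 hm0 he hw
  rw [← hz0]
  obtain ⟨S1, hS1⟩ : ∃ S1, S1 = {A : Set ℕ | ∃ (G : SimpleGraph (Fin n)) (L : ℕ)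
    (W : ℕ → Fin n), CycSeq G L W ∧ (offE G L W).card ≤ e ∧ A = cycleSet G} := ⟨_, rfl⟩
  have hS1fin : S1.Finite := by
    apply (small n).1.subset
    rw [hS1]
    rintro A ⟨G, _, _, _, _, rfl⟩ l hl
    exact (cycleSet_bounds G l hl).2
  obtain ⟨hfew1, hfew2⟩ := few n e S1 hS1fin
  have hC1 := small (n - z0 - 1)
  have hsub : {A : Set ℕ | ∃ G : SimpleGraph (Fin n), A = cycleSet G} ⊆
      ({A : Set ℕ | ∀ l ∈ A, l ≤ n - z0 - 1} ∪
      {A : Set ℕ | ∃ A1 ∈ S1, A1 ⊆ A ∧ (A \ A1).ncard ≤ e ∧ ∀ l ∈ A, l ≤ n}) ∪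
      {A : Set ℕ | (∀ l ∈ A, l ≤ n) ∧ ∃ Z D : Finset ℤ, D.card = 2 * k ∧
        (2 * k) ^ 2 * z0 ≤ Z.card ∧ ∀ z ∈ Z, ∀ d ∈ D, ∃ N ∈ A, (N : ℤ) = z - d} := by
    rintro A ⟨G, rfl⟩
    by_cases hA : (cycleSet G).Nonempty
    · have hbdd : BddAbove (cycleSet G) := ⟨n, fun l hl => (cycleSet_bounds G l hl).2⟩
      have hL := Nat.sSup_mem hA hbdd
      have hmax : ∀ l ∈ cycleSet G, l ≤ sSup (cycleSet G) := fun l hl => le_csSup hbdd hl
      generalize sSup (cycleSet G) = L at hL hmax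
      have hLn := (cycleSet_bounds G L hL).2
      obtain ⟨W, hW⟩ := exists_cycSeq G L hL
      by_cases c1 : 40 * (n - L) ≤ m0
      · by_cases c2 : m0 ≤ (offP G L W).card
        · right
          obtain ⟨c, v, P, lam, hcyc, hP⟩ := h3 n G L W hW (c1.trans c2)
          have hP2 : m0 ≤ 6 * P.card := c2.trans hP
          obtain ⟨b, hb, Z, D, hD, hZ, hZD⟩ := h4 (2 * k) (Fin n) G L c v P lam (by omega)
            (by omega) hLn (by omega) hcyc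
          exact ⟨fun l hl => (cycleSet_bounds G l hl).2, Z, D, hD,
            (n3 P.card b hP2 hb).trans hZ, hZD⟩
        · push Not at c2
          rcases cls h6 (hext e) (2 * m0) w (2 * k) hw n4 n5 (by omega) G L W hW (by omega)
            (by omega) n6 n7 with ⟨G1, hG1, hG2, hG3, hG4⟩ | ⟨b, ⟨Z, D, hD, hZ, hZD⟩, hb⟩
          · left; right
            refine ⟨cycleSet G1, ?_, hG3, hG4, fun l hl => (cycleSet_bounds G l hl).2⟩
            rw [hS1]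
            exact ⟨G1, L, W, hG1, hG2, rfl⟩
          · right
            exact ⟨fun l hl => (cycleSet_bounds G l hl).2, Z, D, hD, (n8 b hb).trans hZ, hZD⟩
      · left; left
        intro l hl
        refine (hmax l hl).trans ?_
        omega
    · left; left
      intro l hl
      exact absurd ⟨l, hl⟩ hA
  have hfin3 : {A : Set ℕ | (∀ l ∈ A, l ≤ n) ∧ ∃ Z D : Finset ℤ, D.card = 2 * k ∧
        (2 * k) ^ 2 * z0 ≤ Z.card ∧ ∀ z ∈ Z, ∀ d ∈ D, ∃ N ∈ A, (N : ℤ) = z - d}.Finite :=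
    (small n).1.subset (fun A hA => hA.1)
  have hb1 : {A : Set ℕ | ∀ l ∈ A, l ≤ n - z0 - 1}.ncard ≤ 2 ^ (n - z0) := by
    rw [hC1.2]
    apply Nat.pow_le_pow_right (by norm_num)
    omega
  have hb2 : {A : Set ℕ | ∃ A1 ∈ S1, A1 ⊆ A ∧ (A \ A1).ncard ≤ e ∧ ∀ l ∈ A, l ≤ n}.ncard ≤
      2 ^ (n - z0) := by
    refine hfew2.trans ?_
    have e0 : S1.ncard ≤ (n + 1) * (n ^ 2 + 1) ^ e := by
      rw [hS1]
      exact h2 n e
    have e1 : n ^ 2 + 1 ≤ 2 ^ (2 * k) := by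
      calc n ^ 2 + 1 ≤ (n + 1) ^ 2 := by nlinarith
        _ ≤ (2 ^ k) ^ 2 := Nat.pow_le_pow_left hnk 2
        _ = 2 ^ (2 * k) := by rw [← pow_mul, mul_comm]
    have e2 : n + 2 ≤ 2 ^ (k + 1) := by
      have : 1 ≤ 2 ^ k := Nat.one_le_two_pow
      calc n + 2 ≤ 2 ^ k + 2 ^ k := by omega
        _ = 2 ^ (k + 1) := by ring
    calc S1.ncard * (n + 2) ^ e ≤ (2 ^ k * (2 ^ (2 * k)) ^ e) * (2 ^ (k + 1)) ^ e :=
          Nat.mul_le_mul (e0.trans (Nat.mul_le_mul hnk (Nat.pow_le_pow_left e1 _)))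
            (Nat.pow_le_pow_left e2 _)
      _ = 2 ^ (k + (3 * k + 1) * e) := by
          rw [← pow_mul, ← pow_mul, ← pow_add, ← pow_add]
          congr 1
          ring
      _ ≤ 2 ^ (n - z0) := by
          apply Nat.pow_le_pow_right (by norm_num)
          have : (3 * k + 1) * e ≤ (3 * k + 2) * e := Nat.mul_le_mul_right _ (by omega)
          omega
  have hb3 : {A : Set ℕ | (∀ l ∈ A, l ≤ n) ∧ ∃ Z D : Finset ℤ, D.card = 2 * k ∧
        (2 * k) ^ 2 * z0 ≤ Z.card ∧ ∀ z ∈ Z, ∀ d ∈ D, ∃ N ∈ A, (N : ℤ) = z - d}.ncard ≤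
        2 ^ (n - z0) := by
    refine (h1 n (2 * k) z0).trans ?_
    have e0 : k * z0 ≤ n := by
      have : (3 * k + 2) * e ≤ n := by omega
      calc k * z0 ≤ k * m0 := Nat.mul_le_mul_left _ (by omega)
        _ ≤ (3 * k + 2) * e := by
            apply Nat.mul_le_mul (by omega)
            refine le_trans ?_ n4
            calc m0 ≤ 1 * (2 * m0) := by omega
              _ ≤ R ^ 10 * (2 * m0) := Nat.mul_le_mul_right _ (Nat.pow_pos (by omega))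
        _ ≤ n := this
    have e1 : k * z0 * 2 ≤ n := by
      calc k * z0 * 2 ≤ k * m0 * 2 := by gcongr; omega
        _ = k * (2 * m0) := by ring
        _ ≤ (3 * k + 2) * e := by
            apply Nat.mul_le_mul (by omega)
            refine le_trans ?_ n4
            exact Nat.le_mul_of_pos_left _ (Nat.pow_pos (by omega))
        _ ≤ n := by omega
    have e2 : 2 * z0 ≤ k * z0 := Nat.mul_le_mul_right _ hk2
    calc (n + 1) ^ (2 * k + z0) * 2 ^ (n + 1 - 2 * k * z0)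
        ≤ (2 ^ k) ^ (2 * k + z0) * 2 ^ (n + 1 - 2 * k * z0) :=
          Nat.mul_le_mul_right _ (Nat.pow_le_pow_left hnk _)
      _ = 2 ^ ((2 * k ^ 2 + k * z0) + (n + 1 - 2 * (k * z0))) := by
          rw [← pow_mul, ← pow_add, mul_assoc 2 k z0]
          congr 2
          ring
      _ ≤ 2 ^ (n - z0) := by
          apply Nat.pow_le_pow_right (by norm_num)
          omega
  have hS1fin2 := hfew1
  calc numAll n = {A : Set ℕ | ∃ G : SimpleGraph (Fin n), A = cycleSet G}.ncard := rfl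
    _ ≤ _ := Set.ncard_le_ncard hsub ((hC1.1.union hfew1).union hfin3)
    _ ≤ _ := Set.ncard_union_le _ _
    _ ≤ _ := Nat.add_le_add_right (Set.ncard_union_le _ _) _
    _ ≤ 2 ^ (n - z0) + 2 ^ (n - z0) + 2 ^ (n - z0) :=
        Nat.add_le_add (Nat.add_le_add hb1 hb2) hb3
    _ = 3 * 2 ^ (n - z0) := by ring

/-- the trivial bound -/
theorem trivial_bound (n : ℕ) : numAll n ≤ 2 ^ (n - 2) := by
  have h1 : {A : Set ℕ | ∃ G : SimpleGraph (Fin n), A = cycleSet G} ⊆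
      𝒫 ((Finset.Icc 3 n : Finset ℕ) : Set ℕ) := by
    rintro A ⟨G, rfl⟩ l hl
    have := cycleSet_bounds G l hl
    rw [Finset.mem_coe, Finset.mem_Icc]
    exact this
  calc numAll n ≤ _ := Set.ncard_le_ncard h1 (Finset.finite_toSet _).powerset
    _ = 2 ^ (n - 2) := by
      rw [Set.ncard_powerset _ (Finset.finite_toSet _), Set.ncard_coe_finset, Nat.card_Icc]
      congr 1

end FIN2

open FIN2 in
theorem p_FINAL2 (h1 : T_COUNT) (h2 : T_CHEAP) (h3 : T_PREP2) (h4 : T_MAIN2) (h5 : T_EXTRACT)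
    (h6 : T_RICH) : T_FINAL2 := by
  obtain ⟨C4, hC4, h4⟩ := h4
  obtain ⟨C5, hC5, h5⟩ := h5
  obtain ⟨C0, hC0⟩ : ∃ C0, C0 = C4 + C5 + 100 := ⟨_, rfl⟩
  -- the exponent
  obtain ⟨a, ha⟩ : ∃ a : ℕ, (8 * (2 * (C0 : ℝ)) ^ 300) < (3 / 2 : ℝ) ^ a :=
    pow_unbounded_of_one_lt _ (by norm_num)
  refine ⟨300 + a, fun n hn => ?_⟩
  have hn3 : (3 : ℝ) ≤ n := by exact_mod_cast hn
  have hnpos : (0 : ℝ) < n := by linarith
  -- the logarithm
  obtain ⟨l, hl⟩ : ∃ l : ℝ, l = Real.logb 2 n := ⟨_, rfl⟩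
  rw [← hl]
  have hl32 : (3 / 2 : ℝ) ≤ l := by
    rw [hl, Real.le_logb_iff_rpow_le (by norm_num) hnpos]
    refine le_trans ?_ hn3
    have e1 : ((2 : ℝ) ^ (3 / 2 : ℝ)) ^ 2 = 8 := by
      rw [← Real.rpow_natCast, ← Real.rpow_mul (by norm_num)]
      norm_num
    have e2 : (0 : ℝ) ≤ (2 : ℝ) ^ (3 / 2 : ℝ) := by positivity
    nlinarith
  have hl1 : (1 : ℝ) ≤ l := by linarith
  have hlog : ((Nat.log 2 n + 1 : ℕ) : ℝ) ≤ 2 * l := by
    have e1 : (Nat.log 2 n : ℝ) ≤ l := by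
      rw [hl, Real.le_logb_iff_rpow_le (by norm_num) hnpos, Real.rpow_natCast]
      exact_mod_cast Nat.pow_log_le_self 2 (by omega)
    push_cast
    linarith
  obtain ⟨R, hR⟩ : ∃ R, R = C0 * (Nat.log 2 n + 1) := ⟨_, rfl⟩
  have hRl : (R : ℝ) ≤ 2 * C0 * l := by
    rw [hR]
    push_cast
    push_cast at hlog
    have : (0 : ℝ) ≤ C0 := Nat.cast_nonneg _
    nlinarith
  have hR0 : (0 : ℝ) ≤ R := Nat.cast_nonneg _
  have hkey : 8 * (R : ℝ) ^ 300 ≤ l ^ (300 + a) := by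
    calc 8 * (R : ℝ) ^ 300 ≤ 8 * (2 * C0 * l) ^ 300 := by gcongr
      _ = (8 * (2 * (C0 : ℝ)) ^ 300) * l ^ 300 := by rw [mul_pow]; ring
      _ ≤ (3 / 2 : ℝ) ^ a * l ^ 300 := by gcongr
      _ ≤ l ^ a * l ^ 300 := by gcongr
      _ = l ^ (300 + a) := by rw [← pow_add, add_comm]
  have hlpos : (0 : ℝ) < l ^ (300 + a) := by positivity
  by_cases hbig : n < R ^ 300
  · -- the trivial bound
    have e1 : (n : ℝ) ^ ((2 : ℝ) / 3) / l ^ (300 + a) ≤ 1 := by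
      rw [div_le_one hlpos]
      calc (n : ℝ) ^ ((2 : ℝ) / 3) ≤ (n : ℝ) ^ (1 : ℝ) :=
            Real.rpow_le_rpow_of_exponent_le (by linarith) (by norm_num)
        _ = n := Real.rpow_one _
        _ ≤ (R : ℝ) ^ 300 := by exact_mod_cast hbig.le
        _ ≤ 8 * (R : ℝ) ^ 300 := by
            have : (0 : ℝ) ≤ (R : ℝ) ^ 300 := by positivity
            linarith
        _ ≤ _ := hkey
    have e2 : (numAll n : ℝ) ≤ 2 ^ ((n : ℝ) - 2) := by
      have := trivial_bound n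
      have e3 : ((n - 2 : ℕ) : ℝ) = (n : ℝ) - 2 := by
        rw [Nat.cast_sub (by omega)]; norm_num
      rw [← e3, Real.rpow_natCast]
      exact_mod_cast this
    refine e2.trans (Real.rpow_le_rpow_of_exponent_le (by norm_num) (by linarith))
  -- the main case
  push Not at hbig
  have hR100 : 100 * (Nat.log 2 n + 1) ≤ R := by
    rw [hR]
    exact Nat.mul_le_mul_right _ (by omega)
  have hRpos : 100 ≤ R := by omega
  -- the cube root
  obtain ⟨t, ht⟩ : ∃ t : ℕ, t = ⌊(n : ℝ) ^ ((1 : ℝ) / 3)⌋₊ := ⟨_, rfl⟩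
  obtain ⟨x, hx⟩ : ∃ x : ℝ, x = (n : ℝ) ^ ((1 : ℝ) / 3) := ⟨_, rfl⟩
  rw [← hx] at ht
  have hx0 : 0 ≤ x := by rw [hx]; positivity
  have hx3 : x ^ 3 = n := by
    rw [hx, ← Real.rpow_natCast, ← Real.rpow_mul (by positivity)]
    norm_num
  have hx2 : (n : ℝ) ^ ((2 : ℝ) / 3) = x ^ 2 := by
    rw [hx, ← Real.rpow_natCast, ← Real.rpow_mul (by positivity)]
    norm_num
  have htx : (t : ℝ) ≤ x := by rw [ht]; exact Nat.floor_le hx0
  have hxt : x < t + 1 := by rw [ht]; exact Nat.lt_floor_add_one x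
  have ht1 : t ^ 3 ≤ n := by
    have : (t : ℝ) ^ 3 ≤ n := by
      rw [← hx3]
      gcongr
    exact_mod_cast this
  have ht2 : n < (t + 1) ^ 3 := by
    have : (n : ℝ) < (t + 1) ^ 3 := by
      rw [← hx3]
      exact pow_lt_pow_left₀ hxt hx0 (by norm_num)
    exact_mod_cast this
  have htR : R ^ 100 ≤ t := by
    rw [ht, Nat.le_floor_iff hx0]
    push_cast
    have e1 : ((R : ℝ) ^ 100) ^ 3 ≤ x ^ 3 := by
      rw [hx3, ← pow_mul]
      exact_mod_cast hbig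
    exact le_of_pow_le_pow_left₀ (by norm_num) hx0 e1
  have hcore := core h1 h2 h3 h6 (n := n) (R := R) (t := t)
    (fun s V Gr L c v P lam hs1 hs2 hL hP hcyc =>
      h4 n R s V Gr L c v P lam
        (by rw [hR]; exact Nat.mul_le_mul_right _ (by omega)) hs1 hs2 hL hP hcyc)
    (fun e F H hF hH he => h5 n R e F H
        (by rw [hR]; exact Nat.mul_le_mul_right _ (by omega)) hF hH he)
    hR100 ht1 ht2 htR
  obtain ⟨z0, hz0⟩ : ∃ z0, z0 = t ^ 2 / R ^ 60 := ⟨_, rfl⟩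
  rw [← hz0] at hcore
  have hRp : ∀ j : ℕ, 0 < R ^ j := fun j => Nat.pow_pos (by omega)
  have hz0n : z0 ≤ n := by
    rw [hz0]
    refine (Nat.div_le_self _ _).trans (le_trans ?_ ht1)
    exact Nat.pow_le_pow_right (lt_of_lt_of_le (hRp 100) htR) (by norm_num)
  have hz1 : t ^ 2 < (z0 + 1) * R ^ 60 := by
    rw [hz0, mul_comm]
    exact Nat.lt_mul_div_succ _ (hRp 60)
  have ht140 : R ^ 60 * (8 * 100) ≤ t ^ 2 := by
    calc R ^ 60 * (8 * 100) ≤ R ^ 60 * (R * R) := by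
          apply Nat.mul_le_mul_left
          nlinarith
      _ = R ^ 62 := by ring
      _ ≤ R ^ 200 := Nat.pow_le_pow_right (by omega) (by norm_num)
      _ = (R ^ 100) ^ 2 := by rw [← pow_mul]
      _ ≤ t ^ 2 := Nat.pow_le_pow_left htR 2
  -- the real inequality
  have hmain : x ^ 2 / l ^ (300 + a) + 2 ≤ z0 := by
    have hRr : (0 : ℝ) < (R : ℝ) ^ 60 := by exact_mod_cast hRp 60
    have hRr' : (0 : ℝ) < (R : ℝ) ^ 300 := by exact_mod_cast hRp 300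
    have f1 : (t : ℝ) ^ 2 < (z0 + 1) * (R : ℝ) ^ 60 := by exact_mod_cast hz1
    have f2 : (R : ℝ) ^ 60 * 800 ≤ (t : ℝ) ^ 2 := by exact_mod_cast ht140
    have f3 : (t : ℝ) ^ 2 / (R : ℝ) ^ 60 < z0 + 1 := by
      rw [div_lt_iff₀ hRr]
      exact f1
    have f4 : 800 ≤ (t : ℝ) ^ 2 / (R : ℝ) ^ 60 := by
      rw [le_div_iff₀ hRr]
      linarith
    have ht1' : (1 : ℝ) ≤ t := by
      have : 1 ≤ t := lt_of_lt_of_le (hRp 100) htR
      exact_mod_cast this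
    have f5 : x ^ 2 ≤ 4 * (t : ℝ) ^ 2 := by nlinarith
    have f6 : (R : ℝ) ^ 60 ≤ (R : ℝ) ^ 300 := by
      have : R ^ 60 ≤ R ^ 300 := Nat.pow_le_pow_right (by omega) (by norm_num)
      exact_mod_cast this
    have f7 : x ^ 2 / l ^ (300 + a) ≤ (t : ℝ) ^ 2 / (R : ℝ) ^ 60 / 2 := by
      rw [div_le_iff₀ hlpos]
      have g1 : (t : ℝ) ^ 2 / (R : ℝ) ^ 60 / 2 * (8 * (R : ℝ) ^ 60) = 4 * (t : ℝ) ^ 2 := by
        field_simp
        ring
      calc x ^ 2 ≤ 4 * (t : ℝ) ^ 2 := f5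
        _ = (t : ℝ) ^ 2 / (R : ℝ) ^ 60 / 2 * (8 * (R : ℝ) ^ 60) := g1.symm
        _ ≤ (t : ℝ) ^ 2 / (R : ℝ) ^ 60 / 2 * l ^ (300 + a) := by
            apply mul_le_mul_of_nonneg_left _ (by positivity)
            refine le_trans ?_ hkey
            linarith
    linarith
  have hexp : ((n : ℝ) - z0) + 2 ≤ (n : ℝ) - x ^ 2 / l ^ (300 + a) := by linarith
  rw [hx2]
  calc (numAll n : ℝ) ≤ ((3 * 2 ^ (n - z0) : ℕ) : ℝ) := by exact_mod_cast hcore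
    _ ≤ (2 : ℝ) ^ ((n : ℝ) - z0) * 2 ^ (2 : ℝ) := by
        push_cast
        rw [← Nat.cast_sub hz0n, Real.rpow_natCast, show ((2 : ℝ) ^ (2 : ℝ)) = 4 by
          rw [show (2 : ℝ) = ((2 : ℕ) : ℝ) by norm_num, Real.rpow_natCast]; norm_num]
        have : (0 : ℝ) ≤ 2 ^ (n - z0) := by positivity
        linarith
    _ = (2 : ℝ) ^ (((n : ℝ) - z0) + 2) := by rw [← Real.rpow_add (by norm_num)]
    _ ≤ (2 : ℝ) ^ ((n : ℝ) - x ^ 2 / l ^ (300 + a)) :=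
        Real.rpow_le_rpow_of_exponent_le (by norm_num) hexp

end Pool.Agent.CycSp
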