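import Pool.Agent.CycSp.Targets

/-!
# Cycle sets of sparse graphs: growth of the sumset (STEP 5d, 5e)
-/

set_option autoImplicit false

namespace Pool.Agent.CycSp

open Finset
open scoped Pointwise

theorem TT_append (us : List UnitD) (U : UnitD) : TT (us ++ [U]) = TT us + U.vals := by
  induction us with
  | nil =>
    change U.vals + ({0} : Finset ℤ) = {0} + U.vals
    rw [add_comm]
  | cons V vs ih =>
    change V.vals + TT (vs ++ [U]) = V.vals + TT vs + U.vals
    rw [ih, add_assoc]

theorem TT_nonempty (us : List UnitD) (h : ∀ U ∈ us, U.F.Nonempty) : (TT us).Nonempty := by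
  induction us with
  | nil => exact singleton_nonempty _
  | cons V vs ih =>
    exact ((h V List.mem_cons_self).image _).add (ih fun U hU => h U (List.mem_cons_of_mem _ hU))

/-- the sumset lies in a short interval -/
theorem TT_iv (w : ℤ) (us : List UnitD)
    (h : ∀ U ∈ us, ∃ a, ∀ f ∈ U.F, a ≤ U.e * ln f ∧ U.e * ln f ≤ a + w) :
    ∃ a, ∀ t ∈ TT us, a ≤ t ∧ t ≤ a + us.length * w := by
  induction us with
  | nil =>
    refine ⟨0, fun t ht => ?_⟩
    rw [show t = 0 from mem_singleton.1 ht]
    simp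
  | cons V vs ih =>
    obtain ⟨a, ha⟩ := ih fun U hU => h U (List.mem_cons_of_mem _ hU)
    obtain ⟨b, hb⟩ := h V List.mem_cons_self
    refine ⟨a + b, fun t ht => ?_⟩
    have ht' : t ∈ V.vals + TT vs := ht
    obtain ⟨x, hx, y, hy, rfl⟩ := mem_add.1 ht'
    obtain ⟨f, hf, rfl⟩ := mem_image.1 hx
    have h1 := ha y hy
    have h2 := hb f hf
    rw [List.length_cons]
    push_cast
    constructor
    · linarith
    · nlinarith

theorem TT_card (w : ℤ) (hw : 0 ≤ w) (us : List UnitD)
    (h : ∀ U ∈ us, ∃ a, ∀ f ∈ U.F, a ≤ U.e * ln f ∧ U.e * ln f ≤ a + w) :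
    ((TT us).card : ℤ) ≤ us.length * w + 1 := by
  obtain ⟨a, ha⟩ := TT_iv w us h
  have h1 : TT us ⊆ Icc a (a + us.length * w) := fun t ht => mem_Icc.2 (ha t ht)
  have h2 := card_le_card h1
  rw [Int.card_Icc] at h2
  have h3 : (0 : ℤ) ≤ us.length * w := by positivity
  omega

/-- the lengths of points of a box -/
theorem ln_box {A B : ℤ} {n : ℕ} {F : Finset Pt} {e : ℤ} (he : e = 1 ∨ e = -1)
    (h : ∀ p ∈ F, A ≤ p.1 ∧ p.1 < A + n ∧ B ≤ p.2 ∧ p.2 < B + n) :
    ∃ a, ∀ f ∈ F, a ≤ e * ln f ∧ e * ln f ≤ a + 2 * n := by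
  rcases he with rfl | rfl
  · refine ⟨B - A - n, fun f hf => ?_⟩
    obtain ⟨h1, h2, h3, h4⟩ := h f hf
    unfold ln
    constructor <;> linarith
  · refine ⟨A - B - n, fun f hf => ?_⟩
    obtain ⟨h1, h2, h3, h4⟩ := h f hf
    unfold ln
    constructor <;> linarith

/-- the lengths of points of a cell -/
theorem ln_cell {rho : ℤ} (hr : 1 ≤ rho) {F : Finset Pt} {e : ℤ} (he : e = 1 ∨ e = -1)
    (h : ∀ f ∈ F, ∀ g ∈ F, cell rho f = cell rho g) :
    ∃ a, ∀ f ∈ F, a ≤ e * ln f ∧ e * ln f ≤ a + 2 * rho := by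
  rcases F.eq_empty_or_nonempty with rfl | ⟨f0, hf0⟩
  · exact ⟨0, fun f hf => absurd hf (notMem_empty f)⟩
  · have key : ∀ f ∈ F, rho * (f0.1 / rho) ≤ f.1 ∧ f.1 < rho * (f0.1 / rho) + rho ∧
        rho * (f0.2 / rho) ≤ f.2 ∧ f.2 < rho * (f0.2 / rho) + rho := by
      intro f hf
      have h1 := h f hf f0 hf0
      unfold cell at h1
      obtain ⟨h2, h3⟩ := Prod.mk.inj h1
      rw [← h2, ← h3]
      have h4 := Int.mul_ediv_add_emod f.1 rho
      have h5 := Int.mul_ediv_add_emod f.2 rho
      have h6 := Int.emod_nonneg f.1 (by omega : rho ≠ 0)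
      have h7 := Int.emod_nonneg f.2 (by omega : rho ≠ 0)
      have h8 := Int.emod_lt_of_pos f.1 (by omega : 0 < rho)
      have h9 := Int.emod_lt_of_pos f.2 (by omega : 0 < rho)
      refine ⟨?_, ?_, ?_, ?_⟩ <;> linarith
    generalize rho * (f0.1 / rho) = x at key
    generalize rho * (f0.2 / rho) = y at key
    rcases he with rfl | rfl
    · refine ⟨y - x - rho, fun f hf => ?_⟩
      obtain ⟨h1, h2, h3, h4⟩ := key f hf
      unfold ln
      constructor <;> linarith
    · refine ⟨x - y - rho, fun f hf => ?_⟩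
      obtain ⟨h1, h2, h3, h4⟩ := key f hf
      unfold ln
      constructor <;> linarith

theorem UnitD.Ok.sign {U : UnitD} (h : U.Ok) : U.e = 1 ∨ U.e = -1 := by
  rcases h with h | h
  · exact Or.inl h.1
  · exact Or.inr h.1

/-- Ruzsa's triangle inequality for one cell -/
theorem cell_bound {K : ℕ} {F : Finset Pt} {T : Finset ℤ} {e : ℤ} (he : e = 1 ∨ e = -1)
    (hT : T.Nonempty) (hinj : ∀ p ∈ F, ∀ q ∈ F, p.2 = q.2 → p = q)
    (h : (T + F.image (fun f => e * ln f)).card ≤ K * T.card) :
    F.card ≤ K * (F.image sg + T).card := by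
  set Λ := F.image ln with hΛ
  set S := F.image sg with hS
  have h1 : F.card ≤ (Λ + S).card := by
    apply card_le_card_of_injOn (fun f => 2 * f.2)
    · intro f hf
      have hf := mem_coe.1 hf
      apply mem_coe.2
      have : 2 * f.2 = ln f + sg f := by
        unfold ln sg
        ring
      change 2 * f.2 ∈ Λ + S
      rw [this]
      exact add_mem_add (mem_image_of_mem _ hf) (mem_image_of_mem _ hf)
    · intro f hf g hg hfg
      exact hinj f (mem_coe.1 hf) g (mem_coe.1 hg) (by
        have : (2 : ℤ) * f.2 = 2 * g.2 := hfg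
        omega)
  have h2 : (Λ + S).card * T.card ≤ (K * T.card) * (T + S).card := by
    rcases he with rfl | rfl
    · have h3 := Finset.ruzsa_triangle_inequality_add_add_add Λ T S
      refine h3.trans (Nat.mul_le_mul_right _ ?_)
      have e1 : F.image (fun f => (1 : ℤ) * ln f) = Λ := by
        rw [hΛ]
        simp
      rw [e1, add_comm T Λ] at h
      exact h
    · have h3 := Finset.ruzsa_triangle_inequality_sub_sub_sub Λ T (-S)
      have e0 : (-S - T).card = (T + S).card := by
        rw [show -S - T = -(T + S) by rw [neg_add_rev, sub_eq_add_neg]; ]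
        exact card_neg _
      rw [sub_neg_eq_add, e0] at h3
      refine h3.trans (Nat.mul_le_mul_right _ ?_)
      have e1 : F.image (fun f => (-1 : ℤ) * ln f) = -Λ := by
        rw [hΛ]
        ext x
        simp only [mem_image, mem_neg]
        constructor
        · rintro ⟨f, hf, rfl⟩
          exact ⟨ln f, ⟨f, hf, rfl⟩, by ring⟩
        · rintro ⟨y, ⟨f, hf, rfl⟩, rfl⟩
          exact ⟨f, hf, by ring⟩
      rw [e1, ← sub_eq_add_neg] at h
      rw [← neg_sub, card_neg]
      exact h
  have h4 : 0 < T.card := hT.card_pos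
  rw [add_comm S T]
  have h5 : (Λ + S).card * T.card ≤ (K * (T + S).card) * T.card := by
    calc _ ≤ _ := h2
      _ = _ := by ring
  exact h1.trans (Nat.le_of_mul_le_mul_right h5 h4)

/-- points with close sums are in close cells -/
theorem grow_cell_close {M M' : Finset Pt} {rho r' r : ℤ} (hrho : 1 ≤ rho) (hS : Scl M M' rho r')
    (hrr' : r' ≤ r) {f g : Pt} (hf : f ∈ M') (hg : g ∈ M') (h1 : sg f - sg g < r * rho)
    (h2 : sg g - sg f < r * rho) :
    (cell rho g).1 ∈ Icc ((cell rho f).1 - r) ((cell rho f).1 + r) ∧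
      (cell rho g).2 ∈ Icc ((cell rho f).2 - r) ((cell rho f).2 + r) := by
  have key : f.1 - g.1 < r * rho ∧ g.1 - f.1 < r * rho ∧ f.2 - g.2 < r * rho ∧
      g.2 - f.2 < r * rho := by
    have hle : r' * rho ≤ r * rho := mul_le_mul_of_nonneg_right hrr' (by omega)
    have hrr : 0 < r * rho := by
      have := lt_or_ge 0 (r * rho)
      omega
    by_cases ha : NW f g
    · have h3 := hS.dist f hf g hg ha
      unfold NW at ha
      refine ⟨?_, ?_, ?_, ?_⟩ <;> omega
    · by_cases hb : NW g f
      · have h3 := hS.dist g hg f hf hb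
        unfold NW at hb
        refine ⟨?_, ?_, ?_, ?_⟩ <;> omega
      · unfold NW at ha hb
        unfold sg at h1 h2
        generalize r * rho = R at *
        refine ⟨?_, ?_, ?_, ?_⟩ <;> omega
  have aux : ∀ x y : ℤ, x - y < r * rho → x / rho ≤ y / rho + r := by
    intro x y hxy
    have : x / rho ≤ (y + r * rho) / rho := Int.ediv_le_ediv (by omega) (by omega)
    rwa [Int.add_mul_ediv_right _ _ (by omega)] at this
  obtain ⟨k1, k2, k3, k4⟩ := key
  have a1 := aux _ _ k1
  have a2 := aux _ _ k2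
  have a3 := aux _ _ k3
  have a4 := aux _ _ k4
  unfold cell
  simp only [mem_Icc]
  omega

/-- the final count over the cells -/
theorem final_count {K : ℕ} {M M' : Finset Pt} {rho : ℤ} {r' r : ℕ} (hrho : 1 ≤ rho)
    (hS : Scl M M' rho r') (hrr' : r' ≤ r) {T : Finset ℤ} (hd : ∀ t ∈ T, ∀ t' ∈ T, t - t' < r * rho)
    (hb : ∀ F : Finset Pt, F ⊆ M' → F.Nonempty → (∀ f ∈ F, ∀ g ∈ F, cell rho f = cell rho g) →
      F.card ≤ K * (F.image sg + T).card) :
    M'.card ≤ K * ((2 * r + 1) ^ 2 * (M'.image sg + T).card) := by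
  classical
  set C := M'.image (cell rho) with hC
  set Fc : ℤ × ℤ → Finset Pt := fun c => M'.filter (fun f => cell rho f = c) with hFc
  have h1 : M'.card = ∑ c ∈ C, (Fc c).card :=
    card_eq_sum_card_fiberwise fun f hf => mem_coe.2 (mem_image_of_mem _ (mem_coe.1 hf))
  have h2 : ∀ c ∈ C, (Fc c).card ≤ K * ((Fc c).image sg + T).card := by
    intro c hc
    obtain ⟨f, hf, rfl⟩ := mem_image.1 hc
    refine hb (Fc (cell rho f)) (filter_subset _ _) ⟨f, mem_filter.2 ⟨hf, rfl⟩⟩ ?_
    intro g hg g' hg'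
    rw [(mem_filter.1 hg).2, (mem_filter.1 hg').2]
  have h3 : ∑ c ∈ C, ((Fc c).image sg + T).card ≤
      (2 * r + 1) ^ 2 * (M'.image sg + T).card := by
    set Z := M'.image sg + T with hZ
    have hsub : ∀ c, (Fc c).image sg + T ⊆ Z := fun c =>
      add_subset_add_right (image_subset_image (filter_subset _ _))
    have e1 : ∀ c, ((Fc c).image sg + T).card =
        ∑ z ∈ Z, if z ∈ (Fc c).image sg + T then 1 else 0 := by
      intro c
      rw [← sum_filter, ← card_eq_sum_ones]
      congr 1
      ext z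
      rw [mem_filter]
      exact ⟨fun h => ⟨hsub c h, h⟩, fun h => h.2⟩
    rw [sum_congr rfl fun c _ => e1 c, sum_comm]
    have e2 : ∀ z ∈ Z, (∑ c ∈ C, if z ∈ (Fc c).image sg + T then 1 else 0) ≤ (2 * r + 1) ^ 2 := by
      intro z _
      rw [← sum_filter, ← card_eq_sum_ones]
      rcases (C.filter (fun c => z ∈ (Fc c).image sg + T)).eq_empty_or_nonempty with h0 | ⟨c0, h0⟩
      · rw [h0]
        simp
      · obtain ⟨_, h0⟩ := mem_filter.1 h0
        obtain ⟨x, hx, t, ht, hxt⟩ := mem_add.1 h0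
        obtain ⟨f, hf, rfl⟩ := mem_image.1 hx
        obtain ⟨hf1, hf2⟩ := mem_filter.1 hf
        have h4 : C.filter (fun c => z ∈ (Fc c).image sg + T) ⊆
            Icc (c0.1 - r) (c0.1 + r) ×ˢ Icc (c0.2 - r) (c0.2 + r) := by
          intro c hc
          obtain ⟨_, hc⟩ := mem_filter.1 hc
          obtain ⟨x', hx', t', ht', hxt'⟩ := mem_add.1 hc
          obtain ⟨g, hg, rfl⟩ := mem_image.1 hx'
          obtain ⟨hg1, hg2⟩ := mem_filter.1 hg
          have h5 := hd t ht t' ht'
          have h6 := hd t' ht' t ht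
          have h7 := grow_cell_close (r := r) hrho hS (by exact_mod_cast hrr') hf1 hg1 (by linarith) (by linarith)
          rw [hf2, hg2] at h7
          exact mem_product.2 h7
        refine (card_le_card h4).trans ?_
        rw [card_product, Int.card_Icc, Int.card_Icc]
        have e3 : ∀ a : ℤ, (a + r + 1 - (a - r)).toNat = 2 * r + 1 := by
          intro a
          omega
        rw [e3, e3, sq]
    calc ∑ z ∈ Z, ∑ c ∈ C, (if z ∈ (Fc c).image sg + T then 1 else 0)
        ≤ ∑ z ∈ Z, (2 * r + 1) ^ 2 := sum_le_sum e2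
      _ = (2 * r + 1) ^ 2 * Z.card := by rw [sum_const, smul_eq_mul, mul_comm]
  calc M'.card = ∑ c ∈ C, (Fc c).card := h1
    _ ≤ ∑ c ∈ C, K * ((Fc c).image sg + T).card := sum_le_sum h2
    _ = K * ∑ c ∈ C, ((Fc c).image sg + T).card := (mul_sum _ _ _).symm
    _ ≤ _ := Nat.mul_le_mul_left _ h3

/-- the state of the growth process -/
structure Grown (M M' : ℕ → Finset Pt) (rho : ℤ) (us : List UnitD) : Prop where
  pts : ∀ (i : ℕ) (hi : i < us.length), (us[i]).pts ⊆ M i
  ok : ∀ (i : ℕ) (hi : i < us.length), (us[i]).Ok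
  ne : ∀ (i : ℕ) (hi : i < us.length), (us[i]).F.Nonempty
  cel : ∀ (i : ℕ) (hi : i < us.length), ∀ f ∈ (us[i]).F, ∀ g ∈ (us[i]).F,
    cell rho f = cell rho g

theorem Grown.append {M M' : ℕ → Finset Pt} {rho : ℤ} {us : List UnitD}
    (h : Grown M M' rho us) {U : UnitD} (h1 : U.pts ⊆ M us.length) (h2 : U.Ok)
    (h3 : U.F.Nonempty) (h4 : ∀ f ∈ U.F, ∀ g ∈ U.F, cell rho f = cell rho g) :
    Grown M M' rho (us ++ [U]) := by
  have key : ∀ (i : ℕ) (hi : i < (us ++ [U]).length),
      (∃ hi' : i < us.length, (us ++ [U])[i] = us[i]) ∨ (i = us.length ∧ (us ++ [U])[i] = U) := by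
    intro i hi
    by_cases hi' : i < us.length
    · exact Or.inl ⟨hi', List.getElem_append_left hi'⟩
    · right
      rw [List.length_append, List.length_singleton] at hi
      have : i = us.length := by omega
      subst this
      exact ⟨rfl, by simp⟩
  refine ⟨?_, ?_, ?_, ?_⟩ <;> intro i hi <;> rcases key i hi with ⟨hi', e⟩ | ⟨rfl, e⟩ <;> rw [e]
  · exact h.pts i hi'
  · exact h1
  · exact h.ok i hi'
  · exact h2
  · exact h.ne i hi'
  · exact h3
  · exact h.cel i hi'
  · exact h4

theorem p_GROW : T_GROW := by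
  intro J n r M M' j A B hn hr hbox hinj hscl
  have hr1 : 1 ≤ r := by omega
  set rho : ℤ := (r : ℤ) ^ j with hrho
  have hrho1 : 1 ≤ rho := by
    rw [hrho]
    exact one_le_pow₀ (by exact_mod_cast hr1)
  -- the bounds for a grown list
  have mem_iff : ∀ {us : List UnitD} {U : UnitD}, U ∈ us → ∃ (i : ℕ) (hi : i < us.length),
      us[i] = U := fun h => List.mem_iff_getElem.1 h
  have diam : ∀ us : List UnitD, us.length ≤ J → Grown M M' rho us →
      ∀ t ∈ TT us, ∀ t' ∈ TT us, t - t' < (r + 2 * J : ℕ) * rho := by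
    intro us hl hg t ht t' ht'
    obtain ⟨a, ha⟩ := TT_iv (2 * rho) us (fun U hU => by
      obtain ⟨i, hi, rfl⟩ := mem_iff hU
      exact ln_cell hrho1 (hg.ok i hi).sign (hg.cel i hi))
    have h1 := ha t ht
    have h2 := ha t' ht'
    have h3 : (us.length : ℤ) ≤ J := by exact_mod_cast hl
    have h4 : (1 : ℤ) ≤ r := by exact_mod_cast hr1
    have h5 : (us.length : ℤ) * (2 * rho) ≤ J * (2 * rho) :=
      mul_le_mul_of_nonneg_right h3 (by omega)
    have h6 : (1 : ℤ) * rho ≤ r * rho := mul_le_mul_of_nonneg_right h4 (by omega)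
    push_cast
    linarith
  have size : ∀ us : List UnitD, us.length ≤ J → Grown M M' rho us →
      (TT us).card ≤ us.length * (2 * n) + 1 := by
    intro us hl hg
    have := TT_card (2 * n) (by positivity) us (fun U hU => by
      obtain ⟨i, hi, rfl⟩ := mem_iff hU
      apply ln_box (A := A) (B := B) (hg.ok i hi).sign
      intro p hp
      exact hbox i (by omega) p (hg.pts i hi (mem_insert_of_mem hp)))
    exact_mod_cast this
  -- the stopping case
  have stop : ∀ us : List UnitD, us.length ≤ J → Grown M M' rho us →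
      (¬ ∃ (F : Finset Pt) (p : Pt) (e : ℤ), F ⊆ M' us.length ∧ F.Nonempty ∧
        (∀ f ∈ F, ∀ g ∈ F, cell rho f = cell rho g) ∧ p ∈ M us.length ∧
        UnitD.Ok ⟨F, p, e⟩ ∧
        r ^ 2 * (TT us).card < (TT us + F.image (fun f => e * ln f)).card) →
      (M' us.length).card ≤
        r ^ 2 * (2 * (r + 2 * J) + 3) ^ 2 * ((M' us.length).image sg + TT us).card := by
    intro us hl hg hno
    have hne : (TT us).Nonempty := TT_nonempty us (fun U hU => by
      obtain ⟨i, hi, rfl⟩ := mem_iff hU
      exact hg.ne i hi)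
    have h1 := final_count (K := r ^ 2) (r := r + 2 * J) hrho1 (hscl _ hl) (by omega)
      (diam us hl hg) (by
      intro F hF hFn hFc
      obtain ⟨p, hp, e, hok⟩ := (hscl _ hl).unit F hF hFn hFc
      apply cell_bound hok.sign hne
      · intro p hp q hq
        exact hinj _ hl p ((hscl _ hl).sub (hF hp)) q ((hscl _ hl).sub (hF hq))
      · by_contra hcon
        push Not at hcon
        exact hno ⟨F, p, e, hF, hFn, hFc, hp, hok, hcon⟩)
    refine h1.trans ?_
    rw [mul_assoc]
    apply Nat.mul_le_mul_left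
    apply Nat.mul_le_mul_right
    exact Nat.pow_le_pow_left (by omega) 2
  -- the process
  have proc : ∀ m : ℕ, m ≤ J →
      (∃ us : List UnitD, us.length < m ∧ Grown M M' rho us ∧
        (M' us.length).card ≤
          r ^ 2 * (2 * (r + 2 * J) + 3) ^ 2 * ((M' us.length).image sg + TT us).card) ∨
      (∃ us : List UnitD, us.length = m ∧ Grown M M' rho us ∧ (r ^ 2) ^ m ≤ (TT us).card) := by
    intro m
    induction m with
    | zero =>
      intro _
      right
      refine ⟨[], rfl, ⟨?_, ?_, ?_, ?_⟩, ?_⟩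
      · intro i hi
        exact absurd hi (Nat.not_lt_zero i)
      · intro i hi
        exact absurd hi (Nat.not_lt_zero i)
      · intro i hi
        exact absurd hi (Nat.not_lt_zero i)
      · intro i hi
        exact absurd hi (Nat.not_lt_zero i)
      · change (r ^ 2) ^ 0 ≤ ({0} : Finset ℤ).card
        simp
    | succ m ih =>
      intro hm
      rcases ih (by omega) with ⟨us, h1, h2, h3⟩ | ⟨us, rfl, h2, h3⟩
      · exact Or.inl ⟨us, by omega, h2, h3⟩
      · by_cases hex : ∃ (F : Finset Pt) (p : Pt) (e : ℤ), F ⊆ M' us.length ∧ F.Nonempty ∧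
          (∀ f ∈ F, ∀ g ∈ F, cell rho f = cell rho g) ∧ p ∈ M us.length ∧
          UnitD.Ok ⟨F, p, e⟩ ∧
          r ^ 2 * (TT us).card < (TT us + F.image (fun f => e * ln f)).card
        · right
          obtain ⟨F, p, e, hF, hFn, hFc, hp, hok, hlt⟩ := hex
          refine ⟨us ++ [⟨F, p, e⟩], by simp, h2.append (insert_subset hp
            (hF.trans (hscl _ (by omega)).sub)) hok hFn hFc, ?_⟩
          rw [TT_append, pow_succ]
          calc (r ^ 2) ^ us.length * r ^ 2 ≤ (TT us).card * r ^ 2 := Nat.mul_le_mul_right _ h3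
            _ = r ^ 2 * (TT us).card := mul_comm _ _
            _ ≤ _ := hlt.le
        · left
          exact ⟨us, by omega, h2, stop us (by omega) h2 hex⟩
  rcases proc J le_rfl with ⟨us, h1, h2, h3⟩ | ⟨us, h1, h2, h3⟩
  · exact ⟨us, h1.le, fun i hi => ⟨h2.pts i hi, h2.ok i hi⟩, h3⟩
  · rcases Nat.eq_zero_or_pos J with hJ | hJ
    · -- nothing there
      refine ⟨us, h1.le, fun i hi => ⟨h2.pts i hi, h2.ok i hi⟩, ?_⟩
      have hn0 : n = 0 := by
        rw [hJ, pow_zero] at hn
        omega
      have he : M' us.length = ∅ := by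
        rw [eq_empty_iff_forall_notMem]
        intro p hp
        have := hbox us.length h1.le p ((hscl _ h1.le).sub hp)
        rw [hn0] at this
        push_cast at this
        omega
      rw [he]
      simp
    · exfalso
      have h4 := size us h1.le h2
      rw [h1] at h4
      have h5 : (r ^ 2) ^ J ≤ J * (2 * n) + 1 := h3.trans h4
      have h6 : (r ^ 2) ^ J = r ^ J * r ^ J := by
        rw [← pow_mul, ← pow_add]
        congr 1
        omega
      have h7 : 2 * J ≤ r ^ J := by
        calc 2 * J ≤ 2 ^ J := by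
              clear * - hJ
              induction J with
              | zero => omega
              | succ k ih =>
                rcases Nat.eq_zero_or_pos k with rfl | hk
                · norm_num
                · have h1 := ih hk
                  have h2 : 2 ≤ 2 ^ k := by
                    calc 2 = 2 ^ 1 := rfl
                      _ ≤ 2 ^ k := Nat.pow_le_pow_right (by norm_num) hk
                  rw [pow_succ]
                  omega
          _ ≤ r ^ J := Nat.pow_le_pow_left hr J
      have h8 : 2 * J * r ^ J ≤ r ^ J * r ^ J := Nat.mul_le_mul_right _ h7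
      have h9 : J * (2 * n) + 1 < 2 * J * r ^ J := by
        have h10 : n + 1 ≤ r ^ J := hn
        have h11 : 2 * J * (n + 1) ≤ 2 * J * r ^ J := Nat.mul_le_mul_left _ h10
        have h12 : 2 * J * (n + 1) = J * (2 * n) + 2 * J := by ring
        omega
      omega

end Pool.Agent.CycSp
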