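import Pool.Agent.CycSp.Targets2
import Pool.Agent.CycSp.Walks

/-!
# Linking pieces of a path in a cluster to cycles
-/

set_option autoImplicit false

namespace Pool.Agent.CycSp

open Finset
open Pool.Agent.HubG (cycleSet CycSeq)

/-- there is a path of length `N` from `x` to `y` all of whose vertices satisfy `S` -/
def PT {V : Type} (G : SimpleGraph V) (S : V → Prop) (x y : V) (N : ℕ) : Prop :=
  ∃ p : G.Walk x y, p.IsPath ∧ p.length = N ∧ ∀ z ∈ p.support, S z

theorem PT.append {V : Type} {G : SimpleGraph V} {S T : V → Prop} {x m y : V} {N M : ℕ}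
    (hp : PT G S x m N) (hq : PT G T m y M) (h : ∀ z, S z → T z → z = m) :
    PT G (fun z => S z ∨ T z) x y (N + M) := by
  obtain ⟨p, hp1, hp2, hp3⟩ := hp
  obtain ⟨q, hq1, hq2, hq3⟩ := hq
  refine ⟨p.append q, append_isPath p q hp1 hq1 (fun z h1 h2 => h z (hp3 z h1) (hq3 z h2)), ?_, ?_⟩
  · rw [SimpleGraph.Walk.length_append, hp2, hq2]
  · intro z hz
    rw [SimpleGraph.Walk.mem_support_append_iff] at hz
    rcases hz with hz | hz
    · exact Or.inl (hp3 z hz)
    · exact Or.inr (hq3 z hz)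

theorem PT.mono {V : Type} {G : SimpleGraph V} {S T : V → Prop} {x y : V} {N M : ℕ}
    (hp : PT G S x y N) (hN : N = M) (h : ∀ z, S z → T z) : PT G T x y M := by
  obtain ⟨p, hp1, hp2, hp3⟩ := hp
  exact ⟨p, hp1, by rw [hp2, hN], fun z hz => h z (hp3 z hz)⟩

theorem PT.le {V : Type} {G Φ : SimpleGraph V} (hle : Φ ≤ G) {S : V → Prop} {x y : V} {N : ℕ}
    (hp : PT Φ S x y N) : PT G S x y N := by
  obtain ⟨p, hp1, hp2, hp3⟩ := hp
  refine ⟨p.mapLe hle, ?_, ?_, ?_⟩
  · exact SimpleGraph.Walk.IsPath.mapLe hle hp1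
  · rw [SimpleGraph.Walk.length_mapLe, hp2]
  · intro z hz
    rw [SimpleGraph.Walk.support_mapLe_eq_support] at hz
    exact hp3 z hz

/-- the vertices of a walk in a cluster are vertices of the cluster -/
theorem clu_supp {V : Type} {Φ : SimpleGraph V} {X : Finset V} {w lam : ℕ}
    (hC : Clu Φ X w lam) {u v : V} (p : Φ.Walk u v) (hu : u ∈ X) : ∀ z ∈ p.support, z ∈ X := by
  induction p with
  | nil =>
    intro z hz
    rw [SimpleGraph.Walk.support_nil, List.mem_singleton] at hz
    rw [hz]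
    exact hu
  | cons h q ih =>
    intro z hz
    rw [SimpleGraph.Walk.support_cons, List.mem_cons] at hz
    rcases hz with hz | hz
    · rw [hz]
      exact hu
    · exact ih (hC.mem _ _ h).2 z hz

theorem card_supp_le {V : Type} [DecidableEq V] {G : SimpleGraph V} {u v : V} (p : G.Walk u v) :
    p.support.toFinset.card ≤ p.length + 1 := by
  have := List.toFinset_card_le p.support
  rw [SimpleGraph.Walk.length_support] at this
  exact this

/-- a link: a path in the cluster which avoids `W`, except perhaps at its ends; `U` is the set of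
its inner vertices -/
theorem clu_link {V : Type} [DecidableEq V] {Φ : SimpleGraph V} {X : Finset V} {w lam : ℕ}
    (hC : Clu Φ X w lam) (W : Finset V) (hW : W.card ≤ w) (s t : V) (hs : s ∈ X) (ht : t ∈ X)
    (hst : s ≠ t) : ∃ (d : ℕ) (U : Finset V), 1 ≤ d ∧ d ≤ lam ∧ U.card ≤ lam + 1 ∧
      (∀ z ∈ U, z ∈ X ∧ z ∉ W ∧ z ≠ s ∧ z ≠ t) ∧
      PT Φ (fun z => z = s ∨ z = t ∨ z ∈ U) s t d := by
  have h1 : ((W.erase s).erase t).card ≤ w :=
    le_trans (Finset.card_le_card ((Finset.erase_subset _ _).trans (Finset.erase_subset _ _))) hW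
  obtain ⟨p, hp1, hp2, hp3⟩ := hC.link ((W.erase s).erase t) h1 s hs t ht
    (by simp) (by simp) hst
  have hlen : 1 ≤ p.length := by
    by_contra h
    have h2 : p.length = 0 := by omega
    exact hst (SimpleGraph.Walk.eq_of_length_eq_zero h2)
  refine ⟨p.length, (p.support.toFinset.erase s).erase t, hlen, hp2, ?_, ?_, p, hp1, rfl, ?_⟩
  · refine le_trans (Finset.card_le_card ((Finset.erase_subset _ _).trans
      (Finset.erase_subset _ _))) (le_trans (card_supp_le p) (by omega))
  · intro z hz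
    rw [Finset.mem_erase, Finset.mem_erase, List.mem_toFinset] at hz
    refine ⟨clu_supp hC p hs z hz.2.2, ?_, hz.2.1, hz.1⟩
    intro h
    apply hp3 z hz.2.2
    rw [Finset.mem_erase, Finset.mem_erase]
    exact ⟨hz.1, hz.2.1, h⟩
  · intro z hz
    by_cases h1 : z = s
    · exact Or.inl h1
    · by_cases h2 : z = t
      · exact Or.inr (Or.inl h2)
      · right
        right
        rw [Finset.mem_erase, Finset.mem_erase, List.mem_toFinset]
        exact ⟨h2, h1, hz⟩

/-- a gadget of difference `D` which avoids `W` -/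
def Gadget {V : Type} (Φ : SimpleGraph V) (W : Finset V) (D : ℕ) : Prop :=
  ∃ u y : V, u ∉ W ∧ y ∉ W ∧ Φ.Adj u y ∧ ∃ p : Φ.Walk u y, p.IsPath ∧ p.length = D + 1 ∧
    ∀ z ∈ p.support, z ∉ W

theorem exists_gadget {V : Type} {Φ : SimpleGraph V} {X : Finset V} {w lam : ℕ}
    (hC : Clu Φ X w lam) (hX : X.Nonempty) (W : Finset V) (hW : W.card + 1 ≤ w) :
    ∃ D, 1 ≤ D ∧ D ≤ lam ∧ Gadget Φ W D := by
  classical
  obtain ⟨x0, hx0⟩ := hX
  obtain ⟨u, hu, huW⟩ := hC.deg x0 hx0 W (by omega)
  have huX := (hC.mem _ _ hu).2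
  obtain ⟨y, hy, hyW⟩ := hC.deg u huX W (by omega)
  have hyX := (hC.mem _ _ hy).2
  obtain ⟨x, hx, hxW⟩ := hC.deg u huX (insert y W)
    (le_trans (Finset.card_insert_le _ _) (by omega))
  have hxX := (hC.mem _ _ hx).2
  rw [Finset.mem_insert, not_or] at hxW
  have hux : x ≠ u := hx.ne'
  have huy : y ≠ u := hy.ne'
  obtain ⟨p, hp1, hp2, hp3⟩ := hC.link (insert u W)
    (le_trans (Finset.card_insert_le _ _) (by omega)) x hxX y hyX
    (by rw [Finset.mem_insert, not_or]; exact ⟨hux, hxW.2⟩)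
    (by rw [Finset.mem_insert, not_or]; exact ⟨huy, hyW⟩) hxW.1
  refine ⟨p.length, ?_, hp2, u, y, huW, hyW, hy, SimpleGraph.Walk.cons hx p, ?_, ?_, ?_⟩
  · by_contra h
    have h2 : p.length = 0 := by omega
    exact hxW.1 (SimpleGraph.Walk.eq_of_length_eq_zero h2)
  · rw [SimpleGraph.Walk.cons_isPath_iff]
    refine ⟨hp1, ?_⟩
    intro h
    exact hp3 u h (Finset.mem_insert_self _ _)
  · rw [SimpleGraph.Walk.length_cons]
  · intro z hz
    rw [SimpleGraph.Walk.support_cons, List.mem_cons] at hz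
    rcases hz with hz | hz
    · rw [hz]
      exact huW
    · intro h
      exact hp3 z hz (Finset.mem_insert_of_mem h)

/-- there is a difference `D` such that gadgets of difference `D` cannot be destroyed by the
removal of few vertices -/
theorem robust_gadget {V : Type} {Φ : SimpleGraph V} {X : Finset V} {w lam : ℕ}
    (hC : Clu Φ X w lam) (hX : X.Nonempty) (w1 : ℕ) (hw1 : lam * w1 + 1 ≤ w) :
    ∃ D, 1 ≤ D ∧ D ≤ lam ∧ ∀ W : Finset V, W.card ≤ w1 → Gadget Φ W D := by
  classical
  by_contra hcon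
  push Not at hcon
  have h1 : ∀ D, ∃ W : Finset V, W.card ≤ w1 ∧ (1 ≤ D → D ≤ lam → ¬ Gadget Φ W D) := by
    intro D
    by_cases hD : 1 ≤ D ∧ D ≤ lam
    · obtain ⟨W, hW1, hW2⟩ := hcon D hD.1 hD.2
      exact ⟨W, hW1, fun _ _ => hW2⟩
    · exact ⟨∅, by simp, fun h2 h3 => absurd ⟨h2, h3⟩ hD⟩
  choose WD hWD1 hWD2 using h1
  have h2 : ((Finset.Icc 1 lam).biUnion WD).card ≤ lam * w1 := by
    refine le_trans Finset.card_biUnion_le ?_
    refine le_trans (Finset.sum_le_card_nsmul _ _ w1 (fun D _ => hWD1 D)) ?_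
    rw [Nat.card_Icc, smul_eq_mul]
    exact Nat.mul_le_mul_right _ (by omega)
  obtain ⟨D, hD1, hD2, u, y, hu, hy, hadj, p, hp1, hp2, hp3⟩ :=
    exists_gadget hC hX ((Finset.Icc 1 lam).biUnion WD) (by omega)
  have hsub : ∀ z, z ∈ WD D → z ∈ (Finset.Icc 1 lam).biUnion WD := by
    intro z hz
    rw [Finset.mem_biUnion]
    exact ⟨D, Finset.mem_Icc.2 ⟨hD1, hD2⟩, hz⟩
  exact hWD2 D hD1 hD2 ⟨u, y, fun h => hu (hsub _ h), fun h => hy (hsub _ h), hadj, p, hp1, hp2,
    fun z hz h => hp3 z hz (hsub _ h)⟩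

/-- the vertices of the pieces -/
def onP {V : Type} (c : ℕ → V) (I : List (ℕ × ℕ)) (z : V) : Prop :=
  ∃ p ∈ I, ∃ k, p.1 ≤ k ∧ k ≤ p.2 ∧ z = c k

/-- the pieces in order, linked by paths of the cluster -/
theorem chain_pieces {V : Type} [DecidableEq V] {G Φ : SimpleGraph V} {X : Finset V}
    {w lam : ℕ} (hle : Φ ≤ G) (hC : Clu Φ X w lam) (l : ℕ) (c : ℕ → V)
    (hadj : ∀ i, i + 1 < l → G.Adj (c i) (c (i + 1)))
    (hinj : ∀ i j, i < l → j < l → c i = c j → i = j) (W0 : Finset V) :
    ∀ (rest : List (ℕ × ℕ)) (p : ℕ × ℕ),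
      (∀ q ∈ p :: rest, q.1 < q.2 ∧ q.2 < l ∧ c q.1 ∈ X ∧ c q.2 ∈ X) →
      (∀ z, z ∈ X → onP c (p :: rest) z → z ∈ W0) →
      (p :: rest).Pairwise (fun q q' => q.2 < q'.1) →
      W0.card + rest.length * (lam + 1) ≤ w →
      ∃ L ∈ p :: rest, ∃ (d : ℕ) (U : Finset V), tot (p :: rest) ≤ d ∧
        d ≤ tot (p :: rest) + rest.length * lam ∧ U.card ≤ rest.length * (lam + 1) ∧
        (∀ z ∈ U, z ∈ X ∧ z ∉ W0) ∧
        PT G (fun z => onP c (p :: rest) z ∨ z ∈ U) (c p.1) (c L.2) d := by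
  have piece : ∀ p : ℕ × ℕ, p.1 < p.2 → p.2 < l →
      PT G (fun z => ∃ k, p.1 ≤ k ∧ k ≤ p.2 ∧ z = c k) (c p.1) (c p.2) (p.2 - p.1) := by
    intro p hp1 hp2
    have hk : p.1 + (p.2 - p.1) = p.2 := by omega
    obtain ⟨q, hq1, hq2, hq3⟩ := Pool.Agent.HubG.seq_walk G c (p.2 - p.1) p.1
      (fun i _ h2 => hadj i (by omega))
      (fun i j _ h2 _ h4 => hinj i j (by omega) (by omega))
    refine ⟨q.copy rfl (by rw [hk]), ?_, ?_, ?_⟩
    · rw [SimpleGraph.Walk.isPath_copy]
      exact hq1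
    · rw [SimpleGraph.Walk.length_copy]
      exact hq2
    · intro z hz
      rw [SimpleGraph.Walk.support_copy] at hz
      obtain ⟨i, h1, h2, h3⟩ := hq3 z hz
      exact ⟨i, h1, by omega, h3⟩
  intro rest
  induction rest with
  | nil =>
    intro p hI _ _ _
    obtain ⟨h1, h2, h3, h4⟩ := hI p (by simp)
    refine ⟨p, by simp, p.2 - p.1, ∅, ?_, ?_, by simp, by simp, ?_⟩
    · simp [tot]
    · simp [tot]
    · refine (piece p h1 h2).mono rfl ?_
      rintro z ⟨k, hk⟩
      exact Or.inl ⟨p, by simp, k, hk⟩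
  | cons p' rest ih =>
    intro p hI hW0 hpw hbud
    rw [List.length_cons] at hbud
    have hpw' := hpw
    rw [List.pairwise_cons] at hpw
    obtain ⟨hp1, hp2, hp3, hp4⟩ := hI p (by simp)
    obtain ⟨hq1, hq2, hq3, hq4⟩ := hI p' (by simp)
    have hpp' : p.2 < p'.1 := hpw.1 p' (by simp)
    have hmul : (rest.length + 1) * (lam + 1) = rest.length * (lam + 1) + (lam + 1) := by ring
    have hmul2 : (rest.length + 1) * lam = rest.length * lam + lam := by ring
    obtain ⟨L, hL, d, U, hd1, hd2, hU1, hU2, hP⟩ := ih p'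
      (fun q hq => hI q (List.mem_cons_of_mem _ hq))
      (fun z hz h => hW0 z hz (by
        obtain ⟨q, hq, k, hk⟩ := h
        exact ⟨q, List.mem_cons_of_mem _ hq, k, hk⟩))
      hpw.2 (by omega)
    have hne : c p.2 ≠ c p'.1 := by
      intro h
      have := hinj _ _ hp2 (by omega) h
      omega
    obtain ⟨e, U2, he1, he2, hU21, hU22, hQ⟩ := clu_link hC (W0 ∪ U)
      (le_trans (Finset.card_union_le _ _) (by omega)) (c p.2) (c p'.1) hp4 hq3 hne
    have hafter : ∀ z k, k ≤ p.2 → z = c k → ¬ onP c (p' :: rest) z := by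
      rintro z k hk rfl ⟨q, hq, k', hk1, hk2, hk3⟩
      have h1 := hpw.1 q hq
      have h2 := (hI q (List.mem_cons_of_mem _ hq)).2.1
      have := hinj _ _ (by omega) (by omega) hk3
      omega
    have hPin : ∀ z k, z ∈ X → p.1 ≤ k → k ≤ p.2 → z = c k → z ∈ W0 := by
      intro z k hz h1 h2 h3
      exact hW0 z hz ⟨p, by simp, k, h1, h2, h3⟩
    have hRin : ∀ z, z ∈ X → onP c (p' :: rest) z → z ∈ W0 := by
      rintro z hz ⟨q, hq, k, hk⟩
      exact hW0 z hz ⟨q, List.mem_cons_of_mem _ hq, k, hk⟩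
    have s1 := (PT.le hle hQ).append hP (by
      rintro z (h | h | h) h'
      · exfalso
        rcases h' with h' | h'
        · exact hafter z p.2 (le_refl _) h h'
        · exact (hU2 z h').2 (hPin z p.2 (by rw [h]; exact hp4) (by omega) (le_refl _) h)
      · exact h
      · exfalso
        obtain ⟨g1, g2, g3, g4⟩ := hU22 z h
        rw [Finset.mem_union, not_or] at g2
        rcases h' with h' | h'
        · exact g2.1 (hRin z g1 h')
        · exact g2.2 h')
    have s2 := (piece p hp1 hp2).append s1 (by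
      rintro z ⟨k, hk1, hk2, hk3⟩ h'
      rcases h' with (h' | h' | h') | (h' | h')
      · exact h'
      · exfalso
        rw [hk3] at h'
        have := hinj _ _ (by omega) (by omega) h'
        omega
      · exfalso
        obtain ⟨g1, g2, g3, g4⟩ := hU22 z h'
        rw [Finset.mem_union, not_or] at g2
        exact g2.1 (hPin z k g1 hk1 hk2 hk3)
      · exact absurd h' (hafter z k hk2 hk3)
      · exfalso
        obtain ⟨g1, g2⟩ := hU2 z h'
        exact g2 (hPin z k g1 hk1 hk2 hk3))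
    have htot : tot (p :: p' :: rest) = (p.2 - p.1) + tot (p' :: rest) := by simp [tot]
    refine ⟨L, List.mem_cons_of_mem _ hL, (p.2 - p.1) + (e + d), U2 ∪ U, ?_, ?_, ?_, ?_, ?_⟩
    · rw [htot]
      omega
    · rw [htot, List.length_cons, hmul2]
      omega
    · rw [List.length_cons, hmul]
      refine le_trans (Finset.card_union_le _ _) (by omega)
    · intro z hz
      rw [Finset.mem_union] at hz
      rcases hz with hz | hz
      · obtain ⟨g1, g2, g3, g4⟩ := hU22 z hz
        rw [Finset.mem_union, not_or] at g2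
        exact ⟨g1, g2.1⟩
      · exact hU2 z hz
    · refine s2.mono rfl ?_
      intro z hz
      rcases hz with ⟨k, hk1, hk2, hk3⟩ | (h | h | h) | (h | h)
      · exact Or.inl ⟨p, by simp, k, hk1, hk2, hk3⟩
      · exact Or.inl ⟨p, by simp, p.2, by omega, le_refl _, h⟩
      · exact Or.inl ⟨p', by simp, p'.1, le_refl _, by omega, h⟩
      · exact Or.inr (Finset.mem_union_left _ h)
      · obtain ⟨q, hq, k, hk⟩ := h
        exact Or.inl ⟨q, List.mem_cons_of_mem _ hq, k, hk⟩
      · exact Or.inr (Finset.mem_union_right _ h)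

/-- append `m` gadgets of difference `D` to a path -/
theorem chain_gadgets {V : Type} [DecidableEq V] {G Φ : SimpleGraph V} {X : Finset V}
    {w lam D w1 : ℕ} (hle : Φ ≤ G) (hC : Clu Φ X w lam) (hlam : 1 ≤ lam) (hD : D ≤ lam)
    (hw : w1 + (lam + 2) ≤ w)
    (hrob : ∀ W : Finset V, W.card ≤ w1 → Gadget Φ W D) (s : V) (t0 : V)
    (ht0 : t0 ∈ X) (hst : t0 ≠ s) (Q0 : Finset V) (hsQ : s ∈ Q0) (htQ : t0 ∈ Q0) (z0 : ℕ)
    (hP : PT G (fun v => v ∈ X → v ∈ Q0) s t0 z0) : ∀ m : ℕ,
      Q0.card + m * (2 * lam + 3) ≤ w1 →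
      ∃ (t : V) (z : ℕ) (Q : Finset V), t ∈ X ∧ t ≠ s ∧ s ∈ Q ∧ t ∈ Q ∧
        Q.card ≤ Q0.card + m * (2 * lam + 3) ∧ z0 + m ≤ z ∧ z ≤ z0 + m * (lam + 1) ∧
        ∀ j ≤ m, PT G (fun v => v ∈ X → v ∈ Q) s t (z + j * D) := by
  intro m
  induction m with
  | zero =>
    intro _
    refine ⟨t0, z0, Q0, ht0, hst, hsQ, htQ, by simp, by simp, by simp, ?_⟩
    intro j hj
    have hj0 : j = 0 := by omega
    subst hj0
    simpa using hP
  | succ m ih =>
    intro hbud
    have e1 : (m + 1) * (2 * lam + 3) = m * (2 * lam + 3) + (2 * lam + 3) := by ring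
    have e2 : (m + 1) * (lam + 1) = m * (lam + 1) + (lam + 1) := by ring
    obtain ⟨t, z, Q, htX, hts, hsQ', htQ', hQc, hz1, hz2, hPj⟩ := ih (by omega)
    obtain ⟨u, y, hu, hy, hadj, p, hp1, hp2, hp3⟩ := hrob Q (by omega)
    have huX := (hC.mem _ _ hadj).1
    have hyX := (hC.mem _ _ hadj).2
    have htu : t ≠ u := fun h => hu (h ▸ htQ')
    have hG1c := card_supp_le p
    have hpX := clu_supp hC p huX
    obtain ⟨e, U, he1, he2, hU1, hU2, hL⟩ := clu_link hC (Q ∪ p.support.toFinset)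
      (le_trans (Finset.card_union_le _ _) (by omega)) t u htX huX htu
    have hUQ : ∀ v ∈ U, v ∈ X ∧ v ∉ Q ∧ v ∉ p.support ∧ v ≠ t ∧ v ≠ u := by
      intro v hv
      obtain ⟨g1, g2, g3, g4⟩ := hU2 v hv
      rw [Finset.mem_union, not_or, List.mem_toFinset] at g2
      exact ⟨g1, g2.1, g2.2, g3, g4⟩
    have hstart : u ∈ p.support := p.start_mem_support
    have hend : y ∈ p.support := p.end_mem_support
    have hshort : PT G (fun v => v ∈ p.support) u y 1 := by
      refine PT.le hle ⟨SimpleGraph.Walk.cons hadj SimpleGraph.Walk.nil, ?_, ?_, ?_⟩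
      · rw [SimpleGraph.Walk.cons_isPath_iff]
        refine ⟨SimpleGraph.Walk.IsPath.nil, ?_⟩
        rw [SimpleGraph.Walk.support_nil, List.mem_singleton]
        exact hadj.ne
      · simp
      · intro v hv
        simp only [SimpleGraph.Walk.support_cons, SimpleGraph.Walk.support_nil, List.mem_cons,
          List.not_mem_nil, or_false] at hv
        rcases hv with hv | hv
        · rw [hv]; exact hstart
        · rw [hv]; exact hend
    have hlong : PT G (fun v => v ∈ p.support) u y (D + 1) :=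
      PT.le hle ⟨p, hp1, hp2, fun v hv => hv⟩
    have hmain : ∀ j ≤ m, ∀ N, PT G (fun v => v ∈ p.support) u y N →
        PT G (fun v => v ∈ X → v ∈ Q ∪ p.support.toFinset ∪ U) s y ((z + j * D + e) + N) := by
      intro j hj N hN
      have s1 := (hPj j hj).append (PT.le hle hL) (by
        rintro v hv (h | h | h)
        · exact h
        · exfalso
          rw [h] at hv
          exact hu (hv huX)
        · exfalso
          obtain ⟨g1, g2, g3, g4, g5⟩ := hUQ v h
          exact g2 (hv g1))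
      have s2 := s1.append hN (by
        rintro v (hv | hv | hv | hv) h
        · exact absurd (hv (hpX v h)) (hp3 v h)
        · exfalso
          rw [hv] at h
          exact hp3 t h htQ'
        · exact hv
        · obtain ⟨g1, g2, g3, g4, g5⟩ := hUQ v hv
          exact absurd h g3)
      refine s2.mono rfl ?_
      rintro v ((hv | hv | hv | hv) | hv) hvX
      · exact Finset.mem_union_left _ (Finset.mem_union_left _ (hv hvX))
      · rw [hv]
        exact Finset.mem_union_left _ (Finset.mem_union_left _ htQ')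
      · rw [hv]
        exact Finset.mem_union_left _ (Finset.mem_union_right _ (List.mem_toFinset.2 hstart))
      · exact Finset.mem_union_right _ hv
      · exact Finset.mem_union_left _ (Finset.mem_union_right _ (List.mem_toFinset.2 hv))
    refine ⟨y, z + e + 1, Q ∪ p.support.toFinset ∪ U, hyX, ?_, ?_, ?_, ?_, ?_, ?_, ?_⟩
    · intro h
      exact hy (h ▸ hsQ')
    · exact Finset.mem_union_left _ (Finset.mem_union_left _ hsQ')
    · exact Finset.mem_union_left _ (Finset.mem_union_right _ (List.mem_toFinset.2 hend))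
    · refine le_trans (Finset.card_union_le _ _) ?_
      have := Finset.card_union_le Q p.support.toFinset
      omega
    · omega
    · omega
    · intro j hj
      by_cases hjm : j ≤ m
      · refine (hmain j hjm 1 hshort).mono (by ring) (fun v hv => hv)
      · have hj1 : j = m + 1 := by omega
        subst hj1
        refine (hmain m (le_refl _) (D + 1) hlong).mono (by ring) (fun v hv => hv)

/-- closing a path with at least two edges -/
theorem link_close {V : Type} {G : SimpleGraph V} {a b : V} (w : G.Walk a b) (hw : w.IsPath)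
    (h2 : 2 ≤ w.length) (h : G.Adj b a) : w.length + 1 ∈ cycleSet G := by
  refine ⟨b, SimpleGraph.Walk.cons h w, ?_, by simp⟩
  rw [SimpleGraph.Walk.cons_isCycle_iff]
  refine ⟨hw, ?_⟩
  intro he
  cases w with
  | nil => simp at h2
  | cons hadj p =>
    rw [SimpleGraph.Walk.cons_isPath_iff] at hw
    rw [SimpleGraph.Walk.edges_cons, List.mem_cons] at he
    rcases he with he | he
    · rw [Sym2.eq_iff] at he
      rcases he with ⟨h3, _⟩ | ⟨h3, _⟩
      · exact h.ne h3
      · subst h3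
        have h4 := SimpleGraph.Walk.isPath_iff_eq_nil.1 hw.1
        rw [h4] at h2
        simp at h2
    · exact hw.2 (SimpleGraph.Walk.snd_mem_support_of_mem_edges p he)

/-- two paths which have only their ends in common form a cycle -/
theorem ring_cycle {V : Type} {G : SimpleGraph V} {S T : V → Prop} {s t : V} {N M : ℕ}
    (hP : PT G S s t N) (hQ : PT G T t s M) (hN : 2 ≤ N) (hM : 1 ≤ M)
    (h : ∀ z, S z → T z → z = s ∨ z = t) : N + M ∈ cycleSet G := by
  obtain ⟨p, hp1, hp2, hp3⟩ := hP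
  obtain ⟨q, hq1, hq2, hq3⟩ := hQ
  cases q with
  | nil => simp at hq2; omega
  | cons hadj q' =>
    rename_i x
    rw [SimpleGraph.Walk.cons_isPath_iff] at hq1
    rw [SimpleGraph.Walk.length_cons] at hq2
    have hpath : (q'.append p).IsPath := by
      refine append_isPath q' p hq1.1 hp1 ?_
      intro z hz1 hz2
      have h1 : z ∈ (SimpleGraph.Walk.cons hadj q').support := by
        rw [SimpleGraph.Walk.support_cons]
        exact List.mem_cons_of_mem _ hz1
      rcases h z (hp3 z hz2) (hq3 z h1) with h2 | h2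
      · exact h2
      · exfalso
        rw [h2] at hz1
        exact hq1.2 hz1
    have hlen : (q'.append p).length + 1 = N + M := by
      rw [SimpleGraph.Walk.length_append]
      omega
    rw [← hlen]
    exact link_close _ hpath (by omega) hadj

theorem tot_pos {l : ℕ} {K : Finset ℕ} {N : ℕ} {I : List (ℕ × ℕ)} (h : IFam l K N I) :
    1 ≤ tot I := by
  cases I with
  | nil => exact absurd rfl h.ne
  | cons p I =>
    have h1 := (h.lt p (by simp)).1
    have h2 : tot (p :: I) = (p.2 - p.1) + tot I := by simp [tot]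
    omega

/-- the number of intervals -/
theorem ifam_length {l : ℕ} {K : Finset ℕ} {N : ℕ} {I : List (ℕ × ℕ)} (h : IFam l K N I) :
    I.length ≤ N := by
  classical
  refine le_trans ?_ h.card
  have hnd : (I.map (fun p => p.1)).Nodup := by
    rw [List.nodup_iff_pairwise_ne, List.pairwise_map]
    refine h.pw.imp_of_mem ?_
    intro p p' hp hp' hlt
    have := (h.lt p hp).1
    omega
  have h1 : (I.map (fun p => p.1)).toFinset.card = I.length := by
    rw [List.toFinset_card_of_nodup hnd, List.length_map]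
  rw [← h1]
  refine Finset.card_le_card ?_
  intro k hk
  rw [List.mem_toFinset, List.mem_map] at hk
  obtain ⟨p, hp, rfl⟩ := hk
  rw [Finset.mem_filter]
  exact ⟨(h.lt p hp).2.2.1, p, hp, le_refl _, (h.lt p hp).1.le⟩

theorem T_LINK_holds : T_LINK := by
  classical
  intro V G Φ X w lam a N hle hC hlam ha hw l c K I hadj hinj hK hI
  have hbig : lam * (6 * lam * (N + a + 1)) + 1 ≤ w ∧ 6 * lam * (N + a + 1) + (lam + 2) ≤ w ∧
      N + (a + N) * (2 * lam + 3) ≤ 6 * lam * (N + a + 1) ∧
      (a + N + 1) * (lam + 1) ≤ w := by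
    have h1 : lam ≤ lam ^ 2 := by nlinarith
    have h2 : 1 ≤ lam ^ 2 := by nlinarith
    have h3 : lam * (N + a + 1) ≤ lam ^ 2 * (N + a + 1) := Nat.mul_le_mul_right _ h1
    refine ⟨?_, ?_, ?_, ?_⟩
    · nlinarith
    · nlinarith
    · nlinarith
    · nlinarith
  obtain ⟨hb1, hb2, hb3, hb4⟩ := hbig
  have hlen := ifam_length hI
  have htot := tot_pos hI
  obtain ⟨p, rest, rfl⟩ : ∃ p rest, I = p :: rest := by
    cases I with
    | nil => exact absurd rfl hI.ne
    | cons p rest => exact ⟨p, rest, rfl⟩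
  have hval : ∀ q ∈ p :: rest, q.1 < q.2 ∧ q.2 < l ∧ c q.1 ∈ X ∧ c q.2 ∈ X := by
    intro q hq
    obtain ⟨h1, h2, h3, h4⟩ := hI.lt q hq
    exact ⟨h1, h2, ((hK _).1 h3).2, ((hK _).1 h4).2⟩
  obtain ⟨hp1, hp2, hp3, hp4⟩ := hval p (by simp)
  have hX : X.Nonempty := ⟨_, hp3⟩
  obtain ⟨D, hD1, hD2, hrob⟩ := robust_gadget hC hX (6 * lam * (N + a + 1)) hb1
  set W0 : Finset V := (K.filter (fun k => ∃ q ∈ p :: rest, q.1 ≤ k ∧ k ≤ q.2)).image c with hW0
  have hW0c : W0.card ≤ N := le_trans Finset.card_image_le hI.card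
  have hW0mem : ∀ z, z ∈ X → onP c (p :: rest) z → z ∈ W0 := by
    rintro z hz ⟨q, hq, k, hk1, hk2, hk3⟩
    rw [hW0, Finset.mem_image]
    refine ⟨k, ?_, hk3.symm⟩
    rw [Finset.mem_filter]
    have := (hval q hq).2.1
    exact ⟨(hK k).2 ⟨by omega, by rw [← hk3]; exact hz⟩, q, hq, hk1, hk2⟩
  rw [List.length_cons] at hlen
  have hrl : rest.length * (lam + 1) ≤ N * (lam + 1) := Nat.mul_le_mul_right _ (by omega)
  have hrl2 : rest.length * lam ≤ rest.length * (lam + 1) := Nat.mul_le_mul_left _ (by omega)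
  have hexp : (a + N) * (2 * lam + 3) = a * (2 * lam + 3) + N * (lam + 1) + N * (lam + 2) := by
    ring
  have hexp2 : (a + N + 1) * (lam + 1) = a * (lam + 1) + N * (lam + 1) + (lam + 1) := by
    ring
  obtain ⟨L, hL, d, U, hd1, hd2, hU1, hU2, hP⟩ := chain_pieces hle hC l c hadj hinj W0 rest p hval
    hW0mem hI.pw (by omega)
  obtain ⟨hL1, hL2, hL3, hL4⟩ := hval L hL
  have hsL : c L.2 ≠ c p.1 := by
    intro h
    have h1 := hinj _ _ hL2 (by omega) h
    rw [List.mem_cons] at hL
    rcases hL with hL | hL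
    · rw [hL] at h1
      omega
    · have h2 := hI.pw
      rw [List.pairwise_cons] at h2
      have h3 := h2.1 L hL
      omega
  obtain ⟨t, z, Q, htX, hts, hsQ, htQ, hQc, hz1, hz2, hPj⟩ := chain_gadgets hle hC hlam hD2 hb2
    hrob (c p.1) (c L.2) hL4 hsL (W0 ∪ U)
    (Finset.mem_union_left _ (hW0mem _ hp3 ⟨p, by simp, p.1, le_refl _, hp1.le, rfl⟩))
    (Finset.mem_union_left _ (hW0mem _ hL4 ⟨L, hL, L.2, hL1.le, le_refl _, rfl⟩)) d
    (hP.mono rfl (by
      rintro v (hv | hv) hvX
      · exact Finset.mem_union_left _ (hW0mem _ hvX hv)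
      · exact Finset.mem_union_right _ hv)) a
    (by
      have := Finset.card_union_le W0 U
      omega)
  have hWU := Finset.card_union_le W0 U
  obtain ⟨e, U2, he1, he2, hU21, hU22, hQ⟩ := clu_link hC Q (by omega) t (c p.1) htX hp3 hts
  refine ⟨D, z + e, hD1, hD2, by omega, by omega, ?_⟩
  intro j hj
  have hcyc := ring_cycle (hPj j hj) (PT.le hle hQ) (by omega) he1 (by
    rintro v hv (h | h | h)
    · exact Or.inr h
    · exact Or.inl h
    · exfalso
      obtain ⟨g1, g2, g3, g4⟩ := hU22 v h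
      exact g2 (hv g1))
  have heq : z + e + j * D = z + j * D + e := by ring
  rw [heq]
  exact hcyc

end Pool.Agent.CycSp
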