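import Pool.Agent.CycSp.Targets

set_option autoImplicit false

/-!
# Cycle sets of sparse graphs: the assembly of the main estimate
-/

namespace Pool.Agent.CycSp

open Finset
open Pool.Agent.HubG (cycleSet CycSeq)

theorem inBlock_card_le {P : Finset Pt} (hd : ∀ p ∈ P, ∀ q ∈ P, p.2 = q.2 → p = q) (A : ℤ)
    (j : ℕ) : (inBlock P A (2 ^ j)).card ≤ 2 ^ j := by
  have h1 : (inBlock P A (2 ^ j)).card ≤ (Finset.Ico (A + 2 ^ j) (A + 2 * 2 ^ j)).card := by
    refine Finset.card_le_card_of_injOn (fun p => p.2) ?_ ?_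
    · intro p hp
      simp only [inBlock, Finset.coe_filter, Set.mem_ofPred_eq] at hp
      simp only [Finset.coe_Ico, Set.mem_Ico]
      exact ⟨hp.2.2.2.1, hp.2.2.2.2⟩
    · intro p hp q hq hpq
      simp only [inBlock, Finset.coe_filter, Set.mem_ofPred_eq] at hp hq
      exact hd p hp.1 q hq.1 hpq
  rw [Int.card_Ico] at h1
  have h2 : (A + 2 * 2 ^ j - (A + 2 ^ j)) = ((2 ^ j : ℕ) : ℤ) := by push_cast; ring
  rw [h2, Int.toNat_natCast] at h1
  exact h1

theorem inBlock_far {P : Finset Pt} {L : ℤ} (hm : ∀ p ∈ P, p.2 < L ∧ p.1 < p.2) (A h : ℤ)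
    (hA : L ≤ A) : (inBlock P A h).card = 0 := by
  rw [Finset.card_eq_zero, inBlock, Finset.filter_eq_empty_iff]
  intro p hp hc
  have := hm p hp
  omega

/-- The sum over all blocks against the sum over the full blocks. -/
theorem sum_full {P : Finset Pt} {L : ℕ} (hm : ∀ p ∈ P, p.2 < (L : ℤ) ∧ p.1 < p.2)
    (hd : ∀ p ∈ P, ∀ q ∈ P, p.2 = q.2 → p = q) (j K : ℕ) :
    ∑ k ∈ range K, (inBlock P (2 * 2 ^ j * k) (2 ^ j)).card ≤
      ∑ k ∈ range (L / (2 * 2 ^ j)), (inBlock P (2 * 2 ^ j * k) (2 ^ j)).card + 2 ^ j := by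
  have hpos : 0 < 2 * 2 ^ j := by positivity
  have hfar : ∀ k : ℕ, L / (2 * 2 ^ j) < k → (inBlock P (2 * 2 ^ j * k) (2 ^ j)).card = 0 := by
    intro k hk
    refine inBlock_far hm _ _ ?_
    have h1 : L < (2 * 2 ^ j) * (L / (2 * 2 ^ j) + 1) := Nat.lt_mul_div_succ L hpos
    have h2 : (2 * 2 ^ j) * (L / (2 * 2 ^ j) + 1) ≤ (2 * 2 ^ j) * k := Nat.mul_le_mul_left _ hk
    have h3 : L ≤ (2 * 2 ^ j) * k := le_of_lt (lt_of_lt_of_le h1 h2)
    exact_mod_cast h3
  have h4 : ∑ k ∈ range K, (inBlock P (2 * 2 ^ j * k) (2 ^ j)).card ≤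
      ∑ k ∈ range (L / (2 * 2 ^ j) + 1), (inBlock P (2 * 2 ^ j * k) (2 ^ j)).card := by
    rw [← Finset.sum_filter_add_sum_filter_not (range K) (fun k => k ≤ L / (2 * 2 ^ j))]
    have h5 : ∑ k ∈ (range K).filter (fun k => ¬ k ≤ L / (2 * 2 ^ j)),
        (inBlock P (2 * 2 ^ j * k) (2 ^ j)).card = 0 := by
      refine Finset.sum_eq_zero ?_
      intro k hk
      rw [Finset.mem_filter] at hk
      exact hfar k (not_le.1 hk.2)
    rw [h5, add_zero]
    refine Finset.sum_le_sum_of_subset ?_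
    intro k hk
    rw [Finset.mem_filter] at hk
    rw [Finset.mem_range]
    omega
  rw [Finset.sum_range_succ] at h4
  exact le_trans h4 (Nat.add_le_add_left (inBlock_card_le hd _ j) _)

theorem p_MAIN (h1 : T_LARGE) (h2 : T_VK) (h3 : T_DYADIC) (h4 : T_ASSM) (h5 : T_BLOCKS)
    (h6 : T_BFULL) : T_MAIN := by
  obtain ⟨C1, hC1, h1⟩ := h1
  obtain ⟨C2, hC2, h2⟩ := h2
  refine ⟨C1 + C2 + 2, by omega, ?_⟩
  intro n R s V Gr L c v P lam hR hs hsR hRn hLn hnP hcyc
  have hlog : 1 ≤ Nat.log 2 n + 1 := by omega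
  have hR1 : C1 * (Nat.log 2 n + 1) ≤ R :=
    le_trans (Nat.mul_le_mul_right _ (by omega)) hR
  have hR2 : C2 * (Nat.log 2 n + 1) ≤ R :=
    le_trans (Nat.mul_le_mul_right _ (by omega)) hR
  have hR3 : 2 * (Nat.log 2 n + 1) ≤ R :=
    le_trans (Nat.mul_le_mul_right _ (by omega)) hR
  have hR4 : 2 ≤ R := by omega
  have hR5 : Nat.log 2 n + 1 ≤ R := by omega
  have hLn' : (L : ℤ) ≤ (n : ℤ) := by exact_mod_cast hLn
  have hm : ∀ p ∈ P, p.2 < (L : ℤ) ∧ p.1 < p.2 := by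
    intro p hp
    have := hcyc.mem p hp
    omega
  obtain ⟨j, hj, hjP⟩ := h3 n P (by
    intro p hp
    have := hcyc.mem p hp
    omega)
  have hpos : 0 < 2 * 2 ^ j := by positivity
  have hn0 : 0 < n := lt_of_lt_of_le (by positivity) hRn
  set S : ℕ := ∑ k ∈ range (n / 2 ^ (j + 1) + 1), (inBlock P (2 * 2 ^ j * k) (2 ^ j)).card with hS
  have hnS : n ≤ R ^ 7 * S := by
    calc n ≤ R ^ 6 * P.card := hnP
      _ ≤ R ^ 6 * ((Nat.log 2 n + 1) * S) := Nat.mul_le_mul_left _ hjP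
      _ ≤ R ^ 6 * (R * S) := Nat.mul_le_mul_left _ (Nat.mul_le_mul_right _ hR5)
      _ = R ^ 7 * S := by ring
  have hRpow : ∀ a : ℕ, 1 ≤ R ^ a := fun a => Nat.one_le_pow _ _ (by omega)
  by_cases hcase : n ≤ 2 * 2 ^ j * R ^ 35
  · -- one large block
    have hK : n / 2 ^ (j + 1) + 1 ≤ R ^ 36 := by
      have h7 : n / 2 ^ (j + 1) ≤ R ^ 35 := by
        refine Nat.div_le_of_le_mul ?_
        rw [pow_succ, mul_comm (2 ^ j) 2]
        exact hcase
      have h8 : R ^ 35 + 1 ≤ R ^ 36 := by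
        rw [pow_succ R 35]
        have := hRpow 35
        nlinarith
      omega
    have hex : ∃ k ∈ range (n / 2 ^ (j + 1) + 1),
        n ≤ R ^ 43 * (inBlock P (2 * 2 ^ j * k) (2 ^ j)).card := by
      by_contra hno
      push Not at hno
      have h7 : R ^ 43 * S < (n / 2 ^ (j + 1) + 1) * n := by
        rw [hS, Finset.mul_sum]
        calc ∑ k ∈ range (n / 2 ^ (j + 1) + 1),
              R ^ 43 * (inBlock P (2 * 2 ^ j * k) (2 ^ j)).card
            < ∑ _k ∈ range (n / 2 ^ (j + 1) + 1), n := by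
              refine Finset.sum_lt_sum_of_nonempty ?_ hno
              exact ⟨0, by simp⟩
          _ = (n / 2 ^ (j + 1) + 1) * n := by simp
      have h8 : (n / 2 ^ (j + 1) + 1) * n ≤ R ^ 36 * (R ^ 7 * S) := Nat.mul_le_mul hK hnS
      have h9 : R ^ 36 * (R ^ 7 * S) = R ^ 43 * S := by ring
      omega
    obtain ⟨k, _, hk⟩ := hex
    have hbig : R ^ 30 ≤ (inBlock P (2 * 2 ^ j * k) (2 ^ j)).card := by
      have h7 : R ^ 43 * R ^ 57 ≤ R ^ 43 * (inBlock P (2 * 2 ^ j * k) (2 ^ j)).card := by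
        calc R ^ 43 * R ^ 57 = R ^ 100 := by ring
          _ ≤ n := hRn
          _ ≤ _ := hk
      have h8 : R ^ 57 ≤ (inBlock P (2 * 2 ^ j * k) (2 ^ j)).card :=
        Nat.le_of_mul_le_mul_left h7 (hRpow 43)
      exact le_trans (Nat.pow_le_pow_right (by omega) (by norm_num)) h8
    obtain ⟨b, hb, hZD⟩ := h1 n R s V Gr L c v P lam hR1 hs hsR hcyc hLn' (2 * 2 ^ j * k) (2 ^ j)
      (by positivity) (by exact_mod_cast Nat.one_le_two_pow) hbig
    refine ⟨b, ?_, hZD⟩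
    calc n ≤ R ^ 43 * (inBlock P (2 * 2 ^ j * k) (2 ^ j)).card := hk
      _ ≤ R ^ 43 * (R ^ 21 * b) := Nat.mul_le_mul_left _ hb
      _ = R ^ 64 * b := by ring
      _ ≤ R ^ 70 * b := Nat.mul_le_mul_right _ (Nat.pow_le_pow_right (by omega) (by norm_num))
  · -- many small blocks
    push Not at hcase
    set B : ℕ := L / (2 * 2 ^ j) with hB
    set S' : ℕ := ∑ k ∈ range B, (inBlock P (2 * 2 ^ j * k) (2 ^ j)).card with hS'
    have hSS : S ≤ S' + 2 ^ j := sum_full hm hcyc.disty j _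
    have hBL : 2 * 2 ^ j * B ≤ L := Nat.mul_div_le L _
    have hle : ∀ k : ℕ, (inBlock P (2 * 2 ^ j * k) (2 ^ j)).card ≤ 2 ^ j :=
      fun k => inBlock_card_le hcyc.disty _ j
    have hnS' : n ≤ R ^ 8 * S' := by
      have h7 : n ≤ R ^ 7 * S' + R ^ 7 * 2 ^ j := by
        calc n ≤ R ^ 7 * S := hnS
          _ ≤ R ^ 7 * (S' + 2 ^ j) := Nat.mul_le_mul_left _ hSS
          _ = _ := by ring
      have h8 : 2 * (R ^ 7 * 2 ^ j) ≤ n := by
        calc 2 * (R ^ 7 * 2 ^ j) = 2 * 2 ^ j * R ^ 7 := by ring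
          _ ≤ 2 * 2 ^ j * R ^ 35 :=
            Nat.mul_le_mul_left _ (Nat.pow_le_pow_right (by omega) (by norm_num))
          _ ≤ n := le_of_lt hcase
      have h9 : n ≤ 2 * (R ^ 7 * S') := by omega
      calc n ≤ 2 * (R ^ 7 * S') := h9
        _ ≤ R * (R ^ 7 * S') := Nat.mul_le_mul_right _ hR4
        _ = _ := by ring
    -- the number of nonempty blocks
    set m : ℕ := ((range B).filter (fun k : ℕ => 1 ≤ (inBlock P (2 * 2 ^ j * k) (2 ^ j)).card)).card
      with hmdef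
    have hS'm : S' ≤ m * 2 ^ j := by
      rw [hS', ← Finset.sum_filter_add_sum_filter_not (range B)
        (fun k : ℕ => 1 ≤ (inBlock P (2 * 2 ^ j * k) (2 ^ j)).card)]
      have h7 : ∑ k ∈ (range B).filter
          (fun k : ℕ => ¬ 1 ≤ (inBlock P (2 * 2 ^ j * k) (2 ^ j)).card),
          (inBlock P (2 * 2 ^ j * k) (2 ^ j)).card = 0 := by
        refine Finset.sum_eq_zero ?_
        intro k hk
        rw [Finset.mem_filter] at hk
        omega
      rw [h7, add_zero, hmdef]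
      calc _ ≤ ∑ _k ∈ (range B).filter
            (fun k : ℕ => 1 ≤ (inBlock P (2 * 2 ^ j * k) (2 ^ j)).card), 2 ^ j :=
          Finset.sum_le_sum (fun k _ => hle k)
        _ = _ := by simp
    have hmR : R ≤ m := by
      by_contra hno
      push Not at hno
      have h7 : n ≤ R ^ 8 * (m * 2 ^ j) := le_trans hnS' (Nat.mul_le_mul_left _ hS'm)
      have h8 : R ^ 8 * (m * 2 ^ j) ≤ R ^ 8 * (R * 2 ^ j) :=
        Nat.mul_le_mul_left _ (Nat.mul_le_mul_right _ (le_of_lt hno))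
      have h9 : R ^ 8 * (R * 2 ^ j) ≤ 2 * 2 ^ j * R ^ 35 := by
        calc R ^ 8 * (R * 2 ^ j) = 2 ^ j * R ^ 9 := by ring
          _ ≤ 2 ^ j * R ^ 35 :=
            Nat.mul_le_mul_left _ (Nat.pow_le_pow_right (by omega) (by norm_num))
          _ ≤ 2 * (2 ^ j * R ^ 35) := by omega
          _ = _ := by ring
      omega
    have hmB : m ≤ B := by
      rw [hmdef]
      refine le_trans (Finset.card_filter_le _ _) ?_
      simp
    have hB2 : 2 ≤ B := by omega
    -- the sets of lengths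
    have hX : ∀ k : ℕ, ∃ X : Finset ℕ, k < B → X.Nonempty ∧ X.card ≤ 2 ^ j + 1 ∧
        (inBlock P (2 * 2 ^ j * k) (2 ^ j)).card ≤ R ^ 21 * (X.card - 1) ∧
        (1 ≤ (inBlock P (2 * 2 ^ j * k) (2 ^ j)).card → 2 ≤ X.card) ∧
        ∀ N ∈ X, BPath Gr c v lam (inBlock P (2 * 2 ^ j * k) (2 ^ j)) (2 * 2 ^ j * k)
          (2 * 2 ^ j * k + 2 * 2 ^ j - 1) N := by
      intro k
      by_cases hk : k < B
      · have hA : (0 : ℤ) ≤ 2 * 2 ^ j * k := by positivity
        have hh : (1 : ℤ) ≤ 2 ^ j := by exact_mod_cast Nat.one_le_two_pow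
        have hAL : (2 * 2 ^ j * k : ℤ) + 2 * 2 ^ j ≤ (L : ℤ) := by
          have h7 : 2 * 2 ^ j * k + 2 * 2 ^ j ≤ L := by
            calc 2 * 2 ^ j * k + 2 * 2 ^ j = 2 * 2 ^ j * (k + 1) := by ring
              _ ≤ 2 * 2 ^ j * B := Nat.mul_le_mul_left _ hk
              _ ≤ L := hBL
          exact_mod_cast h7
        by_cases hp : 1 ≤ (inBlock P (2 * 2 ^ j * k) (2 ^ j)).card
        · obtain ⟨X, hX1, hX2, hX3, hX4⟩ := h2 n R V Gr L c v P lam hR2 hcyc hLn'
            (2 * 2 ^ j * k) (2 ^ j) hA hh hAL hp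
          refine ⟨X, fun _ => ⟨?_, ?_, hX3, fun _ => hX1, hX4⟩⟩
          · rw [← Finset.card_pos]; omega
          · exact le_trans hX2 (Nat.add_le_add_right (hle k) 1)
        · obtain ⟨N, hN, _⟩ := h6 V Gr L c v P lam hcyc (2 * 2 ^ j * k) (2 ^ j) hA hh hAL
          refine ⟨{N}, fun _ => ⟨by simp, by simp, by omega, fun h => absurd h hp, ?_⟩⟩
          intro N' hN'
          rw [Finset.mem_singleton] at hN'
          rw [hN']
          exact hN
      · exact ⟨∅, fun h => absurd h hk⟩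
    choose X hX using hX
    obtain ⟨Z, D, hD, hZ, hZD⟩ := h4 B s (2 ^ j) X (fun k hk => (hX k hk).1)
      (fun k hk => (hX k hk).2.1) hs (by
        refine le_trans hsR (le_trans hmR ?_)
        rw [hmdef]
        refine Finset.card_le_card ?_
        intro k hk
        rw [Finset.mem_filter] at hk ⊢
        exact ⟨hk.1, (hX k (Finset.mem_range.1 hk.1)).2.2.2.1 hk.2⟩)
    have hcount : n ≤ R ^ 30 * Z.card := by
      have h7 : S' ≤ R ^ 21 * ∑ k ∈ range B, ((X k).card - 1) := by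
        rw [hS', Finset.mul_sum]
        exact Finset.sum_le_sum (fun k hk => (hX k (Finset.mem_range.1 hk)).2.2.1)
      have h8 : n ≤ R ^ 29 * Z.card + R ^ 30 * 2 ^ j := by
        calc n ≤ R ^ 8 * S' := hnS'
          _ ≤ R ^ 8 * (R ^ 21 * ∑ k ∈ range B, ((X k).card - 1)) := Nat.mul_le_mul_left _ h7
          _ ≤ R ^ 8 * (R ^ 21 * (Z.card + s * 2 ^ j)) :=
            Nat.mul_le_mul_left _ (Nat.mul_le_mul_left _ hZ)
          _ ≤ R ^ 8 * (R ^ 21 * (Z.card + R * 2 ^ j)) :=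
            Nat.mul_le_mul_left _ (Nat.mul_le_mul_left _
              (Nat.add_le_add_left (Nat.mul_le_mul_right _ hsR) _))
          _ = _ := by ring
      have h9 : 2 * (R ^ 30 * 2 ^ j) ≤ n := by
        calc 2 * (R ^ 30 * 2 ^ j) = 2 * 2 ^ j * R ^ 30 := by ring
          _ ≤ 2 * 2 ^ j * R ^ 35 :=
            Nat.mul_le_mul_left _ (Nat.pow_le_pow_right (by omega) (by norm_num))
          _ ≤ n := le_of_lt hcase
      have h10 : n ≤ 2 * (R ^ 29 * Z.card) := by omega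
      calc n ≤ 2 * (R ^ 29 * Z.card) := h10
        _ ≤ R * (R ^ 29 * Z.card) := Nat.mul_le_mul_right _ hR4
        _ = _ := by ring
    set κ : ℤ := (L : ℤ) - 2 * 2 ^ j * B + B with hκ
    refine ⟨Z.card, ?_, Z.image (fun z => z + κ), D, hD, ?_, ?_⟩
    · exact le_trans hcount (Nat.mul_le_mul_right _
        (Nat.pow_le_pow_right (by omega) (by norm_num)))
    · rw [Finset.card_image_of_injective _ (add_left_injective κ)]
    · intro z' hz' d hd
      rw [Finset.mem_image] at hz'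
      obtain ⟨z, hz, rfl⟩ := hz'
      obtain ⟨N, hN1, hN2⟩ := hZD z hz d hd
      obtain ⟨M, hM1, hM2⟩ := h5 V Gr L c v P lam hcyc (2 ^ j) B N
        (by exact_mod_cast Nat.one_le_two_pow) hB2 (by exact_mod_cast hBL)
        (fun k hk => (hX k hk).2.2.2.2 (N k) (hN1 k hk))
      refine ⟨M, hM1, ?_⟩
      rw [hM2, Finset.sum_add_distrib, hN2, hκ]
      simp
      ring

end Pool.Agent.CycSp
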