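import Pool.Agent.CycSp.Targets2
import Pool.Agent.CycSp.MAIN

set_option autoImplicit false

/-!
# Cycle sets of all graphs: the assembly of the main estimate
-/

namespace Pool.Agent.CycSp

open Finset
open scoped Pointwise
open Pool.Agent.HubG (cycleSet CycSeq)

namespace MAIN2_

/-- The sum over all blocks against the sum over the full blocks and the partial block. -/
theorem sum_full2 {P : Finset Pt} {L : ℕ} (hm : ∀ p ∈ P, p.2 < (L : ℤ) ∧ p.1 < p.2) (j K : ℕ) :
    ∑ k ∈ range K, (inBlock P (2 * 2 ^ j * k) (2 ^ j)).card ≤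
      ∑ k ∈ range (L / (2 * 2 ^ j)), (inBlock P (2 * 2 ^ j * k) (2 ^ j)).card +
        (inBlock P (2 * 2 ^ j * (L / (2 * 2 ^ j) : ℕ)) (2 ^ j)).card := by
  have hpos : 0 < 2 * 2 ^ j := by positivity
  have hfar : ∀ k : ℕ, L / (2 * 2 ^ j) < k → (inBlock P (2 * 2 ^ j * k) (2 ^ j)).card = 0 := by
    intro k hk
    refine inBlock_far hm _ _ ?_
    have h1 : L < (2 * 2 ^ j) * (L / (2 * 2 ^ j) + 1) := Nat.lt_mul_div_succ L hpos
    have h2 : (2 * 2 ^ j) * (L / (2 * 2 ^ j) + 1) ≤ (2 * 2 ^ j) * k := Nat.mul_le_mul_left _ hk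
    have h3 : L ≤ (2 * 2 ^ j) * k := le_of_lt (lt_of_lt_of_le h1 h2)
    exact_mod_cast h3
  have h4 : ∑ k ∈ range K, (inBlock P (2 * 2 ^ j * k) (2 ^ j)).card ≤
      ∑ k ∈ range (L / (2 * 2 ^ j) + 1), (inBlock P (2 * 2 ^ j * k) (2 ^ j)).card := by
    rw [← Finset.sum_filter_add_sum_filter_not (range K) (fun k => k ≤ L / (2 * 2 ^ j))]
    have h5 : ∑ k ∈ (range K).filter (fun k => ¬ k ≤ L / (2 * 2 ^ j)),
        (inBlock P (2 * 2 ^ j * k) (2 ^ j)).card = 0 := by
      refine Finset.sum_eq_zero ?_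
      intro k hk
      rw [Finset.mem_filter] at hk
      exact hfar k (not_le.1 hk.2)
    rw [h5, add_zero]
    refine Finset.sum_le_sum_of_subset ?_
    intro k hk
    rw [Finset.mem_filter] at hk
    rw [Finset.mem_range]
    omega
  rwa [Finset.sum_range_succ] at h4

/-- the `s` smallest of at least `2 s` numbers have at most half of the sum -/
theorem exists_small (A : Finset ℕ) (f : ℕ → ℕ) (s : ℕ) (hs : 2 * s ≤ A.card) :
    ∃ K ⊆ A, K.card = s ∧ 2 * ∑ k ∈ K, f k ≤ ∑ k ∈ A, f k := by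
  classical
  obtain ⟨K, hK, hmin⟩ := Finset.exists_min_image (A.powersetCard s) (fun K => ∑ k ∈ K, f k)
    (Finset.powersetCard_nonempty.2 (by omega))
  rw [Finset.mem_powersetCard] at hK
  refine ⟨K, hK.1, hK.2, ?_⟩
  have h1 : s ≤ (A \ K).card := by
    rw [Finset.card_sdiff_of_subset hK.1]
    omega
  obtain ⟨K1, hK1, hK1c⟩ := Finset.exists_subset_card_eq h1
  have h2 := hmin K1 (Finset.mem_powersetCard.2 ⟨hK1.trans Finset.sdiff_subset, hK1c⟩)
  have h3 : ∑ k ∈ K1, f k ≤ ∑ k ∈ A \ K, f k := Finset.sum_le_sum_of_subset hK1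
  have h4 := Finset.sum_sdiff (f := f) hK.1
  omega

/-- sums of one element of every set -/
theorem exists_sums (X : ℕ → Finset ℕ) (K : Finset ℕ) (hX : ∀ k ∈ K, (X k).Nonempty) :
    ∃ Z : Finset ℤ, Z.Nonempty ∧ ∑ k ∈ K, ((X k).card - 1) + 1 ≤ Z.card ∧
      ∀ z ∈ Z, ∃ N : ℕ → ℕ, (∀ k ∈ K, N k ∈ X k) ∧ ∑ k ∈ K, (N k : ℤ) = z := by
  classical
  induction K using Finset.induction_on with
  | empty =>
    refine ⟨{0}, by simp, by simp, ?_⟩
    intro z hz
    rw [Finset.mem_singleton] at hz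
    exact ⟨fun _ => 0, by simp, by simp [hz]⟩
  | insert a K ha ih =>
    obtain ⟨Z, hZ1, hZ2, hZ3⟩ := ih (fun k hk => hX k (Finset.mem_insert_of_mem hk))
    have hXa : (X a).Nonempty := hX a (Finset.mem_insert_self _ _)
    have hXa' : ((X a).image (fun m : ℕ => (m : ℤ))).Nonempty := hXa.image _
    have hc : ((X a).image (fun m : ℕ => (m : ℤ))).card = (X a).card :=
      Finset.card_image_of_injective _ Nat.cast_injective
    refine ⟨(X a).image (fun m : ℕ => (m : ℤ)) + Z, hXa'.add hZ1, ?_, ?_⟩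
    · have h1 := cauchy_davenport_add_of_linearOrder_isCancelAdd hXa' hZ1
      rw [hc] at h1
      rw [Finset.sum_insert ha]
      have h2 : 1 ≤ (X a).card := hXa.card_pos
      omega
    · intro z hz
      obtain ⟨x, hx, z', hz', rfl⟩ := Finset.mem_add.1 hz
      rw [Finset.mem_image] at hx
      obtain ⟨m, hm, rfl⟩ := hx
      obtain ⟨N, hN1, hN2⟩ := hZ3 z' hz'
      refine ⟨fun k => if k = a then m else N k, ?_, ?_⟩
      · intro k hk
        by_cases hka : k = a
        · simp only [hka, if_true]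
          exact hm
        · simp only [hka, if_false]
          exact hN1 k (Finset.mem_of_mem_insert_of_ne hk hka)
      · rw [Finset.sum_insert ha]
        have h3 : ∑ k ∈ K, ((if k = a then m else N k : ℕ) : ℤ) = ∑ k ∈ K, (N k : ℤ) := by
          refine Finset.sum_congr rfl ?_
          intro k hk
          have hka : k ≠ a := fun h => ha (h ▸ hk)
          simp only [hka, if_false]
        rw [h3, hN2]
        simp

end MAIN2_

open MAIN2_ in
theorem p_ASSM2 : T_ASSM2 := by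
  classical
  intro B K0 X hK0 hne hX hX2
  obtain ⟨Z, -, hZ2, hZ3⟩ := exists_sums X (range B \ K0) (fun k hk =>
    hX k (Finset.mem_range.1 (Finset.mem_sdiff.1 hk).1))
  obtain ⟨D', -, hD2, hD3⟩ := exists_sums X K0 (fun k hk => hX k (Finset.mem_range.1 (hK0 hk)))
  have h1 : K0.card ≤ D'.card := by
    have h2 : K0.card ≤ ∑ k ∈ K0, ((X k).card - 1) := by
      calc K0.card = ∑ _k ∈ K0, 1 := by simp
        _ ≤ _ := Finset.sum_le_sum (fun k hk => by
          have := hX2 k hk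
          omega)
    omega
  obtain ⟨D, hD, hDc⟩ := Finset.exists_subset_card_eq h1
  refine ⟨Z, D.image (fun d => -d), ?_, by omega, ?_⟩
  · rw [Finset.card_image_of_injective _ neg_injective, hDc]
  · intro z hz d hd
    rw [Finset.mem_image] at hd
    obtain ⟨d', hd', rfl⟩ := hd
    obtain ⟨N1, hN1, hN1s⟩ := hZ3 z hz
    obtain ⟨N2, hN2, hN2s⟩ := hD3 d' (hD hd')
    refine ⟨fun k => if k ∈ K0 then N2 k else N1 k, ?_, ?_⟩
    · intro k hk
      by_cases hk0 : k ∈ K0
      · simp only [hk0, if_true]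
        exact hN2 k hk0
      · simp only [hk0, if_false]
        exact hN1 k (Finset.mem_sdiff.2 ⟨Finset.mem_range.2 hk, hk0⟩)
    · rw [← Finset.sum_sdiff hK0]
      have h3 : ∑ k ∈ range B \ K0, ((if k ∈ K0 then N2 k else N1 k : ℕ) : ℤ) = z := by
        rw [← hN1s]
        refine Finset.sum_congr rfl ?_
        intro k hk
        simp only [(Finset.mem_sdiff.1 hk).2, if_false]
      have h4 : ∑ k ∈ K0, ((if k ∈ K0 then N2 k else N1 k : ℕ) : ℤ) = d' := by
        rw [← hN2s]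
        refine Finset.sum_congr rfl ?_
        intro k hk
        simp only [hk, if_true]
      rw [h3, h4]
      ring

open MAIN2_ in
theorem p_MAIN2 (h1 : T_LARGE) (h2 : T_VK) (h3 : T_DYADIC) (h4 : T_ASSM2) (h5 : T_BLOCKS)
    (h6 : T_BFULL) : T_MAIN2 := by
  obtain ⟨C1, hC1, h1⟩ := h1
  obtain ⟨C2, hC2, h2⟩ := h2
  refine ⟨C1 + C2 + 2, by omega, ?_⟩
  intro n R s V Gr L c v P lam hR hs hsR hLn hPc hcyc
  have hlog : 1 ≤ Nat.log 2 n + 1 := by omega
  have hR1 : C1 * (Nat.log 2 n + 1) ≤ R :=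
    le_trans (Nat.mul_le_mul_right _ (by omega)) hR
  have hR2 : C2 * (Nat.log 2 n + 1) ≤ R :=
    le_trans (Nat.mul_le_mul_right _ (by omega)) hR
  have hR3 : 2 * (Nat.log 2 n + 1) ≤ R :=
    le_trans (Nat.mul_le_mul_right _ (by omega)) hR
  have hR4 : 2 ≤ R := by omega
  have hR5 : Nat.log 2 n + 1 ≤ R := by omega
  have hLn' : (L : ℤ) ≤ (n : ℤ) := by exact_mod_cast hLn
  have hm : ∀ p ∈ P, p.2 < (L : ℤ) ∧ p.1 < p.2 := by
    intro p hp
    have := hcyc.mem p hp
    omega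
  obtain ⟨j, hj, hjP⟩ := h3 n P (by
    intro p hp
    have := hcyc.mem p hp
    omega)
  have hpos : 0 < 2 * 2 ^ j := by positivity
  set S : ℕ := ∑ k ∈ range (n / 2 ^ (j + 1) + 1), (inBlock P (2 * 2 ^ j * k) (2 ^ j)).card with hS
  have hPS : P.card ≤ R * S := le_trans hjP (Nat.mul_le_mul_right _ hR5)
  have hRpow : ∀ a : ℕ, 1 ≤ R ^ a := fun a => Nat.one_le_pow _ _ (by omega)
  set B : ℕ := L / (2 * 2 ^ j) with hB
  set S' : ℕ := ∑ k ∈ range B, (inBlock P (2 * 2 ^ j * k) (2 ^ j)).card with hS'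
  have hSS : S ≤ S' + (inBlock P (2 * 2 ^ j * B) (2 ^ j)).card := sum_full2 hm j _
  have hBL : 2 * 2 ^ j * B ≤ L := Nat.mul_div_le L _
  -- a block with many pairs
  have hlarge : ∀ k : ℕ, P.card ≤ R ^ 4 * (inBlock P (2 * 2 ^ j * k) (2 ^ j)).card →
      ∃ b : ℕ, P.card ≤ R ^ 30 * b ∧ ZD Gr s b := by
    intro k hk
    have hbig : R ^ 30 ≤ (inBlock P (2 * 2 ^ j * k) (2 ^ j)).card := by
      have h7 : R ^ 4 * R ^ 56 ≤ R ^ 4 * (inBlock P (2 * 2 ^ j * k) (2 ^ j)).card := by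
        calc R ^ 4 * R ^ 56 = R ^ 60 := by ring
          _ ≤ P.card := hPc
          _ ≤ _ := hk
      have h8 : R ^ 56 ≤ (inBlock P (2 * 2 ^ j * k) (2 ^ j)).card :=
        Nat.le_of_mul_le_mul_left h7 (hRpow 4)
      exact le_trans (Nat.pow_le_pow_right (by omega) (by norm_num)) h8
    obtain ⟨b, hb, hZD⟩ := h1 n R s V Gr L c v P lam hR1 hs hsR hcyc hLn' (2 * 2 ^ j * k) (2 ^ j)
      (by positivity) (by exact_mod_cast Nat.one_le_two_pow) hbig
    refine ⟨b, ?_, hZD⟩
    calc P.card ≤ R ^ 4 * (inBlock P (2 * 2 ^ j * k) (2 ^ j)).card := hk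
      _ ≤ R ^ 4 * (R ^ 21 * b) := Nat.mul_le_mul_left _ hb
      _ = R ^ 25 * b := by ring
      _ ≤ R ^ 30 * b := Nat.mul_le_mul_right _ (Nat.pow_le_pow_right (by omega) (by norm_num))
  have hR2' : 4 ≤ R ^ 2 := by nlinarith
  by_cases hcaseP : S ≤ 2 * (inBlock P (2 * 2 ^ j * B) (2 ^ j)).card
  · refine hlarge B ?_
    calc P.card ≤ R * S := hPS
      _ ≤ R * (2 * (inBlock P (2 * 2 ^ j * B) (2 ^ j)).card) := Nat.mul_le_mul_left _ hcaseP
      _ = (R * 2) * (inBlock P (2 * 2 ^ j * B) (2 ^ j)).card := by ring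
      _ ≤ R ^ 4 * (inBlock P (2 * 2 ^ j * B) (2 ^ j)).card := by
        refine Nat.mul_le_mul_right _ ?_
        have : R ^ 4 = R * R * R ^ 2 := by ring
        rw [this]
        nlinarith
  have hS2 : S ≤ 2 * S' := by omega
  -- the nonempty blocks
  set NE : Finset ℕ := (range B).filter
    (fun k : ℕ => 1 ≤ (inBlock P (2 * 2 ^ j * k) (2 ^ j)).card) with hNE
  have hS'NE : S' = ∑ k ∈ NE, (inBlock P (2 * 2 ^ j * k) (2 ^ j)).card := by
    rw [hS', ← Finset.sum_filter_add_sum_filter_not (range B)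
      (fun k : ℕ => 1 ≤ (inBlock P (2 * 2 ^ j * k) (2 ^ j)).card)]
    have h7 : ∑ k ∈ (range B).filter
        (fun k : ℕ => ¬ 1 ≤ (inBlock P (2 * 2 ^ j * k) (2 ^ j)).card),
        (inBlock P (2 * 2 ^ j * k) (2 ^ j)).card = 0 := by
      refine Finset.sum_eq_zero ?_
      intro k hk
      rw [Finset.mem_filter] at hk
      omega
    rw [h7, add_zero]
  by_cases hcase : NE.card ≤ 2 * s
  · -- few nonempty blocks
    have hex : ∃ k ∈ NE, P.card ≤ R ^ 4 * (inBlock P (2 * 2 ^ j * k) (2 ^ j)).card := by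
      by_contra hno
      push Not at hno
      have hP0 : 0 < P.card := lt_of_lt_of_le (hRpow 60) hPc
      have hNEne : NE.Nonempty := by
        rw [Finset.nonempty_iff_ne_empty]
        intro h0
        rw [h0, Finset.sum_empty] at hS'NE
        have : S = 0 := by omega
        rw [this] at hPS
        omega
      have h7 : R ^ 4 * S' < NE.card * P.card := by
        rw [hS'NE, Finset.mul_sum]
        calc ∑ k ∈ NE, R ^ 4 * (inBlock P (2 * 2 ^ j * k) (2 ^ j)).card
            < ∑ _k ∈ NE, P.card := Finset.sum_lt_sum_of_nonempty hNEne hno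
          _ = NE.card * P.card := by simp
      have h8 : NE.card * P.card ≤ (2 * R) * (R * (2 * S')) :=
        Nat.mul_le_mul (by omega) (le_trans hPS (Nat.mul_le_mul_left _ hS2))
      have h9 : (2 * R) * (R * (2 * S')) = 4 * (R ^ 2 * S') := by ring
      have h10 : 4 * (R ^ 2 * S') ≤ R ^ 2 * (R ^ 2 * S') := Nat.mul_le_mul_right _ hR2'
      have h11 : R ^ 2 * (R ^ 2 * S') = R ^ 4 * S' := by ring
      omega
    obtain ⟨k, _, hk⟩ := hex
    exact hlarge k hk
  · -- many nonempty blocks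
    push Not at hcase
    obtain ⟨K0, hK0, hK0c, hK0s⟩ := exists_small NE
      (fun k : ℕ => (inBlock P (2 * 2 ^ j * k) (2 ^ j)).card) s hcase.le
    rw [← hS'NE] at hK0s
    have hNEB : NE ⊆ range B := Finset.filter_subset _ _
    have hK0B : K0 ⊆ range B := hK0.trans hNEB
    have hB2 : 2 ≤ B := by
      have := Finset.card_le_card hNEB
      rw [Finset.card_range] at this
      omega
    -- the sets of lengths
    have hX : ∀ k : ℕ, ∃ X : Finset ℕ, k < B → X.Nonempty ∧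
        (inBlock P (2 * 2 ^ j * k) (2 ^ j)).card ≤ R ^ 21 * (X.card - 1) ∧
        (1 ≤ (inBlock P (2 * 2 ^ j * k) (2 ^ j)).card → 2 ≤ X.card) ∧
        ∀ N ∈ X, BPath Gr c v lam (inBlock P (2 * 2 ^ j * k) (2 ^ j)) (2 * 2 ^ j * k)
          (2 * 2 ^ j * k + 2 * 2 ^ j - 1) N := by
      intro k
      by_cases hk : k < B
      · have hA : (0 : ℤ) ≤ 2 * 2 ^ j * k := by positivity
        have hh : (1 : ℤ) ≤ 2 ^ j := by exact_mod_cast Nat.one_le_two_pow
        have hAL : (2 * 2 ^ j * k : ℤ) + 2 * 2 ^ j ≤ (L : ℤ) := by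
          have h7 : 2 * 2 ^ j * k + 2 * 2 ^ j ≤ L := by
            calc 2 * 2 ^ j * k + 2 * 2 ^ j = 2 * 2 ^ j * (k + 1) := by ring
              _ ≤ 2 * 2 ^ j * B := Nat.mul_le_mul_left _ hk
              _ ≤ L := hBL
          exact_mod_cast h7
        by_cases hp : 1 ≤ (inBlock P (2 * 2 ^ j * k) (2 ^ j)).card
        · obtain ⟨X, hX1, hX2, hX3, hX4⟩ := h2 n R V Gr L c v P lam hR2 hcyc hLn'
            (2 * 2 ^ j * k) (2 ^ j) hA hh hAL hp
          refine ⟨X, fun _ => ⟨?_, hX3, fun _ => hX1, hX4⟩⟩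
          rw [← Finset.card_pos]; omega
        · obtain ⟨N, hN, _⟩ := h6 V Gr L c v P lam hcyc (2 * 2 ^ j * k) (2 ^ j) hA hh hAL
          refine ⟨{N}, fun _ => ⟨by simp, by omega, fun h => absurd h hp, ?_⟩⟩
          intro N' hN'
          rw [Finset.mem_singleton] at hN'
          rw [hN']
          exact hN
      · exact ⟨∅, fun h => absurd h hk⟩
    choose X hX using hX
    obtain ⟨Z, D, hD, hZ, hZD⟩ := h4 B K0 X hK0B (by
        rw [← Finset.card_pos]; omega) (fun k hk => (hX k hk).1) (by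
        intro k hk
        have h7 := hK0 hk
        rw [hNE, Finset.mem_filter, Finset.mem_range] at h7
        exact (hX k h7.1).2.2.1 h7.2)
    have hcount : P.card ≤ R ^ 30 * Z.card := by
      have h6' := Finset.sum_sdiff
        (f := fun k : ℕ => (inBlock P (2 * 2 ^ j * k) (2 ^ j)).card) hK0B
      rw [← hS'] at h6'
      have h7 : ∑ k ∈ range B \ K0, (inBlock P (2 * 2 ^ j * k) (2 ^ j)).card ≤
          R ^ 21 * ∑ k ∈ range B \ K0, ((X k).card - 1) := by
        rw [Finset.mul_sum]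
        exact Finset.sum_le_sum (fun k hk => (hX k (Finset.mem_range.1
          (Finset.mem_sdiff.1 hk).1)).2.1)
      have h8 : S' ≤ 2 * ∑ k ∈ range B \ K0, (inBlock P (2 * 2 ^ j * k) (2 ^ j)).card := by
        omega
      calc P.card ≤ R * S := hPS
        _ ≤ R * (2 * S') := Nat.mul_le_mul_left _ hS2
        _ ≤ R * (2 * (2 * (R ^ 21 * Z.card))) := by
          refine Nat.mul_le_mul_left _ (Nat.mul_le_mul_left _ (le_trans h8 ?_))
          exact Nat.mul_le_mul_left _ (le_trans h7 (Nat.mul_le_mul_left _ hZ))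
        _ = 4 * (R ^ 22 * Z.card) := by ring
        _ ≤ R ^ 2 * (R ^ 22 * Z.card) := Nat.mul_le_mul_right _ hR2'
        _ = R ^ 24 * Z.card := by ring
        _ ≤ R ^ 30 * Z.card :=
          Nat.mul_le_mul_right _ (Nat.pow_le_pow_right (by omega) (by norm_num))
    set κ : ℤ := (L : ℤ) - 2 * 2 ^ j * B + B with hκ
    refine ⟨Z.card, hcount, Z.image (fun z => z + κ), D, hD.trans hK0c, ?_, ?_⟩
    · rw [Finset.card_image_of_injective _ (add_left_injective κ)]
    · intro z' hz' d hd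
      rw [Finset.mem_image] at hz'
      obtain ⟨z, hz, rfl⟩ := hz'
      obtain ⟨N, hN1, hN2⟩ := hZD z hz d hd
      obtain ⟨M, hM1, hM2⟩ := h5 V Gr L c v P lam hcyc (2 ^ j) B N
        (by exact_mod_cast Nat.one_le_two_pow) hB2 (by exact_mod_cast hBL)
        (fun k hk => (hX k hk).2.2.2 (N k) (hN1 k hk))
      refine ⟨M, hM1, ?_⟩
      rw [hM2, Finset.sum_add_distrib, hN2, hκ]
      simp
      ring

end Pool.Agent.CycSp
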