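import Pool.Agent.CycSp.Targets

/-!
# Cycle sets of sparse graphs: degrees and the choice of the links
-/

set_option autoImplicit false

namespace Pool.Agent.CycSp

open Finset
open Pool.Agent.HubG (cycleSet CycSeq)

namespace Prep

variable {n : ℕ} {G : SimpleGraph (Fin n)} {L : ℕ} {W : ℕ → Fin n}

lemma fwd_adj (h : CycSeq G L W) (i : ℤ) (hi : 0 ≤ i) (hL : i + 1 < L) :
    G.Adj (W i.toNat) (W (i + 1).toNat) := by
  obtain ⟨k, rfl⟩ := Int.eq_ofNat_of_zero_le hi
  have h1 : ((k : ℤ) + 1).toNat = k + 1 := by omega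
  rw [h1, Int.toNat_natCast]
  exact h.adj k (by omega)

lemma fwd_inj (h : CycSeq G L W) (i j : ℤ) (hi : 0 ≤ i) (hL : i < L) (hj : 0 ≤ j) (hL' : j < L)
    (hij : W i.toNat = W j.toNat) : i = j := by
  have := h.inj i.toNat j.toNat (by omega) (by omega) hij
  omega

lemma rev_adj (h : CycSeq G L W) (i : ℤ) (hi : 0 ≤ i) (hL : i + 1 < L) :
    G.Adj (W (L - 1 - i).toNat) (W (L - 1 - (i + 1)).toNat) := by
  obtain ⟨k, hk⟩ : ∃ k : ℕ, (L : ℤ) - 1 - (i + 1) = k :=
    ⟨((L : ℤ) - 1 - (i + 1)).toNat, by omega⟩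
  have h1 : ((L : ℤ) - 1 - i).toNat = k + 1 := by omega
  have h2 : ((L : ℤ) - 1 - (i + 1)).toNat = k := by omega
  rw [h1, h2]
  exact (h.adj k (by omega)).symm

/-- links to smaller indices -/
lemma type_a (h : CycSeq G L W) (T : Finset ℕ) (s : ℕ → ℕ)
    (hT : ∀ t ∈ T, t < L ∧ s t + 1 < t ∧ G.Adj (W (s t)) (W t)) :
    ∃ (c v : ℤ → Fin n) (P : Finset Pt), Cyc G L c v P 1 ∧ P.card = T.card := by
  classical
  have h3 := h.three
  refine ⟨fun i => W i.toNat, fun i => W i.toNat,
    T.image (fun t => ((s t : ℤ), (t : ℤ))), ?_, ?_⟩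
  · refine ⟨by omega, fwd_adj h, ?_, fwd_inj h, ?_, ?_, Or.inl ⟨rfl, ?_⟩⟩
    · have h1 : ((L : ℤ) - 1).toNat = L - 1 := by omega
      simp only [h1]
      exact h.last
    · intro p hp
      rw [mem_image] at hp
      obtain ⟨t, ht, rfl⟩ := hp
      have := hT t ht
      simp only [Nat.cast_one]
      omega
    · intro p hp q hq hpq
      rw [mem_image] at hp hq
      obtain ⟨t, ht, rfl⟩ := hp
      obtain ⟨t', ht', rfl⟩ := hq
      simp only [Nat.cast_inj] at hpq
      rw [hpq]
    · intro p hp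
      rw [mem_image] at hp
      obtain ⟨t, ht, rfl⟩ := hp
      simp only [Int.toNat_natCast]
      exact (hT t ht).2.2
  · apply card_image_of_injective
    intro t t' htt
    simp only [Prod.mk.injEq, Nat.cast_inj] at htt
    exact htt.2

/-- links to larger indices -/
lemma type_b (h : CycSeq G L W) (T : Finset ℕ) (s : ℕ → ℕ)
    (hT : ∀ t ∈ T, s t < L ∧ t + 1 < s t ∧ G.Adj (W (s t)) (W t)) :
    ∃ (c v : ℤ → Fin n) (P : Finset Pt), Cyc G L c v P 1 ∧ P.card = T.card := by
  classical
  have h3 := h.three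
  refine ⟨fun i => W (L - 1 - i).toNat, fun i => W (L - 1 - i).toNat,
    T.image (fun t => ((L : ℤ) - 1 - (s t : ℤ), (L : ℤ) - 1 - (t : ℤ))), ?_, ?_⟩
  · refine ⟨by omega, rev_adj h, ?_, ?_, ?_, ?_, Or.inl ⟨rfl, ?_⟩⟩
    · have h1 : ((L : ℤ) - 1 - ((L : ℤ) - 1)).toNat = 0 := by omega
      have h2 : ((L : ℤ) - 1 - 0).toNat = L - 1 := by omega
      simp only [h1, h2]
      exact h.last.symm
    · intro i j hi hL hj hL' hij
      have := fwd_inj h (L - 1 - i) (L - 1 - j) (by omega) (by omega) (by omega) (by omega) hij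
      omega
    · intro p hp
      rw [mem_image] at hp
      obtain ⟨t, ht, rfl⟩ := hp
      have := hT t ht
      simp only [Nat.cast_one]
      omega
    · intro p hp q hq hpq
      rw [mem_image] at hp hq
      obtain ⟨t, ht, rfl⟩ := hp
      obtain ⟨t', ht', rfl⟩ := hq
      simp only at hpq
      have : t = t' := by omega
      rw [this]
    · intro p hp
      rw [mem_image] at hp
      obtain ⟨t, ht, rfl⟩ := hp
      have h1 : ((L : ℤ) - 1 - ((L : ℤ) - 1 - (s t : ℤ))).toNat = s t := by omega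
      have h2 : ((L : ℤ) - 1 - ((L : ℤ) - 1 - (t : ℤ))).toNat = t := by omega
      simp only [h1, h2]
      exact (hT t ht).2.2
  · apply card_image_of_injective
    intro t t' htt
    simp only [Prod.mk.injEq] at htt
    omega

/-- links to vertices off the cycle -/
lemma type_c (h : CycSeq G L W) (T : Finset ℕ) (U : ℕ → Fin n)
    (hT : ∀ t ∈ T, t < L ∧ G.Adj (W t) (U t) ∧ ∀ s < L, U t ≠ W s) :
    ∃ (c v : ℤ → Fin n) (P : Finset Pt), Cyc G L c v P 2 ∧
      T.card ≤ P.card + 3 * (T.image U).card := by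
  classical
  have h3 := h.three
  have hex : ∀ w : Fin n, ∃ a : ℕ, ∀ t ∈ T, U t = w → a ∈ T ∧ U a = w ∧ a ≤ t := by
    intro w
    by_cases hw : ∃ t, t ∈ T ∧ U t = w
    · refine ⟨Nat.find hw, fun t ht htw => ⟨(Nat.find_spec hw).1, (Nat.find_spec hw).2,
        Nat.find_min' hw ⟨ht, htw⟩⟩⟩
    · exact ⟨0, fun t ht htw => absurd ⟨t, ht, htw⟩ hw⟩
  choose a ha using hex
  refine ⟨fun i => W i.toNat, fun i => U i.toNat,
    (T.filter (fun t => a (U t) + 3 ≤ t)).image (fun t => ((a (U t) : ℤ), (t : ℤ))), ?_, ?_⟩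
  · refine ⟨by omega, fwd_adj h, ?_, fwd_inj h, ?_, ?_, Or.inr ⟨rfl, ?_, ?_, ?_⟩⟩
    · have h1 : ((L : ℤ) - 1).toNat = L - 1 := by omega
      simp only [h1]
      exact h.last
    · intro p hp
      rw [mem_image] at hp
      obtain ⟨t, ht, rfl⟩ := hp
      rw [mem_filter] at ht
      have := hT t ht.1
      simp only [Nat.cast_ofNat]
      omega
    · intro p hp q hq hpq
      rw [mem_image] at hp hq
      obtain ⟨t, ht, rfl⟩ := hp
      obtain ⟨t', ht', rfl⟩ := hq
      simp only [Nat.cast_inj] at hpq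
      rw [hpq]
    · intro p hp
      rw [mem_image] at hp
      obtain ⟨t, ht, rfl⟩ := hp
      rw [mem_filter] at ht
      obtain ⟨h4, h5, -⟩ := ha (U t) t ht.1 rfl
      simp only [Int.toNat_natCast]
      refine ⟨(hT _ h4).2.1, ?_⟩
      rw [h5]
      exact (hT t ht.1).2.1.symm
    · intro p hp i hi hiL
      rw [mem_image] at hp
      obtain ⟨t, ht, rfl⟩ := hp
      rw [mem_filter] at ht
      obtain ⟨h4, h5, -⟩ := ha (U t) t ht.1 rfl
      simp only [Int.toNat_natCast]
      exact (hT _ h4).2.2 _ (by omega)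
    · intro p hp q hq hpq
      rw [mem_image] at hp hq
      obtain ⟨t, ht, rfl⟩ := hp
      obtain ⟨t', ht', rfl⟩ := hq
      rw [mem_filter] at ht ht'
      obtain ⟨-, h5, -⟩ := ha (U t) t ht.1 rfl
      obtain ⟨-, h6, -⟩ := ha (U t') t' ht'.1 rfl
      simp only [Int.toNat_natCast] at hpq ⊢
      rw [h5, h6] at hpq
      rw [hpq]
  · rw [card_image_of_injective]
    · rw [← card_filter_add_card_filter_not (s := T) (fun t => a (U t) + 3 ≤ t)]
      have h4 : (T.filter (fun t => ¬ a (U t) + 3 ≤ t)).card ≤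
          3 * ((T.filter (fun t => ¬ a (U t) + 3 ≤ t)).image U).card := by
        apply card_le_mul_card_image
        intro w _
        have h5 : ((T.filter (fun t => ¬ a (U t) + 3 ≤ t)).filter (fun t => U t = w)) ⊆
            Ico (a w) (a w + 3) := by
          intro t ht
          rw [mem_filter, mem_filter] at ht
          obtain ⟨⟨h6, h7⟩, rfl⟩ := ht
          have h8 := (ha (U t) t h6 rfl).2.2
          rw [mem_Ico]
          omega
        exact (card_le_card h5).trans (by simp)
      have h5 : ((T.filter (fun t => ¬ a (U t) + 3 ≤ t)).image U).card ≤ (T.image U).card :=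
        card_le_card (image_subset_image (filter_subset _ _))
      omega
    · intro t t' htt
      simp only [Prod.mk.injEq, Nat.cast_inj] at htt
      exact htt.2

/-- few vertices of high degree -/
lemma high_card (r : ℕ) (hr : 1 ≤ r) (hS : SparseP r G) [DecidableRel G.Adj] :
    (univ.filter (fun u : Fin n => r ^ 4 < G.degree u)).card * r ^ 3 ≤ 2 * n := by
  classical
  have h1 := hS univ
  have h2 : ∑ u : Fin n, G.degree u ≤ 2 * r * n := by
    have h3 : ∑ u : Fin n, G.degree u =
        (((univ : Finset (Fin n)) ×ˢ univ).filter (fun p => G.Adj p.1 p.2)).card := by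
      rw [card_filter, sum_product]
      apply sum_congr rfl
      intro u _
      rw [← card_filter, ← G.card_neighborFinset_eq_degree u]
      congr 1
      ext w
      simp
    rw [h3]
    have h4 : (univ : Finset (Fin n)).card = n := by simp
    rw [h4] at h1
    refine le_trans (le_of_eq ?_) h1
    congr 1
    ext p
    simp only [mem_filter]
  have h4 : (univ.filter (fun u : Fin n => r ^ 4 < G.degree u)).card * r ^ 4 ≤
      ∑ u : Fin n, G.degree u := by
    calc (univ.filter (fun u : Fin n => r ^ 4 < G.degree u)).card * r ^ 4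
        = ∑ _u ∈ univ.filter (fun u : Fin n => r ^ 4 < G.degree u), r ^ 4 := by simp
      _ ≤ ∑ u ∈ univ.filter (fun u : Fin n => r ^ 4 < G.degree u), G.degree u := by
          apply sum_le_sum
          intro u hu
          rw [mem_filter] at hu
          exact hu.2.le
      _ ≤ ∑ u : Fin n, G.degree u :=
          sum_le_sum_of_subset (filter_subset _ _)
  have h5 : ((univ.filter (fun u : Fin n => r ^ 4 < G.degree u)).card * r ^ 3) * r ≤
      (2 * n) * r := by
    calc ((univ.filter (fun u : Fin n => r ^ 4 < G.degree u)).card * r ^ 3) * r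
        = (univ.filter (fun u : Fin n => r ^ 4 < G.degree u)).card * r ^ 4 := by ring
      _ ≤ 2 * r * n := h4.trans h2
      _ = (2 * n) * r := by ring
  exact Nat.le_of_mul_le_mul_right h5 (by omega)

lemma offE_symm {u v : Fin n} (h : (u, v) ∈ offE G L W) : (v, u) ∈ offE G L W := by
  classical
  rw [offE, mem_filter] at h ⊢
  refine ⟨mem_univ _, h.2.1.symm, ?_⟩
  intro hc
  apply h.2.2
  rcases hc with ⟨i, hi, h1 | h1⟩ | h1 | h1
  · exact Or.inl ⟨i, hi, Or.inr ⟨h1.2, h1.1⟩⟩
  · exact Or.inl ⟨i, hi, Or.inl ⟨h1.2, h1.1⟩⟩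
  · exact Or.inr (Or.inr ⟨h1.2, h1.1⟩)
  · exact Or.inr (Or.inl ⟨h1.2, h1.1⟩)

/-- the vertices off the cycle -/
lemma off_card (h : CycSeq G L W) :
    (univ \ (range L).image W).card = n - L := by
  classical
  rw [card_sdiff_of_subset (subset_univ _), card_univ, Fintype.card_fin, card_image_of_injOn,
    card_range]
  intro s hs t ht hst
  rw [coe_range, Set.mem_Iio] at hs ht
  exact h.inj s t hs ht hst

/-- many low vertices with an edge off the cycle -/
lemma low_card (r : ℕ) (hr : 12 ≤ r) (hS : SparseP r G) (h : CycSeq G L W)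
    (hL : (n - L) * r ^ 10 ≤ n) (hE : n ≤ r * (offE G L W).card) :
    ∃ T : Finset ℕ, (∀ t ∈ T, t < L ∧ ∃ u, (W t, u) ∈ offE G L W) ∧ n ≤ 4 * r ^ 5 * T.card := by
  classical
  set H := univ.filter (fun u : Fin n => r ^ 4 < G.degree u) with hH
  set O := univ \ (range L).image W with hO
  set B := H ∪ O with hB
  set T := (range L).filter (fun t => W t ∉ H ∧ ∃ u, (W t, u) ∈ offE G L W) with hT
  refine ⟨T, ?_, ?_⟩
  · intro t ht
    rw [hT, mem_filter, mem_range] at ht
    exact ⟨ht.1, ht.2.2⟩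
  have h1 : H.card * r ^ 3 ≤ 2 * n := high_card r (by omega) hS
  have h2 : O.card * r ^ 3 ≤ n := by
    rw [hO, off_card h]
    exact (Nat.mul_le_mul_left _ (Nat.pow_le_pow_right (by omega) (by norm_num))).trans hL
  have h3 : B.card * r ^ 3 ≤ 3 * n := by
    have h4 : B.card ≤ H.card + O.card := card_union_le _ _
    calc B.card * r ^ 3 ≤ (H.card + O.card) * r ^ 3 := Nat.mul_le_mul_right _ h4
      _ = H.card * r ^ 3 + O.card * r ^ 3 := by ring
      _ ≤ 3 * n := by omega
  have h5 : ((B ×ˢ B).filter (fun p => G.Adj p.1 p.2)).card * r ^ 2 ≤ 6 * n := by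
    calc ((B ×ˢ B).filter (fun p => G.Adj p.1 p.2)).card * r ^ 2
        ≤ (2 * r * B.card) * r ^ 2 := Nat.mul_le_mul_right _ (hS B)
      _ = 2 * (B.card * r ^ 3) := by ring
      _ ≤ 6 * n := by omega
  set E1 := (offE G L W).filter (fun p => p.1 ∉ B) with hE1
  set E2 := (offE G L W).filter (fun p => p.2 ∉ B) with hE2
  have h6 : E2.card = E1.card := by
    apply card_bij (fun p _ => (p.2, p.1))
    · intro p hp
      rw [hE2, mem_filter] at hp
      rw [hE1, mem_filter]
      exact ⟨offE_symm (by simpa using hp.1), hp.2⟩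
    · intro p _ q _ hpq
      simp only [Prod.mk.injEq] at hpq
      exact Prod.ext hpq.2 hpq.1
    · intro p hp
      rw [hE1, mem_filter] at hp
      refine ⟨(p.2, p.1), ?_, by simp⟩
      rw [hE2, mem_filter]
      exact ⟨offE_symm (by simpa using hp.1), hp.2⟩
  have h7 : (offE G L W).card ≤ 2 * E1.card +
      ((B ×ˢ B).filter (fun p => G.Adj p.1 p.2)).card := by
    have h8 : offE G L W ⊆ (E1 ∪ E2) ∪ (B ×ˢ B).filter (fun p => G.Adj p.1 p.2) := by
      intro p hp
      rw [mem_union, mem_union]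
      by_cases h9 : p.1 ∈ B
      · by_cases h10 : p.2 ∈ B
        · right
          rw [mem_filter, mem_product]
          rw [offE, mem_filter] at hp
          exact ⟨⟨h9, h10⟩, hp.2.1⟩
        · left; right
          rw [hE2, mem_filter]
          exact ⟨hp, h10⟩
      · left; left
        rw [hE1, mem_filter]
        exact ⟨hp, h9⟩
    have h9 := (card_le_card h8).trans (card_union_le _ _)
    have h10 := card_union_le E1 E2
    omega
  have h8 : E1.card ≤ r ^ 4 * T.card := by
    have h9 : E1.card ≤ r ^ 4 * (E1.image Prod.fst).card := by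
      apply card_le_mul_card_image
      intro y hy
      rw [mem_image] at hy
      obtain ⟨p, hp, rfl⟩ := hy
      rw [hE1, mem_filter] at hp
      have h10 : p.1 ∉ H := fun hh => hp.2 (by rw [hB, mem_union]; exact Or.inl hh)
      have h11 : G.degree p.1 ≤ r ^ 4 := by
        by_contra hh
        apply h10
        rw [hH, mem_filter]
        exact ⟨mem_univ _, by omega⟩
      refine le_trans ?_ h11
      rw [← G.card_neighborFinset_eq_degree]
      apply card_le_card_of_injOn Prod.snd
      · intro q hq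
        rw [mem_coe, mem_filter, hE1, mem_filter, offE, mem_filter] at hq
        rw [mem_coe, SimpleGraph.mem_neighborFinset, ← hq.2]
        exact hq.1.1.2.1
      · intro q hq q' hq' hqq
        rw [mem_coe, mem_filter] at hq hq'
        exact Prod.ext (hq.2.trans hq'.2.symm) hqq
    refine h9.trans (Nat.mul_le_mul_left _ ?_)
    have h10 : E1.image Prod.fst ⊆ T.image W := by
      intro y hy
      rw [mem_image] at hy
      obtain ⟨p, hp, rfl⟩ := hy
      rw [hE1, mem_filter] at hp
      have h11 : p.1 ∉ H := fun hh => hp.2 (by rw [hB, mem_union]; exact Or.inl hh)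
      have h12 : p.1 ∉ O := fun hh => hp.2 (by rw [hB, mem_union]; exact Or.inr hh)
      rw [hO, mem_sdiff, not_and_not_right] at h12
      obtain ⟨t, ht, htp⟩ := mem_image.1 (h12 (mem_univ _))
      rw [mem_image]
      refine ⟨t, ?_, htp⟩
      rw [hT, mem_filter]
      refine ⟨ht, by rw [htp]; exact h11, p.2, by rw [htp]; exact hp.1⟩
    exact (card_le_card h10).trans card_image_le
  -- the arithmetic
  set e := (offE G L W).card with he
  set f := ((B ×ˢ B).filter (fun p => G.Adj p.1 p.2)).card with hf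
  have h9 : r * n ≤ 2 * r ^ 2 * E1.card + 6 * n := by
    calc r * n ≤ r * (r * e) := Nat.mul_le_mul_left _ hE
      _ = r ^ 2 * e := by ring
      _ ≤ r ^ 2 * (2 * E1.card + f) := Nat.mul_le_mul_left _ h7
      _ = 2 * r ^ 2 * E1.card + f * r ^ 2 := by ring
      _ ≤ 2 * r ^ 2 * E1.card + 6 * n := by omega
  have h10 : r * n ≤ 4 * r ^ 2 * E1.card := by
    have h11 : 12 * n ≤ r * n := Nat.mul_le_mul_right _ hr
    have h12 : 4 * r ^ 2 * E1.card = 2 * (2 * r ^ 2 * E1.card) := by ring
    omega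
  have h11 : r * n ≤ r * (4 * r ^ 5 * T.card) := by
    calc r * n ≤ 4 * r ^ 2 * E1.card := h10
      _ ≤ 4 * r ^ 2 * (r ^ 4 * T.card) := Nat.mul_le_mul_left _ h8
      _ = r * (4 * r ^ 5 * T.card) := by ring
  exact Nat.le_of_mul_le_mul_left h11 (by omega)

end Prep

open Prep in
theorem p_PREP : T_PREP := by
  classical
  refine ⟨48, fun n r hr G L W hS h hL hE => ?_⟩
  have h3 := h.three
  obtain ⟨T, hT, hTc⟩ := low_card r (by omega) hS h hL hE
  have hex : ∀ t : ℕ, ∃ u : Fin n, t ∈ T → (W t, u) ∈ offE G L W := by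
    intro t
    by_cases ht : t ∈ T
    · obtain ⟨u, hu⟩ := (hT t ht).2
      exact ⟨u, fun _ => hu⟩
    · exact ⟨W 0, fun h' => absurd h' ht⟩
  choose U hU using hex
  have hadj : ∀ t ∈ T, G.Adj (W t) (U t) := by
    intro t ht
    have := hU t ht
    rw [offE, mem_filter] at this
    exact this.2.1
  have hnc : ∀ t ∈ T, ¬ CE L W (W t) (U t) := by
    intro t ht
    have := hU t ht
    rw [offE, mem_filter] at this
    exact this.2.2
  have hsx : ∀ t : ℕ, ∃ s : ℕ, (∃ s, s < L ∧ U t = W s) → s < L ∧ U t = W s := by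
    intro t
    by_cases hs : ∃ s, s < L ∧ U t = W s
    · obtain ⟨s, hs'⟩ := hs
      exact ⟨s, fun _ => hs'⟩
    · exact ⟨0, fun h' => absurd h' hs⟩
  choose s hs using hsx
  set Ta := T.filter (fun t => (∃ s, s < L ∧ U t = W s) ∧ s t < t) with hTa
  set Tb := T.filter (fun t => (∃ s, s < L ∧ U t = W s) ∧ t < s t) with hTb
  set Tc := T.filter (fun t => ¬ ∃ s, s < L ∧ U t = W s) with hTc'
  have hun : T ⊆ (Ta ∪ Tb) ∪ Tc := by
    intro t ht
    rw [mem_union, mem_union]
    by_cases h4 : ∃ s, s < L ∧ U t = W s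
    · rcases lt_trichotomy (s t) t with h5 | h5 | h5
      · left; left
        rw [hTa, mem_filter]
        exact ⟨ht, h4, h5⟩
      · exfalso
        have h6 := (hs t h4).2
        have h7 := hadj t ht
        rw [h6, h5] at h7
        exact G.loopless.irrefl _ h7
      · left; right
        rw [hTb, mem_filter]
        exact ⟨ht, h4, h5⟩
    · right
      rw [hTc', mem_filter]
      exact ⟨ht, h4⟩
  have hsum : T.card ≤ Ta.card + Tb.card + Tc.card := by
    have h4 := (card_le_card hun).trans (card_union_le _ _)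
    have h5 := card_union_le Ta Tb
    omega
  have hbig : ∀ m : ℕ, T.card ≤ 3 * m → n ≤ 12 * r ^ 5 * m := by
    intro m hm
    calc n ≤ 4 * r ^ 5 * T.card := hTc
      _ ≤ 4 * r ^ 5 * (3 * m) := Nat.mul_le_mul_left _ hm
      _ = 12 * r ^ 5 * m := by ring
  have h6r : ∀ m : ℕ, 12 * r ^ 5 * m ≤ r ^ 6 * m := by
    intro m
    apply Nat.mul_le_mul_right
    calc 12 * r ^ 5 ≤ r * r ^ 5 := Nat.mul_le_mul_right _ (by omega)
      _ = r ^ 6 := by ring
  by_cases ha : T.card ≤ 3 * Ta.card
  · obtain ⟨c, v, P, h4, h5⟩ := type_a h Ta s (by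
      intro t ht
      rw [hTa, mem_filter] at ht
      obtain ⟨ht, h5, h6⟩ := ht
      obtain ⟨h7, h8⟩ := hs t h5
      refine ⟨(hT t ht).1, ?_, ?_⟩
      · rcases Nat.lt_or_ge (s t + 1) t with h9 | h9
        · exact h9
        · exfalso
          have h10 : s t + 1 = t := by omega
          apply hnc t ht
          left
          refine ⟨s t, by rw [h10]; exact (hT t ht).1, Or.inr ⟨by rw [h10], h8⟩⟩
      · rw [← h8]
        exact (hadj t ht).symm)
    refine ⟨c, v, P, 1, h4, ?_⟩
    rw [h5]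
    exact (hbig _ ha).trans (h6r _)
  by_cases hb : T.card ≤ 3 * Tb.card
  · obtain ⟨c, v, P, h4, h5⟩ := type_b h Tb s (by
      intro t ht
      rw [hTb, mem_filter] at ht
      obtain ⟨ht, h5, h6⟩ := ht
      obtain ⟨h7, h8⟩ := hs t h5
      refine ⟨h7, ?_, ?_⟩
      · rcases Nat.lt_or_ge (t + 1) (s t) with h9 | h9
        · exact h9
        · exfalso
          have h10 : t + 1 = s t := by omega
          apply hnc t ht
          left
          refine ⟨t, by rw [h10]; exact h7, Or.inl ⟨rfl, by rw [h10]; exact h8⟩⟩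
      · rw [← h8]
        exact (hadj t ht).symm)
    refine ⟨c, v, P, 1, h4, ?_⟩
    rw [h5]
    exact (hbig _ hb).trans (h6r _)
  have hc : T.card ≤ 3 * Tc.card := by omega
  obtain ⟨c, v, P, h4, h5⟩ := type_c h Tc U (by
    intro t ht
    rw [hTc', mem_filter] at ht
    refine ⟨(hT t ht.1).1, hadj t ht.1, ?_⟩
    intro s' hs' h6
    exact ht.2 ⟨s', hs', h6⟩)
  refine ⟨c, v, P, 2, h4, ?_⟩
  have h6 : (Tc.image U).card ≤ n - L := by
    rw [← off_card h]
    apply card_le_card
    intro w hw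
    rw [mem_image] at hw
    obtain ⟨t, ht, rfl⟩ := hw
    rw [hTc', mem_filter] at ht
    rw [mem_sdiff]
    refine ⟨mem_univ _, ?_⟩
    intro h7
    rw [mem_image] at h7
    obtain ⟨s', hs', h8⟩ := h7
    rw [mem_range] at hs'
    exact ht.2 ⟨s', hs', h8.symm⟩
  have h7 : (n - L) * r ^ 6 ≤ n :=
    (Nat.mul_le_mul_left _ (Nat.pow_le_pow_right (by omega) (by norm_num))).trans hL
  have h8 : n ≤ 12 * r ^ 5 * Tc.card := hbig _ hc
  have h9 : 4 * n ≤ r ^ 6 * Tc.card := by
    calc 4 * n ≤ 4 * (12 * r ^ 5 * Tc.card) := Nat.mul_le_mul_left _ h8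
      _ = (48 * r ^ 5) * Tc.card := by ring
      _ ≤ (r * r ^ 5) * Tc.card := Nat.mul_le_mul_right _ (Nat.mul_le_mul_right _ hr)
      _ = r ^ 6 * Tc.card := by ring
  have h10 : r ^ 6 * Tc.card ≤ r ^ 6 * P.card + 3 * n := by
    calc r ^ 6 * Tc.card ≤ r ^ 6 * (P.card + 3 * (Tc.image U).card) :=
          Nat.mul_le_mul_left _ h5
      _ ≤ r ^ 6 * (P.card + 3 * (n - L)) :=
          Nat.mul_le_mul_left _ (by omega)
      _ = r ^ 6 * P.card + 3 * ((n - L) * r ^ 6) := by ring
      _ ≤ r ^ 6 * P.card + 3 * n := by omega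
  omega

end Pool.Agent.CycSp
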