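import Pool.Agent.CycSp.Targets2
import Pool.Agent.CycSp.PREP

/-!
# Cycle sets of all graphs: many places with an edge off the cycle give many links
-/

set_option autoImplicit false

namespace Pool.Agent.CycSp

open Finset
open Pool.Agent.HubG (cycleSet CycSeq)

open Prep in
theorem p_PREP2 : T_PREP2 := by
  classical
  intro n G L W h hL
  have h3 := h.three
  set T := offP G L W with hTdef
  have hT : ∀ t ∈ T, t < L ∧ ∃ u, (W t, u) ∈ offE G L W := by
    intro t ht
    rw [hTdef, offP, mem_filter, mem_range] at ht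
    exact ht
  have hex : ∀ t : ℕ, ∃ u : Fin n, t ∈ T → (W t, u) ∈ offE G L W := by
    intro t
    by_cases ht : t ∈ T
    · obtain ⟨u, hu⟩ := (hT t ht).2
      exact ⟨u, fun _ => hu⟩
    · exact ⟨W 0, fun h' => absurd h' ht⟩
  choose U hU using hex
  have hadj : ∀ t ∈ T, G.Adj (W t) (U t) := by
    intro t ht
    have := hU t ht
    rw [offE, mem_filter] at this
    exact this.2.1
  have hnc : ∀ t ∈ T, ¬ CE L W (W t) (U t) := by
    intro t ht
    have := hU t ht
    rw [offE, mem_filter] at this
    exact this.2.2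
  have hsx : ∀ t : ℕ, ∃ s : ℕ, (∃ s, s < L ∧ U t = W s) → s < L ∧ U t = W s := by
    intro t
    by_cases hs : ∃ s, s < L ∧ U t = W s
    · obtain ⟨s, hs'⟩ := hs
      exact ⟨s, fun _ => hs'⟩
    · exact ⟨0, fun h' => absurd h' hs⟩
  choose s hs using hsx
  set Ta := T.filter (fun t => (∃ s, s < L ∧ U t = W s) ∧ s t < t) with hTa
  set Tb := T.filter (fun t => (∃ s, s < L ∧ U t = W s) ∧ t < s t) with hTb
  set Tc := T.filter (fun t => ¬ ∃ s, s < L ∧ U t = W s) with hTc'
  have hun : T ⊆ (Ta ∪ Tb) ∪ Tc := by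
    intro t ht
    rw [mem_union, mem_union]
    by_cases h4 : ∃ s, s < L ∧ U t = W s
    · rcases lt_trichotomy (s t) t with h5 | h5 | h5
      · left; left
        rw [hTa, mem_filter]
        exact ⟨ht, h4, h5⟩
      · exfalso
        have h6 := (hs t h4).2
        have h7 := hadj t ht
        rw [h6, h5] at h7
        exact G.loopless.irrefl _ h7
      · left; right
        rw [hTb, mem_filter]
        exact ⟨ht, h4, h5⟩
    · right
      rw [hTc', mem_filter]
      exact ⟨ht, h4⟩
  have hsum : T.card ≤ Ta.card + Tb.card + Tc.card := by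
    have h4 := (card_le_card hun).trans (card_union_le _ _)
    have h5 := card_union_le Ta Tb
    omega
  by_cases ha : T.card ≤ 3 * Ta.card
  · obtain ⟨c, v, P, h4, h5⟩ := type_a h Ta s (by
      intro t ht
      rw [hTa, mem_filter] at ht
      obtain ⟨ht, h5, h6⟩ := ht
      obtain ⟨h7, h8⟩ := hs t h5
      refine ⟨(hT t ht).1, ?_, ?_⟩
      · rcases Nat.lt_or_ge (s t + 1) t with h9 | h9
        · exact h9
        · exfalso
          have h10 : s t + 1 = t := by omega
          apply hnc t ht
          left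
          refine ⟨s t, by rw [h10]; exact (hT t ht).1, Or.inr ⟨by rw [h10], h8⟩⟩
      · rw [← h8]
        exact (hadj t ht).symm)
    refine ⟨c, v, P, 1, h4, ?_⟩
    omega
  by_cases hb : T.card ≤ 3 * Tb.card
  · obtain ⟨c, v, P, h4, h5⟩ := type_b h Tb s (by
      intro t ht
      rw [hTb, mem_filter] at ht
      obtain ⟨ht, h5, h6⟩ := ht
      obtain ⟨h7, h8⟩ := hs t h5
      refine ⟨h7, ?_, ?_⟩
      · rcases Nat.lt_or_ge (t + 1) (s t) with h9 | h9
        · exact h9
        · exfalso
          have h10 : t + 1 = s t := by omega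
          apply hnc t ht
          left
          refine ⟨t, by rw [h10]; exact h7, Or.inl ⟨rfl, by rw [h10]; exact h8⟩⟩
      · rw [← h8]
        exact (hadj t ht).symm)
    refine ⟨c, v, P, 1, h4, ?_⟩
    omega
  have hc : T.card ≤ 3 * Tc.card := by omega
  obtain ⟨c, v, P, h4, h5⟩ := type_c h Tc U (by
    intro t ht
    rw [hTc', mem_filter] at ht
    refine ⟨(hT t ht.1).1, hadj t ht.1, ?_⟩
    intro s' hs' h6
    exact ht.2 ⟨s', hs', h6⟩)
  refine ⟨c, v, P, 2, h4, ?_⟩
  have h6 : (Tc.image U).card ≤ n - L := by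
    rw [← off_card h]
    apply card_le_card
    intro w hw
    rw [mem_image] at hw
    obtain ⟨t, ht, rfl⟩ := hw
    rw [hTc', mem_filter] at ht
    rw [mem_sdiff]
    refine ⟨mem_univ _, ?_⟩
    intro h7
    rw [mem_image] at h7
    obtain ⟨s', hs', h8⟩ := h7
    rw [mem_range] at hs'
    exact ht.2 ⟨s', hs', h8.symm⟩
  omega

end Pool.Agent.CycSp
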