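import Pool.Agent.CycSp.Targets2

/-!
# T_RICH from T_LINK, T_CUT and T_COVER
-/

set_option autoImplicit false

namespace Pool.Agent.CycSp

open Finset
open scoped Pointwise
open Pool.Agent.HubG (cycleSet CycSeq)

namespace RICH_

theorem sep (r ω : ℕ) (y : ℕ → ℕ) (hy : ∀ i, i + 1 < r → y i + ω < y (i + 1)) :
    ∀ k i, i + k + 1 < r → y i + ω < y (i + k + 1) := by
  intro k
  induction k with
  | zero => intro i hi; exact hy i hi
  | succ k ih =>
    intro i hi
    have h1 := ih i (by omega)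
    have h2 := hy (i + k + 1) (by omega)
    have h3 : i + (k + 1) + 1 = i + k + 1 + 1 := by omega
    rw [h3]
    omega

theorem count_windows (S : Finset ℕ) (r g ω : ℕ) (y : ℕ → ℕ)
    (hy : ∀ i, i + 1 < r → y i + ω < y (i + 1))
    (h : ∀ i < r, ∃ z D, 1 ≤ D ∧ y i ≤ z ∧ z + g * D ≤ y i + ω ∧ ∀ j < g, z + j * D ∈ S) :
    r * g ≤ S.card := by
  choose! z D h1 h2 h3 h4 using h
  have key : ∀ i i' j j', i < i' → i' < r → j < g → z i + j * D i < z i' + j' * D i' := by
    intro i i' j j' hlt hr hj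
    obtain ⟨k, rfl⟩ := Nat.exists_eq_add_of_lt hlt
    have e1 := sep r ω y hy k i hr
    have e2 := h2 (i + k + 1) hr
    have e3 := h3 i (by omega)
    have e4 : j * D i ≤ g * D i := Nat.mul_le_mul_right _ hj.le
    have e5 : 0 ≤ j' * D (i + k + 1) := Nat.zero_le _
    omega
  have hinj : Set.InjOn (fun p : ℕ × ℕ => z p.1 + p.2 * D p.1)
      ((range r ×ˢ range g : Finset (ℕ × ℕ)) : Set (ℕ × ℕ)) := by
    rintro ⟨i, j⟩ hij ⟨i', j'⟩ hij' heq
    rw [mem_coe, mem_product, mem_range, mem_range] at hij hij'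
    simp only at heq hij hij'
    rcases lt_trichotomy i i' with hlt | heq' | hgt
    · have := key i i' j j' hlt hij'.1 hij.2
      omega
    · subst heq'
      have h5 : j * D i = j' * D i := by omega
      have h6 := Nat.eq_of_mul_eq_mul_right (h1 i hij.1) h5
      rw [h6]
    · have := key i' i j' j hgt hij.1 hij'.2
      omega
  calc r * g = (range r ×ˢ range g).card := by rw [card_product, card_range, card_range]
    _ ≤ S.card := by
      apply card_le_card_of_injOn _ _ hinj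
      rintro ⟨i, j⟩ hij
      rw [mem_coe, mem_product, mem_range, mem_range] at hij
      exact h4 i hij.1 j hij.2

open Classical in
/-- the numbers `z` which start a progression with difference `D` -/
noncomputable def ZZ {n : ℕ} (G : SimpleGraph (Fin n)) (s D : ℕ) : Finset ℕ :=
  (range (n + 1)).filter (fun z => ∀ j < s, z + j * D ∈ cycleSet G)

open Classical in
/-- the numbers `z` which start a progression with a difference at most `lam` -/
noncomputable def ZA {n : ℕ} (G : SimpleGraph (Fin n)) (s lam : ℕ) : Finset ℕ :=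
  (range (n + 1)).filter (fun z => ∃ D, 1 ≤ D ∧ D ≤ lam ∧ ∀ j < s, z + j * D ∈ cycleSet G)

theorem mem_ZA {n : ℕ} (G : SimpleGraph (Fin n)) (s lam z D : ℕ) (hs : 1 ≤ s) (h1 : 1 ≤ D)
    (h2 : D ≤ lam) (h3 : ∀ j < s, z + j * D ∈ cycleSet G) : z ∈ ZA G s lam := by
  classical
  unfold ZA
  rw [mem_filter, mem_range]
  refine ⟨?_, D, h1, h2, h3⟩
  have h4 := h3 0 (by omega)
  have h5 := (Pool.Agent.HubG.cycleSet_bounds G _ h4).2
  omega

theorem ZD_of {n : ℕ} (G : SimpleGraph (Fin n)) (s D : ℕ) (hD : 1 ≤ D) :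
    ZD G s (ZZ G s D).card := by
  classical
  refine ⟨(ZZ G s D).image (fun z : ℕ => (z : ℤ)),
    (range s).image (fun j : ℕ => -((j : ℤ) * D)), ?_, ?_, ?_⟩
  · rw [card_image_of_injective, card_range]
    intro i j hij
    have h1 : (i : ℤ) * D = j * D := by
      have h0 : -((i : ℤ) * D) = -((j : ℤ) * D) := hij
      linarith
    have h2 : (D : ℤ) ≠ 0 := by positivity
    have h3 := mul_right_cancel₀ h2 h1
    exact_mod_cast h3
  · rw [card_image_of_injective _ Nat.cast_injective]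
  · intro z hz d hd
    obtain ⟨z', hz', rfl⟩ := mem_image.1 hz
    obtain ⟨j, hj, rfl⟩ := mem_image.1 hd
    refine ⟨z' + j * D, ?_, by push_cast; ring⟩
    unfold ZZ at hz'
    exact (mem_filter.1 hz').2 j (mem_range.1 hj)

theorem popular {n : ℕ} (G : SimpleGraph (Fin n)) (s lam : ℕ) (hl : 1 ≤ lam) :
    ∃ b, ZD G s b ∧ (ZA G s lam).card ≤ lam * b := by
  classical
  obtain ⟨D0, hD0, hmax⟩ := exists_max_image (Icc 1 lam) (fun D => (ZZ G s D).card)
    ⟨1, mem_Icc.2 ⟨le_refl _, hl⟩⟩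
  refine ⟨(ZZ G s D0).card, ZD_of G s D0 (mem_Icc.1 hD0).1, ?_⟩
  calc (ZA G s lam).card ≤ ((Icc 1 lam).biUnion (ZZ G s)).card := by
        apply card_le_card
        intro z hz
        unfold ZA at hz
        rw [mem_filter] at hz
        obtain ⟨h1, D, h2, h3, h4⟩ := hz
        rw [mem_biUnion]
        refine ⟨D, mem_Icc.2 ⟨h2, h3⟩, ?_⟩
        unfold ZZ
        rw [mem_filter]
        exact ⟨h1, h4⟩
    _ ≤ (Icc 1 lam).card * (ZZ G s D0).card := card_biUnion_le_card_mul _ _ _ hmax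
    _ = lam * (ZZ G s D0).card := by rw [Nat.card_Icc]; simp

/-- one family of pieces gives a progression -/
theorem one (h1 : T_LINK) {n : ℕ} (G Φ : SimpleGraph (Fin n)) (X : Finset (Fin n))
    (w lam s p : ℕ) (hl : 1 ≤ lam) (hs : 1 ≤ s) (hsp : 10 * s ≤ p)
    (hw : 10 * lam ^ 2 * (6 * p + p + 2) ≤ w) (hpl : p * lam ≤ w) (hΦ : Φ ≤ G)
    (hC : Clu Φ X w lam) (l : ℕ) (c : ℕ → Fin n) (K : Finset ℕ) (I : List (ℕ × ℕ))
    (hadj : ∀ i, i + 1 < l → G.Adj (c i) (c (i + 1)))
    (hinj : ∀ i j, i < l → j < l → c i = c j → i = j) (hK : ∀ k, k ∈ K ↔ k < l ∧ c k ∈ X)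
    (hI : IFam l K (6 * p) I) :
    ∃ z D, 1 ≤ D ∧ tot I ≤ z ∧ z + (p + 1 - s) * D ≤ tot I + 2 * w ∧
      ∀ j < p + 1 - s, z + j * D ∈ ZA G s lam := by
  obtain ⟨D, z, e1, e2, e3, e4, e5⟩ := h1 (Fin n) G Φ X w lam p (6 * p) hΦ hC hl (by omega) hw
    l c K I hadj hinj hK hI
  refine ⟨z, D, e1, e3, ?_, ?_⟩
  · have e6 : (p + 1 - s) * D ≤ p * lam := Nat.mul_le_mul (by omega) e2
    omega
  · intro j hj
    apply mem_ZA G s lam _ D hs e1 e2
    intro j' hj'
    have e7 := e5 (j + j') (by omega)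
    have e8 : z + j * D + j' * D = z + (j + j') * D := by ring
    rw [e8]
    exact e7

/-- the alternative for one length -/
theorem alt (h1 : T_LINK) (h2 : T_CUT) {n : ℕ} (G Φ : SimpleGraph (Fin n)) (X : Finset (Fin n))
    (m w lam s p M : ℕ) (hl : 1 ≤ lam) (hs : 1 ≤ s) (hsp : 10 * s ≤ p)
    (hw : 10 * lam ^ 2 * (6 * p + p + 2) ≤ w) (hpl : p * lam ≤ w) (hpw : 100 * p ≤ w)
    (hwm : w ≤ m) (hM : 36 * m * w ≤ M * p ^ 2)
    (hΦ : Φ ≤ G) (hC : Clu Φ X w lam) (hX : X.card ≤ m) (l : ℕ) (hl3 : 3 ≤ l) (c : ℕ → Fin n)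
    (hadj : ∀ i, i + 1 < l → G.Adj (c i) (c (i + 1)))
    (hinj : ∀ i j, i < l → j < l → c i = c j → i = j) (hlast : Φ.Adj (c (l - 1)) (c 0)) :
    p * (p + 1 - s) ≤ (ZA G s lam).card ∨
    ∃ x, 1 ≤ x ∧ x ≤ l ∧ x + 6 * w ≤
      M * ((ZA G s lam).filter (fun z => l - x ≤ z ∧ z ≤ l + 5 * w)).card := by
  classical
  have hw1 : 1 ≤ w := by omega
  set K : Finset ℕ := (range l).filter (fun k => c k ∈ X) with hKdef
  have hK : ∀ k, k ∈ K ↔ k < l ∧ c k ∈ X := by
    intro k
    rw [hKdef, mem_filter, mem_range]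
  have hmem := hC.mem _ _ hlast
  have hKm : K.card ≤ m := by
    refine le_trans ?_ hX
    apply card_le_card_of_injOn c
    · intro k hk
      exact ((hK k).1 hk).2
    · intro i hi j hj hij
      exact hinj i j ((hK i).1 hi).1 ((hK j).1 hj).1 hij
  have hone : ∀ I : List (ℕ × ℕ), IFam l K (6 * p) I →
      ∃ z D, 1 ≤ D ∧ tot I ≤ z ∧ z + (p + 1 - s) * D ≤ tot I + 2 * w ∧
      ∀ j < p + 1 - s, z + j * D ∈ ZA G s lam := fun I hI =>
    one h1 G Φ X w lam s p hl hs hsp hw hpl hΦ hC l c K I hadj hinj hK hI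
  rcases h2 l (3 * w) p K (by omega) (by omega) (by omega) (fun k hk => ((hK k).1 hk).1)
    ((hK 0).2 ⟨by omega, hmem.2⟩) ((hK (l - 1)).2 ⟨by omega, hmem.1⟩) with
    ⟨I, hI1, hI2⟩ | ⟨x, hx1, hx2, hx3⟩
  · left
    apply count_windows (ZA G s lam) p (p + 1 - s) (2 * w) (fun i => tot (I i))
    · intro i hi
      have := hI2 i hi
      omega
    · intro i hi
      exact hone (I i) (hI1 i hi)
  · right
    refine ⟨x, hx1, hx2, ?_⟩
    set T : ℕ := 12 * m * w with hT
    have hT0 : 0 < T := by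
      rw [hT]
      have : 1 ≤ m := by omega
      positivity
    set r : ℕ := x * p / T + 1 with hr
    set g : ℕ := p + 1 - s with hg
    have hrg : r * g ≤ ((ZA G s lam).filter (fun z => l - x ≤ z ∧ z ≤ l + 5 * w)).card := by
      apply count_windows _ r g (5 * w) (fun i => l - x + i * (5 * w + 1))
      · intro i _
        have : (i + 1) * (5 * w + 1) = i * (5 * w + 1) + (5 * w + 1) := by ring
        omega
      · intro i hi
        have hi1 : i * T ≤ x * p := by
          have h3 : i ≤ x * p / T := by omega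
          exact (Nat.le_div_iff_mul_le hT0).1 h3
        have hi2 : i * (5 * w + 1) ≤ x - 1 := by
          rcases Nat.eq_zero_or_pos i with h0 | h0
          · rw [h0]
            simp
          · have h4 : i * (12 * m * w) ≤ x * m := le_trans hi1 (Nat.mul_le_mul_left _ (by omega))
            have h5 : i * 12 * w ≤ x := by
              have hm : 0 < m := by omega
              have h6 : (i * 12 * w) * m ≤ x * m := by
                calc (i * 12 * w) * m = i * (12 * m * w) := by ring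
                  _ ≤ x * m := h4
              exact Nat.le_of_mul_le_mul_right h6 hm
            have h7 : i * (5 * w + 1) ≤ i * (6 * w) := Nat.mul_le_mul_left _ (by omega)
            have h8 : i * (6 * w) + 1 ≤ i * 12 * w := by
              have h9 : 1 ≤ i * w := Nat.mul_pos h0 hw1
              nlinarith
            omega
        obtain ⟨I, hI, hy1, hy2, hy3⟩ := hx3 (l - x + i * (5 * w + 1)) (by omega) (by omega) (by
          have h10 : l - x + i * (5 * w + 1) - (l - x) = i * (5 * w + 1) := by omega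
          rw [h10]
          calc i * (5 * w + 1) * (2 * K.card) ≤ i * (6 * w) * (2 * m) :=
                Nat.mul_le_mul (Nat.mul_le_mul_left _ (by omega)) (by omega)
            _ = i * T := by rw [hT]; ring
            _ ≤ x * p := hi1)
        obtain ⟨z, D, e1, e2, e3, e4⟩ := hone I hI
        refine ⟨z, D, e1, by omega, by omega, ?_⟩
        intro j hj
        rw [mem_filter]
        refine ⟨e4 j hj, by omega, ?_⟩
        have e5 : j * D ≤ g * D := Nat.mul_le_mul_right _ hj.le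
        omega
    have h11 : x * p ≤ T * r := by
      rw [hr]
      have := Nat.lt_mul_div_succ (x * p) hT0
      exact this.le
    have hr1 : 1 ≤ r := by
      rw [hr]
      exact Nat.le_add_left 1 _
    have hg2 : p ≤ 2 * g := by omega
    have hp0 : 0 < p := by omega
    have h12 : p * (x + 6 * w) ≤ 18 * m * w * r := by
      have h13 : p * (6 * w) ≤ 6 * m * w * r := by
        calc p * (6 * w) ≤ m * (6 * w) := Nat.mul_le_mul_right _ (by omega)
          _ = 6 * m * w * 1 := by ring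
          _ ≤ 6 * m * w * r := Nat.mul_le_mul_left _ hr1
      calc p * (x + 6 * w) = x * p + p * (6 * w) := by ring
        _ ≤ T * r + 6 * m * w * r := Nat.add_le_add h11 h13
        _ = 18 * m * w * r := by rw [hT]; ring
    have h14 : p * (x + 6 * w) * 2 ≤ p * (M * (r * g)) * 2 := by
      calc p * (x + 6 * w) * 2 ≤ 18 * m * w * r * 2 := Nat.mul_le_mul_right _ h12
        _ = 36 * m * w * r := by ring
        _ ≤ M * p ^ 2 * r := Nat.mul_le_mul_right _ hM
        _ = M * r * p * p := by ring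
        _ ≤ M * r * p * (2 * g) := Nat.mul_le_mul_left _ hg2
        _ = p * (M * (r * g)) * 2 := by ring
    have h15 : x + 6 * w ≤ M * (r * g) := by
      have h16 := Nat.le_of_mul_le_mul_right h14 (by norm_num)
      exact Nat.le_of_mul_le_mul_left h16 hp0
    exact le_trans h15 (Nat.mul_le_mul_left _ hrg)

end RICH_

theorem p_RICH (h1 : T_LINK) (h2 : T_CUT) (h3 : T_COVER) : T_RICH := by
  classical
  intro n G m w lam s LL hl hs hw hwm hne hLL
  obtain ⟨b, hb, hb2⟩ := RICH_.popular G s lam hl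
  refine ⟨b, hb, ?_⟩
  set p : ℕ := w / (100 * lam ^ 2) with hp
  have hlam0 : 0 < lam ^ 2 := by positivity
  have hlam1 : lam ≤ lam ^ 2 := by nlinarith
  have h100 : 0 < 100 * lam ^ 2 := by positivity
  have hsp : 10 * s ≤ p := by
    rw [hp, Nat.le_div_iff_mul_le h100]
    calc 10 * s * (100 * lam ^ 2) = 1000 * lam ^ 2 * s := by ring
      _ ≤ w := hw
  have hp1 : 100 * lam ^ 2 * p ≤ w := Nat.mul_div_le w (100 * lam ^ 2)
  have hp2 : w ≤ 110 * lam ^ 2 * p := by
    have h4 : w < 100 * lam ^ 2 * (p + 1) := Nat.lt_mul_div_succ w h100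
    nlinarith
  have hw2 : 10 * lam ^ 2 * (6 * p + p + 2) ≤ w := by
    have : 10 * lam ^ 2 * (6 * p + p + 2) ≤ 100 * lam ^ 2 * p := by nlinarith
    omega
  have hpl : p * lam ≤ w := by
    have : p * lam ≤ 100 * lam ^ 2 * p := by nlinarith
    omega
  have hpw : 100 * p ≤ w := by
    have : 100 * p ≤ 100 * lam ^ 2 * p := by nlinarith
    omega
  have hw1 : 1 ≤ w := by omega
  have hp0 : 0 < p := by omega
  have hpp : 0 < p ^ 2 := by positivity
  set M : ℕ := 36 * m * w / p ^ 2 + 1 with hM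
  have hM1 : 36 * m * w ≤ M * p ^ 2 := by
    have := Nat.lt_mul_div_succ (36 * m * w) hpp
    rw [hM]
    nlinarith
  have hM2 : M * p ^ 2 ≤ 37 * m * w := by
    have h5 : 36 * m * w / p ^ 2 * p ^ 2 ≤ 36 * m * w := Nat.div_mul_le_self _ _
    have h6 : p ^ 2 ≤ m * w := by nlinarith
    rw [hM]
    nlinarith
  have hw22 : w ^ 2 ≤ 12100 * lam ^ 4 * p ^ 2 := by
    calc w ^ 2 ≤ (110 * lam ^ 2 * p) ^ 2 := Nat.pow_le_pow_left hp2 2
      _ = 12100 * lam ^ 4 * p ^ 2 := by ring
  by_cases hB : p * (p + 1 - s) ≤ (RICH_.ZA G s lam).card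
  · left
    have h7 : p ≤ 2 * (p + 1 - s) := by omega
    have h8 : p ^ 2 ≤ 2 * (lam * b) := by
      calc p ^ 2 = p * p := by ring
        _ ≤ p * (2 * (p + 1 - s)) := Nat.mul_le_mul_left _ h7
        _ = 2 * (p * (p + 1 - s)) := by ring
        _ ≤ 2 * (lam * b) := Nat.mul_le_mul_left _ (le_trans hB hb2)
    calc w ^ 2 ≤ 12100 * lam ^ 4 * p ^ 2 := hw22
      _ ≤ 12100 * lam ^ 4 * (2 * (lam * b)) := Nat.mul_le_mul_left _ h8
      _ = 24200 * (lam ^ 5 * b) := by ring
      _ ≤ 10 ^ 8 * (lam ^ 5 * b) := Nat.mul_le_mul_right _ (by norm_num)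
      _ = 10 ^ 8 * lam ^ 5 * b := by ring
  · right
    have hx : ∀ l ∈ LL, ∃ x, 1 ≤ x ∧ x ≤ l ∧ x + 6 * w ≤
        M * ((RICH_.ZA G s lam).filter (fun z => l - x ≤ z ∧ z ≤ l + 5 * w)).card := by
      intro l hlL
      obtain ⟨Φ, X, c, e1, e2, e3, e4, e5, e6, e7⟩ := hLL l hlL
      rcases RICH_.alt h1 h2 G Φ X m w lam s p M hl hs hsp hw2 hpl hpw hwm hM1 e1 e2 e3 l e4 c e5
        e6 e7 with h9 | h9
      · exact absurd h9 hB
      · exact h9
    choose! x hx1 hx2 hx3 using hx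
    have hcov := h3 M LL (RICH_.ZA G s lam) (fun l => l - x l) (fun l => l + 5 * w)
      (fun l hlL => ⟨by omega, by omega⟩) (fun l hlL => by
        have h10 := hx1 l hlL
        have h11 := hx2 l hlL
        have h12 := hx3 l hlL
        omega)
    have h13 : LL.card * p ^ 2 ≤ 111 * m * w * (lam * b) := by
      calc LL.card * p ^ 2 ≤ 3 * M * (RICH_.ZA G s lam).card * p ^ 2 :=
            Nat.mul_le_mul_right _ hcov
        _ ≤ 3 * M * (lam * b) * p ^ 2 :=
            Nat.mul_le_mul_right _ (Nat.mul_le_mul_left _ hb2)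
        _ = 3 * (lam * b) * (M * p ^ 2) := by ring
        _ ≤ 3 * (lam * b) * (37 * m * w) := Nat.mul_le_mul_left _ hM2
        _ = 111 * m * w * (lam * b) := by ring
    have h14 : LL.card * w * (w * p ^ 2) ≤ 10 ^ 8 * lam ^ 5 * m * b * (w * p ^ 2) := by
      calc LL.card * w * (w * p ^ 2) = (LL.card * p ^ 2) * w ^ 2 := by ring
        _ ≤ (111 * m * w * (lam * b)) * (12100 * lam ^ 4 * p ^ 2) := Nat.mul_le_mul h13 hw22
        _ = 1343100 * (lam ^ 5 * m * b * (w * p ^ 2)) := by ring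
        _ ≤ 10 ^ 8 * (lam ^ 5 * m * b * (w * p ^ 2)) := Nat.mul_le_mul_right _ (by norm_num)
        _ = 10 ^ 8 * lam ^ 5 * m * b * (w * p ^ 2) := by ring
    exact Nat.le_of_mul_le_mul_right h14 (by positivity)

end Pool.Agent.CycSp
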