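import Pool.Agent.CycSp.Targets

/-!
# STEP 5: the selection, from SPLIT, CLASS and GROW
-/

set_option autoImplicit false

namespace Pool.Agent.CycSp

open Finset
open scoped Pointwise

namespace SEL_

theorem mir_mir (p : Pt) : mir (mir p) = p := by
  simp [mir]

theorem image_mir_mir (P : Finset Pt) : (P.image mir).image mir = P := by
  rw [Finset.image_image]
  have : (mir ∘ mir) = id := by funext p; exact mir_mir p
  rw [this, Finset.image_id]

theorem mir_inj : Function.Injective mir := fun p q h => by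
  rw [← mir_mir p, h, mir_mir]

/-- the first `j` points from the left -/
theorem cut (S : Finset Pt) (hS : ∀ p ∈ S, ∀ q ∈ S, p.1 = q.1 → p = q) (j : ℕ)
    (hj : j ≤ S.card) : ∃ Q R : Finset Pt, Q ⊆ S ∧ R ⊆ S ∧ Q.card = j ∧ R.card = S.card - j ∧
      ∀ a ∈ Q, ∀ b ∈ R, a.1 < b.1 := by
  induction j with
  | zero => exact ⟨∅, S, empty_subset _, subset_rfl, rfl, by simp, by simp⟩
  | succ j ih =>
    obtain ⟨Q, R, hQ, hR, hQc, hRc, hlt⟩ := ih (by omega)
    have hne : R.Nonempty := by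
      rw [← Finset.card_pos]; omega
    obtain ⟨b, hb, hmin⟩ := R.exists_min_image (fun p => p.1) hne
    refine ⟨insert b Q, R.erase b, ?_, ?_, ?_, ?_, ?_⟩
    · exact insert_subset (hR hb) hQ
    · exact (erase_subset _ _).trans hR
    · rw [card_insert_of_notMem, hQc]
      intro hbQ
      exact absurd (hlt b hbQ b hb) (lt_irrefl _)
    · rw [card_erase_of_mem hb, hRc]; omega
    · intro a ha c hc
      rw [mem_erase] at hc
      have hbc : b.1 < c.1 := lt_of_le_of_ne (hmin c hc.2)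
        (fun h => hc.1 (hS b (hR hb) c (hR hc.2) h).symm)
      rcases mem_insert.mp ha with h | h
      · rw [h]; exact hbc
      · exact (hlt a h b hb).trans hbc

/-- a large part of an antidiagonal gives a selection in the mirror -/
theorem antidiag (F : Finset Pt) (P : Finset Pt) (t : ℤ) (s : ℕ) (hF : F ⊆ P)
    (ht : ∀ p ∈ F, sg p = t) (hc : s + 1 ≤ F.card) :
    ∃ (Q G : Finset Pt) (q : Pt), Sel (P.image mir) Q [] G q ∧ (Q.image sg).card = s ∧
      (G.image sg).card = F.card - s - 1 := by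
  set F' : Finset Pt := F.image mir with hF'
  have hmem : ∀ p ∈ F', p.2 = p.1 - t := by
    intro p hp
    rw [hF', mem_image] at hp
    obtain ⟨q, hq, rfl⟩ := hp
    have := ht q hq
    simp only [mir, sg] at this ⊢
    omega
  have hFc : F'.card = F.card := card_image_of_injective _ mir_inj
  have hinj1 : ∀ p ∈ F', ∀ q ∈ F', p.1 = q.1 → p = q := by
    intro p hp q hq h
    have h1 := hmem p hp
    have h2 := hmem q hq
    exact Prod.ext h (by rw [h1, h2, h])
  have hsg : ∀ p ∈ F', ∀ q ∈ F', sg p = sg q → p = q := by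
    intro p hp q hq h
    have h1 := hmem p hp
    have h2 := hmem q hq
    refine hinj1 p hp q hq ?_
    simp only [sg] at h
    omega
  have hSW : ∀ p ∈ F', ∀ q ∈ F', p.1 < q.1 → SW p q := by
    intro p hp q hq h
    have h1 := hmem p hp
    have h2 := hmem q hq
    exact ⟨h, by omega⟩
  have hsub : F' ⊆ P.image mir := image_subset_image hF
  obtain ⟨Q, R, hQ, hR, hQc, hRc, hlt⟩ := cut F' hinj1 s (by omega)
  obtain ⟨G, T, hG, hT, hGc, hTc, hlt'⟩ := cut R
    (fun p hp q hq => hinj1 p (hR hp) q (hR hq)) (R.card - 1) (by omega)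
  have hT1 : T.card = 1 := by omega
  obtain ⟨q, rfl⟩ := card_eq_one.mp hT1
  have hqR : q ∈ R := hT (mem_singleton_self q)
  refine ⟨Q, G, q, ⟨hQ.trans hsub, by simp, by simp, (hG.trans hR).trans hsub, hsub (hR hqR),
    List.Pairwise.nil, by simp, ?_, ?_, by simp, by simp, ?_⟩, ?_, ?_⟩
  · intro a ha b hb
    exact hSW a (hQ ha) b (hR (hG hb)) (hlt a ha b (hG hb))
  · intro a ha b hb
    rw [mem_singleton] at hb
    rw [hb]
    exact hSW a (hQ ha) q (hR hqR) (hlt a ha q hqR)
  · intro a ha b hb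
    rw [mem_singleton] at hb
    rw [hb]
    exact hSW a (hR (hG ha)) q (hR hqR) (hlt' a ha q (mem_singleton_self q))
  · rw [card_image_of_injOn, hQc]
    intro a ha b hb h
    exact hsg a (hQ ha) b (hQ hb) h
  · rw [card_image_of_injOn, hGc]
    · omega
    · intro a ha b hb h
      exact hsg a (hR (hG ha)) b (hR (hG hb)) h

/-- points with `s` values of `sg` -/
theorem reps (M : Finset Pt) (s : ℕ) (h : s ≤ (M.image sg).card) :
    ∃ Q ⊆ M, (Q.image sg).card = s := by
  classical
  obtain ⟨T, hT, hTc⟩ := exists_subset_card_eq h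
  have hex : ∀ t : T, ∃ p ∈ M, sg p = t := fun t => mem_image.mp (hT t.2)
  choose g hg hgs using hex
  refine ⟨univ.image g, ?_, ?_⟩
  · intro p hp
    obtain ⟨t, -, rfl⟩ := mem_image.mp hp
    exact hg t
  · rw [image_image]
    have : (univ : Finset T).image (sg ∘ g) = T := by
      ext x
      simp only [mem_image, mem_univ, true_and, Function.comp, hgs]
      constructor
      · rintro ⟨t, rfl⟩; exact t.2
      · intro hx; exact ⟨⟨x, hx⟩, rfl⟩
    rw [this, hTc]

theorem allSW_mono {A A' B B' : Finset Pt} (h : AllSW A B) (hA : A' ⊆ A) (hB : B' ⊆ B) :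
    AllSW A' B' := fun a ha b hb => h a (hA ha) b (hB hb)

/-- the case of boxes in `P` itself -/
theorem core (h2 : T_CLASS) (h3 : T_GROW) (J n R s K : ℕ) (P : Finset Pt) (A B : ℤ)
    (hn : n < 2 ^ J) (hJ1 : 1 ≤ J) (hK1 : 1 ≤ K) (hR1 : 1 ≤ R) (hs1 : 1 ≤ s) (hs : s ≤ R)
    (hKR : 4 * K * (4 * J + 1) * (2 * (2 + 2 * J) + 3) ^ 2 * R ^ 3 ≤ R ^ 20)
    (hy : ∀ p ∈ P, ∀ q ∈ P, p.2 = q.2 → p = q)
    (hbox : ∀ p ∈ P, A ≤ p.1 ∧ p.1 < A + n ∧ B ≤ p.2 ∧ p.2 < B + n)
    (hcard : R ^ 20 ≤ P.card) (M : ℕ → Finset Pt) (hM : ∀ i < J * J + 3, M i ⊆ P)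
    (hSW : ∀ i j, i < j → j < J * J + 3 → AllSW (M i) (M j))
    (hMc : ∀ i < J * J + 3, P.card ≤ K * (M i).card) :
    ∃ (Q : Finset Pt) (us : List UnitD) (G : Finset Pt) (q : Pt),
      (Sel P Q us G q ∨ Sel (P.image mir) Q us G q) ∧ (Q.image sg).card = s ∧
      P.card ≤ R ^ 20 * (G.image sg + TT us).card := by
  classical
  have hR3 : 1 ≤ R ^ 3 := Nat.one_le_pow _ _ hR1
  have hR20 : 1 ≤ R ^ 20 := Nat.one_le_pow _ _ hR1
  have hb1 : K * (4 * J + 1) * (4 * (2 * (2 + 2 * J) + 3) ^ 2) ≤ R ^ 20 := by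
    refine le_trans ?_ hKR
    calc K * (4 * J + 1) * (4 * (2 * (2 + 2 * J) + 3) ^ 2)
        = 4 * K * (4 * J + 1) * (2 * (2 + 2 * J) + 3) ^ 2 * 1 := by ring
      _ ≤ 4 * K * (4 * J + 1) * (2 * (2 + 2 * J) + 3) ^ 2 * R ^ 3 := Nat.mul_le_mul_left _ hR3
  have hb2 : 100 * K * R ^ 3 ≤ R ^ 20 := by
    refine le_trans ?_ hKR
    have h4 : 11 ≤ 2 * (2 + 2 * J) + 3 := by omega
    have h5 : 11 ^ 2 ≤ (2 * (2 + 2 * J) + 3) ^ 2 := Nat.pow_le_pow_left h4 2
    have h6 : 5 ≤ 4 * J + 1 := by omega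
    calc 100 * K * R ^ 3 ≤ 4 * K * 5 * 11 ^ 2 * R ^ 3 := by
          refine Nat.mul_le_mul_right _ ?_
          nlinarith
      _ ≤ 4 * K * (4 * J + 1) * (2 * (2 + 2 * J) + 3) ^ 2 * R ^ 3 := by
          refine Nat.mul_le_mul_right _ (Nat.mul_le_mul (Nat.mul_le_mul_left _ h6) h5)
  have hpos : 0 < P.card := by omega
  by_cases hA : (M 0).image sg |>.card |> (· < s)
  · -- few values of `sg`: an antidiagonal
    have hM0 : P.card ≤ K * (M 0).card := hMc 0 (by omega)
    have hne : ((M 0).image sg).Nonempty := by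
      rw [Finset.image_nonempty, ← Finset.card_pos]
      by_contra h
      have : (M 0).card = 0 := by omega
      rw [this] at hM0
      omega
    obtain ⟨t, ht, hmax⟩ := ((M 0).image sg).exists_max_image
      (fun t => ((M 0).filter (fun p => sg p = t)).card) hne
    set F : Finset Pt := (M 0).filter (fun p => sg p = t) with hF
    have h4 : (M 0).card ≤ F.card * ((M 0).image sg).card :=
      card_le_mul_card_image (M 0) F.card (fun a ha => hmax a ha)
    have h5 : P.card ≤ K * (F.card * R) := by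
      refine hM0.trans (Nat.mul_le_mul_left _ (h4.trans (Nat.mul_le_mul_left _ ?_)))
      have : ((M 0).image sg).card < s := hA
      omega
    have h6 : 100 * R ^ 2 ≤ F.card := by
      have h7 : 100 * K * R ^ 3 ≤ K * (F.card * R) := hb2.trans (hcard.trans h5)
      have h8 : (K * R) * (100 * R ^ 2) ≤ (K * R) * F.card := by
        calc (K * R) * (100 * R ^ 2) = 100 * K * R ^ 3 := by ring
          _ ≤ K * (F.card * R) := h7
          _ = (K * R) * F.card := by ring
      exact Nat.le_of_mul_le_mul_left h8 (by positivity)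
    have h9 : R ≤ R ^ 2 := Nat.le_self_pow (by norm_num) R
    obtain ⟨Q, G, q, hSel, hQ, hG⟩ := antidiag F P t s
      ((filter_subset _ _).trans (hM 0 (by omega)))
      (fun p hp => (mem_filter.mp hp).2) (by omega)
    refine ⟨Q, [], G, q, Or.inr hSel, hQ, ?_⟩
    have h10 : (G.image sg + TT []).card = F.card - s - 1 := by
      simp only [TT]
      rw [show ({0} : Finset ℤ) = 0 from rfl, add_zero, hG]
    rw [h10]
    have h11 : F.card ≤ 2 * (F.card - s - 1) := by omega
    have h12 : 2 * K * R ≤ R ^ 20 := by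
      refine le_trans ?_ hb2
      have h13 : R ≤ R ^ 3 := Nat.le_self_pow (by norm_num) R
      calc 2 * K * R ≤ 100 * K * R := by
            refine Nat.mul_le_mul_right _ ?_
            omega
        _ ≤ 100 * K * R ^ 3 := Nat.mul_le_mul_left _ h13
    calc P.card ≤ K * (F.card * R) := h5
      _ ≤ K * (2 * (F.card - s - 1) * R) :=
        Nat.mul_le_mul_left _ (Nat.mul_le_mul_right _ h11)
      _ = (2 * K * R) * (F.card - s - 1) := by ring
      _ ≤ R ^ 20 * (F.card - s - 1) := Nat.mul_le_mul_right _ h12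
  · have hA' : s ≤ ((M 0).image sg).card := not_lt.mp hA
    obtain ⟨Q, hQM, hQs⟩ := reps (M 0) s hA'
    have hlast : ((M (J * J + 2))).Nonempty := by
      rw [← Finset.card_pos]
      by_contra h
      have h0 : (M (J * J + 2)).card = 0 := by omega
      have := hMc (J * J + 2) (by omega)
      rw [h0] at this
      omega
    obtain ⟨q, hq⟩ := hlast
    have hq1 : ({q} : Finset Pt) ⊆ M (J * J + 2) := singleton_subset_iff.mpr hq
    have hcl : ∀ i : ℕ, i < J * J + 3 → ∃ M' ⊆ M i, (M i).card ≤ (4 * J + 1) * M'.card ∧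
        ((∀ f ∈ M', ∀ g ∈ M', sg f = sg g → f = g) ∨
          ∃ j < J, Scl (M i) M' (((2 : ℕ) : ℤ) ^ j) (2 : ℕ)) := fun i hi =>
      h2 J n 2 (M i) A B hn (by omega) (fun p hp => hbox p (hM i hi hp))
    have hcl' : ∀ i : ℕ, ∃ M' : Finset Pt, i < J * J + 3 → M' ⊆ M i ∧
        (M i).card ≤ (4 * J + 1) * M'.card ∧
        ((∀ f ∈ M', ∀ g ∈ M', sg f = sg g → f = g) ∨
          ∃ j < J, Scl (M i) M' (((2 : ℕ) : ℤ) ^ j) (2 : ℕ)) := by
      intro i
      by_cases hi : i < J * J + 3
      · obtain ⟨M', h⟩ := hcl i hi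
        exact ⟨M', fun _ => h⟩
      · exact ⟨∅, fun h => absurd h hi⟩
    choose M' hM' using hcl'
    by_cases hB : ∃ i, 1 ≤ i ∧ i < J * J + 2 ∧ ∀ f ∈ M' i, ∀ g ∈ M' i, sg f = sg g → f = g
    · obtain ⟨i, hi1, hi2, hinj⟩ := hB
      obtain ⟨hsub, hc, -⟩ := hM' i (by omega)
      refine ⟨Q, [], M' i, q, Or.inl ⟨hQM.trans (hM 0 (by omega)), by simp, by simp,
        hsub.trans (hM i (by omega)), hM _ (by omega) hq, List.Pairwise.nil, by simp, ?_, ?_,
        by simp, by simp, ?_⟩, hQs, ?_⟩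
      · exact allSW_mono (hSW 0 i (by omega) (by omega)) hQM hsub
      · exact allSW_mono (hSW 0 (J * J + 2) (by omega) (by omega)) hQM hq1
      · exact allSW_mono (hSW i (J * J + 2) (by omega) (by omega)) hsub hq1
      · have h10 : ((M' i).image sg + TT []).card = (M' i).card := by
          simp only [TT]
          rw [show ({0} : Finset ℤ) = 0 from rfl, add_zero]
          exact card_image_of_injOn (fun a ha b hb h => hinj a ha b hb h)
        rw [h10]
        calc P.card ≤ K * (M i).card := hMc i (by omega)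
          _ ≤ K * ((4 * J + 1) * (M' i).card) := Nat.mul_le_mul_left _ hc
          _ = (K * (4 * J + 1)) * (M' i).card := by ring
          _ ≤ R ^ 20 * (M' i).card := by
            refine Nat.mul_le_mul_right _ (le_trans ?_ hb1)
            exact Nat.le_mul_of_pos_right _ (by positivity)
    · -- all boxes have a scale
      have hB' : ∀ i, 1 ≤ i → i < J * J + 2 → ∃ j < J, Scl (M i) (M' i) (((2 : ℕ) : ℤ) ^ j) (2 : ℕ) := by
        intro i hi1 hi2
        obtain ⟨-, -, h | h⟩ := hM' i (by omega)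
        · exact absurd ⟨i, hi1, hi2, h⟩ hB
        · exact h
      have hB'' : ∀ i, ∃ j, 1 ≤ i → i < J * J + 2 → j < J ∧ Scl (M i) (M' i) (((2 : ℕ) : ℤ) ^ j) (2 : ℕ) := by
        intro i
        by_cases hi : 1 ≤ i ∧ i < J * J + 2
        · obtain ⟨j, hj⟩ := hB' i hi.1 hi.2
          exact ⟨j, fun _ _ => hj⟩
        · exact ⟨0, fun a b => absurd ⟨a, b⟩ hi⟩
      choose js hjs using hB''
      obtain ⟨j, hjJ, hfib⟩ := exists_lt_card_fiber_of_mul_lt_card_of_maps_to
        (s := Finset.Ico 1 (J * J + 2)) (t := range J) (f := js) (n := J)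
        (fun i hi => mem_range.mpr (hjs i (mem_Ico.mp hi).1 (mem_Ico.mp hi).2).1)
        (by rw [card_range, Nat.card_Ico]; omega)
      set I : Finset ℕ := (Finset.Ico 1 (J * J + 2)).filter (fun i => js i = j) with hI
      have hIc : J + 1 ≤ I.card := hfib
      let em := I.orderEmbOfCardLe hIc
      have hemI : ∀ k, em k ∈ I := fun k => I.orderEmbOfCardLe_mem hIc k
      let e : ℕ → ℕ := fun k => if h : k < J + 1 then em ⟨k, h⟩ else 0
      have heI : ∀ k ≤ J, e k ∈ I := by
        intro k hk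
        have h : k < J + 1 := by omega
        simp only [e, h, dif_pos]
        exact hemI _
      have hemono : ∀ k l, k < l → l ≤ J → e k < e l := by
        intro k l hkl hl
        have h1 : k < J + 1 := by omega
        have h2 : l < J + 1 := by omega
        simp only [e, h1, h2, dif_pos]
        exact em.strictMono hkl
      have he1 : ∀ k ≤ J, 1 ≤ e k ∧ e k < J * J + 2 ∧ js (e k) = j := by
        intro k hk
        have := heI k hk
        rw [hI, mem_filter, mem_Ico] at this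
        exact ⟨this.1.1, this.1.2, this.2⟩
      obtain ⟨us, hlen, hus, hcount⟩ := h3 J n 2 (fun k => M (e k)) (fun k => M' (e k)) j A B hn
        (by omega) (fun i hi p hp => hbox p (hM (e i) (by have := he1 i hi; omega) hp))
        (fun i hi p hp q hq h => hy p (hM (e i) (by have := he1 i hi; omega) hp) q
          (hM (e i) (by have := he1 i hi; omega) hq) h)
        (fun i hi => by
          have h4 := he1 i hi
          have h5 := (hjs (e i) h4.1 h4.2.1).2
          rw [h4.2.2] at h5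
          exact h5)
      have huM : ∀ U ∈ us, ∃ i, ∃ _ : i < us.length, U.pts ⊆ M (e i) ∧ U.Ok := by
        intro U hU
        obtain ⟨i, hi, rfl⟩ := List.getElem_of_mem hU
        exact ⟨i, hi, hus i hi⟩
      have hL := he1 us.length hlen
      obtain ⟨hsubG, hcG, -⟩ := hM' (e us.length) (by omega)
      refine ⟨Q, us, M' (e us.length), q, Or.inl ⟨hQM.trans (hM 0 (by omega)), ?_, ?_,
        hsubG.trans (hM _ (by omega)), hM _ (by omega) hq, ?_, ?_, ?_, ?_, ?_, ?_, ?_⟩, hQs, ?_⟩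
      · intro U hU
        obtain ⟨i, hi, h, -⟩ := huM U hU
        have := he1 i (by omega)
        exact h.trans (hM _ (by omega))
      · intro U hU
        obtain ⟨i, hi, -, h⟩ := huM U hU
        exact h
      · rw [List.pairwise_iff_getElem]
        intro i k hi hk hik
        have h6 := he1 k (by omega)
        exact allSW_mono (hSW (e i) (e k) (hemono i k hik (by omega)) (by omega)) (hus i hi).1
          (hus k hk).1
      · intro U hU
        obtain ⟨i, hi, h, -⟩ := huM U hU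
        have := he1 i (by omega)
        exact allSW_mono (hSW 0 (e i) (by omega) (by omega)) hQM h
      · exact allSW_mono (hSW 0 (e us.length) (by omega) (by omega)) hQM hsubG
      · exact allSW_mono (hSW 0 (J * J + 2) (by omega) (by omega)) hQM hq1
      · intro U hU
        obtain ⟨i, hi, h, -⟩ := huM U hU
        exact allSW_mono (hSW (e i) (e us.length) (hemono i us.length hi hlen) (by omega)) h hsubG
      · intro U hU
        obtain ⟨i, hi, h, -⟩ := huM U hU
        have := he1 i (by omega)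
        exact allSW_mono (hSW (e i) (J * J + 2) (by omega) (by omega)) h hq1
      · exact allSW_mono (hSW (e us.length) (J * J + 2) (by omega) (by omega)) hsubG hq1
      · set S : ℕ := ((M' (e us.length)).image sg + TT us).card with hSdef
        calc P.card ≤ K * (M (e us.length)).card := hMc _ (by omega)
          _ ≤ K * ((4 * J + 1) * (M' (e us.length)).card) := Nat.mul_le_mul_left _ hcG
          _ ≤ K * ((4 * J + 1) * (2 ^ 2 * (2 * (2 + 2 * J) + 3) ^ 2 * S)) :=
            Nat.mul_le_mul_left _ (Nat.mul_le_mul_left _ hcount)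
          _ = (K * (4 * J + 1) * (4 * (2 * (2 + 2 * J) + 3) ^ 2)) * S := by ring
          _ ≤ R ^ 20 * S := Nat.mul_le_mul_right _ hb1

end SEL_

/-- STEP 5 -/
theorem p_SEL (h1 : T_SPLIT) (h2 : T_CLASS) (h3 : T_GROW) : T_SEL := by
  refine ⟨10, by norm_num, ?_⟩
  intro n R s P A B hR hs1 hs hy hbox hcard
  set J : ℕ := Nat.log 2 n + 1 with hJ
  have hJ1 : 1 ≤ J := by omega
  have hR1 : 1 ≤ R := by omega
  have hn : n < 2 ^ J := Nat.lt_pow_succ_log_self (by norm_num) n
  set N : ℕ := J * J + 3 with hN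
  -- the exponent `t`
  have hex : ∃ t, N * N ≤ 2 ^ t := ⟨N * N, Nat.lt_two_pow_self.le⟩
  classical
  set t : ℕ := Nat.find hex with ht
  have ht1 : N * N ≤ 2 ^ t := Nat.find_spec hex
  have ht2 : 2 ^ t ≤ 2 * (N * N) := by
    rcases Nat.eq_zero_or_pos t with h0 | h0
    · rw [h0]
      have : 1 ≤ N * N := Nat.mul_pos (by omega) (by omega)
      omega
    · have h4 : ¬ N * N ≤ 2 ^ (t - 1) := Nat.find_min hex (by omega)
      have h5 : 2 ^ t = 2 * 2 ^ (t - 1) := by
        rw [← pow_succ']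
        congr 1
        omega
      rw [h5]
      omega
  have hNJ : N ≤ 4 * J ^ 2 := by
    rw [hN]
    nlinarith
  have h2t : 2 ^ t ≤ 32 * J ^ 4 := by
    calc 2 ^ t ≤ 2 * (N * N) := ht2
      _ ≤ 2 * ((4 * J ^ 2) * (4 * J ^ 2)) := Nat.mul_le_mul_left _ (Nat.mul_le_mul hNJ hNJ)
      _ = 32 * J ^ 4 := by ring
  set K : ℕ := 5 ^ t with hK
  have hK1 : 1 ≤ K := Nat.one_le_pow _ _ (by norm_num)
  have hKJ : K ≤ 2 ^ 15 * J ^ 12 := by
    calc K ≤ 8 ^ t := Nat.pow_le_pow_left (by norm_num) t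
      _ = (2 ^ t) ^ 3 := by rw [← pow_mul, mul_comm t 3, pow_mul]; norm_num
      _ ≤ (32 * J ^ 4) ^ 3 := Nat.pow_le_pow_left h2t 3
      _ = 2 ^ 15 * J ^ 12 := by ring
  have hJR : 10 * J ≤ R := hR
  have hR15 : 10 ^ 15 * J ^ 15 ≤ R ^ 15 := by
    rw [← mul_pow]
    exact Nat.pow_le_pow_left hJR 15
  have hR3 : 1 ≤ R ^ 3 := Nat.one_le_pow _ _ hR1
  have hKR : 4 * K * (4 * J + 1) * (2 * (2 + 2 * J) + 3) ^ 2 * R ^ 3 ≤ R ^ 20 := by
    have h4 : 4 * J + 1 ≤ 5 * J := by omega
    have h5 : 2 * (2 + 2 * J) + 3 ≤ 11 * J := by omega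
    calc 4 * K * (4 * J + 1) * (2 * (2 + 2 * J) + 3) ^ 2 * R ^ 3
        ≤ 4 * (2 ^ 15 * J ^ 12) * (5 * J) * (11 * J) ^ 2 * R ^ 3 := by
          gcongr
      _ = (2 ^ 17 * 605 * J ^ 15) * R ^ 3 := by ring
      _ ≤ (10 ^ 15 * J ^ 15) * R ^ 3 :=
          Nat.mul_le_mul_right _ (Nat.mul_le_mul_right _ (by norm_num))
      _ ≤ R ^ 15 * R ^ 3 := Nat.mul_le_mul_right _ hR15
      _ = R ^ 18 * 1 := by ring
      _ ≤ R ^ 18 * R ^ 2 := Nat.mul_le_mul_left _ (Nat.one_le_pow _ _ hR1)
      _ = R ^ 20 := by ring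
  have h100 : 100 * K ≤ R ^ 20 := by
    refine le_trans ?_ hKR
    have h5 : 11 ^ 2 ≤ (2 * (2 + 2 * J) + 3) ^ 2 := Nat.pow_le_pow_left (by omega) 2
    have h6 : 1 ≤ 4 * J + 1 := by omega
    calc 100 * K ≤ 4 * K * 1 * 11 ^ 2 * 1 := by nlinarith
      _ ≤ 4 * K * (4 * J + 1) * (2 * (2 + 2 * J) + 3) ^ 2 * R ^ 3 := by gcongr
  by_cases hfan : ∃ x, P.card ≤ R ^ 20 * (P.filter (fun p => p.1 = x)).card
  · exact Or.inl hfan
  · right
    push Not at hfan
    have hx : ∀ x, 100 * 5 ^ t * (P.filter (fun p => p.1 = x)).card ≤ P.card := by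
      intro x
      refine le_trans ?_ (hfan x).le
      exact Nat.mul_le_mul_right _ h100
    obtain ⟨M, hM, hSW, hMc⟩ := h1 t N P ht1 hy (h100.trans hcard) hx
    rcases hM with hM | hM
    · exact SEL_.core h2 h3 J n R s K P A B hn hJ1 hK1 hR1 hs1 hs hKR hy hbox hcard M hM hSW hMc
    · have hPc : (P.image mir).card = P.card := card_image_of_injective _ SEL_.mir_inj
      have hy' : ∀ p ∈ P.image mir, ∀ q ∈ P.image mir, p.2 = q.2 → p = q := by
        intro p hp q hq h
        obtain ⟨p', hp', rfl⟩ := mem_image.mp hp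
        obtain ⟨q', hq', rfl⟩ := mem_image.mp hq
        simp only [mir] at h
        rw [hy p' hp' q' hq' (by omega)]
      have hbox' : ∀ p ∈ P.image mir, A ≤ p.1 ∧ p.1 < A + n ∧ -(B + n) + 1 ≤ p.2 ∧
          p.2 < -(B + n) + 1 + n := by
        intro p hp
        obtain ⟨p', hp', rfl⟩ := mem_image.mp hp
        have := hbox p' hp'
        simp only [mir]
        omega
      obtain ⟨Q, us, G, q, hSel, hQ, hc⟩ := SEL_.core h2 h3 J n R s K (P.image mir) A
        (-(B + n) + 1) hn hJ1 hK1 hR1 hs1 hs hKR hy' hbox' (by rw [hPc]; exact hcard) M hM hSW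
        (by rw [hPc]; exact hMc)
      rw [SEL_.image_mir_mir] at hSel
      rw [hPc] at hc
      exact ⟨Q, us, G, q, hSel.symm, hQ, hc⟩

end Pool.Agent.CycSp
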