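import Pool.Agent.CycSp.Defs

/-!
# MP_62fe83_co, project CycSp: binary tree of splits (Step 5a) — helper59
-/

set_option autoImplicit false

open Finset

namespace Pool.Agent.CycSp

/-- median of an integer valued function -/
theorem exists_median {α : Type*} (B : Finset α) (h : α → ℤ) (hB : B.Nonempty) :
    ∃ t : ℤ, #B ≤ 2 * #(B.filter fun a => h a ≤ t) ∧ 2 * #(B.filter fun a => h a < t) < #B := by
  classical
  have hne : ((B.image h).filter fun t => #B ≤ 2 * #(B.filter fun a => h a ≤ t)).Nonempty := by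
    refine ⟨(B.image h).max' (hB.image h), ?_⟩
    rw [mem_filter]
    refine ⟨max'_mem _ _, ?_⟩
    have : (B.filter fun a => h a ≤ (B.image h).max' (hB.image h)) = B := by
      rw [filter_eq_self]
      intro a ha
      exact le_max' _ _ (mem_image_of_mem h ha)
    rw [this]
    omega
  set t := ((B.image h).filter fun t => #B ≤ 2 * #(B.filter fun a => h a ≤ t)).min' hne with ht
  have htm := min'_mem _ hne
  rw [← ht, mem_filter] at htm
  refine ⟨t, htm.2, ?_⟩
  by_contra hcon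
  rw [not_lt] at hcon
  have hpos : 0 < #(B.filter fun a => h a < t) := by
    have : 0 < #B := hB.card_pos
    omega
  have hne2 : (B.filter fun a => h a < t).Nonempty := card_pos.1 hpos
  obtain ⟨a, ha, hmax⟩ := exists_max_image _ h hne2
  rw [mem_filter] at ha
  have hmem : h a ∈ (B.image h).filter fun t => #B ≤ 2 * #(B.filter fun a => h a ≤ t) := by
    rw [mem_filter]
    refine ⟨mem_image_of_mem h ha.1, hcon.trans ?_⟩
    refine Nat.mul_le_mul le_rfl (card_le_card ?_)
    intro b hb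
    have hb' := hmax b hb
    rw [mem_filter] at hb ⊢
    exact ⟨hb.1, hb'⟩
  have := min'_le _ _ hmem
  rw [← ht] at this
  omega

theorem card_filter_le_split {α : Type*} (S : Finset α) (h : α → ℤ) (t : ℤ) :
    #(S.filter fun p => h p ≤ t) ≤
      #(S.filter fun p => h p < t) + #(S.filter fun p => h p = t) := by
  classical
  rw [← card_union_add_card_inter]
  refine le_trans (card_le_card ?_) (Nat.le_add_right _ _)
  intro p hp
  rw [mem_filter] at hp
  rw [mem_union, mem_filter, mem_filter]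
  rcases lt_or_eq_of_le hp.2 with h | h
  · exact Or.inl ⟨hp.1, h⟩
  · exact Or.inr ⟨hp.1, h⟩

/-- a set with distinct `y` and no heavy column contains two comparable large subsets -/
theorem split (B : Finset Pt) (hy : Set.InjOn Prod.snd (B : Set Pt)) (hB : B.Nonempty)
    (hx : ∀ x : ℤ, 100 * #(B.filter fun p => p.1 = x) ≤ #B) :
    ∃ B1 B2 : Finset Pt, B1 ⊆ B ∧ B2 ⊆ B ∧ #B ≤ 5 * #B1 ∧ #B ≤ 5 * #B2 ∧
      ((∀ p ∈ B1, ∀ q ∈ B2, SW p q) ∨ (∀ p ∈ B1, ∀ q ∈ B2, NW p q)) := by
  classical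
  obtain ⟨p0, hp0⟩ := hB
  have hbig : 100 ≤ #B := by
    have h1 : 0 < #(B.filter fun p => p.1 = p0.1) :=
      card_pos.2 ⟨p0, mem_filter.2 ⟨hp0, rfl⟩⟩
    have := hx p0.1
    omega
  obtain ⟨x0, hx1, hx2⟩ := exists_median B (fun p => p.1) ⟨p0, hp0⟩
  set L := B.filter fun p => p.1 ≤ x0 with hL
  set R := B.filter fun p => ¬ p.1 ≤ x0 with hR
  have hLR : #L + #R = #B := card_filter_add_card_filter_not _
  have hLle : #L ≤ #(B.filter fun p => p.1 < x0) + #(B.filter fun p => p.1 = x0) :=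
    card_filter_le_split B (fun p => p.1) x0
  have hcol := hx x0
  have hLne : L.Nonempty := card_pos.1 (by omega)
  obtain ⟨y0, hy1, hy2⟩ := exists_median L (fun p => p.2) hLne
  have hone : #(L.filter fun p => p.2 = y0) ≤ 1 := by
    rw [card_le_one]
    intro a ha b hb
    rw [mem_filter] at ha hb
    refine hy ?_ ?_ (ha.2.trans hb.2.symm)
    · exact mem_coe.2 (mem_filter.1 ha.1).1
    · exact mem_coe.2 (mem_filter.1 hb.1).1
  have hLlow : #(L.filter fun p => p.2 ≤ y0) ≤
      #(L.filter fun p => p.2 < y0) + #(L.filter fun p => p.2 = y0) :=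
    card_filter_le_split L (fun p => p.2) y0
  have hLs : #(L.filter fun p => p.2 ≤ y0) + #(L.filter fun p => ¬ p.2 ≤ y0) = #L :=
    card_filter_add_card_filter_not _
  have hRs : #(R.filter fun p => p.2 ≤ y0) + #(R.filter fun p => ¬ p.2 ≤ y0) = #R :=
    card_filter_add_card_filter_not _
  rcases le_total #(R.filter fun p => p.2 ≤ y0) #(R.filter fun p => ¬ p.2 ≤ y0) with h | h
  · refine ⟨L.filter fun p => p.2 ≤ y0, R.filter fun p => ¬ p.2 ≤ y0,
      (filter_subset _ _).trans (filter_subset _ _), (filter_subset _ _).trans (filter_subset _ _),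
      by omega, by omega, Or.inl ?_⟩
    intro p hp q hq
    simp only [hL, hR, mem_filter] at hp hq
    constructor <;> omega
  · refine ⟨L.filter fun p => ¬ p.2 ≤ y0, R.filter fun p => p.2 ≤ y0,
      (filter_subset _ _).trans (filter_subset _ _), (filter_subset _ _).trans (filter_subset _ _),
      by omega, by omega, Or.inr ?_⟩
    intro p hp q hq
    simp only [hL, hR, mem_filter] at hp hq
    constructor <;> omega

/-- binary tree of splits: many boxes of one orientation -/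
theorem tree (t : ℕ) : ∀ B : Finset Pt, Set.InjOn Prod.snd (B : Set Pt) → B.Nonempty →
    (∀ x : ℤ, 100 * 5 ^ t * #(B.filter fun p => p.1 = x) ≤ #B) →
    ∃ La Lb : List (Finset Pt), 2 ^ t ≤ La.length * Lb.length ∧
      (∀ E ∈ La, E ⊆ B ∧ #B ≤ 5 ^ t * #E) ∧ (∀ E ∈ Lb, E ⊆ B ∧ #B ≤ 5 ^ t * #E) ∧
      La.Pairwise (fun E F => ∀ p ∈ E, ∀ q ∈ F, SW p q) ∧
      Lb.Pairwise (fun E F => ∀ p ∈ E, ∀ q ∈ F, NW p q) := by
  induction t with
  | zero =>
    intro B _ _ _
    refine ⟨[B], [B], by simp, ?_, ?_, List.pairwise_singleton _ _, List.pairwise_singleton _ _⟩ <;>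
    · intro E hE
      rw [List.mem_singleton] at hE
      subst hE
      simp
  | succ t ih =>
    intro B hy hB hx
    have hx' : ∀ x : ℤ, 100 * #(B.filter fun p => p.1 = x) ≤ #B := by
      intro x
      refine le_trans ?_ (hx x)
      rw [mul_right_comm]
      exact Nat.le_mul_of_pos_right _ (by positivity)
    obtain ⟨B1, B2, h1, h2, hc1, hc2, hrel⟩ := split B hy hB hx'
    have hBpos : 0 < #B := hB.card_pos
    have key : ∀ B' ⊆ B, #B ≤ 5 * #B' → ∃ La Lb : List (Finset Pt),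
        2 ^ t ≤ La.length * Lb.length ∧
        (∀ E ∈ La, E ⊆ B' ∧ #B' ≤ 5 ^ t * #E) ∧ (∀ E ∈ Lb, E ⊆ B' ∧ #B' ≤ 5 ^ t * #E) ∧
        La.Pairwise (fun E F => ∀ p ∈ E, ∀ q ∈ F, SW p q) ∧
        Lb.Pairwise (fun E F => ∀ p ∈ E, ∀ q ∈ F, NW p q) := by
      intro B' hB' hc
      refine ih B' (hy.mono (coe_subset.2 hB')) (card_pos.1 (by omega)) ?_
      intro x
      have h3 := hx x
      have h4 : #(B'.filter fun p => p.1 = x) ≤ #(B.filter fun p => p.1 = x) :=
        card_le_card (filter_subset_filter _ hB')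
      have h5 : 100 * 5 ^ t * #(B'.filter fun p => p.1 = x) ≤
          100 * 5 ^ t * #(B.filter fun p => p.1 = x) := Nat.mul_le_mul le_rfl h4
      have h6 : 100 * 5 ^ (t + 1) * #(B.filter fun p => p.1 = x) =
          5 * (100 * 5 ^ t * #(B.filter fun p => p.1 = x)) := by ring
      omega
    obtain ⟨La1, Lb1, hl1, ha1, hb1, pa1, pb1⟩ := key B1 h1 hc1
    obtain ⟨La2, Lb2, hl2, ha2, hb2, pa2, pb2⟩ := key B2 h2 hc2
    have lift : ∀ (B' : Finset Pt), B' ⊆ B → #B ≤ 5 * #B' → ∀ L : List (Finset Pt),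
        (∀ E ∈ L, E ⊆ B' ∧ #B' ≤ 5 ^ t * #E) → ∀ E ∈ L, E ⊆ B ∧ #B ≤ 5 ^ (t + 1) * #E := by
      intro B' hB' hc L hL E hE
      obtain ⟨h3, h4⟩ := hL E hE
      refine ⟨h3.trans hB', hc.trans ?_⟩
      rw [pow_succ]
      nlinarith
    have two : 2 ^ (t + 1) ≤ La1.length * Lb1.length + La2.length * Lb2.length := by
      rw [pow_succ]; omega
    rcases hrel with hrel | hrel
    · -- `B1 << B2`
      obtain ⟨Lb, hLb, hlen1, hlen2⟩ : ∃ Lb : List (Finset Pt),
          ((∀ E ∈ Lb, E ⊆ B ∧ #B ≤ 5 ^ (t + 1) * #E) ∧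
            Lb.Pairwise (fun E F => ∀ p ∈ E, ∀ q ∈ F, NW p q)) ∧
          Lb1.length ≤ Lb.length ∧ Lb2.length ≤ Lb.length := by
        rcases le_total Lb1.length Lb2.length with h | h
        · exact ⟨Lb2, ⟨lift B2 h2 hc2 Lb2 hb2, pb2⟩, h, le_rfl⟩
        · exact ⟨Lb1, ⟨lift B1 h1 hc1 Lb1 hb1, pb1⟩, le_rfl, h⟩
      refine ⟨La1 ++ La2, Lb, ?_, ?_, hLb.1, ?_, hLb.2⟩
      · rw [List.length_append]
        nlinarith
      · intro E hE
        rw [List.mem_append] at hE
        rcases hE with hE | hE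
        · exact lift B1 h1 hc1 La1 ha1 E hE
        · exact lift B2 h2 hc2 La2 ha2 E hE
      · rw [List.pairwise_append]
        refine ⟨pa1, pa2, ?_⟩
        intro E hE F hF p hp q hq
        exact hrel p ((ha1 E hE).1 hp) q ((ha2 F hF).1 hq)
    · obtain ⟨La, hLa, hlen1, hlen2⟩ : ∃ La : List (Finset Pt),
          ((∀ E ∈ La, E ⊆ B ∧ #B ≤ 5 ^ (t + 1) * #E) ∧
            La.Pairwise (fun E F => ∀ p ∈ E, ∀ q ∈ F, SW p q)) ∧
          La1.length ≤ La.length ∧ La2.length ≤ La.length := by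
        rcases le_total La1.length La2.length with h | h
        · exact ⟨La2, ⟨lift B2 h2 hc2 La2 ha2, pa2⟩, h, le_rfl⟩
        · exact ⟨La1, ⟨lift B1 h1 hc1 La1 ha1, pa1⟩, le_rfl, h⟩
      refine ⟨La, Lb1 ++ Lb2, ?_, hLa.1, ?_, hLa.2, ?_⟩
      · rw [List.length_append]
        nlinarith
      · intro E hE
        rw [List.mem_append] at hE
        rcases hE with hE | hE
        · exact lift B1 h1 hc1 Lb1 hb1 E hE
        · exact lift B2 h2 hc2 Lb2 hb2 E hE
      · rw [List.pairwise_append]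
        refine ⟨pb1, pb2, ?_⟩
        intro E hE F hF p hp q hq
        exact hrel p ((hb1 E hE).1 hp) q ((hb2 F hF).1 hq)

end Pool.Agent.CycSp
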