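import Pool.Agent.CycSp.Targets
import Pool.Agent.CycSp.Tree

/-!
# CycSp: STEP 5a, many boxes of one orientation
-/

set_option autoImplicit false

open Finset

namespace Pool.Agent.CycSp

theorem mir_mir' (p : Pt) : mir (mir p) = p := by
  unfold mir; simp

theorem mir_inj' : Function.Injective mir := fun p q h => by
  have := congrArg mir h
  rwa [mir_mir', mir_mir'] at this

theorem p_SPLIT : T_SPLIT := by
  classical
  intro t N P hN hy hcard hx
  have hne : P.Nonempty := card_pos.1 (by
    have : 0 < 100 * 5 ^ t := by positivity
    omega)
  have hinj : Set.InjOn Prod.snd (P : Set Pt) := fun p hp q hq h => hy p hp q hq h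
  obtain ⟨La, Lb, hlen, ha, hb, pa, pb⟩ := tree t P hinj hne hx
  by_cases hLa : N ≤ La.length
  · refine ⟨fun i => La.getD i ∅, Or.inl ?_, ?_, ?_⟩
    · intro i hi
      have h1 : i < La.length := by omega
      simp only [List.getD_eq_getElem?_getD, List.getElem?_eq_getElem h1, Option.getD_some]
      exact (ha _ (List.getElem_mem h1)).1
    · intro i j hij hj
      have h1 : i < La.length := by omega
      have h2 : j < La.length := by omega
      simp only [List.getD_eq_getElem?_getD, List.getElem?_eq_getElem h1,
        List.getElem?_eq_getElem h2, Option.getD_some]
      exact List.pairwise_iff_getElem.1 pa i j h1 h2 hij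
    · intro i hi
      have h1 : i < La.length := by omega
      simp only [List.getD_eq_getElem?_getD, List.getElem?_eq_getElem h1, Option.getD_some]
      exact (ha _ (List.getElem_mem h1)).2
  · have hLb : N ≤ Lb.length := by
      by_contra hcon
      have h1 : La.length < N := by omega
      have h2 : Lb.length < N := by omega
      have h3 : La.length * Lb.length < N * N := by
        have : La.length * Lb.length ≤ La.length * N := Nat.mul_le_mul le_rfl (by omega)
        have h4 : La.length * N < N * N := Nat.mul_lt_mul_of_pos_right h1 (by omega)
        omega
      omega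
    refine ⟨fun i => (Lb.getD i ∅).image mir, Or.inr ?_, ?_, ?_⟩
    · intro i hi
      have h1 : i < Lb.length := by omega
      simp only [List.getD_eq_getElem?_getD, List.getElem?_eq_getElem h1, Option.getD_some]
      exact image_subset_image (hb _ (List.getElem_mem h1)).1
    · intro i j hij hj
      have h1 : i < Lb.length := by omega
      have h2 : j < Lb.length := by omega
      simp only [List.getD_eq_getElem?_getD, List.getElem?_eq_getElem h1,
        List.getElem?_eq_getElem h2, Option.getD_some]
      have h3 := List.pairwise_iff_getElem.1 pb i j h1 h2 hij
      intro a ha' b hb'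
      rw [mem_image] at ha' hb'
      obtain ⟨p, hp, rfl⟩ := ha'
      obtain ⟨q, hq, rfl⟩ := hb'
      have h4 := h3 p hp q hq
      refine ⟨h4.1, ?_⟩
      have h5 := h4.2
      simp only [mir]
      omega
    · intro i hi
      have h1 : i < Lb.length := by omega
      simp only [List.getD_eq_getElem?_getD, List.getElem?_eq_getElem h1, Option.getD_some]
      rw [card_image_of_injective _ mir_inj']
      exact (hb _ (List.getElem_mem h1)).2

end Pool.Agent.CycSp
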