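import Pool.Agent.CycSp.Defs

/-!
# Cycle sets of sparse graphs: the targets

Each `T_XXX : Prop` is one job; the proof is a theorem `p_XXX : T_XXX` (the hypotheses of a job may
be other targets, for example `theorem p_LOCAL (h1 : T_UPATH) (h2 : T_SELINC) : T_LOCAL`).
-/

set_option autoImplicit false

namespace Pool.Agent.CycSp

open Finset
open scoped Pointwise
open Pool.Agent.HubG (cycleSet CycSeq)

/-! ## Counting -/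

/-- STEP 0 -/
def T_COUNT : Prop := ∀ n s z0 : ℕ,
  {A : Set ℕ | (∀ l ∈ A, l ≤ n) ∧ ∃ Z D : Finset ℤ, D.card = s ∧ s ^ 2 * z0 ≤ Z.card ∧
    ∀ z ∈ Z, ∀ d ∈ D, ∃ N ∈ A, (N : ℤ) = z - d}.ncard ≤ (n + 1) ^ (s + z0) * 2 ^ (n + 1 - s * z0)

/-- STEP 1 -/
def T_CHEAP : Prop := ∀ n e : ℕ,
  {A : Set ℕ | ∃ (G : SimpleGraph (Fin n)) (L : ℕ) (W : ℕ → Fin n), CycSeq G L W ∧
    (offE G L W).card ≤ e ∧ A = cycleSet G}.ncard ≤ (n + 1) * (n ^ 2 + 1) ^ e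

/-- STEP 2 -/
def T_PREP : Prop := ∃ r0 : ℕ, ∀ n r : ℕ, r0 ≤ r → ∀ (G : SimpleGraph (Fin n)) (L : ℕ)
  (W : ℕ → Fin n), SparseP r G → CycSeq G L W → (n - L) * r ^ 10 ≤ n →
  n ≤ r * (offE G L W).card →
  ∃ (c v : ℤ → Fin n) (P : Finset Pt) (lam : ℕ), Cyc G L c v P lam ∧ n ≤ r ^ 6 * P.card

/-! ## Paths and cycles -/

/-- the U-path on two rails -/
def T_UPATH : Prop := ∀ (V : Type) (Gr : SimpleGraph V) (a b v : ℤ → V) (xl xr yl yr : ℤ)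
  (P : Finset Pt) (lam : ℕ), Rails Gr a b v xl xr yl yr P lam →
  ∀ (us : List (Pt × Pt)) (S : Pt) (x1 y1 x0 y0 : ℤ), xl ≤ x1 → x1 ≤ x0 → yl ≤ y1 → y1 ≤ y0 →
  Inc P x0 y0 us S →
  ∃ w : Gr.Walk (a x1) (b y1), w.IsPath ∧
    (w.length : ℤ) = (S.1 - x1) + (S.2 - y1) - drp us + lam * (2 * us.length + 1) ∧
    ∀ u ∈ w.support, (∃ i, x1 ≤ i ∧ i ≤ S.1 ∧ u = a i) ∨ (∃ j, y1 ≤ j ∧ j ≤ S.2 ∧ u = b j) ∨
      (lam = 2 ∧ ∃ p ∈ P, x0 ≤ p.1 ∧ p.1 ≤ S.1 ∧ u = v p.1)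

/-- a selection, an element `t` of the sumset and `g` give concrete units -/
def T_SELINC : Prop := ∀ (P Q : Finset Pt) (us : List UnitD) (G : Finset Pt) (r : Pt),
  Sel P Q us G r → ∀ t ∈ TT us, ∀ g ∈ G, ∀ x0 y0 : ℤ,
  (∀ U ∈ us, ∀ f ∈ U.pts, x0 ≤ f.1 ∧ y0 ≤ f.2) → x0 ≤ g.1 → y0 ≤ g.2 →
  ∃ cu : List (Pt × Pt), cu.length = us.length ∧ drp cu = KK us - t ∧ Inc P x0 y0 cu g

/-- the local cycles of a selection -/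
def T_LOCAL : Prop := ∀ (V : Type) (Gr : SimpleGraph V) (a b v : ℤ → V) (xl xr yl yr : ℤ)
  (P : Finset Pt) (lam : ℕ), Rails Gr a b v xl xr yl yr P lam →
  ∀ (Q : Finset Pt) (us : List UnitD) (G : Finset Pt) (r : Pt), Sel P Q us G r →
  ∃ κ : ℤ, ∀ z ∈ G.image sg + TT us, ∀ d ∈ Q.image sg, ∃ N ∈ cycleSet Gr, (N : ℤ) = κ + z - d

/-- the rails of a block of a cycle, also mirrored -/
def T_RAILS : Prop := ∀ (V : Type) (Gr : SimpleGraph V) (L : ℤ) (c v : ℤ → V) (P : Finset Pt)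
  (lam : ℕ), Cyc Gr L c v P lam → ∀ A h : ℤ, 0 ≤ A → 1 ≤ h →
  Rails Gr c c v A (min (A + h - 1) (L - 1)) (A + h) (min (A + 2 * h - 1) (L - 1))
      (inBlock P A h) lam ∧
    Rails Gr c (fun y => c (-y)) v A (min (A + h - 1) (L - 1))
      (-(min (A + 2 * h - 1) (L - 1))) (-(A + h)) ((inBlock P A h).image mir) lam

/-- two links from the same place -/
def T_FAN : Prop := ∀ (V : Type) (Gr : SimpleGraph V) (L : ℤ) (c v : ℤ → V) (P : Finset Pt)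
  (lam : ℕ), Cyc Gr L c v P lam → ∀ x y z : ℤ, (x, y) ∈ P → (x, z) ∈ P → y < z →
  ∃ N ∈ cycleSet Gr, (N : ℤ) = z - y + 2

/-- the full block path -/
def T_BFULL : Prop := ∀ (V : Type) (Gr : SimpleGraph V) (L : ℤ) (c v : ℤ → V) (P : Finset Pt)
  (lam : ℕ), Cyc Gr L c v P lam → ∀ A h : ℤ, 0 ≤ A → 1 ≤ h → A + 2 * h ≤ L →
  ∃ N : ℕ, BPath Gr c v lam (inBlock P A h) A (A + 2 * h - 1) N ∧ (N : ℤ) = 2 * h - 1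

/-- the block path with one link -/
def T_BONE : Prop := ∀ (V : Type) (Gr : SimpleGraph V) (L : ℤ) (c v : ℤ → V) (P : Finset Pt)
  (lam : ℕ), Cyc Gr L c v P lam → ∀ A h : ℤ, 0 ≤ A → 1 ≤ h → A + 2 * h ≤ L →
  ∀ p ∈ inBlock P A h,
  ∃ N : ℕ, BPath Gr c v lam (inBlock P A h) A (A + 2 * h - 1) N ∧
    (N : ℤ) = 2 * h - 1 - (p.2 - p.1) + lam

/-- block paths of a selection (increasing) -/
def T_BINC : Prop := ∀ (V : Type) (Gr : SimpleGraph V) (L : ℤ) (c v : ℤ → V) (P : Finset Pt)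
  (lam : ℕ), Cyc Gr L c v P lam → ∀ A h : ℤ, 0 ≤ A → 1 ≤ h → A + 2 * h ≤ L →
  ∀ (Q : Finset Pt) (us : List UnitD) (G : Finset Pt) (r : Pt), Sel (inBlock P A h) Q us G r →
  ∃ κ : ℤ, ∀ z ∈ G.image sg + TT us,
    ∃ N : ℕ, BPath Gr c v lam (inBlock P A h) A (A + 2 * h - 1) N ∧ (N : ℤ) = κ + z

/-- block paths of a selection (mirrored) -/
def T_BDEC : Prop := ∀ (V : Type) (Gr : SimpleGraph V) (L : ℤ) (c v : ℤ → V) (P : Finset Pt)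
  (lam : ℕ), Cyc Gr L c v P lam → ∀ A h : ℤ, 0 ≤ A → 1 ≤ h → A + 2 * h ≤ L →
  ∀ (Q : Finset Pt) (us : List UnitD) (G : Finset Pt) (r : Pt),
  Sel ((inBlock P A h).image mir) Q us G r →
  ∃ κ : ℤ, ∀ z ∈ G.image sg + TT us,
    ∃ N : ℕ, BPath Gr c v lam (inBlock P A h) A (A + 2 * h - 1) N ∧ (N : ℤ) = κ + z

/-- block paths give a cycle -/
def T_BLOCKS : Prop := ∀ (V : Type) (Gr : SimpleGraph V) (L : ℤ) (c v : ℤ → V) (P : Finset Pt)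
  (lam : ℕ), Cyc Gr L c v P lam → ∀ (h : ℤ) (B : ℕ) (N : ℕ → ℕ), 1 ≤ h → 2 ≤ B →
  2 * h * B ≤ L →
  (∀ k < B, BPath Gr c v lam (inBlock P (2 * h * k) h) (2 * h * k) (2 * h * k + 2 * h - 1) (N k)) →
  ∃ M ∈ cycleSet Gr, (M : ℤ) = L - 2 * h * B + ∑ k ∈ range B, ((N k : ℤ) + 1)

/-! ## The selection -/

/-- STEP 5a -/
def T_SPLIT : Prop := ∀ (t N : ℕ) (P : Finset Pt), N * N ≤ 2 ^ t →
  (∀ p ∈ P, ∀ q ∈ P, p.2 = q.2 → p = q) → 100 * 5 ^ t ≤ P.card →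
  (∀ x, 100 * 5 ^ t * (P.filter (fun p => p.1 = x)).card ≤ P.card) →
  ∃ M : ℕ → Finset Pt, ((∀ i < N, M i ⊆ P) ∨ (∀ i < N, M i ⊆ P.image mir)) ∧
    (∀ i j, i < j → j < N → AllSW (M i) (M j)) ∧ ∀ i < N, P.card ≤ 5 ^ t * (M i).card

/-- the cell of a point -/
def cell (rho : ℤ) (f : Pt) : ℤ × ℤ := (f.1 / rho, f.2 / rho)

/-- `M'` is a part of `M` at the scale `rho`: nested points of `M'` are at distance `< r rho`, and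
the part of `M'` in a cell has a common partner in `M`. -/
structure Scl (M M' : Finset Pt) (rho r : ℤ) : Prop where
  sub : M' ⊆ M
  dist : ∀ f ∈ M', ∀ g ∈ M', NW f g → g.1 - f.1 < r * rho ∧ f.2 - g.2 < r * rho
  unit : ∀ F : Finset Pt, F ⊆ M' → F.Nonempty → (∀ f ∈ F, ∀ g ∈ F, cell rho f = cell rho g) →
    ∃ p ∈ M, ∃ e : ℤ, UnitD.Ok ⟨F, p, e⟩

/-- STEP 5c -/
def T_CLASS : Prop := ∀ (J n r : ℕ) (M : Finset Pt) (A B : ℤ), n < r ^ J → 2 ≤ r →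
  (∀ p ∈ M, A ≤ p.1 ∧ p.1 < A + n ∧ B ≤ p.2 ∧ p.2 < B + n) →
  ∃ M' ⊆ M, M.card ≤ (4 * J + 1) * M'.card ∧
    ((∀ f ∈ M', ∀ g ∈ M', sg f = sg g → f = g) ∨ ∃ j < J, Scl M M' ((r : ℤ) ^ j) r)

/-- STEP 5d, 5e -/
def T_GROW : Prop := ∀ (J n r : ℕ) (M M' : ℕ → Finset Pt) (j : ℕ) (A B : ℤ), n < r ^ J →
  2 ≤ r → (∀ i ≤ J, ∀ p ∈ M i, A ≤ p.1 ∧ p.1 < A + n ∧ B ≤ p.2 ∧ p.2 < B + n) →
  (∀ i ≤ J, ∀ p ∈ M i, ∀ q ∈ M i, p.2 = q.2 → p = q) →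
  (∀ i ≤ J, Scl (M i) (M' i) ((r : ℤ) ^ j) r) →
  ∃ us : List UnitD, us.length ≤ J ∧
    (∀ (i : ℕ) (hi : i < us.length), (us[i]).pts ⊆ M i ∧ (us[i]).Ok) ∧
    (M' us.length).card ≤
      r ^ 2 * (2 * (r + 2 * J) + 3) ^ 2 * ((M' us.length).image sg + TT us).card

/-- STEP 5 -/
def T_SEL : Prop := ∃ C : ℕ, 0 < C ∧ ∀ (n R s : ℕ) (P : Finset Pt) (A B : ℤ),
  C * (Nat.log 2 n + 1) ≤ R → 1 ≤ s → s ≤ R → (∀ p ∈ P, ∀ q ∈ P, p.2 = q.2 → p = q) →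
  (∀ p ∈ P, A ≤ p.1 ∧ p.1 < A + n ∧ B ≤ p.2 ∧ p.2 < B + n) → R ^ 20 ≤ P.card →
  (∃ x, P.card ≤ R ^ 20 * (P.filter (fun p => p.1 = x)).card) ∨
  ∃ (Q : Finset Pt) (us : List UnitD) (G : Finset Pt) (q : Pt),
    (Sel P Q us G q ∨ Sel (P.image mir) Q us G q) ∧ (Q.image sg).card = s ∧
    P.card ≤ R ^ 20 * (G.image sg + TT us).card

/-! ## Assembly -/

/-- STEP 3 -/
def T_DYADIC : Prop := ∀ (n : ℕ) (P : Finset Pt), (∀ p ∈ P, 0 ≤ p.1 ∧ p.1 < p.2 ∧ p.2 < n) →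
  ∃ j : ℕ, 2 ^ j ≤ n + 1 ∧ P.card ≤ (Nat.log 2 n + 1) *
    ∑ k ∈ range (n / 2 ^ (j + 1) + 1), (inBlock P (2 * 2 ^ j * k) (2 ^ j)).card

/-- STEP 6, one large block -/
def T_LARGE : Prop := ∃ C : ℕ, 0 < C ∧ ∀ (n R s : ℕ) (V : Type) (Gr : SimpleGraph V)
  (L : ℤ) (c v : ℤ → V) (P : Finset Pt) (lam : ℕ), C * (Nat.log 2 n + 1) ≤ R → 1 ≤ s → s ≤ R →
  Cyc Gr L c v P lam → L ≤ n → ∀ A h : ℤ, 0 ≤ A → 1 ≤ h →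
  R ^ 30 ≤ (inBlock P A h).card →
  ∃ b : ℕ, (inBlock P A h).card ≤ R ^ 21 * b ∧ ZD Gr s b

/-- STEP 6, the lengths of the block paths -/
def T_VK : Prop := ∃ C : ℕ, 0 < C ∧ ∀ (n R : ℕ) (V : Type) (Gr : SimpleGraph V)
  (L : ℤ) (c v : ℤ → V) (P : Finset Pt) (lam : ℕ), C * (Nat.log 2 n + 1) ≤ R →
  Cyc Gr L c v P lam → L ≤ n → ∀ A h : ℤ, 0 ≤ A → 1 ≤ h → A + 2 * h ≤ L →
  1 ≤ (inBlock P A h).card →
  ∃ X : Finset ℕ, 2 ≤ X.card ∧ X.card ≤ (inBlock P A h).card + 1 ∧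
    (inBlock P A h).card ≤ R ^ 21 * (X.card - 1) ∧
    ∀ N ∈ X, BPath Gr c v lam (inBlock P A h) A (A + 2 * h - 1) N

/-- STEP 6, the sets `Z` and `D` from the blocks -/
def T_ASSM : Prop := ∀ (B s w : ℕ) (X : ℕ → Finset ℕ), (∀ k < B, (X k).Nonempty) →
  (∀ k < B, (X k).card ≤ w + 1) → 1 ≤ s →
  s ≤ ((range B).filter (fun k => 2 ≤ (X k).card)).card →
  ∃ Z D : Finset ℤ, D.card = s ∧ ∑ k ∈ range B, ((X k).card - 1) ≤ Z.card + s * w ∧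
    ∀ z ∈ Z, ∀ d ∈ D, ∃ N : ℕ → ℕ, (∀ k < B, N k ∈ X k) ∧ ∑ k ∈ range B, (N k : ℤ) = z - d

/-- STEP 3 and 6 -/
def T_MAIN : Prop := ∃ C : ℕ, 0 < C ∧ ∀ (n R s : ℕ) (V : Type) (Gr : SimpleGraph V) (L : ℕ)
  (c v : ℤ → V) (P : Finset Pt) (lam : ℕ), C * (Nat.log 2 n + 1) ≤ R → 1 ≤ s → s ≤ R →
  R ^ 100 ≤ n → L ≤ n → n ≤ R ^ 6 * P.card →
  Cyc Gr L c v P lam → ∃ b : ℕ, n ≤ R ^ 70 * b ∧ ZD Gr s b

/-! ## The theorem -/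

/-- every set `S` of vertices spans at most `d |S|` edges -/
def Sparse {n : ℕ} (d : ℝ) (G : SimpleGraph (Fin n)) : Prop :=
  ∀ S : Finset (Fin n), ({e | e ∈ G.edgeSet ∧ ∀ v ∈ e, v ∈ S}.ncard : ℝ) ≤ d * S.card

/-- the number of cycle sets -/
noncomputable def numCycleSets (d : ℝ) (n : ℕ) : ℕ :=
  {A : Set ℕ | ∃ G : SimpleGraph (Fin n), Sparse d G ∧ A = cycleSet G}.ncard

/-- STEP 7 -/
def T_FINAL : Prop := ∃ C : ℕ, ∀ n : ℕ, 3 ≤ n → ∀ d : ℝ, 1 ≤ d →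
  (numCycleSets d n : ℝ) ≤ 2 ^ ((n : ℝ) - n / (d * Real.logb 2 n) ^ C)

end Pool.Agent.CycSp
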