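import Pool.Agent.CycSp.Targets

/-!
# Cycle sets of all graphs: targets of the second theorem

The number of cycle sets of graphs with `n` vertices is at most `2 ^ (n - n ^ (2/3) / (log n) ^ C)`.
-/

set_option autoImplicit false

namespace Pool.Agent.CycSp

open Finset
open scoped Pointwise
open Pool.Agent.HubG (cycleSet CycSeq)

/-! ## Many places with an edge which is not on the cycle -/

/-- general form of `T_ASSM` -/
def T_ASSM2 : Prop := ∀ (B : ℕ) (K0 : Finset ℕ) (X : ℕ → Finset ℕ), K0 ⊆ range B →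
  K0.Nonempty → (∀ k < B, (X k).Nonempty) → (∀ k ∈ K0, 2 ≤ (X k).card) →
  ∃ Z D : Finset ℤ, D.card = K0.card ∧ ∑ k ∈ range B \ K0, ((X k).card - 1) ≤ Z.card ∧
    ∀ z ∈ Z, ∀ d ∈ D, ∃ N : ℕ → ℕ, (∀ k < B, N k ∈ X k) ∧ ∑ k ∈ range B, (N k : ℤ) = z - d

/-- general form of `T_MAIN`: nothing is assumed about `n`, only the number of pairs counts -/
def T_MAIN2 : Prop := ∃ C : ℕ, 0 < C ∧ ∀ (n R s : ℕ) (V : Type) (Gr : SimpleGraph V) (L : ℕ)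
  (c v : ℤ → V) (P : Finset Pt) (lam : ℕ), C * (Nat.log 2 n + 1) ≤ R → 1 ≤ s → s ≤ R →
  L ≤ n → R ^ 60 ≤ P.card →
  Cyc Gr L c v P lam → ∃ b : ℕ, P.card ≤ R ^ 30 * b ∧ ZD Gr s b

open Classical in
/-- the places of the cycle which have an edge outside the cycle -/
noncomputable def offP {n : ℕ} (G : SimpleGraph (Fin n)) (L : ℕ) (W : ℕ → Fin n) : Finset ℕ :=
  (range L).filter (fun i => ∃ u, (W i, u) ∈ offE G L W)

/-- general form of `T_PREP` -/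
def T_PREP2 : Prop := ∀ (n : ℕ) (G : SimpleGraph (Fin n)) (L : ℕ) (W : ℕ → Fin n),
  CycSeq G L W → 40 * (n - L) ≤ (offP G L W).card →
  ∃ (c v : ℤ → Fin n) (P : Finset Pt) (lam : ℕ), Cyc G L c v P lam ∧
    (offP G L W).card ≤ 6 * P.card

/-! ## Clusters -/

/-- `Φ` is robustly linked on `X`: after the removal of at most `w` vertices any two vertices are
joined by a path of length at most `lam`, and every vertex still has a neighbour. -/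
structure Clu {V : Type} (Φ : SimpleGraph V) (X : Finset V) (w lam : ℕ) : Prop where
  mem : ∀ u v, Φ.Adj u v → u ∈ X ∧ v ∈ X
  link : ∀ W : Finset V, W.card ≤ w → ∀ u ∈ X, ∀ v ∈ X, u ∉ W → v ∉ W → u ≠ v →
    ∃ p : Φ.Walk u v, p.IsPath ∧ p.length ≤ lam ∧ ∀ z ∈ p.support, z ∉ W
  deg : ∀ u ∈ X, ∀ W : Finset V, W.card ≤ w → ∃ v, Φ.Adj u v ∧ v ∉ W

open Classical in
/-- number of ordered adjacent pairs -/
noncomputable def ee {n : ℕ} (F : SimpleGraph (Fin n)) : ℕ :=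
  ((univ : Finset (Fin n × Fin n)).filter (fun p => F.Adj p.1 p.2)).card

/-- a nonempty bipartite relation `A × B` (the sets may overlap, it is used as a subgraph of the
double cover) with degrees at most `DX`, `DY`, which has many edges -/
def T_BUCKET : Prop := ∀ (n : ℕ) (F : SimpleGraph (Fin n)) (H : Finset (Fin n)) (q : ℕ),
  (∀ u v, F.Adj u v → u ∈ H ∧ v ∈ H) → q = Nat.log 2 n + 1 → 1 ≤ ee F →
  ∃ (A B : Finset (Fin n)) (E : Finset (Fin n × Fin n)) (DX DY : ℕ), A ⊆ H ∧ B ⊆ H ∧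
    (∀ x y, (x, y) ∈ E ↔ x ∈ A ∧ y ∈ B ∧ F.Adj x y) ∧
    (∀ x ∈ A, (E.filter (fun p => p.1 = x)).card ≤ DX) ∧
    (∀ y ∈ B, (E.filter (fun p => p.2 = y)).card ≤ DY) ∧
    ee F ≤ q ^ 2 * E.card ∧ DX * A.card + DY * B.card ≤ 4 * q * E.card ∧
    E.card ≤ DX * H.card ∧ E.card ≤ DY * H.card

/-- the set of the pairs of `E` in `A × B` -/
def eb {n : ℕ} (E : Finset (Fin n × Fin n)) (A B : Finset (Fin n)) : ℕ :=
  (E.filter (fun p => p.1 ∈ A ∧ p.2 ∈ B)).card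

/-- a part of the relation which expands: `S = (A', B')`, for `T = (A1, B1)` with at most half of the
volume there are `≥ vol T / (32 q ^ 2)` pairs between `T` and the rest -/
def T_EXPAND : Prop := ∀ (n q : ℕ) (A B : Finset (Fin n)) (E : Finset (Fin n × Fin n))
  (DX DY : ℕ), q = Nat.log 2 n + 1 → (∀ p ∈ E, p.1 ∈ A ∧ p.2 ∈ B) →
  (∀ x ∈ A, (E.filter (fun p => p.1 = x)).card ≤ DX) →
  (∀ y ∈ B, (E.filter (fun p => p.2 = y)).card ≤ DY) →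
  DX * A.card + DY * B.card ≤ 4 * q * E.card → 1 ≤ E.card →
  ∃ A' B' : Finset (Fin n), A' ⊆ A ∧ B' ⊆ B ∧ 1 ≤ eb E A' B' ∧
    DX * A'.card + DY * B'.card ≤ 8 * q * eb E A' B' ∧
    ∀ A1 B1 : Finset (Fin n), A1 ⊆ A' → B1 ⊆ B' →
      2 * (DX * A1.card + DY * B1.card) ≤ DX * A'.card + DY * B'.card →
      DX * A1.card + DY * B1.card ≤ 64 * q ^ 2 * (eb E A1 (B' \ B1) + eb E (A' \ A1) B1)

/-- every graph with many edges contains a cluster -/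
def T_CLUSTER : Prop := ∃ C : ℕ, 0 < C ∧ ∀ (n R : ℕ) (F : SimpleGraph (Fin n))
  (H : Finset (Fin n)), C * (Nat.log 2 n + 1) ≤ R → (∀ u v, F.Adj u v → u ∈ H ∧ v ∈ H) →
  R ^ 10 * H.card ≤ ee F → 1 ≤ ee F →
  ∃ (Φ : SimpleGraph (Fin n)) (X : Finset (Fin n)) (w : ℕ), Φ ≤ F ∧ X ⊆ H ∧
    (∃ u v, Φ.Adj u v) ∧ ee F ≤ R ^ 8 * H.card * w ∧ Clu Φ X w (R ^ 5)

/-- all but few edges are in clusters -/
def T_EXTRACT : Prop := ∃ C : ℕ, 0 < C ∧ ∀ (n R e : ℕ) (F : SimpleGraph (Fin n))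
  (H : Finset (Fin n)), C * (Nat.log 2 n + 1) ≤ R → (∀ u v, F.Adj u v → u ∈ H ∧ v ∈ H) →
  R ^ 10 * H.card ≤ e → 1 ≤ e →
  ∃ F1 : SimpleGraph (Fin n), F1 ≤ F ∧ ee F1 ≤ e ∧ ∀ u v, F.Adj u v → ¬ F1.Adj u v →
    ∃ (Φ : SimpleGraph (Fin n)) (X : Finset (Fin n)), Φ ≤ F ∧ X ⊆ H ∧ Φ.Adj u v ∧
      Clu Φ X (e / (R ^ 8 * H.card)) (R ^ 5)

/-! ## Pieces of a cycle, linked in a cluster -/

/-- a list of disjoint intervals of `[0, l)`, in increasing order, with ends in `K`, which contain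
at most `N` elements of `K` -/
structure IFam (l : ℕ) (K : Finset ℕ) (N : ℕ) (I : List (ℕ × ℕ)) : Prop where
  ne : I ≠ []
  lt : ∀ p ∈ I, p.1 < p.2 ∧ p.2 < l ∧ p.1 ∈ K ∧ p.2 ∈ K
  pw : I.Pairwise (fun p p' => p.2 < p'.1)
  card : (K.filter (fun k => ∃ p ∈ I, p.1 ≤ k ∧ k ≤ p.2)).card ≤ N

/-- total length of the intervals -/
def tot (I : List (ℕ × ℕ)) : ℕ := (I.map (fun p => p.2 - p.1)).sum

/-- the pieces `c i … c j`, `(i, j) ∈ I`, can be linked in the cluster to a cycle, with `a` optional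
detours of the same size `D` -/
def T_LINK : Prop := ∀ (V : Type) (G Φ : SimpleGraph V) (X : Finset V) (w lam a N : ℕ), Φ ≤ G →
  Clu Φ X w lam → 1 ≤ lam → 1 ≤ a → 10 * lam ^ 2 * (N + a + 2) ≤ w →
  ∀ (l : ℕ) (c : ℕ → V) (K : Finset ℕ) (I : List (ℕ × ℕ)),
  (∀ i, i + 1 < l → G.Adj (c i) (c (i + 1))) → (∀ i j, i < l → j < l → c i = c j → i = j) →
  (∀ k, k ∈ K ↔ k < l ∧ c k ∈ X) → IFam l K N I →
  ∃ D z : ℕ, 1 ≤ D ∧ D ≤ lam ∧ tot I ≤ z ∧ z ≤ tot I + w ∧ ∀ j ≤ a, z + j * D ∈ cycleSet G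

/-- the choice of the pieces: either there are families with well separated total lengths, or the
total lengths are dense in a long interval below `l` -/
def T_CUT : Prop := ∀ (l q p : ℕ) (K : Finset ℕ), 2 ≤ l → 1 ≤ p → 1 ≤ q → (∀ k ∈ K, k < l) →
  0 ∈ K → l - 1 ∈ K →
  (∃ I : ℕ → List (ℕ × ℕ), (∀ i < p, IFam l K (6 * p) (I i)) ∧
    ∀ i, i + 1 < p → tot (I i) + q ≤ tot (I (i + 1))) ∨
  ∃ x, 1 ≤ x ∧ x ≤ l ∧ ∀ y, l - x ≤ y → y ≤ l - 1 → (y - (l - x)) * (2 * K.card) ≤ x * p →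
    ∃ I, IFam l K (6 * p) I ∧ y ≤ tot I ∧ tot I ≤ y + q ∧ tot I ≤ l

/-- a covering lemma for intervals -/
def T_COVER : Prop := ∀ (M : ℕ) (LL Z : Finset ℕ) (lo hi : ℕ → ℕ),
  (∀ l ∈ LL, lo l ≤ l ∧ l ≤ hi l) →
  (∀ l ∈ LL, hi l + 1 - lo l ≤ M * (Z.filter (fun z => lo l ≤ z ∧ z ≤ hi l)).card) →
  LL.card ≤ 3 * M * Z.card

/-- many lengths whose cycles use an edge of a cluster give `ZD` -/
def T_RICH : Prop := ∀ (n : ℕ) (G : SimpleGraph (Fin n)) (m w lam s : ℕ) (LL : Finset ℕ),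
  1 ≤ lam → 1 ≤ s → 1000 * lam ^ 2 * s ≤ w → w ≤ m → LL.Nonempty →
  (∀ l ∈ LL, ∃ (Φ : SimpleGraph (Fin n)) (X : Finset (Fin n)) (c : ℕ → Fin n), Φ ≤ G ∧
    Clu Φ X w lam ∧ X.card ≤ m ∧ 3 ≤ l ∧ (∀ i, i + 1 < l → G.Adj (c i) (c (i + 1))) ∧
    (∀ i j, i < l → j < l → c i = c j → i = j) ∧ Φ.Adj (c (l - 1)) (c 0)) →
  ∃ b : ℕ, ZD G s b ∧
    (w ^ 2 ≤ 10 ^ 8 * lam ^ 5 * b ∨ LL.card * w ≤ 10 ^ 8 * lam ^ 5 * m * b)

/-! ## The theorem -/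

/-- the number of cycle sets of graphs with `n` vertices -/
noncomputable def numAll (n : ℕ) : ℕ :=
  {A : Set ℕ | ∃ G : SimpleGraph (Fin n), A = cycleSet G}.ncard

/-- the second theorem -/
def T_FINAL2 : Prop := ∃ C : ℕ, ∀ n : ℕ, 3 ≤ n →
  (numAll n : ℝ) ≤ 2 ^ ((n : ℝ) - (n : ℝ) ^ ((2 : ℝ) / 3) / (Real.logb 2 n) ^ C)

end Pool.Agent.CycSp
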