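import Pool.Agent.CycSp.Walks

/-!
# The U-path on two rails
-/

set_option autoImplicit false

namespace Pool.Agent.CycSp

open Finset

/-- The vertices of the rails and of the hubs with the given positions. -/
def Zn {V : Type} (a b v : ℤ → V) (xl xr yl yr : ℤ) (P : Finset Pt) (lam : ℕ)
    (X Y H : ℤ → Prop) (z : V) : Prop :=
  (∃ k, X k ∧ xl ≤ k ∧ k ≤ xr ∧ z = a k) ∨ (∃ j, Y j ∧ yl ≤ j ∧ j ≤ yr ∧ z = b j) ∨
    (lam = 2 ∧ ∃ p ∈ P, H p.1 ∧ z = v p.1)

section Zone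

variable {V : Type} {Gr : SimpleGraph V} {a b v : ℤ → V} {xl xr yl yr : ℤ} {P : Finset Pt}
  {lam : ℕ}

theorem Zn.mono {X Y H X' Y' H' : ℤ → Prop} {z : V}
    (h : Zn a b v xl xr yl yr P lam X Y H z) (hX : ∀ k, X k → X' k) (hY : ∀ k, Y k → Y' k)
    (hH : ∀ k, H k → H' k) : Zn a b v xl xr yl yr P lam X' Y' H' z := by
  rcases h with ⟨k, h1, h2⟩ | ⟨k, h1, h2⟩ | ⟨h0, p, hp, h1, h2⟩
  · exact Or.inl ⟨k, hX k h1, h2⟩
  · exact Or.inr (Or.inl ⟨k, hY k h1, h2⟩)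
  · exact Or.inr (Or.inr ⟨h0, p, hp, hH _ h1, h2⟩)

/-- The common vertices of two zones. -/
theorem Zn.inter (R : Rails Gr a b v xl xr yl yr P lam) {X Y H X' Y' H' : ℤ → Prop} {z : V}
    (h : Zn a b v xl xr yl yr P lam X Y H z) (h' : Zn a b v xl xr yl yr P lam X' Y' H' z) :
    (∃ k, X k ∧ X' k ∧ z = a k) ∨ (∃ k, Y k ∧ Y' k ∧ z = b k) ∨
      (∃ p ∈ P, H p.1 ∧ H' p.1 ∧ z = v p.1) := by
  have hv : lam = 2 → (∀ p ∈ P, ∀ i, xl ≤ i → i ≤ xr → v p.1 ≠ a i) ∧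
      (∀ p ∈ P, ∀ i, yl ≤ i → i ≤ yr → v p.1 ≠ b i) ∧
      (∀ p ∈ P, ∀ q ∈ P, v p.1 = v q.1 → p.1 = q.1) := by
    intro h2
    rcases R.link with h3 | h3
    · rw [h3.1] at h2
      omega
    · exact h3.2.2
  rcases h with ⟨k, h1, h2, h3, h4⟩ | ⟨k, h1, h2, h3, h4⟩ | ⟨h0, p, hp, h1, h4⟩
  · rcases h' with ⟨k', g1, g2, g3, g4⟩ | ⟨k', g1, g2, g3, g4⟩ | ⟨g0, q, hq, g1, g4⟩
    · have := R.inja k k' h2 h3 g2 g3 (h4.symm.trans g4)
      subst this
      exact Or.inl ⟨k, h1, g1, h4⟩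
    · exact absurd (h4.symm.trans g4) (R.disj k k' h2 h3 g2 g3)
    · exact absurd (g4.symm.trans h4) ((hv g0).1 q hq k h2 h3)
  · rcases h' with ⟨k', g1, g2, g3, g4⟩ | ⟨k', g1, g2, g3, g4⟩ | ⟨g0, q, hq, g1, g4⟩
    · exact absurd (g4.symm.trans h4) (R.disj k' k g2 g3 h2 h3)
    · have := R.injb k k' h2 h3 g2 g3 (h4.symm.trans g4)
      subst this
      exact Or.inr (Or.inl ⟨k, h1, g1, h4⟩)
    · exact absurd (g4.symm.trans h4) ((hv g0).2.1 q hq k h2 h3)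
  · rcases h' with ⟨k', g1, g2, g3, g4⟩ | ⟨k', g1, g2, g3, g4⟩ | ⟨g0, q, hq, g1, g4⟩
    · exact absurd (h4.symm.trans g4) ((hv h0).1 p hp k' g2 g3)
    · exact absurd (h4.symm.trans g4) ((hv h0).2.1 p hp k' g2 g3)
    · have := (hv h0).2.2 p hp q hq (h4.symm.trans g4)
      exact Or.inr (Or.inr ⟨p, hp, h1, by rw [this]; exact g1, h4⟩)

/-- A path whose support lies in a zone. -/
def ZPath (Gr : SimpleGraph V) (a b v : ℤ → V) (xl xr yl yr : ℤ) (P : Finset Pt) (lam : ℕ)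
    (x y : V) (N : ℤ) (X Y H : ℤ → Prop) : Prop :=
  ∃ w : Gr.Walk x y, w.IsPath ∧ (w.length : ℤ) = N ∧
    ∀ z ∈ w.support, Zn a b v xl xr yl yr P lam X Y H z

theorem ZPath.append (R : Rails Gr a b v xl xr yl yr P lam) {X Y H X' Y' H' : ℤ → Prop}
    {x m y : V} {N M : ℤ} (hp : ZPath Gr a b v xl xr yl yr P lam x m N X Y H)
    (hq : ZPath Gr a b v xl xr yl yr P lam m y M X' Y' H')
    (hX : ∀ k, X k → X' k → m = a k) (hY : ∀ k, Y k → Y' k → m = b k)
    (hH : ∀ k, H k → H' k → False) :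
    ZPath Gr a b v xl xr yl yr P lam x y (N + M) (fun k => X k ∨ X' k) (fun k => Y k ∨ Y' k)
      (fun k => H k ∨ H' k) := by
  refine mono_path (append_path hp hq ?_) rfl ?_
  · intro z h1 h2
    rcases Zn.inter R h1 h2 with ⟨k, g1, g2, g3⟩ | ⟨k, g1, g2, g3⟩ | ⟨p, hp, g1, g2, g3⟩
    · rw [g3, hX k g1 g2]
    · rw [g3, hY k g1 g2]
    · exact (hH _ g1 g2).elim
  · intro z h
    rcases h with h | h
    · exact h.mono (fun k h => Or.inl h) (fun k h => Or.inl h) (fun k h => Or.inl h)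
    · exact h.mono (fun k h => Or.inr h) (fun k h => Or.inr h) (fun k h => Or.inr h)

theorem ZPath.reverse {X Y H : ℤ → Prop} {x y : V} {N : ℤ}
    (hp : ZPath Gr a b v xl xr yl yr P lam x y N X Y H) :
    ZPath Gr a b v xl xr yl yr P lam y x N X Y H :=
  reverse_path hp

theorem ZPath.mono {X Y H X' Y' H' : ℤ → Prop} {x y : V} {N M : ℤ}
    (hp : ZPath Gr a b v xl xr yl yr P lam x y N X Y H) (hN : N = M)
    (hX : ∀ k, X k → X' k) (hY : ∀ k, Y k → Y' k) (hH : ∀ k, H k → H' k) :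
    ZPath Gr a b v xl xr yl yr P lam x y M X' Y' H' :=
  mono_path hp hN (fun _ h => h.mono hX hY hH)

theorem Rails.zrailA (R : Rails Gr a b v xl xr yl yr P lam) {x y : ℤ} (h1 : xl ≤ x) (h2 : x ≤ y)
    (h3 : y ≤ xr) : ZPath Gr a b v xl xr yl yr P lam (a x) (a y) (y - x)
      (fun k => x ≤ k ∧ k ≤ y) (fun _ => False) (fun _ => False) := by
  obtain ⟨w, g1, g2, g3⟩ := rail_walk Gr a x y h2
    (fun i hi hi' => R.adja i (by omega) (by omega))
    (fun i j hi hi' hj hj' => R.inja i j (by omega) (by omega) (by omega) (by omega))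
  refine ⟨w, g1, g2, ?_⟩
  intro z hz
  obtain ⟨i, hi, hi', hz'⟩ := g3 z hz
  exact Or.inl ⟨i, ⟨hi, hi'⟩, by omega, by omega, hz'⟩

theorem Rails.zrailB (R : Rails Gr a b v xl xr yl yr P lam) {x y : ℤ} (h1 : yl ≤ x) (h2 : x ≤ y)
    (h3 : y ≤ yr) : ZPath Gr a b v xl xr yl yr P lam (b x) (b y) (y - x)
      (fun _ => False) (fun k => x ≤ k ∧ k ≤ y) (fun _ => False) := by
  obtain ⟨w, g1, g2, g3⟩ := rail_walk Gr b x y h2
    (fun i hi hi' => R.adjb i (by omega) (by omega))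
    (fun i j hi hi' hj hj' => R.injb i j (by omega) (by omega) (by omega) (by omega))
  refine ⟨w, g1, g2, ?_⟩
  intro z hz
  obtain ⟨i, hi, hi', hz'⟩ := g3 z hz
  exact Or.inr (Or.inl ⟨i, ⟨hi, hi'⟩, by omega, by omega, hz'⟩)

theorem Rails.zlink (R : Rails Gr a b v xl xr yl yr P lam) {p : Pt} (hp : p ∈ P) :
    ZPath Gr a b v xl xr yl yr P lam (a p.1) (b p.2) lam
      (fun k => k = p.1) (fun k => k = p.2) (fun k => k = p.1) := by
  obtain ⟨w, g1, g2, g3⟩ := R.link_walk hp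
  obtain ⟨h1, h2, h3, h4⟩ := R.mem p hp
  refine ⟨w, g1, g2, ?_⟩
  intro z hz
  rcases g3 z hz with hz | hz | hz
  · exact Or.inl ⟨p.1, rfl, h1, h2, hz⟩
  · exact Or.inr (Or.inl ⟨p.2, rfl, h3, h4, hz⟩)
  · exact Or.inr (Or.inr ⟨hz.1, p, hp, rfl, hz.2⟩)

end Zone

theorem inc_le (P : Finset Pt) (us : List (Pt × Pt)) : ∀ (x0 y0 : ℤ) (S : Pt),
    Inc P x0 y0 us S → S ∈ P ∧ x0 ≤ S.1 ∧ y0 ≤ S.2 := by
  induction us with
  | nil =>
    intro x0 y0 S h
    exact h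
  | cons u us ih =>
    intro x0 y0 S h
    obtain ⟨h1, h2, h3, h4, h5, h6, h7⟩ := h
    obtain ⟨g1, g2, g3⟩ := ih _ _ _ h7
    exact ⟨g1, by omega, by omega⟩

theorem zupath {V : Type} {Gr : SimpleGraph V} {a b v : ℤ → V} {xl xr yl yr : ℤ}
    {P : Finset Pt} {lam : ℕ} (R : Rails Gr a b v xl xr yl yr P lam) (us : List (Pt × Pt)) :
    ∀ (S : Pt) (x1 y1 x0 y0 : ℤ), xl ≤ x1 → x1 ≤ x0 → yl ≤ y1 → y1 ≤ y0 →
    Inc P x0 y0 us S →
    ZPath Gr a b v xl xr yl yr P lam (a x1) (b y1)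
      ((S.1 - x1) + (S.2 - y1) - drp us + lam * (2 * us.length + 1))
      (fun k => x1 ≤ k ∧ k ≤ S.1) (fun k => y1 ≤ k ∧ k ≤ S.2)
      (fun k => x0 ≤ k ∧ k ≤ S.1) := by
  induction us with
  | nil =>
    intro S x1 y1 x0 y0 h1 h2 h3 h4 h
    obtain ⟨g1, g2, g3⟩ := h
    obtain ⟨e1, e2, e3, e4⟩ := R.mem S g1
    have hA := R.zrailA h1 (by omega : x1 ≤ S.1) e2
    have hL := R.zlink g1
    have hB := (R.zrailB h3 (by omega : y1 ≤ S.2) e4).reverse
    refine ZPath.mono (ZPath.append R (ZPath.append R hA hL ?_ ?_ ?_) hB ?_ ?_ ?_) ?_ ?_ ?_ ?_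
    · rintro k - rfl
      rfl
    · intro k hk
      exact hk.elim
    · intro k hk
      exact hk.elim
    · intro k _ hk
      exact hk.elim
    · rintro k (hk | hk) -
      · exact hk.elim
      · rw [hk]
    · intro k _ hk
      exact hk.elim
    · simp only [drp, List.length_nil, Nat.cast_zero]
      ring
    · rintro k ((hk | hk) | hk)
      · exact hk
      · omega
      · exact hk.elim
    · rintro k ((hk | hk) | hk)
      · exact hk.elim
      · omega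
      · exact hk
    · rintro k ((hk | hk) | hk)
      · exact hk.elim
      · omega
      · exact hk.elim
  | cons u us ih =>
    intro S x1 y1 x0 y0 h1 h2 h3 h4 h
    obtain ⟨o, i⟩ := u
    obtain ⟨f1, f2, f3, f4, f5, f6, f7⟩ := h
    simp only at f1 f2 f3 f4 f5 f6 f7
    obtain ⟨g1, g2, g3⟩ := inc_le P us _ _ _ f7
    obtain ⟨e1, e2, e3, e4⟩ := R.mem S g1
    obtain ⟨o1, o2, o3, o4⟩ := R.mem o f1
    obtain ⟨i1, i2, i3, i4⟩ := R.mem i f2
    have hA := R.zrailA h1 (by omega : x1 ≤ o.1) o2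
    have hL := R.zlink f1
    have hI := (ih S i.1 o.2 (i.1 + 1) (o.2 + 1) i1 (by omega) o3 (by omega) f7).reverse
    have hM := R.zlink f2
    have hB := (R.zrailB h3 (by omega : y1 ≤ i.2) i4).reverse
    refine ZPath.mono (ZPath.append R (ZPath.append R (ZPath.append R (ZPath.append R hA hL
      ?_ ?_ ?_) hI ?_ ?_ ?_) hM ?_ ?_ ?_) hB ?_ ?_ ?_) ?_ ?_ ?_ ?_
    · rintro k - rfl
      rfl
    · intro k hk
      exact hk.elim
    · intro k hk
      exact hk.elim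
    · rintro k (hk | hk) hk'
      · omega
      · omega
    · rintro k (hk | hk) hk'
      · exact hk.elim
      · rw [hk]
    · rintro k (hk | hk) hk'
      · exact hk.elim
      · omega
    · rintro k _ hk'
      rw [hk']
    · rintro k ((hk | hk) | hk) hk'
      · exact hk.elim
      · omega
      · omega
    · rintro k ((hk | hk) | hk) hk'
      · exact hk.elim
      · omega
      · omega
    · rintro k _ hk'
      exact hk'.elim
    · rintro k (((hk | hk) | hk) | hk) hk'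
      · exact hk.elim
      · omega
      · omega
      · rw [hk]
    · rintro k _ hk'
      exact hk'.elim
    · simp only [drp, List.length_cons, ln]
      push_cast
      ring
    · rintro k ((((hk | hk) | hk) | hk) | hk)
      · omega
      · omega
      · omega
      · omega
      · exact hk.elim
    · rintro k ((((hk | hk) | hk) | hk) | hk)
      · exact hk.elim
      · omega
      · omega
      · omega
      · omega
    · rintro k ((((hk | hk) | hk) | hk) | hk)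
      · exact hk.elim
      · omega
      · omega
      · omega
      · exact hk.elim

/-- the U-path on two rails -/
theorem p_UPATH : T_UPATH := by
  intro V Gr a b v xl xr yl yr P lam R us S x1 y1 x0 y0 h1 h2 h3 h4 h
  obtain ⟨w, g1, g2, g3⟩ := zupath R us S x1 y1 x0 y0 h1 h2 h3 h4 h
  refine ⟨w, g1, g2, ?_⟩
  intro z hz
  rcases g3 z hz with ⟨k, h5, _, _, h6⟩ | ⟨k, h5, _, _, h6⟩ | ⟨h0, p, hp, h5, h6⟩
  · exact Or.inl ⟨k, h5.1, h5.2, h6⟩
  · exact Or.inr (Or.inl ⟨k, h5.1, h5.2, h6⟩)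
  · exact Or.inr (Or.inr ⟨h0, p, hp, h5.1, h5.2, h6⟩)

end Pool.Agent.CycSp
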