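import Pool.Agent.CycSp.Targets

set_option autoImplicit false

/-!
# Cycle sets of sparse graphs: one large block, and the lengths of the block paths
-/

namespace Pool.Agent.CycSp

open Finset
open scoped Pointwise
open Pool.Agent.HubG (cycleSet CycSeq)

/-- The `s` smallest elements of a finite set of integers. -/
theorem exists_lower (Y : Finset ℤ) (s : ℕ) (hs : s ≤ Y.card) :
    ∃ D ⊆ Y, D.card = s ∧ ∀ d ∈ D, ∀ z ∈ Y \ D, d < z := by
  induction s with
  | zero => exact ⟨∅, empty_subset _, rfl, fun d hd => absurd hd (notMem_empty d)⟩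
  | succ s ih =>
    obtain ⟨D, hD, hc, hlt⟩ := ih (by omega)
    have hne : (Y \ D).Nonempty := by
      rw [← card_pos, card_sdiff_of_subset hD]
      omega
    set m := (Y \ D).min' hne with hm
    have hmem : m ∈ Y \ D := min'_mem _ _
    have hmY : m ∈ Y := (mem_sdiff.1 hmem).1
    have hmD : m ∉ D := (mem_sdiff.1 hmem).2
    refine ⟨insert m D, insert_subset hmY hD, by rw [card_insert_of_notMem hmD, hc], ?_⟩
    intro d hd z hz
    rw [mem_sdiff, mem_insert, not_or] at hz
    rcases mem_insert.1 hd with rfl | hd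
    · exact lt_of_le_of_ne (min'_le _ _ (mem_sdiff.2 ⟨hz.1, hz.2.2⟩)) (Ne.symm hz.2.1)
    · exact hlt d hd z (mem_sdiff.2 ⟨hz.1, hz.2.2⟩)

theorem inBlock_sub (P : Finset Pt) (A h : ℤ) : inBlock P A h ⊆ P := filter_subset _ _

section

variable {V : Type} {Gr : SimpleGraph V} {L : ℤ} {c v : ℤ → V} {P : Finset Pt} {lam : ℕ}

theorem block_box {n : ℕ} (hC : Cyc Gr L c v P lam) (hL : L ≤ n) (A h : ℤ) :
    ∀ p ∈ inBlock P A h, 0 ≤ p.1 ∧ p.1 < 0 + (n : ℤ) ∧ 0 ≤ p.2 ∧ p.2 < 0 + (n : ℤ) := by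
  intro p hp
  obtain ⟨h1, h2, h3⟩ := hC.mem p (inBlock_sub P A h hp)
  have hlam : (0 : ℤ) ≤ lam := Int.natCast_nonneg lam
  refine ⟨h1, by omega, by omega, by omega⟩

theorem block_disty (hC : Cyc Gr L c v P lam) (A h : ℤ) :
    ∀ p ∈ inBlock P A h, ∀ q ∈ inBlock P A h, p.2 = q.2 → p = q :=
  fun p hp q hq => hC.disty p (inBlock_sub P A h hp) q (inBlock_sub P A h hq)

end

/-- The fibre over `x` of a set of points. -/
def fibx (PB : Finset Pt) (x : ℤ) : Finset Pt := PB.filter (fun p => p.1 = x)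

theorem mem_fibx {PB : Finset Pt} {x : ℤ} {p : Pt} : p ∈ fibx PB x ↔ p ∈ PB ∧ p.1 = x :=
  mem_filter

theorem card_snd_fibx (PB : Finset Pt) (x : ℤ) :
    ((fibx PB x).image Prod.snd).card = (fibx PB x).card := by
  apply card_image_of_injOn
  intro p hp q hq h
  have h1 := (mem_fibx.1 hp).2
  have h2 := (mem_fibx.1 hq).2
  exact Prod.ext (h1.trans h2.symm) h

theorem p_LARGE (h1 : T_SEL) (h2 : T_LOCAL) (h3 : T_RAILS) (h4 : T_FAN) : T_LARGE := by
  obtain ⟨C, hC0, hSel⟩ := h1
  refine ⟨C + 2, by omega, ?_⟩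
  intro n R s V Gr L c v P lam hR hs1 hsR hC hL A h hA hh hbig
  have hR0 : C * (Nat.log 2 n + 1) ≤ R := by nlinarith
  have hR2 : 2 ≤ R := by nlinarith
  have hR1 : 1 ≤ R := by omega
  set PB := inBlock P A h with hPB
  have h20 : R ^ 20 ≤ PB.card := (Nat.pow_le_pow_right hR1 (by norm_num)).trans hbig
  rcases hSel n R s PB 0 0 hR0 hs1 hsR (block_disty hC A h) (block_box hC hL A h) h20 with
    ⟨x, hx⟩ | ⟨Q, us, G, q, hS, hQ, hcard⟩
  · -- the fan
    have hx' : PB.card ≤ R ^ 20 * (fibx PB x).card := hx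
    have hF : R ^ 10 ≤ (fibx PB x).card := by
      have e : R ^ 30 = R ^ 20 * R ^ 10 := by rw [← pow_add]
      have : R ^ 20 * R ^ 10 ≤ R ^ 20 * (fibx PB x).card := by
        rw [← e]; exact hbig.trans hx'
      exact Nat.le_of_mul_le_mul_left this (by positivity)
    have h2R : 2 * R ≤ R ^ 10 := by
      have e : R ^ 10 = R ^ 9 * R := by rw [← pow_succ]
      have e2 : R ^ 9 = R ^ 8 * R := by rw [← pow_succ]
      have e3 : 1 ≤ R ^ 8 := Nat.one_le_pow _ _ hR1
      rw [e]
      exact Nat.mul_le_mul_right _ (by rw [e2]; nlinarith)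
    have hsF : 2 * s ≤ (fibx PB x).card := by omega
    obtain ⟨D, hD, hDc, hlt⟩ := exists_lower ((fibx PB x).image Prod.snd) s
      (by rw [card_snd_fibx]; omega)
    refine ⟨(fibx PB x).card - s, ?_, ((fibx PB x).image Prod.snd \ D).image (· + 2), D, hDc,
      ?_, ?_⟩
    · have e : R ^ 21 = R ^ 20 * R := by rw [← pow_succ]
      refine hx'.trans ?_
      rw [e, mul_assoc]
      refine Nat.mul_le_mul_left _ ?_
      have : 2 * ((fibx PB x).card - s) ≤ R * ((fibx PB x).card - s) := Nat.mul_le_mul_right _ hR2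
      omega
    · rw [card_image_of_injective _ (add_left_injective 2), card_sdiff_of_subset hD,
        card_snd_fibx, hDc]
    · intro z hz d hd
      obtain ⟨y, hy, rfl⟩ := mem_image.1 hz
      have hdy := hlt d hd y hy
      obtain ⟨p, hp, rfl⟩ := mem_image.1 (mem_sdiff.1 hy).1
      obtain ⟨p', hp', rfl⟩ := mem_image.1 (hD hd)
      have hp1 := mem_fibx.1 hp
      have hp1' := mem_fibx.1 hp'
      have m1 : (x, p.2) ∈ P := by
        have : (x, p.2) = p := Prod.ext hp1.2.symm rfl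
        rw [this]
        exact inBlock_sub P A h hp1.1
      have m2 : (x, p'.2) ∈ P := by
        have : (x, p'.2) = p' := Prod.ext hp1'.2.symm rfl
        rw [this]
        exact inBlock_sub P A h hp1'.1
      obtain ⟨N, hN, hNe⟩ := h4 V Gr L c v P lam hC x p'.2 p.2 m2 m1 hdy
      exact ⟨N, hN, by rw [hNe]; ring⟩
  · -- a selection
    have key : ∃ κ : ℤ, ∀ z ∈ G.image sg + TT us, ∀ d ∈ Q.image sg, ∃ N ∈ cycleSet Gr,
        (N : ℤ) = κ + z - d := by
      obtain ⟨r1, r2⟩ := h3 V Gr L c v P lam hC A h hA hh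
      rcases hS with hS | hS
      · exact h2 V Gr _ _ _ _ _ _ _ _ lam r1 Q us G q hS
      · exact h2 V Gr _ _ _ _ _ _ _ _ lam r2 Q us G q hS
    obtain ⟨κ, hκ⟩ := key
    refine ⟨(G.image sg + TT us).card, ?_, (G.image sg + TT us).image (κ + ·), Q.image sg, hQ,
      ?_, ?_⟩
    · refine hcard.trans (Nat.mul_le_mul_right _ (Nat.pow_le_pow_right hR1 (by norm_num)))
    · rw [card_image_of_injective _ (add_right_injective κ)]
    · intro z hz d hd
      obtain ⟨y, hy, rfl⟩ := mem_image.1 hz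
      exact hκ y hy d hd

theorem two_block {V : Type} {Gr : SimpleGraph V} {L : ℤ} {c v : ℤ → V} {P : Finset Pt}
    {lam : ℕ} (h2 : T_BFULL) (h3 : T_BONE) (hC : Cyc Gr L c v P lam) {A h : ℤ} (hA : 0 ≤ A)
    (hh : 1 ≤ h) (hL : A + 2 * h ≤ L) (hne : 1 ≤ (inBlock P A h).card) :
    ∃ X : Finset ℕ, X.card = 2 ∧
      ∀ N ∈ X, BPath Gr c v lam (inBlock P A h) A (A + 2 * h - 1) N := by
  obtain ⟨p, hp⟩ := card_pos.1 hne
  obtain ⟨N0, hN0, e0⟩ := h2 V Gr L c v P lam hC A h hA hh hL
  obtain ⟨N1, hN1, e1⟩ := h3 V Gr L c v P lam hC A h hA hh hL p hp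
  have hm := hC.mem p (inBlock_sub P A h hp)
  have hne : N0 ≠ N1 := by
    intro h
    rw [h] at e0
    rw [e0] at e1
    omega
  refine ⟨{N0, N1}, card_pair hne, ?_⟩
  intro N hN
  rcases mem_insert.1 hN with rfl | hN
  · exact hN0
  · rw [mem_singleton.1 hN]
    exact hN1

theorem p_VK (h1 : T_SEL) (h2 : T_BFULL) (h3 : T_BONE) (h4 : T_BINC) (h5 : T_BDEC) : T_VK := by
  obtain ⟨C, hC0, hSel⟩ := h1
  refine ⟨C + 2, by omega, ?_⟩
  intro n R V Gr L c v P lam hR hC hL A h hA hh hAL hne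
  have hR0 : C * (Nat.log 2 n + 1) ≤ R := by nlinarith
  have hR2 : 2 ≤ R := by nlinarith
  have hR1 : 1 ≤ R := by omega
  set PB := inBlock P A h with hPB
  have e21 : R ^ 21 = R ^ 20 * R := by rw [← pow_succ]
  have hle : R ^ 20 ≤ R ^ 21 := Nat.pow_le_pow_right hR1 (by norm_num)
  have small : PB.card ≤ R ^ 20 → ∃ X : Finset ℕ, 2 ≤ X.card ∧ X.card ≤ PB.card + 1 ∧
      PB.card ≤ R ^ 21 * (X.card - 1) ∧ ∀ N ∈ X, BPath Gr c v lam PB A (A + 2 * h - 1) N := by
    intro hs
    obtain ⟨X, hX, hXp⟩ := two_block h2 h3 hC hA hh hAL hne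
    refine ⟨X, by omega, by omega, ?_, hXp⟩
    rw [hX]
    omega
  by_cases hbig : PB.card < R ^ 20
  · exact small hbig.le
  push Not at hbig
  rcases hSel n R 1 PB 0 0 hR0 le_rfl hR1 (block_disty hC A h) (block_box hC hL A h) hbig with
    ⟨x, hx⟩ | ⟨Q, us, G, q, hS, hQ, hcard⟩
  · -- the fan
    have hx' : PB.card ≤ R ^ 20 * (fibx PB x).card := hx
    have hF1 : 1 ≤ (fibx PB x).card := by
      by_contra hF
      have : (fibx PB x).card = 0 := by omega
      rw [this] at hx'
      omega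
    obtain ⟨N0, hN0, e0⟩ := h2 V Gr L c v P lam hC A h hA hh hAL
    have hone : ∀ p ∈ fibx PB x, ∃ N : ℕ, BPath Gr c v lam PB A (A + 2 * h - 1) N ∧
        (N : ℤ) = 2 * h - 1 - (p.2 - p.1) + lam := fun p hp =>
      h3 V Gr L c v P lam hC A h hA hh hAL p (mem_fibx.1 hp).1
    choose! f hf1 hf2 using hone
    have hinj : Set.InjOn f (fibx PB x) := by
      intro p hp q hq hpq
      have a1 := hf2 p hp
      have a2 := hf2 q hq
      have b1 := (mem_fibx.1 hp).2
      have b2 := (mem_fibx.1 hq).2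
      rw [hpq, a2] at a1
      refine Prod.ext (b1.trans b2.symm) ?_
      omega
    have hN0' : N0 ∉ (fibx PB x).image f := by
      intro hmem
      obtain ⟨p, hp, hpe⟩ := mem_image.1 hmem
      have hm := hC.mem p (inBlock_sub P A h (mem_fibx.1 hp).1)
      have a1 := hf2 p hp
      rw [hpe, e0] at a1
      omega
    have hc : (insert N0 ((fibx PB x).image f)).card = (fibx PB x).card + 1 := by
      rw [card_insert_of_notMem hN0', card_image_of_injOn hinj]
    refine ⟨insert N0 ((fibx PB x).image f), by omega, ?_, ?_, ?_⟩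
    · rw [hc]
      exact Nat.succ_le_succ (card_le_card (filter_subset _ _))
    · rw [hc, Nat.add_sub_cancel]
      exact hx'.trans (Nat.mul_le_mul_right _ hle)
    · intro N hN
      rcases mem_insert.1 hN with rfl | hN
      · exact hN0
      · obtain ⟨p, hp, rfl⟩ := mem_image.1 hN
        exact hf1 p hp
  · -- a selection
    have key : ∃ κ : ℤ, ∀ z ∈ G.image sg + TT us,
        ∃ N : ℕ, BPath Gr c v lam PB A (A + 2 * h - 1) N ∧ (N : ℤ) = κ + z := by
      rcases hS with hS | hS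
      · exact h4 V Gr L c v P lam hC A h hA hh hAL Q us G q hS
      · exact h5 V Gr L c v P lam hC A h hA hh hAL Q us G q hS
    obtain ⟨κ, hκ⟩ := key
    set W := G.image sg + TT us with hW
    choose! f hf1 hf2 using hκ
    have hinj : Set.InjOn f W := by
      intro z hz z' hz' hzz
      have a1 := hf2 z hz
      have a2 := hf2 z' hz'
      rw [hzz, a2] at a1
      omega
    by_cases hW2 : 2 ≤ W.card
    · have hXc : (W.image f).card = W.card := card_image_of_injOn hinj
      obtain ⟨X, hXs, hXk⟩ := exists_subset_card_eq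
        (show min W.card (PB.card + 1) ≤ (W.image f).card by rw [hXc]; exact min_le_left _ _)
      have hk2 : 2 ≤ X.card := by rw [hXk]; exact le_min hW2 (by omega)
      refine ⟨X, hk2, by rw [hXk]; exact min_le_right _ _, ?_, ?_⟩
      · rcases le_total W.card (PB.card + 1) with hle' | hle'
        · rw [min_eq_left hle'] at hXk
          rw [hXk, e21, mul_assoc]
          refine hcard.trans (Nat.mul_le_mul_left _ ?_)
          have : 2 * (W.card - 1) ≤ R * (W.card - 1) := Nat.mul_le_mul_right _ hR2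
          omega
        · rw [min_eq_right hle'] at hXk
          rw [hXk, Nat.add_sub_cancel]
          exact Nat.le_mul_of_pos_left _ (by positivity)
      · intro N hN
        obtain ⟨z, hz, rfl⟩ := mem_image.1 (hXs hN)
        exact hf1 z hz
    · refine small (hcard.trans ?_)
      have : W.card ≤ 1 := by omega
      calc R ^ 20 * W.card ≤ R ^ 20 * 1 := Nat.mul_le_mul_left _ this
        _ = R ^ 20 := mul_one _

end Pool.Agent.CycSp
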